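import Pool.Agent.Helper89.Vol4.Goals2

/-! # MP_cd13d2_co : the exact value of `V(5,8)`, packets

`E 5 = EuclideanSpace ℝ (Fin 5)`. Every packet is a `def G_... : Prop`; prove `theorem thm : G_...` (with the hypotheses named in the
docstring), in a file of your own with the namespace `Pool.Agent.HelperNN.Vol5.PkXX`. Many packets are
ports of packets of the project V47 (`V(4,7)`, goals `Pool/Agent/Helper89/Vol4/Goals.lean`, `Goals2.lean`, proofs `Pool/Agent/HelperNN/Vol4/XX.lean`); the docstring names the file.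

WARNING for the ports: never let the unifier or the kernel compare two determinants of `8 × 8` matrices by unfolding; prove the multilinear facts for an abstract
alternating map (see `gen` in `Pool/Agent/Helper89/Vol4/D1.lean`, or `Function.update` in `Pool/Agent/Helper73/Vol4/D1.lean`).

THEOREM. `240 V(5,8) = max_{0 ≤ t ≤ 7/10} h5 t`, `h5 t = √(3/2 - t²) + t √(6 - (1 + 2t)²)` (`= 1.8348743...`). -/

set_option autoImplicit false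

namespace Pool.Agent.Helper89.Vol5

open MeasureTheory Set Pool.Agent.Helper86.Poly

/-- the determinant of five vectors -/
noncomputable def dt (u v w z t : E 5) : ℝ :=
  Matrix.det !![u 0, u 1, u 2, u 3, u 4; v 0, v 1, v 2, v 3, v 4; w 0, w 1, w 2, w 3, w 4;
    z 0, z 1, z 2, z 3, z 4; t 0, t 1, t 2, t 3, t 4]

/-- 120 times the signed volume of the simplex with the vertices `p q r s t u` -/
noncomputable def br (p q r s t u : E 5) : ℝ := dt (q - p) (r - p) (s - p) (t - p) (u - p)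

/-- the `8 × 8` determinant with the rows `(1, x k 0, ..., x k 4, u k, v k)` -/
noncomputable def W (x : Fin 8 → E 5) (u v : Fin 8 → ℝ) : ℝ :=
  Matrix.det (Matrix.of fun k : Fin 8 => ![1, x k 0, x k 1, x k 2, x k 3, x k 4, u k, v k])

/-- `Dt x i j = W x e_i e_j`: up to the sign it is 120 times the volume of the hull of the six points
`x k`, `k ≠ i, j`. -/
noncomputable def Dt (x : Fin 8 → E 5) (i j : Fin 8) : ℝ := W x (Pi.single i 1) (Pi.single j 1)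

/-- the function whose maximum on `[0, 7/10]` is `240 V(5,8)` -/
noncomputable def h5 (t : ℝ) : ℝ := √(3 / 2 - t ^ 2) + t * √(6 - (1 + 2 * t) ^ 2)

/-- the height of the two single vertices of the pentagon, times `√2` -/
noncomputable def yy (t : ℝ) : ℝ := √(6 - (1 + 2 * t) ^ 2) / 2

/-- the height of the pentagon, times `√2` -/
noncomputable def hh (t : ℝ) : ℝ := √(3 / 2 - t ^ 2)

/-- `1/√2` -/
noncomputable def rr : ℝ := √(1 / 2)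

/-- the eight points of the extremal polytope: a pentagon in the plane of the first two coordinates, three consecutive
vertices `(-r/2, 0)`, `(0, r (yy - hh))`, `(r/2, 0)` (`r = 1/√2`) of which are replaced by segments of length one in the directions of the third, the
fourth and the fifth coordinate. -/
noncomputable def Q5 (t : ℝ) : Fin 8 → E 5 :=
  ![!₂[-(rr / 2), 0, -(1 / 2), 0, 0], !₂[-(rr / 2), 0, 1 / 2, 0, 0],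
    !₂[0, rr * (yy t - hh t), 0, -(1 / 2), 0], !₂[0, rr * (yy t - hh t), 0, 1 / 2, 0],
    !₂[rr / 2, 0, 0, 0, -(1 / 2)], !₂[rr / 2, 0, 0, 0, 1 / 2],
    !₂[rr * t, rr * yy t, 0, 0, 0], !₂[-(rr * t), rr * yy t, 0, 0, 0]]

/-- the planar pentagon -/
noncomputable def P5 (t : ℝ) : Fin 5 → (Fin 2 → ℝ) :=
  ![![-(rr / 2), 0], ![0, rr * (yy t - hh t)], ![rr / 2, 0], ![rr * t, rr * yy t],
    ![-(rr * t), rr * yy t]]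

/-- the canonical sign patterns with one or three blocks -/
def PLa : List (Fin 8 → ℝ) :=
  [![1, 1, 1, 1, 1, 1, 1, 1],
   ![1, 1, 1, 1, 1, 1, -1, 1],
   ![1, 1, 1, 1, 1, -1, -1, 1],
   ![1, 1, 1, 1, 1, -1, 1, 1],
   ![1, 1, 1, 1, -1, -1, -1, 1],
   ![1, 1, 1, 1, -1, 1, 1, 1],
   ![1, 1, 1, 1, -1, -1, 1, 1],
   ![1, 1, 1, -1, -1, -1, 1, 1]]

/-- the canonical sign patterns with five or seven blocks -/
def PLb : List (Fin 8 → ℝ) :=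
  [![1, 1, -1, -1, 1, 1, -1, 1],
   ![1, 1, 1, 1, -1, 1, -1, 1],
   ![1, 1, 1, -1, -1, 1, -1, 1],
   ![1, 1, 1, -1, 1, 1, -1, 1],
   ![1, 1, 1, -1, 1, -1, -1, 1],
   ![1, 1, 1, -1, 1, -1, 1, 1],
   ![1, 1, -1, -1, 1, -1, -1, 1],
   ![1, 1, -1, 1, -1, 1, -1, 1]]

/-- the sum over the simplices of a sign pattern -/
noncomputable def T (y : Fin 8 → E 5) (c : ℝ) (s : Fin 8 → ℝ) : ℝ :=
  ∑ m, ∑ n, if n < m ∧ 1 ≤ n ∧ s m = 1 ∧ s n = -1 then c * Dt y m n else 0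

/-- a sign pattern -/
def Pat (c : ℝ) (s : Fin 8 → ℝ) : Prop := (c = 1 ∨ c = -1) ∧ (s ∈ PLa ∨ s ∈ PLb)

/-- blocks 2,2,2,1,1 (the extremal type) -/
noncomputable def q222 (y : Fin 8 → E 5) : ℝ :=
  dt (y 1 - y 0) (y 3 - y 2) (y 5 - y 4) (y 2 - y 0) (y 4 - y 0) +
  dt (y 1 - y 0) (y 3 - y 2) (y 5 - y 4) (y 4 - y 0) (y 6 - y 0) +
  dt (y 1 - y 0) (y 3 - y 2) (y 5 - y 4) (y 6 - y 0) (y 7 - y 0)

/-- blocks 4,1,1,1,1 -/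
noncomputable def q41 (y : Fin 8 → E 5) : ℝ :=
  dt (y 1 - y 0) (y 2 - y 0) (y 3 - y 0) (y 4 - y 0) (y 5 - y 0) +
  dt (y 1 - y 0) (y 2 - y 0) (y 3 - y 0) (y 5 - y 0) (y 6 - y 0) +
  dt (y 1 - y 0) (y 2 - y 0) (y 3 - y 0) (y 6 - y 0) (y 7 - y 0)

/-- blocks 3,2,1,1,1 -/
noncomputable def q32 (y : Fin 8 → E 5) : ℝ :=
  dt (y 1 - y 0) (y 2 - y 0) (y 4 - y 3) (y 3 - y 0) (y 5 - y 0) +
  dt (y 1 - y 0) (y 2 - y 0) (y 4 - y 3) (y 5 - y 0) (y 6 - y 0) +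
  dt (y 1 - y 0) (y 2 - y 0) (y 4 - y 3) (y 6 - y 0) (y 7 - y 0)

/-- blocks 3,1,2,1,1 -/
noncomputable def q312 (y : Fin 8 → E 5) : ℝ :=
  dt (y 1 - y 0) (y 2 - y 0) (y 5 - y 4) (y 3 - y 0) (y 4 - y 0) +
  dt (y 1 - y 0) (y 2 - y 0) (y 5 - y 4) (y 4 - y 0) (y 6 - y 0) +
  dt (y 1 - y 0) (y 2 - y 0) (y 5 - y 4) (y 6 - y 0) (y 7 - y 0)

/-- blocks 2,2,1,2,1 -/
noncomputable def q2212 (y : Fin 8 → E 5) : ℝ :=
  dt (y 1 - y 0) (y 3 - y 2) (y 6 - y 5) (y 2 - y 0) (y 4 - y 0) +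
  dt (y 1 - y 0) (y 3 - y 2) (y 6 - y 5) (y 4 - y 0) (y 5 - y 0) +
  dt (y 1 - y 0) (y 3 - y 2) (y 6 - y 5) (y 5 - y 0) (y 7 - y 0)

/-- blocks 2,1,1,1,1,1,1 -/
noncomputable def q7 (y : Fin 8 → E 5) : ℝ :=
  dt (y 1 - y 0) (y 2 - y 0) (y 3 - y 0) (y 4 - y 0) (y 5 - y 0) +
  dt (y 1 - y 0) (y 2 - y 0) (y 3 - y 0) (y 5 - y 0) (y 6 - y 0) +
  dt (y 1 - y 0) (y 2 - y 0) (y 3 - y 0) (y 6 - y 0) (y 7 - y 0) +
  dt (y 1 - y 0) (y 3 - y 0) (y 4 - y 0) (y 5 - y 0) (y 6 - y 0) +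
  dt (y 1 - y 0) (y 3 - y 0) (y 4 - y 0) (y 6 - y 0) (y 7 - y 0) +
  dt (y 1 - y 0) (y 4 - y 0) (y 5 - y 0) (y 6 - y 0) (y 7 - y 0)

/-! ## Part D: determinants -/

/-- G_D1 (port of `Pool.Agent.Helper89.Vol4.D1`, `Pool.Agent.Helper73.Vol4.D1`). -/
def G_D1 : Prop := ∀ x : Fin 8 → E 5, (∀ i j, Dt x i j = -Dt x j i) ∧ (∀ i, ∑ j, Dt x i j = 0) ∧
  ∀ i (m : Fin 5), ∑ j, Dt x i j * x j m = 0

/-- G_D2, the Pluecker relation (port of `Pool.Agent.Helper56.Vol4.D2`). -/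
def G_D2 : Prop := ∀ (x : Fin 8 → E 5) (i j k l : Fin 8),
  Dt x i j * Dt x k l - Dt x i k * Dt x j l + Dt x i l * Dt x j k = 0

/-- G_D3 (port of `Pool.Agent.Helper80.Vol4.D3`). -/
def G_D3 : Prop := ∀ (x : Fin 8 → E 5) (σ : Equiv.Perm (Fin 8)) (i j : Fin 8),
  Dt (x ∘ σ) i j = (Equiv.Perm.sign σ : ℤ) * Dt x (σ i) (σ j)

/-- G_D4, the minors (port of `Pool.Agent.Helper77.Vol4.D4`): the sign is `(-1)^(i+j+1)` for `i < j`. -/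
def G_D4 : Prop := ∀ x : Fin 8 → E 5,
  (Dt x 1 2 = br (x 0) (x 3) (x 4) (x 5) (x 6) (x 7) ∧
    Dt x 1 3 = -br (x 0) (x 2) (x 4) (x 5) (x 6) (x 7) ∧
    Dt x 1 4 = br (x 0) (x 2) (x 3) (x 5) (x 6) (x 7) ∧
    Dt x 1 5 = -br (x 0) (x 2) (x 3) (x 4) (x 6) (x 7) ∧
    Dt x 1 6 = br (x 0) (x 2) (x 3) (x 4) (x 5) (x 7) ∧
    Dt x 1 7 = -br (x 0) (x 2) (x 3) (x 4) (x 5) (x 6)) ∧
  (Dt x 2 3 = br (x 0) (x 1) (x 4) (x 5) (x 6) (x 7) ∧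
    Dt x 2 4 = -br (x 0) (x 1) (x 3) (x 5) (x 6) (x 7) ∧
    Dt x 2 5 = br (x 0) (x 1) (x 3) (x 4) (x 6) (x 7) ∧
    Dt x 2 6 = -br (x 0) (x 1) (x 3) (x 4) (x 5) (x 7) ∧
    Dt x 2 7 = br (x 0) (x 1) (x 3) (x 4) (x 5) (x 6)) ∧
  (Dt x 3 4 = br (x 0) (x 1) (x 2) (x 5) (x 6) (x 7) ∧
    Dt x 3 5 = -br (x 0) (x 1) (x 2) (x 4) (x 6) (x 7) ∧
    Dt x 3 6 = br (x 0) (x 1) (x 2) (x 4) (x 5) (x 7) ∧
    Dt x 3 7 = -br (x 0) (x 1) (x 2) (x 4) (x 5) (x 6)) ∧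
  (Dt x 4 5 = br (x 0) (x 1) (x 2) (x 3) (x 6) (x 7) ∧
    Dt x 4 6 = -br (x 0) (x 1) (x 2) (x 3) (x 5) (x 7) ∧
    Dt x 4 7 = br (x 0) (x 1) (x 2) (x 3) (x 5) (x 6)) ∧
  (Dt x 5 6 = br (x 0) (x 1) (x 2) (x 3) (x 4) (x 7) ∧
    Dt x 5 7 = -br (x 0) (x 1) (x 2) (x 3) (x 4) (x 6)) ∧
  Dt x 6 7 = br (x 0) (x 1) (x 2) (x 3) (x 4) (x 5)

/-- G_D5, volumes: `theorem thm (hSV : G_SV) (h3 : G_D3) (h4 : G_D4) : G_D5` (port of `Pool.Agent.Helper36.Vol4.D5`). -/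
def G_D5 : Prop := ∀ (x : Fin 8 → E 5) (i j : Fin 8), i ≠ j →
  120 * volume (convexHull ℝ (x '' {k | k ≠ i ∧ k ≠ j})) = ENNReal.ofReal |Dt x i j|

/-- G_DENS, generic points are dense (port of `Pool.Agent.Helper39.Vol4.DENS`). -/
def G_DENS : Prop := ∀ (x : Fin 8 → E 5) (δ : ℝ), 0 < δ → ∃ y : Fin 8 → E 5,
  (∀ i, dist (x i) (y i) < δ) ∧ ∀ i j, i ≠ j → Dt y i j ≠ 0

/-! ## Part C: combinatorics and covering -/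

/-- G_SRT, sorting (port of `Pool.Agent.Helper15.Vol4.SRT`). -/
def G_SRT : Prop := ∀ D : Fin 8 → Fin 8 → ℝ, (∀ i j, D i j = -D j i) → (∀ i j, i ≠ j → D i j ≠ 0) →
  (∀ i j k l, D i j * D k l - D i k * D j l + D i l * D j k = 0) →
  ∃ (σ : Equiv.Perm (Fin 8)) (s : Fin 8 → ℝ), (∀ i, s i = 1 ∨ s i = -1) ∧
    ∀ i j, i < j → 0 < s i * s j * D (σ i) (σ j)

/-- G_CAN, canonical patterns: `theorem thm (h : G_SRT) : G_CAN` (port of `Pool.Agent.Helper52.Vol4.CAN`; 256 Boolean vectors, 16 patterns; I have checked that every vector is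
mapped to one of the sixteen by rotations `s' = (s 1, ..., s 7, -s 0)` and `s ↦ -s`: the blocks of equal signs, an odd number of blocks when `s 0 = s 7`, are rotated cyclically). -/
def G_CAN : Prop := ∀ D : Fin 8 → Fin 8 → ℝ, (∀ i j, D i j = -D j i) → (∀ i j, i ≠ j → D i j ≠ 0) →
  (∀ i j k l, D i j * D k l - D i k * D j l + D i l * D j k = 0) →
  ∃ (σ : Equiv.Perm (Fin 8)) (s : Fin 8 → ℝ), (s ∈ PLa ∨ s ∈ PLb) ∧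
    ∀ i j, i < j → 0 < s i * s j * D (σ i) (σ j)

/-- G_COV1, covering, pointwise (port of `Pool.Agent.Helper30.Vol4.COV1`; now at least two coordinates vanish and, by the choice of `p`, exactly two). -/
def G_COV1 : Prop := ∀ (x : Fin 8 → E 5) (D : Fin 8 → Fin 8 → ℝ) (a : Fin 8),
  (∀ i j, D i j = -D j i) → (∀ i j, i ≠ j → D i j ≠ 0) → (∀ i, ∑ j, D i j = 0) →
  (∀ i (m : Fin 5), ∑ j, D i j * x j m = 0) → ∀ p ∈ convexHull ℝ (range x),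
  (∀ S : Finset (Fin 8), S.card ≤ 5 → p ∉ convexHull ℝ (x '' (S : Set (Fin 8)))) →
  ∃ i j, 0 < D a i ∧ 0 < D j a ∧ 0 < D i j ∧ p ∈ convexHull ℝ (x '' {k | k ≠ i ∧ k ≠ j})

/-- G_COV2, covering, volumes: `theorem thm (h : G_COV1) : G_COV2` (port of `Pool.Agent.Helper51.Vol4.COV2`; the hull of at most five points of `E 5` is null). -/
def G_COV2 : Prop := ∀ (x : Fin 8 → E 5) (D : Fin 8 → Fin 8 → ℝ) (a : Fin 8),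
  (∀ i j, D i j = -D j i) → (∀ i j, i ≠ j → D i j ≠ 0) → (∀ i, ∑ j, D i j = 0) →
  (∀ i (m : Fin 5), ∑ j, D i j * x j m = 0) →
  volume (convexHull ℝ (range x)) ≤ ∑ i, ∑ j, if 0 < D a i ∧ 0 < D j a ∧ 0 < D i j then
      volume (convexHull ℝ (x '' {k | k ≠ i ∧ k ≠ j})) else 0

/-- G_GEN: `theorem thm (h1 : G_D1) (h2 : G_D2) (h3 : G_D3) (h5 : G_D5) (hT : G_CAN) (hC : G_COV2) : G_GEN` (port of `Pool.Agent.Helper20.Vol4.GEN`). -/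
def G_GEN : Prop := ∀ x : Fin 8 → E 5, (∀ i j, i ≠ j → Dt x i j ≠ 0) →
  ∃ (σ : Equiv.Perm (Fin 8)) (c : ℝ) (s : Fin 8 → ℝ), Pat c s ∧
    120 * volume (convexHull ℝ (range x)) ≤ ENNReal.ofReal (T (x ∘ σ) c s)

/-- G_ALL: `theorem thm (hG : G_GEN) (hD : G_DENS) (hL : Pool.Agent.Helper89.Vol.G_LSC) : G_ALL` (port of `Pool.Agent.Helper90.Vol4.ALL`). -/
def G_ALL : Prop := ∀ x : Fin 8 → E 5, ∃ (σ : Equiv.Perm (Fin 8)) (c : ℝ) (s : Fin 8 → ℝ), Pat c s ∧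
    120 * volume (convexHull ℝ (range x)) ≤ ENNReal.ofReal (T (x ∘ σ) c s)

/-- G_HADT, Hadamard with a triangle. Proof. If `u = 0` the determinant is `0`. Otherwise replace `v` by `v' = v - (⟪u,v⟫/‖u‖²) u`: the determinant is the same, and
`‖u‖² ‖v'‖² = ‖u‖² ‖v‖² - ⟪u,v⟫²`, `4 (‖u‖² ‖v‖² - ⟪u,v⟫²) = 4xy - (x + y - z)² ≤ 3` with `x = ‖u‖²`, `y = ‖v‖²`, `z = ‖u - v‖²` in `[0,1]` (at most `xy + yz + zx`, since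
`4xy - (x + y - z)² = 2xy + 2yz + 2zx - x² - y² - z²`). Hadamard (see `Pool.Agent.Helper46.Vol4.HAD`, `Orientation.abs_volumeForm_apply_le`) for `u, v', w, z, t` gives at most `√3/2`. -/
def G_HADT : Prop := ∀ u v w z t : E 5, ‖u‖ ≤ 1 → ‖v‖ ≤ 1 → ‖u - v‖ ≤ 1 → ‖w‖ ≤ 1 → ‖z‖ ≤ 1 → ‖t‖ ≤ 1 →
  |dt u v w z t| ≤ 0.8661

/-- G_FINa, the patterns with one or three blocks: `theorem thm (h1 : G_D1) (h4 : G_D4) (hH : G_HADT) : G_FINa` (compare `Pool.Agent.Helper94.Vol4.FIN`).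
Proof. Put `u k = y k - y 0`, `[i j k l m] = dt (u i) (u j) (u k) (u l) (u m)`, multilinear and alternating. By `G_D1`, `G_D4`, for `m > n ≥ 1`: `Dt y m n = (-1)^(m+n) [rest]` (`rest` = the five numbers of `1..7`
different from `m`, `n`, increasing). The pattern with one block has no terms. For the blocks `a, b, c` (`a + b + c = 8`, `a ≥ 3`) `T = ± c * det (edges of the three blocks)`, where the edges of a block `i, i+1, ..., j` are `y (i+1) - y i', ...` with `i'` the first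
element of the block; I have checked (exact arithmetic) `T = c * ε * dt (...)` with: `6,1,1`: `-dt (u 1) (u 2) (u 3) (u 4) (u 5)`; `5,2,1`: `+dt (u 1) (u 2) (u 3) (u 4) (y 6 - y 5)`; `5,1,2`: `-dt (u 1) (u 2) (u 3) (u 4) (y 7 - y 6)`;
`4,3,1`: `-dt (u 1) (u 2) (u 3) (y 5 - y 4) (y 6 - y 4)`; `4,1,3`: `-dt (u 1) (u 2) (u 3) (y 6 - y 5) (y 7 - y 5)`; `4,2,2`: `+dt (u 1) (u 2) (u 3) (y 5 - y 4) (y 7 - y 6)`; `3,3,2`: `-dt (u 1) (u 2) (y 4 - y 3) (y 5 - y 3) (y 7 - y 6)`. `G_HADT` for `u 1`, `u 2`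
(`u 1 - u 2 = y 1 - y 2`). -/
def G_FINa : Prop := ∀ y : Fin 8 → E 5, (∀ i j, dist (y i) (y j) ≤ 1) → ∀ (c : ℝ) (s : Fin 8 → ℝ),
  (c = 1 ∨ c = -1) → s ∈ PLa → T y c s ≤ 0.8661

/-- G_FINb, the patterns with five or seven blocks: `theorem thm (h1 : G_D1) (h4 : G_D4) : G_FINb` (compare `Pool.Agent.Helper94.Vol4.FIN`). Checked with exact arithmetic:
`2,2,2,1,1`: `T = c * q222 y`; `4,1,1,1,1`: `-c * q41 y`; `3,2,1,1,1`: `c * q32 y`; `3,1,2,1,1`: `-c * q312 y`; `2,2,1,2,1`: `-c * q2212 y`; `2,1,1,1,1,1,1`: `-c * q7 y`;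
`3,1,1,1,2`: `c * q32 (y ∘ τ)` with `τ = ![0, 1, 2, 6, 7, 5, 4, 3]`; `3,1,1,2,1`: `-c * q312 (y ∘ τ)` with `τ = ![0, 1, 2, 7, 5, 6, 4, 3]`. -/
def G_FINb : Prop := ∀ y : Fin 8 → E 5, ∀ (c : ℝ) (s : Fin 8 → ℝ), (c = 1 ∨ c = -1) → s ∈ PLb →
  T y c s ≤ |q222 y| ∨ ∃ τ : Fin 8 → Fin 8, T y c s ≤ |q41 (y ∘ τ)| ∨ T y c s ≤ |q32 (y ∘ τ)| ∨
    T y c s ≤ |q312 (y ∘ τ)| ∨ T y c s ≤ |q2212 (y ∘ τ)| ∨ T y c s ≤ |q7 (y ∘ τ)|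

/-! ## Part J: planar inequalities -/

/-- G_NUM5, numerics (port of `Pool.Agent.Helper78.Vol4.NUM4`). The maximiser is `t₀ = 0.4550103...`, the maximum `1.83487429...`; tangents at `t₀`: `√(3/2 - t₀²) = 1.137086...`,
`√(6 - (1 + 2 t₀)²) = 1.533565...`. -/
def G_NUM5 : Prop := (∃ t ∈ Icc (0 : ℝ) (7 / 10), ∀ s ∈ Icc (0 : ℝ) (7 / 10), h5 s ≤ h5 t) ∧
  (1.834874 < h5 (455 / 1000)) ∧ ∀ t ∈ Icc (0 : ℝ) (7 / 10), h5 t < 1.834875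

/-- G_UNI5, the maximiser is unique, and its equation (port of `Pool.Agent.Helper2.Vol4.UNI4`). `h5' t = -t/√(3/2 - t²) + (5 - 6t - 8t²)/√(5 - 4t - 4t²)` (`6 - (1 + 2t)² = 5 - 4t - 4t²`); `h5` is strictly concave on
`[0, 7/10]`; the maximiser is in the interior (`h5 0 = √(3/2) < 1.3`, `h5 (7/10) < 1.35`), and `h5' t = 0` gives `(5 - 6t - 8t²)² (3 - 2t²) = 2 t² (5 - 4t - 4t²)`. -/
def G_UNI5 : Prop := ∀ t ∈ Icc (0 : ℝ) (7 / 10), (∀ s ∈ Icc (0 : ℝ) (7 / 10), h5 s ≤ h5 t) →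
  (∀ s ∈ Icc (0 : ℝ) (7 / 10), h5 s = h5 t → s = t) ∧
  128 * t ^ 6 + 192 * t ^ 5 - 288 * t ^ 4 - 416 * t ^ 3 + 192 * t ^ 2 + 180 * t - 75 = 0 ∧
  0.455 < t ∧ t < 0.4551

/-- G_J58: `theorem thm (hn : G_NUM5) : G_J58` (compare `Pool.Agent.Helper26.Vol4.J47`, `Pool.Agent.Helper85.Vol4.J3`). Proof. Let `M0 = √(3/2 - t²)`, `R = √(3/2)`. Case A, `M0 g2 ≤ t g1`: as in `G_J47` the left side is at most `M0 g1 + t √(6 - (g1 + 2t)²)`.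
For `t ≤ 54/100` this is at most `h5 t ≤ C` (monotone in `g1`: `t (1 + 2t) ≤ M0 √(6 - (1 + 2t)²)`; at `t = 0.54` the left side is `1.123`, the right side `1.422`); for `t ≥ 54/100` it is at most
`√((M0² + t²) 6) - 2 t M0 = 3 - 2 t M0 ≤ 1.82` (`t² (3/2 - t²)` is increasing for `t² ≤ 1/2`, `2 · 0.54 · 1.0992 ≥ 1.187`). Case B, `t g1 < M0 g2`, so `0.8164 t g1 ≤ g2` (`M0 ≤ R ≤ 1.2248`): with `G = √(g1² + g2²) ≤ 1`: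
`(k + t) g2 + M g1 ≤ R G`, `S ≤ (S² + 2.89)/3.4`, so `LHS ≤ R G - t (g2 + κ g1) + (t/3.4)(8.89 - G² - 4t²)`, `κ = 4t/3.4`. (i) `t ≤ 54/100`: `g2 + κ g1 ≥ 1.8 t G` (difference of the squares
`(1 - 3.24 t²) g2² + 2 κ g1 g2 - (3.24 t² - κ²) g1²`, `1 - 3.24 t² ≥ 0`, `2 κ g1 g2 ≥ 1.92 t² g1²`, `3.24 t² - κ² ≤ 1.856 t²`), so `LHS ≤ G (R - 1.8 t²) + (t/3.4)(8.89 - G² - 4t²)`, increasing in `G ∈ [0,1]`, at most
`R + (7.89/3.4) t - 1.8 t² - (4/3.4) t³ ≤ 1.80`. (ii) `t ≥ 54/100`: `g2 + κ g1 ≥ 0.97 G` (difference of the squares `0.0591 g2² + 2 κ g1 g2 - (0.9409 - κ²) g1² ≥ ((1.92 + 1.384) t² - 0.9409) g1² ≥ 0`), so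
`LHS ≤ G (R - 0.97 t) + (t/3.4)(8.89 - G² - 4t²) ≤ R - 0.97 t + (t/3.4)(7.89 - 4t²) ≤ 1.79`. And `C ≥ h5 (455/1000) > 1.83`. (The sup of the left side is the maximum of `h5`, checked numerically.) -/
def G_J58 : Prop := ∀ C : ℝ, (∀ t ∈ Icc (0 : ℝ) (7 / 10), h5 t ≤ C) →
  ∀ t k M g1 g2 S : ℝ, 0 ≤ t → t ^ 2 ≤ 1 / 2 → 0 ≤ k → 0 ≤ M → 0 ≤ g1 → 0 ≤ g2 → 0 ≤ S →
  (k + t) ^ 2 + M ^ 2 ≤ 3 / 2 → g1 ^ 2 + g2 ^ 2 ≤ 1 →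
  S ^ 2 + g1 ^ 2 + g2 ^ 2 + 4 * t ^ 2 + 4 * t * g1 ≤ 6 → k * g2 + M * g1 + t * S ≤ C

/-- G_J5b (compare `Pool.Agent.Helper85.Vol4.J3`). Proof. `M0 = √(1/2 - N²)`, `γ = √(1/2)`. Case A, `M0 g2 ≤ N g1`: the left side is at most `M0 g1 + N √(3 - (g1 + 2N)²)`. For `N ≤ 1/4`: `√x ≤ (x + 0.9409)/1.94`, so it is at most
`M0 g1 + (N/1.94)(3.9409 - (g1 + 2N)²)`, increasing in `g1 ∈ [0,1]`, at most `M0 + (N/1.94)(2.9409 - 4N - 4N²) ≤ 0.89`. For `N ≥ 1/4`: at most `√((M0² + N²) 3) - 2 N M0 = √(3/2) - 2 N M0 ≤ 1.2248 - 0.3307` (`N² (1/2 - N²)` is increasing for `N² ≤ 1/4`).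
Case B, `N g1 < M0 g2`, so `1.414 N g1 ≤ g2`: with `G = √(g1² + g2²) ≤ 1`: `(k + N) g2 + M g1 ≤ γ G`, `S ≤ (S² + 1)/2`, so `LHS ≤ γ G - N (g2 + 2 N g1) + (N/2)(4 - G² - 4N²)`. (i) `N ≤ 3/10`: `g2 + 2 N g1 ≥ 3 N G` (difference of the squares
`(1 - 9 N²) g2² + 4 N g1 g2 - 5 N² g1² ≥ (5.656 - 5) N² g1²`), so `LHS ≤ G (γ - 3 N²) + (N/2)(4 - G² - 4N²) ≤ γ + 1.5 N - 3 N² - 2 N³ ≤ 0.88`. (ii) `N ≥ 3/10`: `g2 + 2 N g1 ≥ 0.9 G` (difference of the squares `≥ (5.656 N² + 4 N² - 0.81) g1² ≥ 0`), so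
`LHS ≤ G (γ - 0.9 N) + (N/2)(4 - G² - 4N²) ≤ γ + 0.6 N - 2 N³ ≤ 0.85`. (The sup of the left side is `0.8838`, checked numerically.) -/
def G_J5b : Prop := ∀ N k M g1 g2 S : ℝ, 0 ≤ N → N ^ 2 ≤ 1 / 8 → 0 ≤ k → 0 ≤ M → 0 ≤ g1 → 0 ≤ g2 → 0 ≤ S →
  (k + N) ^ 2 + M ^ 2 ≤ 1 / 2 → g1 ^ 2 + g2 ^ 2 ≤ 1 →
  S ^ 2 + g1 ^ 2 + g2 ^ 2 + 4 * N ^ 2 + 4 * N * g1 ≤ 3 → k * g2 + M * g1 + N * S ≤ 0.9

/-- G_Q222, the planar inequality for the extremal type: `theorem thm (h : G_J58) : G_Q222` (compare `Pool.Agent.Helper69.Vol4.Q212`, `Pool.Agent.Helper89.Vol4.Q22`).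
The pentagon is `O = (0,0)`, `b`, `c`, `u`, `w` with `w1 = u1`, `u0 ≤ w0`. Proof. `p = l1 l3`, `q = l2`, `L = p q`; for `L = 0` trivial. With the origin at `b`: `a = c - b`, `b' = u - b`, `c' = w - b`, `d = O - b`: `b × c + c × u + u × w = a × b' + b' × c' + c' × d = m × g + n × σ`, `m = (b' + c')/2`,
`n = (c' - b')/2 = ((w0 - u0)/2, 0)`, `g = d - a = O - c`, `σ = a + d - b' - c' = O + c - u - w`. `β = 1/√(2 - p)`, `α = p q √(2 - p)`, so `α β = L`. `G_J58` with `t = √2 α |n|`, `k = √2 α |m0|`, `M = √2 α |m1|`, `g1 = √2 β |g0|`, `g2 = √2 β |g_1|`, `S = √2 β |σ1|`: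
`L |m × g + n × σ| ≤ (k g2 + M g1 + t S)/2`. Conditions. `α ≤ β ≤ 1` (`p q (2 - p) ≤ 1`), `|n| ≤ 1/2`, so `t² ≤ 1/2`. `|u - b|², |w - b|² ≤ 1 - q²/4`, so `(k + t)² + M² ≤ 2 α² (1 - q²/4) = 2 p² (2 - p) q² (1 - q²/4) ≤ 2 · 1 · 3/4`.
`|g|² ≤ 1 - (l1² + l3²)/4 ≤ 1 - p/2`, `2 β² (1 - p/2) = 1`. From `|O - u|² + |c - w|²` and `|O - w|² + |c - u|²`, both `≤ 2 - (l1² + l3²)/4 ≤ 2 - p/2`: `|σ|² + |g|² + 4n² + 4|n g0| ≤ 4 - p`, and `2 β² (4 - p) ≤ 6`. -/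
def G_Q222 : Prop := ∀ C : ℝ, (∀ t ∈ Icc (0 : ℝ) (7 / 10), h5 t ≤ C) →
  ∀ l1 l2 l3 b0 b1 c0 c1 u0 u1 w0 : ℝ, 0 ≤ l1 → l1 ≤ 1 → 0 ≤ l2 → l2 ≤ 1 → 0 ≤ l3 → l3 ≤ 1 → u0 ≤ w0 →
  b0 ^ 2 + b1 ^ 2 ≤ 1 - (l1 ^ 2 + l2 ^ 2) / 4 → c0 ^ 2 + c1 ^ 2 ≤ 1 - (l1 ^ 2 + l3 ^ 2) / 4 →
  (b0 - c0) ^ 2 + (b1 - c1) ^ 2 ≤ 1 - (l2 ^ 2 + l3 ^ 2) / 4 →
  u0 ^ 2 + u1 ^ 2 ≤ 1 - l1 ^ 2 / 4 → w0 ^ 2 + u1 ^ 2 ≤ 1 - l1 ^ 2 / 4 →
  (u0 - b0) ^ 2 + (u1 - b1) ^ 2 ≤ 1 - l2 ^ 2 / 4 → (w0 - b0) ^ 2 + (u1 - b1) ^ 2 ≤ 1 - l2 ^ 2 / 4 →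
  (u0 - c0) ^ 2 + (u1 - c1) ^ 2 ≤ 1 - l3 ^ 2 / 4 → (w0 - c0) ^ 2 + (u1 - c1) ^ 2 ≤ 1 - l3 ^ 2 / 4 →
  (w0 - u0) ^ 2 ≤ 1 →
  2 * (l1 * l2 * l3 * |(b0 * c1 - b1 * c0) + (c0 * u1 - c1 * u0) + (u0 * u1 - u1 * w0)|) ≤ C

/-- G_Q2212: `theorem thm (h : G_J5b) : G_Q2212` (compare `Pool.Agent.Helper89.Vol4.Q22`; it is the same identity).
The pentagon is `O = (0,0)`, `b = (b0, 0)`, `u`, `c`, `w`. Proof. `L = l1 l2 l3`; with the origin at `c`: `m = (O + b)/2 - c`, `n = (b0/2, 0)`, `g = u - w`, `σ = u + w - O - b`: the bracket is `m × g + n × σ`. `β = √(3/(4 - L))`, `α = L/β` (so `3 α² = L² (4 - L)`).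
`G_J5b` with `N = α b0/2`, `k = α |m0|`, `M = α |m1|`, `g1 = β |g0|`, `g2 = β |g_1|`, `S = β |σ1|`. Conditions: `(|m0| + n)² + m1²` is `|O - c|²` or `|b - c|²`, at most `1 - L/2` (`l1² + l3² ≥ 2 l1 l3 ≥ 2L`), and `L² (4 - L)(1 - L/2)/3 ≤ 1/2`.
`β ≤ 1`. `|σ|² + |g|² + 4 n² + 4 n |g0| ≤ 4 - (l1² + l2²)/2 ≤ 4 - L`. `N² ≤ α² (1 - L/2)/4 ≤ 1/8`. -/
def G_Q2212 : Prop := ∀ l1 l2 l3 b0 u0 u1 c0 c1 w0 w1 : ℝ,
  0 ≤ l1 → l1 ≤ 1 → 0 ≤ l2 → l2 ≤ 1 → 0 ≤ l3 → l3 ≤ 1 → 0 ≤ b0 →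
  u0 ^ 2 + u1 ^ 2 ≤ 1 - l1 ^ 2 / 4 → c0 ^ 2 + c1 ^ 2 ≤ 1 - (l1 ^ 2 + l3 ^ 2) / 4 → w0 ^ 2 + w1 ^ 2 ≤ 1 - l1 ^ 2 / 4 →
  (u0 - b0) ^ 2 + u1 ^ 2 ≤ 1 - l2 ^ 2 / 4 → (c0 - b0) ^ 2 + c1 ^ 2 ≤ 1 - (l2 ^ 2 + l3 ^ 2) / 4 →
  (w0 - b0) ^ 2 + w1 ^ 2 ≤ 1 - l2 ^ 2 / 4 → b0 ^ 2 ≤ 1 - (l1 ^ 2 + l2 ^ 2) / 4 →
  (u0 - w0) ^ 2 + (u1 - w1) ^ 2 ≤ 1 →
  l1 * l2 * l3 * |b0 * u1 + (u0 * c1 - u1 * c0) + (c0 * w1 - c1 * w0)| ≤ 0.9

/-- G_FRM5, an adapted frame (port of `Pool.Agent.Helper59.Vol4.FRM4`): an orthonormal basis with `e, e', e'' ∈ span (f2, f3, f4)`, `f0` in the direction of the orthogonal projection of `n` on the orthogonal complement. -/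
def G_FRM5 : Prop := ∀ e e' e'' n : E 5, ∃ (L : E 5 ≃ₗᵢ[ℝ] E 5) (ε : ℝ), (ε = 1 ∨ ε = -1) ∧
  (∀ u v w z t : E 5, dt (L u) (L v) (L w) (L z) (L t) = ε * dt u v w z t) ∧
  L e 0 = 0 ∧ L e 1 = 0 ∧ L e' 0 = 0 ∧ L e' 1 = 0 ∧ L e'' 0 = 0 ∧ L e'' 1 = 0 ∧ L n 1 = 0 ∧ 0 ≤ L n 0

/-- G_FRME, a frame with `e` in the direction of the last axis (compare `Pool.Agent.Helper35.Vol.FRM`, `Pool.Agent.Helper59.Vol4.FRM4`). -/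
def G_FRME : Prop := ∀ e : E 5, ∃ (L : E 5 ≃ₗᵢ[ℝ] E 5) (ε : ℝ), (ε = 1 ∨ ε = -1) ∧
  (∀ u v w z t : E 5, dt (L u) (L v) (L w) (L z) (L t) = ε * dt u v w z t) ∧
  L e 0 = 0 ∧ L e 1 = 0 ∧ L e 2 = 0 ∧ L e 3 = 0 ∧ L e 4 = ‖e‖

/-- G_AX, the determinant of five vectors, the first three of which have the first two coordinates zero: it is `Δ` times the planar cross product, and two bounds for `Δ` (the `3 × 3` determinant of the last three coordinates).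
Proof. Laplace expansion. Bounds: `Δ² ≤ ‖e‖² ‖e'‖² ‖e''‖²` (Hadamard), `Δ² ≤ (‖e‖² ‖e'‖² - ⟪e,e'⟫²) ‖e''‖²` (Gram determinant, or the cross product: `Δ = (e × e') · e''`). Third: with `s` = the sum of the six squared edges of the tetrahedron `0, e, e', e''`:
`432 Δ² ≤ s³`. Put `f_j = e_j - (e_1 + e_2 + e_3)/2`; `det f = -Δ/2`, `∑ ‖f_j‖² = s/4`, Hadamard and the inequality of the arithmetic and geometric mean: `Δ²/4 ≤ (s/12)³`. -/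
def G_AX : Prop := ∀ e e' e'' : E 5, e 0 = 0 → e 1 = 0 → e' 0 = 0 → e' 1 = 0 → e'' 0 = 0 → e'' 1 = 0 →
  ∃ Δ : ℝ, (∀ z t : E 5, dt e e' e'' z t = Δ * (z 0 * t 1 - z 1 * t 0)) ∧
    |Δ| ≤ ‖e‖ * ‖e'‖ * ‖e''‖ ∧ Δ ^ 2 ≤ (‖e‖ ^ 2 * ‖e'‖ ^ 2 - inner ℝ e e' ^ 2) * ‖e''‖ ^ 2 ∧
    432 * Δ ^ 2 ≤ (‖e‖ ^ 2 + ‖e'‖ ^ 2 + ‖e''‖ ^ 2 + ‖e - e'‖ ^ 2 + ‖e - e''‖ ^ 2 + ‖e' - e''‖ ^ 2) ^ 3

/-- G_P222: `theorem thm (h : G_Q222) (hF : G_FRM5) (hA : G_AX) : G_P222` (compare `Pool.Agent.Helper47.Vol4.P22`, `Pool.Agent.Helper99.Vol4.P212`).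
Proof. `G_FRM5` for `e = y 1 - y 0`, `e' = y 3 - y 2`, `e'' = y 5 - y 4`, `n = y 7 - y 6`; `y' k = L (y k - y 0)`, `l1 = ‖e‖`, `l2 = ‖e'‖`, `l3 = ‖e''‖`, `q222 = ± Δ s`, `|Δ| ≤ l1 l2 l3`. Planar points: `O` = the first two coordinates of `y' 0` and of `y' 1`,
`b` = the ones of `y' 2` and `y' 3`, `c` = the ones of `y' 4` and `y' 5`, `u, w` = the ones of `y' 6`, `y' 7`. Distances: a point and a segment: `1 - l²/4` (parallelogram law), two segments: `1 - (l² + l'²)/4` (midpoints, the four distances). -/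
def G_P222 : Prop := ∀ C : ℝ, (∀ t ∈ Icc (0 : ℝ) (7 / 10), h5 t ≤ C) →
  ∀ y : Fin 8 → E 5, (∀ i j, dist (y i) (y j) ≤ 1) → 2 * |q222 y| ≤ C

/-- G_P2212: `theorem thm (h : G_Q2212) (hF : G_FRM5) (hA : G_AX) : G_P2212`. As `G_P222` with `e = y 1 - y 0`, `e' = y 3 - y 2`, `e'' = y 6 - y 5`, `n = y 2 - y 0`; `b` = planar part of `y' 2`, `y' 3`; `u` = the one of `y' 4`; `c` = the one of `y' 5`, `y' 6`; `w` = the one of `y' 7`. -/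
def G_P2212 : Prop := ∀ y : Fin 8 → E 5, (∀ i j, dist (y i) (y j) ≤ 1) → |q2212 y| ≤ 0.9

/-- G_P32: `theorem thm (h : Pool.Agent.Helper89.Vol4.G_Q22) (hn : Pool.Agent.Helper89.Vol4.G_NUM4) (hF : G_FRM5) (hA : G_AX) : G_P32` (compare `Pool.Agent.Helper47.Vol4.P22`, `Pool.Agent.Helper23.Vol4.P31`).
Proof. `G_FRM5` for `e = y 1 - y 0`, `e' = y 2 - y 0`, `e'' = y 4 - y 3`, `n = y 3 - y 0`. `s = ‖e‖² + ‖e'‖² + ‖e - e'‖² ≤ 3`, `λ = s/3`, `l = ‖e''‖`; `12 (‖e‖² ‖e'‖² - ⟪e, e'⟫²) ≤ s²`, so `|Δ| ≤ (√3/2) λ l`. Planar points: `O` (from `y 0, y 1, y 2`), `b = (b0, 0)` (from `y 3, y 4`), `u, v, w` (from `y 5, y 6, y 7`).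
Squares of distances: from `O` to a point: `≤ 1 - s/9 = 1 - λ/3 ≤ 1 - λ²/4` (sum of the three squared distances); from `b`: `≤ 1 - l²/4`; `|O - b|² ≤ 1 - s/9 - l²/4` (sum of the six squared distances between the triangle and the segment). So `Pool.Agent.Helper89.Vol4.G_Q22` with `l1 = λ`, `l2 = l` and `C = 1.049449` gives
`λ l |planar sum| ≤ 1.049449`, and `|q32| ≤ (√3/2) 1.049449 ≤ 0.909`. -/
def G_P32 : Prop := ∀ y : Fin 8 → E 5, (∀ i j, dist (y i) (y j) ≤ 1) → |q32 y| ≤ 0.909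

/-- G_P312: `theorem thm (h : Pool.Agent.Helper89.Vol4.G_Q212) (hF : G_FRM5) (hA : G_AX) : G_P312`. As `G_P32` with `e = y 1 - y 0`, `e' = y 2 - y 0`, `e'' = y 5 - y 4`, `n = y 7 - y 6`; `t` = planar part of `y 3`, `b` = the one of `y 4, y 5`, `v, w` = the ones of `y 6, y 7`; `Pool.Agent.Helper89.Vol4.G_Q212` with
`l1 = λ`, `l2 = l`: `|q312| ≤ (√3/2) 1.04 ≤ 0.901`. -/
def G_P312 : Prop := ∀ y : Fin 8 → E 5, (∀ i j, dist (y i) (y j) ≤ 1) → |q312 y| ≤ 0.901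

/-- G_P41: `theorem thm (h : Pool.Agent.Helper89.Vol4.G_PLN) (hF : G_FRM5) (hA : G_AX) : G_P41` (compare `Pool.Agent.Helper23.Vol4.P31`).
Proof. `G_FRM5` for `e = y 1 - y 0`, `e' = y 2 - y 0`, `e'' = y 3 - y 0`, `n = 0`. `s` = the sum of the six squared edges of `y 0, ..., y 3`, `s ≤ 6`, `432 Δ² ≤ s³`. For a point with distances at most one from `y 0, ..., y 3` the square of the planar distance from `O` is at most `ρ² = 1 - s/16` (the sum of the four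
squared distances is `4 |p - centroid|² + s/4`). If `s ≥ 4`: `G_PLN` gives `|q41| ≤ |Δ| 1.172454 ≤ √(216/432) 1.172454 < 0.83`. If `s < 4`: `G_PLN` for the planar points times `κ`, `κ² = 3/(4 ρ²) ≤ 1`: `|q41| ≤ |Δ| (4/3) ρ² 1.172454 ≤ √(64/432) (4/3) 1.172454 < 0.61`. -/
def G_P41 : Prop := ∀ y : Fin 8 → E 5, (∀ i j, dist (y i) (y j) ≤ 1) → |q41 y| ≤ 0.85

/-! ## Part S: the heptagon type -/

/-- G_PFA (captain helper89 does this one). -/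
def G_PFA : Prop := ∀ y : Fin 7 → E 4, (∀ i j, dist (y i) (y j) ≤ 1) → (∀ i, dist (y 0) (y i) ^ 2 ≤ 0.7696) →
  |Pool.Agent.Helper89.Vol4.pf y| ≤ 0.913

/-- G_PFB (captain helper89 does this one). -/
def G_PFB : Prop := ∀ y : Fin 7 → E 4, (∀ i j, dist (y i) (y j) ≤ 1) → (∀ i, dist (y 0) (y i) ^ 2 ≤ 0.810775) →
  |Pool.Agent.Helper89.Vol4.pf y| ≤ 0.94

/-- G_P7: `theorem thm (h : Pool.Agent.Helper89.Vol4.G_PF) (hA : G_PFA) (hB : G_PFB) (hF : G_FRME) : G_P7`.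
Proof. `G_FRME` for `e = y 1 - y 0`, `l = ‖e‖`; `y' k = L (y k - y 0)`; `z 0 = 0`, `z i` = the first four coordinates of `y' (i + 1)`, `i = 1, ..., 6` (`Fin 7 → E 4`). `dt (L e) a b c d = l * dt4 (a', b', c', d')` (the first four coordinates; the sign is `+` or `-`, always the same), so `|q7 y| = l |pf z|`
(`pf` of `Pool.Agent.Helper89.Vol4`). `dist (z i) (z j) ≤ 1`, `dist (z 0) (z i)² ≤ 1 - l²/4` (parallelogram law). If `l ≤ 0.87`: `l |pf z| ≤ 0.87 · 1.049 < 0.913`. If `0.87 ≤ l ≤ 0.96`: `1 - l²/4 ≤ 0.810775`, `l |pf z| ≤ 0.96 · 0.94 < 0.913`. If `l ≥ 0.96`: `1 - l²/4 ≤ 0.7696`, `|pf z| ≤ 0.913`. -/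
def G_P7 : Prop := ∀ y : Fin 8 → E 5, (∀ i j, dist (y i) (y j) ≤ 1) → |q7 y| ≤ 0.913

/-! ## Part L: the extremal polytope -/

/-- G_LD, the distances (port of `Pool.Agent.Helper24.Vol4.LD`). Proof. `rr² = 1/2`, `hh² = 3/2 - t²`, `yy² = 3/2 - (1/2 + t)²`. Squared distances: `01, 23, 45`: `1`. `04, 05, 14, 15`: `1/2 + 1/2`. `02, 03, 12, 13, 24, 25, 34, 35`: `1/8 + (yy - hh)²/2 + 1/2 ≤ 1` (`(hh - yy)² ≤ 3/4`:
`hh² - yy² = t + 1/4`, `hh + yy ≥ 1.18`, so `hh - yy ≤ 0.95/1.18`). `06, 16, 47, 57`: `((1/2 + t)² + yy²)/2 + 1/4 = 1`. `07, 17, 46, 56`: `((1/2 - t)² + yy²)/2 + 1/4 ≤ 1`. `26, 27, 36, 37`: `(t² + hh²)/2 + 1/4 = 1`. `67`: `2 t² ≤ 1`. -/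
def G_LD : Prop := ∀ t ∈ Icc (0 : ℝ) (7 / 10), ∀ i j, dist (Q5 t i) (Q5 t j) ≤ 1

/-- G_PEN, the area of the pentagon from below: `theorem thm (hSV : G_SV) : G_PEN` (port of `Pool.Agent.Helper34.Vol4.PEN`). Proof. `hh > yy` (`hh² - yy² = t + 1/4`). Three triangles `(P0, P1, P2)`, `(P0, P2, P3)`, `(P0, P3, P4)` in the hull; the line `y = 0`
separates the first from the others, the line `P0 P3` the second from the third. Twice the areas: `rr² (hh - yy)`, `rr² yy`, `rr² 2 t yy`. The sum is `(hh + 2 t yy)/2 = h5 t/2`. -/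
def G_PEN : Prop := ∀ t ∈ Icc (0 : ℝ) (7 / 10),
  ENNReal.ofReal (h5 t) ≤ 4 * volume (convexHull ℝ (range (P5 t)))

/-- G_LV, the volume from below: `theorem thm (hBV : G_BV) (hP : G_PEN) : G_LV` (port of `Pool.Agent.Helper22.Vol4.LV`): `G_BV` with `ι = Fin 5`, `a = 2`, `b = ![1, 1, 1, 0, 0]`: `5! vol (hull) = 2! vol (hull P5) * 1 * 1 * 1`. -/
def G_LV : Prop := ∀ t ∈ Icc (0 : ℝ) (7 / 10),
  ENNReal.ofReal (h5 t) ≤ 240 * volume (convexHull ℝ (range (Q5 t)))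

end Pool.Agent.Helper89.Vol5
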