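import Pool.Agent.Helper89.Vol5.Goals2
import Pool.Agent.Helper57.Vol5.P222
import Pool.Agent.Helper4.Vol5.AX

/-!
Packet V58-P222E (MP_cd13d2_co): equality for the extremal pattern.
-/

set_option autoImplicit false

namespace Pool.Agent.Helper89.Vol5.PkP222E

open MeasureTheory Set Pool.Agent.Helper86.Poly Pool.Agent.Helper89.Vol5
open Pool.Agent.Helper57.Vol5.PkP222 (nsq coord pt_seg seg_seg)
open Pool.Agent.Helper4.Vol5.PkAX (d3 dte)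

theorem ext5 {u v : E 5} (h0 : u 0 = v 0) (h1 : u 1 = v 1) (h2 : u 2 = v 2) (h3 : u 3 = v 3)
    (h4 : u 4 = v 4) : u = v := by
  ext m
  fin_cases m
  · exact h0
  · exact h1
  · exact h2
  · exact h3
  · exact h4

/-- the linear map `z ↦ (- z0, τ z1, z2 a + z3 b + z4 c)` -/
noncomputable def fL (τ a2 a3 a4 b2 b3 b4 c2 c3 c4 : ℝ) : E 5 →ₗ[ℝ] E 5 where
  toFun z := !₂[-(z 0), τ * z 1, z 2 * a2 + z 3 * b2 + z 4 * c2, z 2 * a3 + z 3 * b3 + z 4 * c3,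
    z 2 * a4 + z 3 * b4 + z 4 * c4]
  map_add' x y := by
    refine ext5 ?_ ?_ ?_ ?_ ?_
    · simp; ring
    · simp; ring
    · simp; ring
    · simp; ring
    · simp; ring
  map_smul' r x := by
    refine ext5 ?_ ?_ ?_ ?_ ?_
    · simp
    · simp; ring
    · simp; ring
    · simp; ring
    · simp; ring

theorem fL_apply (τ a2 a3 a4 b2 b3 b4 c2 c3 c4 : ℝ) (z : E 5) :
    fL τ a2 a3 a4 b2 b3 b4 c2 c3 c4 z = !₂[-(z 0), τ * z 1, z 2 * a2 + z 3 * b2 + z 4 * c2,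
      z 2 * a3 + z 3 * b3 + z 4 * c3, z 2 * a4 + z 3 * b4 + z 4 * c4] := rfl

theorem fL_norm {τ a2 a3 a4 b2 b3 b4 c2 c3 c4 : ℝ} (hτ : τ ^ 2 = 1)
    (ha : a2 ^ 2 + a3 ^ 2 + a4 ^ 2 = 1) (hb : b2 ^ 2 + b3 ^ 2 + b4 ^ 2 = 1)
    (hc : c2 ^ 2 + c3 ^ 2 + c4 ^ 2 = 1) (hab : a2 * b2 + a3 * b3 + a4 * b4 = 0)
    (hac : a2 * c2 + a3 * c3 + a4 * c4 = 0) (hbc : b2 * c2 + b3 * c3 + b4 * c4 = 0) (z : E 5) :
    ‖fL τ a2 a3 a4 b2 b3 b4 c2 c3 c4 z‖ = ‖z‖ := by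
  have h1 : ‖fL τ a2 a3 a4 b2 b3 b4 c2 c3 c4 z‖ ^ 2 = ‖z‖ ^ 2 := by
    rw [nsq, nsq, fL_apply]
    simp only [Matrix.cons_val_zero, Matrix.cons_val_one, Matrix.cons_val]
    linear_combination (z 1) ^ 2 * hτ + (z 2) ^ 2 * ha + (z 3) ^ 2 * hb + (z 4) ^ 2 * hc +
      2 * z 2 * z 3 * hab + 2 * z 2 * z 4 * hac + 2 * z 3 * z 4 * hbc
  exact (sq_eq_sq₀ (norm_nonneg _) (norm_nonneg _)).1 h1

/-- the isometry -/
noncomputable def fI {τ a2 a3 a4 b2 b3 b4 c2 c3 c4 : ℝ} (hτ : τ ^ 2 = 1)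
    (ha : a2 ^ 2 + a3 ^ 2 + a4 ^ 2 = 1) (hb : b2 ^ 2 + b3 ^ 2 + b4 ^ 2 = 1)
    (hc : c2 ^ 2 + c3 ^ 2 + c4 ^ 2 = 1) (hab : a2 * b2 + a3 * b3 + a4 * b4 = 0)
    (hac : a2 * c2 + a3 * c3 + a4 * c4 = 0) (hbc : b2 * c2 + b3 * c3 + b4 * c4 = 0) :
    E 5 ≃ₗᵢ[ℝ] E 5 :=
  LinearIsometry.toLinearIsometryEquiv
    ⟨fL τ a2 a3 a4 b2 b3 b4 c2 c3 c4, fL_norm hτ ha hb hc hab hac hbc⟩ rfl

theorem fI_apply {τ a2 a3 a4 b2 b3 b4 c2 c3 c4 : ℝ} (hτ : τ ^ 2 = 1)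
    (ha : a2 ^ 2 + a3 ^ 2 + a4 ^ 2 = 1) (hb : b2 ^ 2 + b3 ^ 2 + b4 ^ 2 = 1)
    (hc : c2 ^ 2 + c3 ^ 2 + c4 ^ 2 = 1) (hab : a2 * b2 + a3 * b3 + a4 * b4 = 0)
    (hac : a2 * c2 + a3 * c3 + a4 * c4 = 0) (hbc : b2 * c2 + b3 * c3 + b4 * c4 = 0) (z : E 5) :
    fI hτ ha hb hc hab hac hbc z = !₂[-(z 0), τ * z 1, z 2 * a2 + z 3 * b2 + z 4 * c2,
      z 2 * a3 + z 3 * b3 + z 4 * c3, z 2 * a4 + z 3 * b4 + z 4 * c4] := rfl

/-- a point at distance at most one half from two points at distance one is their midpoint -/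
theorem mid {r2 r3 r4 p2 p3 p4 q2 q3 q4 : ℝ}
    (h : (q2 - p2) ^ 2 + (q3 - p3) ^ 2 + (q4 - p4) ^ 2 = 1)
    (h1 : (r2 - p2) ^ 2 + (r3 - p3) ^ 2 + (r4 - p4) ^ 2 ≤ 1 / 4)
    (h2 : (r2 - q2) ^ 2 + (r3 - q3) ^ 2 + (r4 - q4) ^ 2 ≤ 1 / 4) :
    r2 = (p2 + q2) / 2 ∧ r3 = (p3 + q3) / 2 ∧ r4 = (p4 + q4) / 2 := by
  have h3 : (r2 - (p2 + q2) / 2) ^ 2 + (r3 - (p3 + q3) / 2) ^ 2 + (r4 - (p4 + q4) / 2) ^ 2 ≤ 0 := by
    have : (r2 - (p2 + q2) / 2) ^ 2 + (r3 - (p3 + q3) / 2) ^ 2 + (r4 - (p4 + q4) / 2) ^ 2 =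
      ((r2 - p2) ^ 2 + (r3 - p3) ^ 2 + (r4 - p4) ^ 2) / 2 +
      ((r2 - q2) ^ 2 + (r3 - q3) ^ 2 + (r4 - q4) ^ 2) / 2 -
      ((q2 - p2) ^ 2 + (q3 - p3) ^ 2 + (q4 - p4) ^ 2) / 4 := by ring
    rw [this, h]
    linarith
  have s2 := sq_nonneg (r2 - (p2 + q2) / 2)
  have s3 := sq_nonneg (r3 - (p3 + q3) / 2)
  have s4 := sq_nonneg (r4 - (p4 + q4) / 2)
  have h4 : (r2 - (p2 + q2) / 2) ^ 2 = 0 := by linarith
  have h5 : (r3 - (p3 + q3) / 2) ^ 2 = 0 := by linarith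
  have h6 : (r4 - (p4 + q4) / 2) ^ 2 = 0 := by linarith
  exact ⟨sub_eq_zero.1 (pow_eq_zero_iff two_ne_zero |>.1 h4),
    sub_eq_zero.1 (pow_eq_zero_iff two_ne_zero |>.1 h5),
    sub_eq_zero.1 (pow_eq_zero_iff two_ne_zero |>.1 h6)⟩

/-- three unit vectors with a determinant of absolute value at least one are orthonormal -/
theorem orth {a2 a3 a4 b2 b3 b4 c2 c3 c4 : ℝ}
    (ha : a2 ^ 2 + a3 ^ 2 + a4 ^ 2 = 1) (hb : b2 ^ 2 + b3 ^ 2 + b4 ^ 2 = 1)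
    (hc : c2 ^ 2 + c3 ^ 2 + c4 ^ 2 = 1) (hd : 1 ≤ d3 a2 a3 a4 b2 b3 b4 c2 c3 c4 ^ 2) :
    a2 * b2 + a3 * b3 + a4 * b4 = 0 ∧ a2 * c2 + a3 * c3 + a4 * c4 = 0 ∧
      b2 * c2 + b3 * c3 + b4 * c4 = 0 := by
  have g1 := Pool.Agent.Helper4.Vol5.PkAX.gram3 a2 a3 a4 b2 b3 b4 c2 c3 c4
  have g2 := Pool.Agent.Helper4.Vol5.PkAX.gram3 a2 a3 a4 c2 c3 c4 b2 b3 b4
  have g3 := Pool.Agent.Helper4.Vol5.PkAX.gram3 b2 b3 b4 c2 c3 c4 a2 a3 a4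
  have e2 : d3 a2 a3 a4 c2 c3 c4 b2 b3 b4 = -(d3 a2 a3 a4 b2 b3 b4 c2 c3 c4) := by
    unfold d3; ring
  have e3 : d3 b2 b3 b4 c2 c3 c4 a2 a3 a4 = d3 a2 a3 a4 b2 b3 b4 c2 c3 c4 := by
    unfold d3; ring
  rw [e2, neg_sq] at g2
  rw [e3] at g3
  rw [ha, hb, hc] at g1 g2 g3
  refine ⟨?_, ?_, ?_⟩
  · have h : (a2 * b2 + a3 * b3 + a4 * b4) ^ 2 = 0 :=
      le_antisymm (by linarith) (sq_nonneg _)
    exact pow_eq_zero_iff two_ne_zero |>.1 h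
  · have h : (a2 * c2 + a3 * c3 + a4 * c4) ^ 2 = 0 :=
      le_antisymm (by linarith) (sq_nonneg _)
    exact pow_eq_zero_iff two_ne_zero |>.1 h
  · have h : (b2 * c2 + b3 * c3 + b4 * c4) ^ 2 = 0 :=
      le_antisymm (by linarith) (sq_nonneg _)
    exact pow_eq_zero_iff two_ne_zero |>.1 h

theorem thm (h : G_Q222E) (hF : G_FRM5) : G_P222E := by
  intro t ht hmax y hy hq
  obtain ⟨L, ε, hε, hdt, he0, he1, hf0, hf1, hg0, hg1, hn1, hn0⟩ :=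
    hF (y 1 - y 0) (y 3 - y 2) (y 5 - y 4) (y 7 - y 6)
  obtain ⟨x, hx⟩ : ∃ x : Fin 8 → E 5, ∀ k, x k = L (y k - y 0) := ⟨_, fun _ => rfl⟩
  have hsub : ∀ i j, x i - x j = L (y i - y j) := by
    intro i j
    rw [hx, hx, ← map_sub]
    congr 1
    abel
  have hd : ∀ i j, ‖x i - x j‖ ≤ 1 := by
    intro i j
    rw [hsub, LinearIsometryEquiv.norm_map, ← dist_eq_norm]
    exact hy i j
  have hx0 : ∀ m : Fin 5, x 0 m = 0 := by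
    intro m
    rw [hx]
    simp
  obtain ⟨Δ, hΔ⟩ : ∃ Δ : ℝ, Δ = d3 (L (y 1 - y 0) 2) (L (y 1 - y 0) 3) (L (y 1 - y 0) 4)
    (L (y 3 - y 2) 2) (L (y 3 - y 2) 3) (L (y 3 - y 2) 4)
    (L (y 5 - y 4) 2) (L (y 5 - y 4) 3) (L (y 5 - y 4) 4) := ⟨_, rfl⟩
  have hB : ∀ p q : E 5, ε * dt (y 1 - y 0) (y 3 - y 2) (y 5 - y 4) p q =
      Δ * (L p 0 * L q 1 - L p 1 * L q 0) := by
    intro p q
    rw [← hdt, dte _ _ _ _ _ he0 he1 hf0 hf1 hg0 hg1, hΔ]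
  rw [← hsub] at he0 he1 hf0 hf1 hg0 hg1 hn1 hn0
  rw [← hsub 1 0, ← hsub 3 2, ← hsub 5 4] at hΔ
  have g2 : x 7 1 = x 6 1 := by
    rw [PiLp.sub_apply] at hn1
    exact sub_eq_zero.1 hn1
  have g3 : x 6 0 ≤ x 7 0 := by
    rw [PiLp.sub_apply] at hn0
    exact sub_nonneg.1 hn0
  have hP : ε * q222 y = Δ * ((x 2 0 * x 4 1 - x 2 1 * x 4 0) + (x 4 0 * x 6 1 - x 4 1 * x 6 0) +
      (x 6 0 * x 6 1 - x 6 1 * x 7 0)) := by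
    have : ε * q222 y = ε * dt (y 1 - y 0) (y 3 - y 2) (y 5 - y 4) (y 2 - y 0) (y 4 - y 0) +
        ε * dt (y 1 - y 0) (y 3 - y 2) (y 5 - y 4) (y 4 - y 0) (y 6 - y 0) +
        ε * dt (y 1 - y 0) (y 3 - y 2) (y 5 - y 4) (y 6 - y 0) (y 7 - y 0) := by
      unfold q222
      ring
    rw [this, hB, hB, hB, ← hx 2, ← hx 4, ← hx 6, ← hx 7, g2]
    ring
  have hab : |q222 y| = |ε * q222 y| := by
    rcases hε with rfl | rfl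
    · rw [one_mul]
    · rw [neg_one_mul, abs_neg]
  -- the distances
  have A : ∀ k, x k 0 ^ 2 + x k 1 ^ 2 ≤ 1 - ‖x 1 - x 0‖ ^ 2 / 4 := by
    intro k
    have := pt_seg (x k) (x 0) (x 1) he0 he1 (hd k 0) (hd k 1)
    rwa [hx0, hx0, sub_zero, sub_zero] at this
  have B : ∀ k, (x k 0 - x 2 0) ^ 2 + (x k 1 - x 2 1) ^ 2 ≤ 1 - ‖x 3 - x 2‖ ^ 2 / 4 := fun k =>
    pt_seg (x k) (x 2) (x 3) hf0 hf1 (hd k 2) (hd k 3)
  have D : ∀ k, (x k 0 - x 4 0) ^ 2 + (x k 1 - x 4 1) ^ 2 ≤ 1 - ‖x 5 - x 4‖ ^ 2 / 4 := fun k =>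
    pt_seg (x k) (x 4) (x 5) hg0 hg1 (hd k 4) (hd k 5)
  have AB : x 2 0 ^ 2 + x 2 1 ^ 2 ≤ 1 - (‖x 1 - x 0‖ ^ 2 + ‖x 3 - x 2‖ ^ 2) / 4 := by
    have := seg_seg (x 2) (x 3) (x 0) (x 1) hf0 hf1 he0 he1 (hd 2 0) (hd 2 1) (hd 3 0) (hd 3 1)
    rw [hx0, hx0, sub_zero, sub_zero] at this
    linarith
  have AD : x 4 0 ^ 2 + x 4 1 ^ 2 ≤ 1 - (‖x 1 - x 0‖ ^ 2 + ‖x 5 - x 4‖ ^ 2) / 4 := by
    have := seg_seg (x 4) (x 5) (x 0) (x 1) hg0 hg1 he0 he1 (hd 4 0) (hd 4 1) (hd 5 0) (hd 5 1)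
    rw [hx0, hx0, sub_zero, sub_zero] at this
    linarith
  have BD : (x 2 0 - x 4 0) ^ 2 + (x 2 1 - x 4 1) ^ 2 ≤
      1 - (‖x 3 - x 2‖ ^ 2 + ‖x 5 - x 4‖ ^ 2) / 4 :=
    seg_seg (x 2) (x 3) (x 4) (x 5) hf0 hf1 hg0 hg1 (hd 2 4) (hd 2 5) (hd 3 4) (hd 3 5)
  have hwu : (x 7 0 - x 6 0) ^ 2 ≤ 1 := by
    have := coord (x 7) (x 6) (hd 7 6)
    linarith [sq_nonneg (x 7 1 - x 6 1), sq_nonneg (x 7 2 - x 6 2), sq_nonneg (x 7 3 - x 6 3),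
      sq_nonneg (x 7 4 - x 6 4)]
  have A7 := A 7
  have B7 := B 7
  have D7 := D 7
  rw [g2] at A7 B7 D7
  have hΔl : |Δ| ≤ ‖x 1 - x 0‖ * ‖x 3 - x 2‖ * ‖x 5 - x 4‖ := by
    refine abs_le_of_sq_le_sq ?_ (by positivity)
    rw [hΔ]
    have := Pool.Agent.Helper4.Vol5.PkAX.had3 ((x 1 - x 0) 2) ((x 1 - x 0) 3) ((x 1 - x 0) 4)
      ((x 3 - x 2) 2) ((x 3 - x 2) 3) ((x 3 - x 2) 4) ((x 5 - x 4) 2) ((x 5 - x 4) 3)
      ((x 5 - x 4) 4)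
    rw [mul_pow, mul_pow, nsq (x 1 - x 0), nsq (x 3 - x 2), nsq (x 5 - x 4), he0, he1, hf0, hf1,
      hg0, hg1]
    linarith
  rw [hab, hP, abs_mul] at hq
  have hval : h5 t ≤ 2 * (‖x 1 - x 0‖ * ‖x 3 - x 2‖ * ‖x 5 - x 4‖ *
      |(x 2 0 * x 4 1 - x 2 1 * x 4 0) + (x 4 0 * x 6 1 - x 4 1 * x 6 0) +
      (x 6 0 * x 6 1 - x 6 1 * x 7 0)|) :=
    hq.trans (mul_le_mul_of_nonneg_left (mul_le_mul_of_nonneg_right hΔl (abs_nonneg _))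
      zero_le_two)
  obtain ⟨k1, k2, k3, k4, k5, k6, k7, k8, k9⟩ := h t ht hmax ‖x 1 - x 0‖ ‖x 3 - x 2‖ ‖x 5 - x 4‖
    (x 2 0) (x 2 1) (x 4 0) (x 4 1) (x 6 0)
    (x 6 1) (x 7 0) (norm_nonneg _) (hd 1 0) (norm_nonneg _) (hd 3 2) (norm_nonneg _) (hd 5 4) g3
    AB AD BD (A 6) A7 (B 6) B7 (D 6) D7 hwu hval
  obtain ⟨ht0, ht1⟩ := ht
  set M := hh t with hM
  set v := yy t with hv
  set r := rr with hr
  have hr2 : r ^ 2 = 1 / 2 := by rw [hr, rr]; exact Real.sq_sqrt (by norm_num)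
  have hM2 : M ^ 2 = 3 / 2 - t ^ 2 := by rw [hM, hh]; exact Real.sq_sqrt (by nlinarith)
  have hv2 : (2 * v) ^ 2 = 6 - (1 + 2 * t) ^ 2 := by
    rw [hv, yy, mul_div_cancel₀ _ (two_ne_zero)]
    exact Real.sq_sqrt (by nlinarith)
  have hv0 : 0 ≤ v := by rw [hv, yy]; positivity
  have hM0 : 0 < M := by rw [hM, hh]; exact Real.sqrt_pos.2 (by nlinarith)
  have hf : h5 t = M + 2 * (t * v) := by
    rw [h5, hM, hv, hh, yy]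
    ring
  have hpos : 0 < h5 t := by
    rw [hf]
    have := mul_nonneg ht0 hv0
    linarith
  obtain ⟨τ, hτ, d2, d6⟩ : ∃ τ : ℝ, τ ^ 2 = 1 ∧ x 2 1 = τ * (r * (v - M)) ∧ x 6 1 = τ * (r * v) := by
    rcases k9 with ⟨h1, h2⟩ | ⟨h1, h2⟩
    · exact ⟨1, by norm_num, by rw [h1]; ring, by rw [h2]; ring⟩
    · exact ⟨-1, by norm_num, by rw [h1]; ring, by rw [h2]; ring⟩
  have hτa : |τ| = 1 := by
    rw [← sq_eq_sq₀ (abs_nonneg _) zero_le_one, sq_abs, hτ]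
    norm_num
  have hsum : (x 2 0 * x 4 1 - x 2 1 * x 4 0) + (x 4 0 * x 6 1 - x 4 1 * x 6 0) +
      (x 6 0 * x 6 1 - x 6 1 * x 7 0) = τ * (-(h5 t / 2)) := by
    rw [k4, k5, k6, k7, k8, d2, d6, hf]
    linear_combination (-(τ * M) - 2 * τ * t * v) * hr2
  rw [hsum, abs_mul, hτa, one_mul, abs_neg, abs_of_pos (half_pos hpos)] at hq
  have hΔ1 : 1 ≤ |Δ| := by
    by_contra hlt
    push Not at hlt
    have := mul_lt_mul_of_pos_right hlt hpos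
    linarith
  have hΔ2 : 1 ≤ Δ ^ 2 := by
    rw [← sq_abs]
    nlinarith [abs_nonneg Δ]
  rw [hΔ] at hΔ2
  have n1 : ((x 1 - x 0) 2) ^ 2 + ((x 1 - x 0) 3) ^ 2 + ((x 1 - x 0) 4) ^ 2 = 1 := by
    have := nsq (x 1 - x 0)
    rw [k1, he0, he1] at this
    linarith
  have n2 : ((x 3 - x 2) 2) ^ 2 + ((x 3 - x 2) 3) ^ 2 + ((x 3 - x 2) 4) ^ 2 = 1 := by
    have := nsq (x 3 - x 2)
    rw [k2, hf0, hf1] at this
    linarith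
  have n3 : ((x 5 - x 4) 2) ^ 2 + ((x 5 - x 4) 3) ^ 2 + ((x 5 - x 4) 4) ^ 2 = 1 := by
    have := nsq (x 5 - x 4)
    rw [k3, hg0, hg1] at this
    linarith
  obtain ⟨o1, o2, o3⟩ := orth n1 n2 n3 hΔ2
  have hco : ∀ i j, (x i 0 - x j 0) ^ 2 + (x i 1 - x j 1) ^ 2 + (x i 2 - x j 2) ^ 2 +
      (x i 3 - x j 3) ^ 2 + (x i 4 - x j 4) ^ 2 ≤ 1 := fun i j => coord (x i) (x j) (hd i j)
  rw [PiLp.sub_apply, hx0, sub_zero] at he0 he1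
  rw [PiLp.sub_apply, sub_eq_zero] at hf0 hf1 hg0 hg1
  have q1 : (x 1 2 - x 0 2) ^ 2 + (x 1 3 - x 0 3) ^ 2 + (x 1 4 - x 0 4) ^ 2 = 1 := by
    simpa only [PiLp.sub_apply] using n1
  have q2 : (x 3 2 - x 2 2) ^ 2 + (x 3 3 - x 2 3) ^ 2 + (x 3 4 - x 2 4) ^ 2 = 1 := by
    simpa only [PiLp.sub_apply] using n2
  have q3 : (x 5 2 - x 4 2) ^ 2 + (x 5 3 - x 4 3) ^ 2 + (x 5 4 - x 4 4) ^ 2 = 1 := by
    simpa only [PiLp.sub_apply] using n3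
  have sq1 : (r / 2 + r * t) ^ 2 + (τ * (r * v)) ^ 2 = 3 / 4 := by
    linear_combination (r * v) ^ 2 * hτ + ((1 / 2 + t) ^ 2 + v ^ 2) * hr2 + hv2 / 8
  have sq2 : (r * t) ^ 2 + (τ * (r * M)) ^ 2 = 3 / 4 := by
    linear_combination (r * M) ^ 2 * hτ + (t ^ 2 + M ^ 2) * hr2 + hM2 / 2
  have e60 : (-(r / 2) - r * t - 0) ^ 2 + (τ * (r * v) - 0) ^ 2 = 3 / 4 := by
    linear_combination sq1
  have e62 : (-(r / 2) - r * t - -(r / 2)) ^ 2 + (τ * (r * v) - τ * (r * (v - M))) ^ 2 =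
      3 / 4 := by linear_combination sq2
  have e72 : (-(r / 2) + r * t - -(r / 2)) ^ 2 + (τ * (r * v) - τ * (r * (v - M))) ^ 2 =
      3 / 4 := by linear_combination sq2
  have e74 : (-(r / 2) + r * t - -r) ^ 2 + (τ * (r * v) - 0) ^ 2 = 3 / 4 := by
    linear_combination sq1
  -- the last three coordinates
  obtain ⟨r62, r63, r64⟩ : x 6 2 = (x 0 2 + x 1 2) / 2 ∧ x 6 3 = (x 0 3 + x 1 3) / 2 ∧
      x 6 4 = (x 0 4 + x 1 4) / 2 := by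
    refine mid q1 ?_ ?_
    · have := hco 6 0
      rw [hx0 0, hx0 1, k7, d6] at this
      linarith only [this, e60]
    · have := hco 6 1
      rw [he0, he1, k7, d6] at this
      linarith only [this, e60]
  obtain ⟨s62, s63, s64⟩ : x 6 2 = (x 2 2 + x 3 2) / 2 ∧ x 6 3 = (x 2 3 + x 3 3) / 2 ∧
      x 6 4 = (x 2 4 + x 3 4) / 2 := by
    refine mid q2 ?_ ?_
    · have := hco 6 2
      rw [k6, k7, d2, d6] at this
      linarith only [this, e62]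
    · have := hco 6 3
      rw [hf0, hf1, k6, k7, d2, d6] at this
      linarith only [this, e62]
  obtain ⟨r72, r73, r74⟩ : x 7 2 = (x 2 2 + x 3 2) / 2 ∧ x 7 3 = (x 2 3 + x 3 3) / 2 ∧
      x 7 4 = (x 2 4 + x 3 4) / 2 := by
    refine mid q2 ?_ ?_
    · have := hco 7 2
      rw [g2, k6, k8, d2, d6] at this
      linarith only [this, e72]
    · have := hco 7 3
      rw [g2, hf0, hf1, k6, k8, d2, d6] at this
      linarith only [this, e72]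
  obtain ⟨s72, s73, s74⟩ : x 7 2 = (x 4 2 + x 5 2) / 2 ∧ x 7 3 = (x 4 3 + x 5 3) / 2 ∧
      x 7 4 = (x 4 4 + x 5 4) / 2 := by
    refine mid q3 ?_ ?_
    · have := hco 7 4
      rw [g2, k4, k5, k8, d6] at this
      linarith only [this, e74]
    · have := hco 7 5
      rw [g2, hg0, hg1, k4, k5, k8, d6] at this
      linarith only [this, e74]
  rw [hx0 2] at r62
  rw [hx0 3] at r63
  rw [hx0 4] at r64
  have key : ∀ k, fI hτ n1 n2 n3 o1 o2 o3 (Q5 t k) +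
      !₂[-(r / 2), 0, x 1 2 / 2, x 1 3 / 2, x 1 4 / 2] = x k := by
    intro k
    rw [fI_apply]
    fin_cases k
    · refine ext5 ?_ ?_ ?_ ?_ ?_
      · simp [Q5, hx0, ← hr]
      · simp [Q5, hx0]
      · simp [Q5, hx0]; ring
      · simp [Q5, hx0]; ring
      · simp [Q5, hx0]; ring
    · refine ext5 ?_ ?_ ?_ ?_ ?_
      · simp [Q5, he0, ← hr]
      · simp [Q5, he1]
      · simp [Q5, hx0]; ring
      · simp [Q5, hx0]; ring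
      · simp [Q5, hx0]; ring
    · refine ext5 ?_ ?_ ?_ ?_ ?_
      · simp [Q5, k6]
      · simp [Q5, d2, ← hv, ← hM, ← hr]
      · simp [Q5]; linarith only [r62, s62, r72, s72]
      · simp [Q5]; linarith only [r63, s63, r73, s73]
      · simp [Q5]; linarith only [r64, s64, r74, s74]
    · refine ext5 ?_ ?_ ?_ ?_ ?_
      · simp [Q5, hf0, k6]
      · simp [Q5, hf1, d2, ← hv, ← hM, ← hr]
      · simp [Q5]; linarith only [r62, s62, r72, s72]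
      · simp [Q5]; linarith only [r63, s63, r73, s73]
      · simp [Q5]; linarith only [r64, s64, r74, s74]
    · refine ext5 ?_ ?_ ?_ ?_ ?_
      · simp [Q5, k4, ← hr]; ring
      · simp [Q5, k5]
      · simp [Q5]; linarith only [r62, s62, r72, s72]
      · simp [Q5]; linarith only [r63, s63, r73, s73]
      · simp [Q5]; linarith only [r64, s64, r74, s74]
    · refine ext5 ?_ ?_ ?_ ?_ ?_
      · simp [Q5, hg0, k4, ← hr]; ring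
      · simp [Q5, hg1, k5]
      · simp [Q5]; linarith only [r62, s62, r72, s72]
      · simp [Q5]; linarith only [r63, s63, r73, s73]
      · simp [Q5]; linarith only [r64, s64, r74, s74]
    · refine ext5 ?_ ?_ ?_ ?_ ?_
      · simp [Q5, k7, ← hr]; ring
      · simp [Q5, d6, ← hv, ← hr]
      · simp [Q5]; linarith only [r62, s62, r72, s72]
      · simp [Q5]; linarith only [r63, s63, r73, s73]
      · simp [Q5]; linarith only [r64, s64, r74, s74]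
    · refine ext5 ?_ ?_ ?_ ?_ ?_
      · simp [Q5, k8, ← hr]; ring
      · simp [Q5, g2, d6, ← hv, ← hr]
      · simp [Q5]; linarith only [r62, s62, r72, s72]
      · simp [Q5]; linarith only [r63, s63, r73, s73]
      · simp [Q5]; linarith only [r64, s64, r74, s74]
  refine ⟨(((fI hτ n1 n2 n3 o1 o2 o3).toIsometryEquiv.trans
    (IsometryEquiv.addRight !₂[-(r / 2), 0, x 1 2 / 2, x 1 3 / 2, x 1 4 / 2])).trans
      L.symm.toIsometryEquiv).trans (IsometryEquiv.addRight (y 0)), fun k => ?_⟩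
  change L.symm (fI hτ n1 n2 n3 o1 o2 o3 (Q5 t k) +
    !₂[-(r / 2), 0, x 1 2 / 2, x 1 3 / 2, x 1 4 / 2]) + y 0 = y k
  rw [key, hx, LinearIsometryEquiv.symm_apply_apply, sub_add_cancel]

end Pool.Agent.Helper89.Vol5.PkP222E
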