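import Pool.Agent.Helper89.Vol5.PFB1

/-! # V58 : the packet PFB, second part -/

set_option autoImplicit false
set_option maxRecDepth 100000

namespace Pool.Agent.Helper89.Vol5.PkPFB

open Pool.Agent.Helper86.Poly Pool.Agent.Helper89.Vol4.PkPF

theorem pfle (y : Fin 7 → E 4) (hy : ∀ i j, dist (y i) (y j) ≤ 1)
    (hc : ∀ i, dist (y 0) (y i) ^ 2 ≤ 0.810775) : Vol4.pf y ≤ 0.94 := by
  have hn : ∀ i, ‖y i - y 0‖ ≤ 1 := fun i => by rw [← dist_eq_norm]; exact hy i 0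
  have hW := Pool.Agent.Helper91.Vol4.PkWIT.thm y hy
  simp only [Fin.sum_univ_seven] at hW
  have sy : ∀ i j : Fin 7, dist (y i) (y j) = dist (y j) (y i) := fun i j => dist_comm _ _
  have sz : ∀ i : Fin 7, dist (y i) (y i) = 0 := fun i => dist_self _
  have hW2 : dist (y 0) (y 1) ^ 2 + dist (y 0) (y 2) ^ 2 + dist (y 0) (y 3) ^ 2 + dist (y 0) (y 4) ^ 2 + dist (y 0) (y 5) ^ 2 + dist (y 0) (y 6) ^ 2 + dist (y 1) (y 2) ^ 2 + dist (y 1) (y 3) ^ 2 + dist (y 1) (y 4) ^ 2 + dist (y 1) (y 5) ^ 2 + dist (y 1) (y 6) ^ 2 + dist (y 2) (y 3) ^ 2 + dist (y 2) (y 4) ^ 2 + dist (y 2) (y 5) ^ 2 + dist (y 2) (y 6) ^ 2 + dist (y 3) (y 4) ^ 2 + dist (y 3) (y 5) ^ 2 + dist (y 3) (y 6) ^ 2 + dist (y 4) (y 5) ^ 2 + dist (y 4) (y 6) ^ 2 + dist (y 5) (y 6) ^ 2 ≤ 19 := by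
    rw [sz 0, sz 1, sz 2, sz 3, sz 4, sz 5, sz 6, sy 1 0, sy 2 0, sy 3 0, sy 4 0, sy 5 0, sy 6 0, sy 2 1, sy 3 1, sy 4 1, sy 5 1, sy 6 1, sy 3 2, sy 4 2, sy 5 2, sy 6 2, sy 4 3, sy 5 3, sy 6 3, sy 5 4, sy 6 4, sy 6 5] at hW
    linarith only [hW]
  have hW3 : inner ℝ (y 1 - y 0) (y 1 - y 0) + inner ℝ (y 2 - y 0) (y 2 - y 0) + inner ℝ (y 3 - y 0) (y 3 - y 0) + inner ℝ (y 4 - y 0) (y 4 - y 0) + inner ℝ (y 5 - y 0) (y 5 - y 0) + inner ℝ (y 6 - y 0) (y 6 - y 0) + (inner ℝ (y 1 - y 0) (y 1 - y 0) + inner ℝ (y 2 - y 0) (y 2 - y 0) - 2 * inner ℝ (y 1 - y 0) (y 2 - y 0)) + (inner ℝ (y 1 - y 0) (y 1 - y 0) + inner ℝ (y 3 - y 0) (y 3 - y 0) - 2 * inner ℝ (y 1 - y 0) (y 3 - y 0)) + (inner ℝ (y 1 - y 0) (y 1 - y 0) + inner ℝ (y 4 - y 0) (y 4 - y 0) - 2 * inner ℝ (y 1 - y 0) (y 4 - y 0)) + (inner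 ℝ (y 1 - y 0) (y 1 - y 0) + inner ℝ (y 5 - y 0) (y 5 - y 0) - 2 * inner ℝ (y 1 - y 0) (y 5 - y 0)) + (inner ℝ (y 1 - y 0) (y 1 - y 0) + inner ℝ (y 6 - y 0) (y 6 - y 0) - 2 * inner ℝ (y 1 - y 0) (y 6 - y 0)) + (inner ℝ (y 2 - y 0) (y 2 - y 0) + inner ℝ (y 3 - y 0) (y 3 - y 0) - 2 * inner ℝ (y 2 - y 0) (y 3 - y 0)) + (inner ℝ (y 2 - y 0) (y 2 - y 0) + inner ℝ (y 4 - y 0) (y 4 - y 0) - 2 * inner ℝ (y 2 - y 0) (y 4 - y 0)) + (inner ℝ (y 2 - y 0) (y 2 - y 0) + inner ℝ (y 5 - y 0) (y 5 - y 0) - 2 * inner ℝ (y 2 - y 0) (y 5 - y 0)) + (inner ℝ (y 2 - y 0) (y 2 - y 0) + inner ℝ (y 6 - y 0) (y 6 - y 0) - 2 * inner ℝ (y 2 - y 0) (y 6 - y 0)) + (inner ℝ (y 3 - y 0) (y 3 - y 0) + inner ℝ (y 4 - y 0) (y 4 - y 0) - 2 * inner ℝ (y 3 - y 0) (y 4 - y 0)) + (inner ℝ (y 3 - y 0) (y 3 - y 0) + inner ℝ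 (y 5 - y 0) (y 5 - y 0) - 2 * inner ℝ (y 3 - y 0) (y 5 - y 0)) + (inner ℝ (y 3 - y 0) (y 3 - y 0) + inner ℝ (y 6 - y 0) (y 6 - y 0) - 2 * inner ℝ (y 3 - y 0) (y 6 - y 0)) + (inner ℝ (y 4 - y 0) (y 4 - y 0) + inner ℝ (y 5 - y 0) (y 5 - y 0) - 2 * inner ℝ (y 4 - y 0) (y 5 - y 0)) + (inner ℝ (y 4 - y 0) (y 4 - y 0) + inner ℝ (y 6 - y 0) (y 6 - y 0) - 2 * inner ℝ (y 4 - y 0) (y 6 - y 0)) + (inner ℝ (y 5 - y 0) (y 5 - y 0) + inner ℝ (y 6 - y 0) (y 6 - y 0) - 2 * inner ℝ (y 5 - y 0) (y 6 - y 0)) ≤ 19 := by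
    simp only [dsq]; simp only [dsz]; exact hW2
  have H := alg
    (ina (hn 1) (hn 1)) (ina (hn 1) (hn 2)) (ina (hn 1) (hn 3)) (ina (hn 1) (hn 4)) (ina (hn 1) (hn 5)) (ina (hn 1) (hn 6)) (ina (hn 2) (hn 2)) (ina (hn 2) (hn 3)) (ina (hn 2) (hn 4)) (ina (hn 2) (hn 5)) (ina (hn 2) (hn 6)) (ina (hn 3) (hn 3)) (ina (hn 3) (hn 4)) (ina (hn 3) (hn 5)) (ina (hn 3) (hn 6)) (ina (hn 4) (hn 4)) (ina (hn 4) (hn 5)) (ina (hn 4) (hn 6)) (ina (hn 5) (hn 5)) (ina (hn 5) (hn 6)) (ina (hn 6) (hn 6))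
    (abs_le.1 (Pool.Agent.Helper46.Vol4.PkHAD.thm _ _ _ _ (hn 1) (hn 2) (hn 3) (hn 4))) (abs_le.1 (Pool.Agent.Helper46.Vol4.PkHAD.thm _ _ _ _ (hn 1) (hn 2) (hn 3) (hn 5))) (abs_le.1 (Pool.Agent.Helper46.Vol4.PkHAD.thm _ _ _ _ (hn 1) (hn 2) (hn 3) (hn 6))) (abs_le.1 (Pool.Agent.Helper46.Vol4.PkHAD.thm _ _ _ _ (hn 1) (hn 2) (hn 4) (hn 5))) (abs_le.1 (Pool.Agent.Helper46.Vol4.PkHAD.thm _ _ _ _ (hn 1) (hn 2) (hn 4) (hn 6))) (abs_le.1 (Pool.Agent.Helper46.Vol4.PkHAD.thm _ _ _ _ (hn 1) (hn 2) (hn 5) (hn 6))) (abs_le.1 (Pool.Agent.Helper46.Vol4.PkHAD.thm _ _ _ _ (hn 1) (hn 3) (hn 4) (hn 5))) (abs_le.1 (Pool.Agent.Helper46.Vol4.PkHAD.thm _ _ _ _ (hn 1) (hn 3) (hn 4) (hn 6))) (abs_le.1 (Pool.Agent.Helper46.Vol4.PkHAD.thm _ _ _ _ (hn 1) (hn 3) (hn 5) (hn 6))) (abs_le.1 (Pool.Agent.Helper46.Vol4.PkHAD.thm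 _ _ _ _ (hn 1) (hn 4) (hn 5) (hn 6))) (abs_le.1 (Pool.Agent.Helper46.Vol4.PkHAD.thm _ _ _ _ (hn 2) (hn 3) (hn 4) (hn 5))) (abs_le.1 (Pool.Agent.Helper46.Vol4.PkHAD.thm _ _ _ _ (hn 2) (hn 3) (hn 4) (hn 6))) (abs_le.1 (Pool.Agent.Helper46.Vol4.PkHAD.thm _ _ _ _ (hn 2) (hn 3) (hn 5) (hn 6))) (abs_le.1 (Pool.Agent.Helper46.Vol4.PkHAD.thm _ _ _ _ (hn 2) (hn 4) (hn 5) (hn 6))) (abs_le.1 (Pool.Agent.Helper46.Vol4.PkHAD.thm _ _ _ _ (hn 3) (hn 4) (hn 5) (hn 6)))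
    ((dsz (y 0) (y 1)).trans_le (hc 1)) ((dsz (y 0) (y 2)).trans_le (hc 2)) ((dsz (y 0) (y 3)).trans_le (hc 3)) ((dsz (y 0) (y 4)).trans_le (hc 4)) ((dsz (y 0) (y 5)).trans_le (hc 5)) ((dsz (y 0) (y 6)).trans_le (hc 6)) ((dsq (y 0) (y 1) (y 2)).trans_le (dle hy 1 2)) ((dsq (y 0) (y 1) (y 3)).trans_le (dle hy 1 3)) ((dsq (y 0) (y 1) (y 4)).trans_le (dle hy 1 4)) ((dsq (y 0) (y 1) (y 5)).trans_le (dle hy 1 5)) ((dsq (y 0) (y 1) (y 6)).trans_le (dle hy 1 6)) ((dsq (y 0) (y 2) (y 3)).trans_le (dle hy 2 3)) ((dsq (y 0) (y 2) (y 4)).trans_le (dle hy 2 4)) ((dsq (y 0) (y 2) (y 5)).trans_le (dle hy 2 5)) ((dsq (y 0) (y 2) (y 6)).trans_le (dle hy 2 6)) ((dsq (y 0) (y 3) (y 4)).trans_le (dle hy 3 4)) ((dsq (y 0) (y 3) (y 5)).trans_le (dle hy 3 5)) ((dsq (y 0) (y 3) (y 6)).trans_le (dle hy 3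 6)) ((dsq (y 0) (y 4) (y 5)).trans_le (dle hy 4 5)) ((dsq (y 0) (y 4) (y 6)).trans_le (dle hy 4 6)) ((dsq (y 0) (y 5) (y 6)).trans_le (dle hy 5 6))
    hW3 (nG (y 1 - y 0) (y 2 - y 0) (y 3 - y 0) (y 4 - y 0) (y 5 - y 0) (y 6 - y 0))
    (bG (y 1 - y 0) (y 2 - y 0) (y 3 - y 0) (y 4 - y 0) (y 5 - y 0) (y 6 - y 0))
  unfold Vol4.pf
  linarith only [H]

theorem thm : G_PFB := by
  intro y hy hc
  have h1 := pfle y hy hc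
  let z : Fin 7 → E 4 := fun k => !₂[-(y k 0), y k 1, y k 2, y k 3]
  have hz : ∀ i j, dist (z i) (z j) = dist (y i) (y j) := by
    intro i j
    simp only [z, EuclideanSpace.dist_eq, Fin.sum_univ_four, Real.dist_eq]
    congr 1
    simp
    ring
  have h2 := pfle z (fun i j => by rw [hz]; exact hy i j) (fun i => by rw [hz]; exact hc i)
  have h3 : Vol4.pf z = -Vol4.pf y := by
    simp only [Vol4.pf, dte, z]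
    simp
    ring
  rw [h3] at h2
  exact abs_le.2 ⟨by linarith, h1⟩

end Pool.Agent.Helper89.Vol5.PkPFB
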