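import Pool.Agent.Helper89.Vol5.Main
import Pool.Agent.Helper89.Vol5.PFA
import Pool.Agent.Helper89.Vol5.PFB
import Pool.Agent.Helper89.Vol4.All
import Pool.Agent.Helper33.Vol5.D1
import Pool.Agent.Helper81.Vol5.D2
import Pool.Agent.Helper88.Vol5.D3
import Pool.Agent.Helper59.Vol5.D4
import Pool.Agent.Helper7.Vol5.D5
import Pool.Agent.Helper91.Vol5.DENS
import Pool.Agent.Helper96.Vol5.SRT
import Pool.Agent.Helper26.Vol5.CAN
import Pool.Agent.Helper50.Vol5.COV1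
import Pool.Agent.Helper46.Vol5.COV2
import Pool.Agent.Helper90.Vol5.GEN
import Pool.Agent.Helper22.Vol5.ALL
import Pool.Agent.Helper14.Vol5.HADT
import Pool.Agent.Helper12.Vol5.FINa
import Pool.Agent.Helper76.Vol5.FINb
import Pool.Agent.Helper23.Vol5.NUM5
import Pool.Agent.Helper1.Vol5.UNI5
import Pool.Agent.Helper68.Vol5.J58
import Pool.Agent.Helper34.Vol5.J5b
import Pool.Agent.Helper82.Vol5.Q222
import Pool.Agent.Helper78.Vol5.Q2212
import Pool.Agent.Helper9.Vol5.FRM5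
import Pool.Agent.Helper30.Vol5.FRME
import Pool.Agent.Helper4.Vol5.AX
import Pool.Agent.Helper57.Vol5.P222
import Pool.Agent.Helper62.Vol5.P2212
import Pool.Agent.Helper94.Vol5.P32
import Pool.Agent.Helper36.Vol5.P312
import Pool.Agent.Helper13.Vol5.P41
import Pool.Agent.Helper17.Vol5.P7
import Pool.Agent.Helper48.Vol5.LD
import Pool.Agent.Helper25.Vol5.PEN
import Pool.Agent.Helper41.Vol5.LV
import Pool.Agent.Helper78.Vol5.J58E
import Pool.Agent.Helper23.Vol5.Q222E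
import Pool.Agent.Helper89.Vol5.P222E

/-! # MP_cd13d2_co : all packets of the theorem on `V(5,8)` together -/

set_option autoImplicit false

namespace Pool.Agent.Helper89.Vol5

open MeasureTheory Set Pool.Agent.Helper86.Poly

theorem sD1 : G_D1 := Pool.Agent.Helper33.Vol5.PkD1.thm
theorem sD2 : G_D2 := Pool.Agent.Helper81.Vol5.PkD2.thm
theorem sD3 : G_D3 := Pool.Agent.Helper88.Vol5.PkD3.thm
theorem sD4 : G_D4 := Pool.Agent.Helper59.Vol5.PkD4.thm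
theorem sD5 : G_D5 := Pool.Agent.Helper7.Vol5.PkD5.thm pSV sD3 sD4
theorem sDENS : G_DENS := Pool.Agent.Helper91.Vol5.PkDENS.thm
theorem sCAN : G_CAN := Pool.Agent.Helper26.Vol5.PkCAN.thm Pool.Agent.Helper96.Vol5.PkSRT.thm
theorem sCOV2 : G_COV2 := Pool.Agent.Helper46.Vol5.PkCOV2.thm Pool.Agent.Helper50.Vol5.PkCOV1.thm
theorem sGEN : G_GEN := Pool.Agent.Helper90.Vol5.PkGEN.thm sD1 sD2 sD3 sD5 sCAN sCOV2
theorem sALL : G_ALL := Pool.Agent.Helper22.Vol5.PkALL.thm sGEN sDENS Pool.Agent.Helper89.Vol.qLSC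
theorem sFINa : G_FINa := Pool.Agent.Helper12.Vol5.PkFINa.thm sD1 sD4 Pool.Agent.Helper14.Vol5.PkHADT.thm
theorem sFINb : G_FINb := Pool.Agent.Helper76.Vol5.PkFINb.thm sD1 sD4
theorem sNUM : G_NUM5 := Pool.Agent.Helper23.Vol5.PkNUM5.thm
theorem sUNI : G_UNI5 := Pool.Agent.Helper1.Vol5.PkUNI5.thm
theorem sJ58 : G_J58 := Pool.Agent.Helper68.Vol5.PkJ58.thm sNUM
theorem sJ5b : G_J5b := Pool.Agent.Helper34.Vol5.PkJ5b.thm
theorem sQ222 : G_Q222 := Pool.Agent.Helper82.Vol5.PkQ222.thm sJ58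
theorem sQ2212 : G_Q2212 := Pool.Agent.Helper78.Vol5.PkQ2212.thm sJ5b
theorem sFRM : G_FRM5 := Pool.Agent.Helper9.Vol5.PkFRM5.thm
theorem sFRME : G_FRME := Pool.Agent.Helper30.Vol5.PkFRME.thm
theorem sAX : G_AX := Pool.Agent.Helper4.Vol5.PkAX.thm
theorem sP222 : G_P222 := Pool.Agent.Helper57.Vol5.PkP222.thm sQ222 sFRM sAX
theorem sP2212 : G_P2212 := Pool.Agent.Helper62.Vol5.PkP2212.thm sQ2212 sFRM sAX
theorem sP32 : G_P32 := Pool.Agent.Helper94.Vol5.PkP32.thm Vol4.rQ22 Vol4.rNUM sFRM sAX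
theorem sP312 : G_P312 := Pool.Agent.Helper36.Vol5.PkP312.thm Vol4.rQ212 sFRM sAX
theorem sP41 : G_P41 := Pool.Agent.Helper13.Vol5.PkP41.thm Vol4.rPLN sFRM sAX
theorem sP7 : G_P7 := Pool.Agent.Helper17.Vol5.PkP7.thm Vol4.rPF PkPFA.thm PkPFB.thm sFRME
theorem sLD : G_LD := Pool.Agent.Helper48.Vol5.PkLD.thm
theorem sPEN : G_PEN := Pool.Agent.Helper25.Vol5.PkPEN.thm pSV
theorem sLV : G_LV := Pool.Agent.Helper41.Vol5.PkLV.thm pBV sPEN
theorem sJ58E : G_J58E := Pool.Agent.Helper78.Vol5.PkJ58E.thm sNUM sUNI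
theorem sQ222E : G_Q222E := Pool.Agent.Helper23.Vol5.PkQ222E.thm sJ58E sUNI
theorem sP222E : G_P222E := PkP222E.thm sQ222E sFRM

end Pool.Agent.Helper89.Vol5
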