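import Pool.Agent.Helper89.Vol5.Goals

/-! # MP_cd13d2_co : the exact value of `V(5,8)`, second part: the equality case

Rules as in `Goals.lean`: every packet is a `def G_... : Prop`; prove `theorem thm : G_...` (with the hypotheses named in the
docstring). -/

set_option autoImplicit false

namespace Pool.Agent.Helper89.Vol5

open MeasureTheory Set Pool.Agent.Helper86.Poly

/-- G_J58E, equality in `G_J58` (compare `Pool.Agent.Helper46.Vol4.J47E` and `Pool.Agent.Helper68.Vol5.J58`): prove `theorem thm (hn : G_NUM5) (hu : G_UNI5) : G_J58E`.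
Proof. `h5 t₀ ≥ h5 (455/1000) > 1.8348`. Let `M0 = √(3/2 - t²)`. In case B (`t g1 < M0 g2`) and in case A with `t ≥ 54/100` the proof of `G_J58` gives `LHS ≤ 1.82`, a contradiction. So `M0 g2 ≤ t g1`, `t < 54/100` and
`LHS ≤ M0 g1 + t √(6 - (g1 + 2t)²)`. If `g1 < 1` this is strictly smaller than `h5 t` (`(1 - g1) > 0` and the strict inequality `t (1 + 2t) < M0 √B`, `B = 6 - (1 + 2t)²`), a contradiction to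
`h5 t ≤ h5 t₀`. So `g1 = 1`, `g2 = 0`, and `h5 t₀ ≤ LHS ≤ h5 t`, so `t = t₀` by `G_UNI5`, `t > 0`. Now `h5 t ≤ M + t S`, `M² ≤ M0² - 2 k t - k²`, so `M ≤ M0`, `S² ≤ 6 - (1 + 2t)²`; hence `M = M0`, `S = √(6 - (1 + 2t)²)` and
`k = 0`. -/
def G_J58E : Prop := ∀ t₀ ∈ Icc (0 : ℝ) (7 / 10), (∀ t ∈ Icc (0 : ℝ) (7 / 10), h5 t ≤ h5 t₀) →
  ∀ t k M g1 g2 S : ℝ, 0 ≤ t → t ^ 2 ≤ 1 / 2 → 0 ≤ k → 0 ≤ M → 0 ≤ g1 → 0 ≤ g2 → 0 ≤ S →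
  (k + t) ^ 2 + M ^ 2 ≤ 3 / 2 → g1 ^ 2 + g2 ^ 2 ≤ 1 →
  S ^ 2 + g1 ^ 2 + g2 ^ 2 + 4 * t ^ 2 + 4 * t * g1 ≤ 6 →
  h5 t₀ ≤ k * g2 + M * g1 + t * S →
  t = t₀ ∧ k = 0 ∧ M = hh t₀ ∧ g1 = 1 ∧ g2 = 0 ∧ S = 2 * yy t₀

/-- G_Q222E, equality in `G_Q222` (the proof of `G_Q222` is `Pool.Agent.Helper82.Vol5.Q222`; compare the V47 packet Q22E): prove `theorem thm (h : G_J58E) (hu : G_UNI5) : G_Q222E`.
Proof. Notation of `G_Q222` (`p = l1 l3`, `q = l2`, `α = p q √(2 - p)`, `β = 1/√(2 - p)`, `m`, `n`, `g = O - c`, `σ = c - u - w`). By `G_J58E` for `t' = √2 α |n|`, `k = √2 α |m0|`, `M = √2 α |m1|`, `g1 = √2 β |g0|`, `g2 = √2 β |g_1|`, `S = √2 β |σ1|`: `t' = t > 0`, `k = 0`,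
`M = hh t`, `g1 = 1`, `g2 = 0`, `S = 2 yy t > 0`. `3/2 = t² + hh² ≤ 2 p² (2 - p) q² (1 - q²/4)`, which is smaller than `3/2` unless `p = q = 1` (`p² (2 - p) ≤ 1`, `q² (1 - q²/4) ≤ 3/4`); so `l1 = l2 = l3 = 1`, `α = β = 1`. With `r = rr = 1/√2`:
`w0 - u0 = 2 r t`, `m0 = 0`, `|m1| = r hh`, `c1 = 0`, `|c0| = r`, `|2 u1| = 2 r yy`. Equality in the third condition of `G_J58` gives `σ0 = 0`: `u0 + w0 = c0`; so `u0 = c0/2 - r t`, `w0 = c0/2 + r t`, `b0 = c0/2`, `b1 = u1 - m1`. The value is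
`m × g + n × σ = m1 c0 - 2 r t u1`; its absolute value is `h5 t/2 = r hh r + 2 r t r yy`, so `m1 c0` and `- u1` have the same sign. If `c0 = r` then `m1` and `u1` have different signs, `|b1| = r (yy + hh)`, `b0² + b1² = (1/4 + (yy + hh)²)/2 > 1/2`
(`hh > 1.1`), a contradiction to `b0² + b1² ≤ 1/2`. So `c0 = -r` and `m1`, `u1` have the same sign, `b1 = ± r (yy - hh)` for `u1 = ± r yy`. -/
def G_Q222E : Prop := ∀ t ∈ Icc (0 : ℝ) (7 / 10), (∀ s ∈ Icc (0 : ℝ) (7 / 10), h5 s ≤ h5 t) →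
  ∀ l1 l2 l3 b0 b1 c0 c1 u0 u1 w0 : ℝ, 0 ≤ l1 → l1 ≤ 1 → 0 ≤ l2 → l2 ≤ 1 → 0 ≤ l3 → l3 ≤ 1 → u0 ≤ w0 →
  b0 ^ 2 + b1 ^ 2 ≤ 1 - (l1 ^ 2 + l2 ^ 2) / 4 → c0 ^ 2 + c1 ^ 2 ≤ 1 - (l1 ^ 2 + l3 ^ 2) / 4 →
  (b0 - c0) ^ 2 + (b1 - c1) ^ 2 ≤ 1 - (l2 ^ 2 + l3 ^ 2) / 4 →
  u0 ^ 2 + u1 ^ 2 ≤ 1 - l1 ^ 2 / 4 → w0 ^ 2 + u1 ^ 2 ≤ 1 - l1 ^ 2 / 4 →
  (u0 - b0) ^ 2 + (u1 - b1) ^ 2 ≤ 1 - l2 ^ 2 / 4 → (w0 - b0) ^ 2 + (u1 - b1) ^ 2 ≤ 1 - l2 ^ 2 / 4 →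
  (u0 - c0) ^ 2 + (u1 - c1) ^ 2 ≤ 1 - l3 ^ 2 / 4 → (w0 - c0) ^ 2 + (u1 - c1) ^ 2 ≤ 1 - l3 ^ 2 / 4 →
  (w0 - u0) ^ 2 ≤ 1 →
  h5 t ≤ 2 * (l1 * l2 * l3 * |(b0 * c1 - b1 * c0) + (c0 * u1 - c1 * u0) + (u0 * u1 - u1 * w0)|) →
  l1 = 1 ∧ l2 = 1 ∧ l3 = 1 ∧ c0 = -rr ∧ c1 = 0 ∧ b0 = -(rr / 2) ∧ u0 = -(rr / 2) - rr * t ∧
  w0 = -(rr / 2) + rr * t ∧
  ((b1 = rr * (yy t - hh t) ∧ u1 = rr * yy t) ∨ (b1 = -(rr * (yy t - hh t)) ∧ u1 = -(rr * yy t)))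

/-- G_P222E, equality in `G_P222` (the proof of `G_P222` is `Pool.Agent.Helper57.Vol5.P222`; compare `Pool.Agent.Helper34.Vol4.P22E`): prove `theorem thm (h : G_Q222E) (hF : G_FRM5) (hA : G_AX) : G_P222E`.
Proof. As for `G_P222`: `y' k = L (y k - y 0)`, `e = y' 1 - y' 0`, `e' = y' 3 - y' 2`, `e'' = y' 5 - y' 4`, `l1, l2, l3` their lengths, `q222 y = ± Δ s` where `s` is the planar sum and `|Δ| ≤ l1 l2 l3`. So `h5 t ≤ 2 l1 l2 l3 |s|` and `G_Q222E` gives `l1 = l2 = l3 = 1` and the first two coordinates of the `y' k`.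
Hence `|s| = h5 t/2` (`√(6 - (1 + 2t)²) = 2 yy`, `rr² = 1/2`), `h5 t > 0`, so `|Δ| ≥ 1`, and `e, e', e''` are orthonormal: `Δ² ≤ (‖e‖² ‖e'‖² - ⟪e, e'⟫²) ‖e''‖²` (`G_AX`), and the same for the permuted triples (`dt` is alternating, so `|Δ|` is the same), or the Gram determinant.
The squares of the planar distances `y' 6` to `y' 0`, `y' 7` to `y' 4`, `y' 6` and `y' 7` to `y' 2` are all `3/4` (`(1/2 + t)² + yy² = 3/2`, `t² + hh² = 3/2`, times `rr² = 1/2`). A point whose last three coordinates `r` satisfy `|r - p|², |r - q|² ≤ 1/4` with `|p - q| = 1` has `r = (p + q)/2`. So the last three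
coordinates of `y' 6` are the ones of the midpoint of `y' 0, y' 1` and of `y' 2, y' 3`, the ones of `y' 7` are those of the midpoint of `y' 2, y' 3` and of `y' 4, y' 5`: all equal to one vector `c`. So `y' k = ψ (Q5 t k)` with the isometry
`ψ x = (-x 0 - rr/2, ± x 1, c + x 2 e + x 3 e' + x 4 e'')` (`e, e', e''` in the last three coordinates, orthonormal). Compose the isometries. -/
def G_P222E : Prop := ∀ t ∈ Icc (0 : ℝ) (7 / 10), (∀ s ∈ Icc (0 : ℝ) (7 / 10), h5 s ≤ h5 t) →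
  ∀ y : Fin 8 → E 5, (∀ i j, dist (y i) (y j) ≤ 1) → h5 t ≤ 2 * |q222 y| →
    ∃ φ : E 5 ≃ᵢ E 5, ∀ k, φ (Q5 t k) = y k

end Pool.Agent.Helper89.Vol5
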