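import Pool.Agent.Helper89.Vol5.Goals2
import Pool.Agent.Helper89.Vol4.Main

/-! # MP_cd13d2_co : assembly of the theorem on `V(5,8)` from the packets -/

set_option autoImplicit false

namespace Pool.Agent.Helper89.Vol5

open MeasureTheory Set Pool.Agent.Helper86.Poly
open Pool.Agent.Helper89.Vol (hull_compact hull_ne_top G_TUP)
open Pool.Agent.Helper89.Vol4 (image_hull vol_image)

/-- for a sign pattern the sum is small or is the one of the extremal type -/
theorem alt (hFa : G_FINa) (hFb : G_FINb) (hP41 : G_P41) (hP32 : G_P32) (hP312 : G_P312)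
    (hP2212 : G_P2212) (hP7 : G_P7) (y : Fin 8 → E 5)
    (hy : ∀ i j, dist (y i) (y j) ≤ 1) {c : ℝ} {s : Fin 8 → ℝ} (hp : Pat c s) :
    T y c s ≤ 0.913 ∨ T y c s ≤ |q222 y| := by
  obtain ⟨hc, hs | hs⟩ := hp
  · left; have := hFa y hy c s hc hs; linarith
  · rcases hFb y c s hc hs with h | ⟨τ, h⟩
    · right; exact h
    · left
      have hd : ∀ i j, dist ((y ∘ τ) i) ((y ∘ τ) j) ≤ 1 := fun i j => hy _ _
      have h1 := hP41 (y ∘ τ) hd
      have h2 := hP32 (y ∘ τ) hd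
      have h3 := hP312 (y ∘ τ) hd
      have h4 := hP2212 (y ∘ τ) hd
      have h5 := hP7 (y ∘ τ) hd
      rcases h with h | h | h | h | h <;> linarith

/-- the upper bound for tuples -/
theorem up (hALL : G_ALL) (hFa : G_FINa) (hFb : G_FINb) (hP41 : G_P41) (hP32 : G_P32) (hP312 : G_P312)
    (hP2212 : G_P2212) (hP7 : G_P7) (hP222 : G_P222)
    {C : ℝ} (hC1 : 1.826 ≤ C)
    (hC : ∀ t ∈ Icc (0 : ℝ) (7 / 10), h5 t ≤ C) (x : Fin 8 → E 5) (hx : ∀ i j, dist (x i) (x j) ≤ 1) :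
    240 * (volume (convexHull ℝ (range x))).toReal ≤ C := by
  obtain ⟨σ, c, s, hp, h⟩ := hALL x
  have hd : ∀ i j, dist ((x ∘ σ) i) ((x ∘ σ) j) ≤ 1 := fun i j => hx _ _
  have hT : T (x ∘ σ) c s ≤ C / 2 := by
    rcases alt hFa hFb hP41 hP32 hP312 hP2212 hP7 (x ∘ σ) hd hp with h1 | h1
    · linarith
    · have := hP222 C hC (x ∘ σ) hd
      linarith
  have h2 : 120 * volume (convexHull ℝ (range x)) ≤ ENNReal.ofReal (C / 2) :=
    h.trans (ENNReal.ofReal_le_ofReal hT)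
  have h3 := ENNReal.toReal_mono ENNReal.ofReal_ne_top h2
  rw [ENNReal.toReal_mul, ENNReal.toReal_ofReal (by linarith)] at h3
  have h4 : (120 : ℝ) * (volume (convexHull ℝ (range x))).toReal ≤ C / 2 := by simpa using h3
  linarith

theorem main (hALL : G_ALL) (hFa : G_FINa) (hFb : G_FINb) (hP41 : G_P41) (hP32 : G_P32) (hP312 : G_P312)
    (hP2212 : G_P2212) (hP7 : G_P7) (hP222 : G_P222)
    (hPE : G_P222E) (hNUM : G_NUM5)
    (hUNI : G_UNI5) (hLD : G_LD) (hLV : G_LV) (hTUP : G_TUP) (hATT : G_ATT) :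
    IsGreatest {v : ℝ | ∃ P : Set (E 5), Admissible 5 8 P ∧ v = (volume P).toReal} (V 5 8) ∧
    ∃ t ∈ Icc (0 : ℝ) (7 / 10),
      128 * t ^ 6 + 192 * t ^ 5 - 288 * t ^ 4 - 416 * t ^ 3 + 192 * t ^ 2 + 180 * t - 75 = 0 ∧
      0.455 < t ∧ t < 0.4551 ∧ (∀ s ∈ Icc (0 : ℝ) (7 / 10), s ≠ t → h5 s < h5 t) ∧
      240 * V 5 8 = h5 t ∧ 0.0076453 < V 5 8 ∧ V 5 8 < 0.0076454 ∧
      ∀ P : Set (E 5), (Admissible 5 8 P ∧ (volume P).toReal = V 5 8) ↔
        ∃ φ : E 5 ≃ᵢ E 5, P = φ '' convexHull ℝ (range (Q5 t)) := by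
  obtain ⟨⟨N, hN, hmax⟩, hlo, hhi⟩ := hNUM
  have hmem : (455 / 1000 : ℝ) ∈ Icc (0 : ℝ) (7 / 10) := by constructor <;> norm_num
  have hfN1 : 1.834874 < h5 N := hlo.trans_le (hmax _ hmem)
  have hfN2 : h5 N < 1.834875 := hhi N hN
  obtain ⟨huni, hpol, hb1, hb2⟩ := hUNI N hN hmax
  obtain ⟨htup, p, hpd, hpv⟩ := hTUP 5 8 (by norm_num) (by norm_num)
  have hup := fun x hx => up hALL hFa hFb hP41 hP32 hP312 hP2212 hP7 hP222 (C := h5 N) (by linarith)
    hmax x hx
  have hQv : h5 N ≤ 240 * (volume (convexHull ℝ (range (Q5 N)))).toReal := by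
    have h := ENNReal.toReal_mono (ENNReal.mul_ne_top (by norm_num) (hull_ne_top (Q5 N))) (hLV N hN)
    rw [ENNReal.toReal_mul, ENNReal.toReal_ofReal (by linarith)] at h
    simpa using h
  have hQ := htup (Q5 N) (hLD N hN)
  have hV : 240 * V 5 8 = h5 N := by
    apply le_antisymm
    · rw [← hpv]; exact hup p hpd
    · linarith [hQ.1]
  have hQV : (volume (convexHull ℝ (range (Q5 N)))).toReal = V 5 8 := by
    apply le_antisymm hQ.1
    linarith
  refine ⟨⟨?_, ?_⟩, N, hN, hpol, hb1, hb2, ?_, hV, by linarith, by linarith, ?_⟩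
  · obtain ⟨⟨P, hP, hPv⟩, -, -⟩ := hATT 5 8 (by norm_num) (by norm_num)
    exact ⟨P, hP, hPv.symm⟩
  · rintro v ⟨P, hP, rfl⟩
    exact le_V hP
  · intro M hM hne
    exact lt_of_le_of_ne (hmax M hM) fun h => hne (huni M hM h)
  · intro P
    constructor
    · rintro ⟨hP, hPv⟩
      obtain ⟨c, rfl⟩ := ext_enum (by norm_num) hP
      have hcd : ∀ i j, dist (c i) (c j) ≤ 1 := by
        intro i j
        have h := hP.2.2.2
        rw [← h]
        exact Metric.dist_le_diam_of_mem (hull_compact c).isBounded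
          (subset_convexHull ℝ _ (mem_range_self i)) (subset_convexHull ℝ _ (mem_range_self j))
      obtain ⟨σ, e, s, hp, h⟩ := hALL c
      have hd : ∀ i j, dist ((c ∘ σ) i) ((c ∘ σ) j) ≤ 1 := fun i j => hcd _ _
      have h1 : h5 N / 2 ≤ T (c ∘ σ) e s := by
        by_contra hlt
        push Not at hlt
        have h3 := ENNReal.toReal_mono ENNReal.ofReal_ne_top h
        rw [ENNReal.toReal_mul, hPv, ENNReal.toReal_ofReal'] at h3
        have h4 : (120 : ENNReal).toReal * V 5 8 = h5 N / 2 := by rw [← hV]; norm_num; ring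
        rw [h4] at h3
        rcases le_max_iff.1 h3 with h5 | h5 <;> linarith
      have h2 : h5 N ≤ 2 * |q222 (c ∘ σ)| := by
        rcases alt hFa hFb hP41 hP32 hP312 hP2212 hP7 (c ∘ σ) hd hp with h3 | h3
        · linarith
        · linarith
      obtain ⟨φ, hφ⟩ := hPE N hN hmax (c ∘ σ) hd h2
      refine ⟨φ, ?_⟩
      rw [image_hull]
      have : (fun k => φ (Q5 N k)) = c ∘ σ := funext hφ
      rw [this, range_comp, σ.surjective.range_eq, image_univ]
    · rintro ⟨φ, rfl⟩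
      rw [image_hull]
      have hd : ∀ i j, dist (φ (Q5 N i)) (φ (Q5 N j)) ≤ 1 := fun i j => by
        rw [φ.dist_eq]; exact hLD N hN i j
      have hv : (volume (convexHull ℝ (range fun k => φ (Q5 N k)))).toReal = V 5 8 := by
        rw [← image_hull, vol_image, hQV]
      exact ⟨(htup _ hd).2 hv, hv⟩

end Pool.Agent.Helper89.Vol5
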