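import Pool.Agent.Helper89.Vol4.PF
import Pool.Agent.Helper89.Vol5.Goals

/-! # V58 : the packet PFA (heptagon type with one point doubled), a sum of squares certificate -/

set_option autoImplicit false
set_option maxRecDepth 100000

namespace Pool.Agent.Helper89.Vol5.PkPFA

open Pool.Agent.Helper86.Poly Pool.Agent.Helper89.Vol4.PkPF

theorem a0 (g11 g12 g13 g14 g15 g16 g22 g23 g24 g25 g26 g33 g34 g35 g36 g44 g45 g46 g55 g56 g66 : ℝ) : 0 ≤
    1727300011 * g11 * g11 - 231850178 * g11 * g12 - 375643346 * g11 * g13 - 459284164 * g11 * g14 - 1562449238 * g11 * g15 - 2887711800 * g11 * g16 -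
    2109867310 * g11 * g22 + 802493320 * g11 * g23 + 132571436 * g11 * g24 - 479584098 * g11 * g25 - 131354324 * g11 * g26 - 536249912 * g11 * g33 - 505982210 * g11 * g34 +
    1046914134 * g11 * g35 - 158035282 * g11 * g36 - 270221494 * g11 * g44 - 349149224 * g11 * g45 + 851552664 * g11 * g46 + 620148990 * g11 * g55 + 490713414 * g11 * g56 +
    250502408 * g11 * g66 + 3022814307 * g12 * g12 - 955352444 * g12 * g13 + 619515288 * g12 * g14 - 313750974 * g12 * g15 - 281582120 * g12 * g16 - 694683262 * g12 * g22 -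
    4109543314 * g12 * g23 + 102976876 * g12 * g24 - 443820002 * g12 * g25 + 873202672 * g12 * g26 + 992861874 * g12 * g33 + 1154234122 * g12 * g34 + 1539045342 * g12 * g35 +
    477872816 * g12 * g36 - 175631142 * g12 * g44 + 1609520338 * g12 * g45 - 1745293356 * g12 * g46 - 837128464 * g12 * g55 - 3378657742 * g12 * g56 +
    490715830 * g12 * g66 + 1647775645 * g13 * g13 - 1186151510 * g13 * g14 - 331289986 * g13 * g15 - 440886600 * g13 * g16 + 1593404896 * g13 * g22 -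
    21799232 * g13 * g23 - 870990384 * g13 * g24 + 851825220 * g13 * g25 - 534052712 * g13 * g26 - 585625880 * g13 * g33 - 316475684 * g13 * g34 - 778676146 * g13 * g35 -
    1053212666 * g13 * g36 - 651363388 * g13 * g44 + 1260611104 * g13 * g45 + 201405578 * g13 * g46 + 156698512 * g13 * g55 - 1745362710 * g13 * g56 +
    851567118 * g13 * g66 + 1659624614 * g14 * g14 + 277535820 * g14 * g15 - 1400912400 * g14 * g16 + 17627000 * g14 * g22 + 471194342 * g14 * g23 - 195105830 * g14 * g24 -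
    2841535168 * g14 * g25 + 542171746 * g14 * g26 + 167288572 * g14 * g33 - 114224048 * g14 * g34 + 451472444 * g14 * g35 + 2156637700 * g14 * g36 + 292526320 * g14 * g44 -
    460310078 * g14 * g45 - 1053200290 * g14 * g46 - 354518542 * g14 * g55 + 477890292 * g14 * g56 - 158030400 * g14 * g66 + 653154976 * g15 * g15 + 739646120 * g15 * g16 +
    821468870 * g15 * g22 - 454477558 * g15 * g23 + 832638026 * g15 * g24 - 552663286 * g15 * g25 - 56261242 * g15 * g26 + 347424484 * g15 * g33 + 350792106 * g15 * g34 -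
    419365436 * g15 * g35 + 542214368 * g15 * g36 + 246492854 * g15 * g44 - 554664714 * g15 * g45 - 534048006 * g15 * g46 - 343671476 * g15 * g55 + 873244366 * g15 * g56 -
    131360060 * g15 * g66 + 4047504400 * g16 * g16 + 537843480 * g16 * g22 + 684805680 * g16 * g23 - 1382462600 * g16 * g24 + 4322215560 * g16 * g25 +
    739646120 * g16 * g26 + 845509800 * g16 * g33 + 55858360 * g16 * g34 - 1382462600 * g16 * g35 - 1400912400 * g16 * g36 + 845509800 * g16 * g44 + 684805680 * g16 * g45 -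
    440886600 * g16 * g46 + 537843480 * g16 * g55 - 281582120 * g16 * g56 - 2887711800 * g16 * g66 + 1089814060 * g22 * g22 - 402129224 * g22 * g23 - 403111146 * g22 * g24 +
    238148184 * g22 * g25 - 343629882 * g22 * g26 - 145301034 * g22 * g33 + 446420484 * g22 * g34 - 1074864138 * g22 * g35 - 354511342 * g22 * g36 - 266300924 * g22 * g44 +
    243674152 * g22 * g45 + 156660474 * g22 * g46 - 263707874 * g22 * g55 - 837145230 * g22 * g56 + 620131520 * g22 * g66 + 2731846981 * g23 * g23 - 240864792 * g23 * g24 -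
    297995862 * g23 * g25 - 554679868 * g23 * g26 - 550622572 * g23 * g33 - 3866542688 * g23 * g34 - 299986862 * g23 * g35 - 460257248 * g23 * g36 + 318494914 * g23 * g44 +
    752021740 * g23 * g45 + 1260521394 * g23 * g46 + 243691952 * g23 * g55 + 1609536420 * g23 * g56 - 349109608 * g23 * g66 + 1058251516 * g24 * g24 -
    1439297566 * g24 * g25 - 419354820 * g24 * g26 + 315399578 * g24 * g33 - 724856674 * g24 * g34 + 777195914 * g24 * g35 + 451491766 * g24 * g36 + 229365766 * g24 * g44 -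
    299866174 * g24 * g45 - 778635446 * g24 * g46 - 1074908960 * g24 * g55 + 1539051530 * g24 * g56 + 1046906608 * g24 * g66 + 2672303035 * g25 * g25 -
    552695062 * g25 * g26 - 88199900 * g25 * g33 + 1672767012 * g25 * g34 - 1439252078 * g25 * g35 - 2841578626 * g25 * g36 - 88246056 * g25 * g44 - 297982680 * g25 * g45 +
    851793468 * g25 * g46 + 238157626 * g25 * g55 - 443814906 * g25 * g56 - 479553272 * g25 * g66 + 653158370 * g26 * g26 + 246487856 * g26 * g33 + 350724722 * g26 * g34 +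
    832634814 * g26 * g35 + 277549970 * g26 * g36 + 347459964 * g26 * g44 - 454426882 * g26 * g45 - 331210812 * g26 * g46 + 821475902 * g26 * g55 - 313812722 * g26 * g56 -
    1562447080 * g26 * g66 + 207834274 * g33 * g33 - 58443580 * g33 * g34 + 229360224 * g33 * g35 + 292504788 * g33 * g36 + 204223040 * g33 * g44 + 318491712 * g33 * g45 -
    651335642 * g33 * g46 - 266324660 * g33 * g55 - 175650402 * g33 * g56 - 270201794 * g33 * g66 + 2841615786 * g34 * g34 - 724747798 * g34 * g35 - 114268874 * g34 * g36 -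
    58484074 * g34 * g44 - 3866534296 * g34 * g45 - 316383808 * g34 * g46 + 446418468 * g34 * g55 + 1154240042 * g34 * g56 - 506027864 * g34 * g66 + 1058260628 * g35 * g35 -
    195149952 * g35 * g36 + 315462026 * g35 * g44 - 240960218 * g35 * g45 - 870965498 * g35 * g46 - 403147964 * g35 * g55 + 103024490 * g35 * g56 + 132600432 * g35 * g66 +
    1659668773 * g36 * g36 + 167267302 * g36 * g44 + 471226366 * g36 * g45 - 1186136314 * g36 * g46 + 17585264 * g36 * g55 + 619515300 * g36 * g56 - 459309352 * g36 * g66 +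
    207845647 * g44 * g44 - 550614634 * g44 * g45 - 585616064 * g44 * g46 - 145313180 * g44 * g55 + 992838318 * g44 * g56 - 536276932 * g44 * g66 + 2731825460 * g45 * g45 -
    21889338 * g45 * g46 - 402154024 * g45 * g55 - 4109520924 * g45 * g56 + 802579182 * g45 * g66 + 1647714110 * g46 * g46 + 1593478768 * g46 * g55 - 955383030 * g46 * g56 -
    375670096 * g46 * g66 + 1089825956 * g55 * g55 - 694751118 * g55 * g56 - 2109831202 * g55 * g66 + 3022861465 * g56 * g56 - 231914730 * g56 * g66 +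
    1727288927 * g66 * g66 := by
  have h : (
    1727300011 * g11 * g11 - 231850178 * g11 * g12 - 375643346 * g11 * g13 - 459284164 * g11 * g14 - 1562449238 * g11 * g15 - 2887711800 * g11 * g16 -
    2109867310 * g11 * g22 + 802493320 * g11 * g23 + 132571436 * g11 * g24 - 479584098 * g11 * g25 - 131354324 * g11 * g26 - 536249912 * g11 * g33 - 505982210 * g11 * g34 +
    1046914134 * g11 * g35 - 158035282 * g11 * g36 - 270221494 * g11 * g44 - 349149224 * g11 * g45 + 851552664 * g11 * g46 + 620148990 * g11 * g55 + 490713414 * g11 * g56 +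
    250502408 * g11 * g66 + 3022814307 * g12 * g12 - 955352444 * g12 * g13 + 619515288 * g12 * g14 - 313750974 * g12 * g15 - 281582120 * g12 * g16 - 694683262 * g12 * g22 -
    4109543314 * g12 * g23 + 102976876 * g12 * g24 - 443820002 * g12 * g25 + 873202672 * g12 * g26 + 992861874 * g12 * g33 + 1154234122 * g12 * g34 + 1539045342 * g12 * g35 +
    477872816 * g12 * g36 - 175631142 * g12 * g44 + 1609520338 * g12 * g45 - 1745293356 * g12 * g46 - 837128464 * g12 * g55 - 3378657742 * g12 * g56 +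
    490715830 * g12 * g66 + 1647775645 * g13 * g13 - 1186151510 * g13 * g14 - 331289986 * g13 * g15 - 440886600 * g13 * g16 + 1593404896 * g13 * g22 -
    21799232 * g13 * g23 - 870990384 * g13 * g24 + 851825220 * g13 * g25 - 534052712 * g13 * g26 - 585625880 * g13 * g33 - 316475684 * g13 * g34 - 778676146 * g13 * g35 -
    1053212666 * g13 * g36 - 651363388 * g13 * g44 + 1260611104 * g13 * g45 + 201405578 * g13 * g46 + 156698512 * g13 * g55 - 1745362710 * g13 * g56 +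
    851567118 * g13 * g66 + 1659624614 * g14 * g14 + 277535820 * g14 * g15 - 1400912400 * g14 * g16 + 17627000 * g14 * g22 + 471194342 * g14 * g23 - 195105830 * g14 * g24 -
    2841535168 * g14 * g25 + 542171746 * g14 * g26 + 167288572 * g14 * g33 - 114224048 * g14 * g34 + 451472444 * g14 * g35 + 2156637700 * g14 * g36 + 292526320 * g14 * g44 -
    460310078 * g14 * g45 - 1053200290 * g14 * g46 - 354518542 * g14 * g55 + 477890292 * g14 * g56 - 158030400 * g14 * g66 + 653154976 * g15 * g15 + 739646120 * g15 * g16 +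
    821468870 * g15 * g22 - 454477558 * g15 * g23 + 832638026 * g15 * g24 - 552663286 * g15 * g25 - 56261242 * g15 * g26 + 347424484 * g15 * g33 + 350792106 * g15 * g34 -
    419365436 * g15 * g35 + 542214368 * g15 * g36 + 246492854 * g15 * g44 - 554664714 * g15 * g45 - 534048006 * g15 * g46 - 343671476 * g15 * g55 + 873244366 * g15 * g56 -
    131360060 * g15 * g66 + 4047504400 * g16 * g16 + 537843480 * g16 * g22 + 684805680 * g16 * g23 - 1382462600 * g16 * g24 + 4322215560 * g16 * g25 +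
    739646120 * g16 * g26 + 845509800 * g16 * g33 + 55858360 * g16 * g34 - 1382462600 * g16 * g35 - 1400912400 * g16 * g36 + 845509800 * g16 * g44 + 684805680 * g16 * g45 -
    440886600 * g16 * g46 + 537843480 * g16 * g55 - 281582120 * g16 * g56 - 2887711800 * g16 * g66 + 1089814060 * g22 * g22 - 402129224 * g22 * g23 - 403111146 * g22 * g24 +
    238148184 * g22 * g25 - 343629882 * g22 * g26 - 145301034 * g22 * g33 + 446420484 * g22 * g34 - 1074864138 * g22 * g35 - 354511342 * g22 * g36 - 266300924 * g22 * g44 +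
    243674152 * g22 * g45 + 156660474 * g22 * g46 - 263707874 * g22 * g55 - 837145230 * g22 * g56 + 620131520 * g22 * g66 + 2731846981 * g23 * g23 - 240864792 * g23 * g24 -
    297995862 * g23 * g25 - 554679868 * g23 * g26 - 550622572 * g23 * g33 - 3866542688 * g23 * g34 - 299986862 * g23 * g35 - 460257248 * g23 * g36 + 318494914 * g23 * g44 +
    752021740 * g23 * g45 + 1260521394 * g23 * g46 + 243691952 * g23 * g55 + 1609536420 * g23 * g56 - 349109608 * g23 * g66 + 1058251516 * g24 * g24 -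
    1439297566 * g24 * g25 - 419354820 * g24 * g26 + 315399578 * g24 * g33 - 724856674 * g24 * g34 + 777195914 * g24 * g35 + 451491766 * g24 * g36 + 229365766 * g24 * g44 -
    299866174 * g24 * g45 - 778635446 * g24 * g46 - 1074908960 * g24 * g55 + 1539051530 * g24 * g56 + 1046906608 * g24 * g66 + 2672303035 * g25 * g25 -
    552695062 * g25 * g26 - 88199900 * g25 * g33 + 1672767012 * g25 * g34 - 1439252078 * g25 * g35 - 2841578626 * g25 * g36 - 88246056 * g25 * g44 - 297982680 * g25 * g45 +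
    851793468 * g25 * g46 + 238157626 * g25 * g55 - 443814906 * g25 * g56 - 479553272 * g25 * g66 + 653158370 * g26 * g26 + 246487856 * g26 * g33 + 350724722 * g26 * g34 +
    832634814 * g26 * g35 + 277549970 * g26 * g36 + 347459964 * g26 * g44 - 454426882 * g26 * g45 - 331210812 * g26 * g46 + 821475902 * g26 * g55 - 313812722 * g26 * g56 -
    1562447080 * g26 * g66 + 207834274 * g33 * g33 - 58443580 * g33 * g34 + 229360224 * g33 * g35 + 292504788 * g33 * g36 + 204223040 * g33 * g44 + 318491712 * g33 * g45 -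
    651335642 * g33 * g46 - 266324660 * g33 * g55 - 175650402 * g33 * g56 - 270201794 * g33 * g66 + 2841615786 * g34 * g34 - 724747798 * g34 * g35 - 114268874 * g34 * g36 -
    58484074 * g34 * g44 - 3866534296 * g34 * g45 - 316383808 * g34 * g46 + 446418468 * g34 * g55 + 1154240042 * g34 * g56 - 506027864 * g34 * g66 + 1058260628 * g35 * g35 -
    195149952 * g35 * g36 + 315462026 * g35 * g44 - 240960218 * g35 * g45 - 870965498 * g35 * g46 - 403147964 * g35 * g55 + 103024490 * g35 * g56 + 132600432 * g35 * g66 +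
    1659668773 * g36 * g36 + 167267302 * g36 * g44 + 471226366 * g36 * g45 - 1186136314 * g36 * g46 + 17585264 * g36 * g55 + 619515300 * g36 * g56 - 459309352 * g36 * g66 +
    207845647 * g44 * g44 - 550614634 * g44 * g45 - 585616064 * g44 * g46 - 145313180 * g44 * g55 + 992838318 * g44 * g56 - 536276932 * g44 * g66 + 2731825460 * g45 * g45 -
    21889338 * g45 * g46 - 402154024 * g45 * g55 - 4109520924 * g45 * g56 + 802579182 * g45 * g66 + 1647714110 * g46 * g46 + 1593478768 * g46 * g55 - 955383030 * g46 * g56 -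
    375670096 * g46 * g66 + 1089825956 * g55 * g55 - 694751118 * g55 * g56 - 2109831202 * g55 * g66 + 3022861465 * g56 * g56 - 231914730 * g56 * g66 +
    1727288927 * g66 * g66) =
    (-22695 * g11 - 2213 * g12 - 3465 * g13 - 11010 * g14 + 5813 * g15 + 63620 * g16 + 4227 * g22 + 5382 * g23 - 10865 * g24 + 33969 * g25 + 5813 * g26 + 6645 * g33 + 439 * g34 - 10865 * g35 - 11010 * g36 + 6645 * g44 + 5382 * g45 - 3465 * g46 + 4227 * g55 - 2213 * g56 - 22695 * g66) ^ 2 +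
    (3552 * g11 - 30840 * g12 - 16025 * g13 + 3906 * g14 + 8182 * g15 - 7449 * g22 + 14866 * g23 + 13570 * g24 - 2671 * g25 - 2622 * g26 - 1331 * g33 + 10523 * g34 + 500 * g35 + 5195 * g36 + 9304 * g44 - 37186 * g45 - 8835 * g46 - 6153 * g55 + 54936 * g56 - 3025 * g66) ^ 2 +
    (-5366 * g11 + 17273 * g12 + 228 * g13 - 1787 * g14 + 1660 * g15 + 5736 * g22 - 40035 * g23 - 9577 * g24 + 16258 * g25 + 3835 * g26 - 347 * g33 + 52256 * g34 - 6944 * g35 - 2047 * g36 - 2489 * g44 - 29553 * g45 - 1219 * g46 + 5475 * g55 - 4042 * g66) ^ 2 +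
    (858 * g11 + 42053 * g12 - 23387 * g13 + 10385 * g14 + 1894 * g15 - 15856 * g22 - 21232 * g23 + 14538 * g24 - 12126 * g25 + 7190 * g26 + 11321 * g33 + 20946 * g35 + 9753 * g36 + 6107 * g44 + 4288 * g45 - 26912 * g46 - 16492 * g55 + 4082 * g66) ^ 2 +
    (-13622 * g11 - 8658 * g13 + 37578 * g14 + 4101 * g15 + 6902 * g22 + 10265 * g23 - 11663 * g24 - 23454 * g25 + 7385 * g26 + 1166 * g33 - 3347 * g35 + 22137 * g36 + 3066 * g44 - 3273 * g45 - 6731 * g46 + 1979 * g55 - 9758 * g66) ^ 2 +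
    (-16385 * g11 + 9473 * g13 + 3965 * g15 + 16432 * g22 + 536 * g23 + 3235 * g24 + 12488 * g25 - 18271 * g26 - 749 * g33 - 9913 * g35 - 9025 * g36 - 2875 * g44 + 7383 * g45 - 7746 * g46 - 26501 * g55 + 32785 * g66) ^ 2 +
    (-7347 * g11 + 835 * g13 + 7675 * g15 + 2410 * g22 - 11912 * g23 + 5574 * g24 - 8604 * g25 - 6010 * g26 + 2850 * g33 - 15647 * g35 + 28994 * g36 - 1725 * g44 + 18101 * g45 - 8493 * g46 - 815 * g55) ^ 2 +
    (-5610 * g11 + 25818 * g13 + 816 * g15 + 8596 * g22 - 5721 * g23 - 1928 * g24 - 3899 * g25 + 4664 * g26 - 444 * g33 + 5828 * g35 + 1745 * g44 + 1808 * g45 - 25556 * g46 - 4791 * g55) ^ 2 +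
    (25112 * g11 - 19484 * g15 - 18277 * g22 + 12065 * g23 - 14658 * g24 + 17454 * g25 - 5049 * g26 - 4066 * g33 - 2804 * g35 - 1759 * g44 + 5452 * g45 - 1167 * g46 + 1245 * g55) ^ 2 +
    (-8622 * g15 + 865 * g22 - 1561 * g23 - 7540 * g24 + 8623 * g26 - 2617 * g33 + 7542 * g35 + 2618 * g44 + 1560 * g45 - 2 * g46 - 866 * g55) ^ 2 := by ring
  rw [h]; positivity

theorem bm (x12 x13 x14 x15 x16 x23 x24 x25 x26 x34 x35 x36 x45 x46 x56 : ℝ) : 0 ≤
    5556308497 * x12 * x12 - 1339035022 * x12 * x13 + 653940276 * x12 * x14 - 1389591832 * x12 * x15 + 1760802710 * x12 * x16 + 9030928154 * x12 * x23 -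
    279971926 * x12 * x24 + 1692408008 * x12 * x25 - 1152833936 * x12 * x26 + 9911669432 * x12 * x34 - 1010351076 * x12 * x35 + 2263959142 * x12 * x36 +
    10131046218 * x12 * x45 - 1651959362 * x12 * x46 + 10168734138 * x12 * x56 + 3118230365 * x13 * x13 + 109820844 * x13 * x14 - 3050888122 * x13 * x15 -
    2431303338 * x13 * x16 - 799824950 * x13 * x23 - 5830434618 * x13 * x24 - 2208227340 * x13 * x25 + 1707662898 * x13 * x26 - 1222643446 * x13 * x34 +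
    3818337452 * x13 * x35 + 3338925494 * x13 * x36 + 90446654 * x13 * x45 - 1688796064 * x13 * x46 - 1651977642 * x13 * x56 + 3192567599 * x14 * x14 +
    439198076 * x14 * x15 - 5209868558 * x14 * x16 + 4257850822 * x14 * x23 + 365475486 * x14 * x24 - 6137979826 * x14 * x25 - 1339080878 * x14 * x26 -
    475786104 * x14 * x34 - 1616844180 * x14 * x35 + 2606361234 * x14 * x36 + 2146096064 * x14 * x45 + 3338956358 * x14 * x46 + 2263959252 * x14 * x56 +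
    1179210961 * x15 * x15 - 149673070 * x15 * x16 - 1197919500 * x15 * x23 + 3730805540 * x15 * x24 - 412022950 * x15 * x25 - 1047580186 * x15 * x26 -
    1707296364 * x15 * x34 - 2418310560 * x15 * x35 - 1339138716 * x15 * x36 - 1664139934 * x15 * x45 + 1707670354 * x15 * x46 - 1152851106 * x15 * x56 +
    3817450624 * x16 * x16 - 556206280 * x16 * x23 + 312777328 * x16 * x24 + 8783612788 * x16 * x25 - 149697426 * x16 * x26 + 4295151636 * x16 * x34 +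
    312980736 * x16 * x35 - 5209873410 * x16 * x36 - 556213358 * x16 * x45 - 2431398638 * x16 * x46 + 1760807502 * x16 * x56 + 5141199596 * x23 * x23 -
    1104460728 * x23 * x24 - 1034025746 * x23 * x25 - 1664118654 * x23 * x26 + 8302302276 * x23 * x34 - 823732840 * x23 * x35 + 2146165612 * x23 * x36 +
    8936542838 * x23 * x45 + 90436884 * x23 * x46 + 10131165474 * x23 * x56 + 3712745275 * x24 * x24 + 13127180 * x24 * x25 - 2418318330 * x24 * x26 -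
    1103415476 * x24 * x34 - 5961277140 * x24 * x35 - 1616808922 * x24 * x36 - 823716940 * x24 * x45 + 3818440836 * x24 * x46 - 1010328714 * x24 * x56 +
    5256716785 * x25 * x25 - 412129184 * x25 * x26 + 5102098970 * x25 * x34 + 13216908 * x25 * x35 - 6137971106 * x25 * x36 - 1034016206 * x25 * x45 -
    2208263238 * x25 * x46 + 1692378864 * x25 * x56 + 1179213653 * x26 * x26 - 1707318518 * x26 * x34 + 3730790880 * x26 * x35 + 439266590 * x26 * x36 -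
    1197866626 * x26 * x45 - 3050880766 * x26 * x46 - 1389593322 * x26 * x56 + 5436790412 * x34 * x34 - 1103364236 * x34 * x35 - 475771052 * x34 * x36 +
    8302235302 * x34 * x45 - 1222674118 * x34 * x46 + 9911716770 * x34 * x56 + 3712732588 * x35 * x35 + 365389944 * x35 * x36 - 1104483120 * x35 * x45 -
    5830470928 * x35 * x46 - 279975996 * x35 * x56 + 3192547798 * x36 * x36 + 4257851456 * x36 * x45 + 109847102 * x36 * x46 + 654022734 * x36 * x56 +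
    5141146732 * x45 * x45 - 799828976 * x45 * x46 + 9030940314 * x45 * x56 + 3118251717 * x46 * x46 - 1339054524 * x46 * x56 + 5556360681 * x56 * x56 := by
  have h : (
    5556308497 * x12 * x12 - 1339035022 * x12 * x13 + 653940276 * x12 * x14 - 1389591832 * x12 * x15 + 1760802710 * x12 * x16 + 9030928154 * x12 * x23 -
    279971926 * x12 * x24 + 1692408008 * x12 * x25 - 1152833936 * x12 * x26 + 9911669432 * x12 * x34 - 1010351076 * x12 * x35 + 2263959142 * x12 * x36 +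
    10131046218 * x12 * x45 - 1651959362 * x12 * x46 + 10168734138 * x12 * x56 + 3118230365 * x13 * x13 + 109820844 * x13 * x14 - 3050888122 * x13 * x15 -
    2431303338 * x13 * x16 - 799824950 * x13 * x23 - 5830434618 * x13 * x24 - 2208227340 * x13 * x25 + 1707662898 * x13 * x26 - 1222643446 * x13 * x34 +
    3818337452 * x13 * x35 + 3338925494 * x13 * x36 + 90446654 * x13 * x45 - 1688796064 * x13 * x46 - 1651977642 * x13 * x56 + 3192567599 * x14 * x14 +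
    439198076 * x14 * x15 - 5209868558 * x14 * x16 + 4257850822 * x14 * x23 + 365475486 * x14 * x24 - 6137979826 * x14 * x25 - 1339080878 * x14 * x26 -
    475786104 * x14 * x34 - 1616844180 * x14 * x35 + 2606361234 * x14 * x36 + 2146096064 * x14 * x45 + 3338956358 * x14 * x46 + 2263959252 * x14 * x56 +
    1179210961 * x15 * x15 - 149673070 * x15 * x16 - 1197919500 * x15 * x23 + 3730805540 * x15 * x24 - 412022950 * x15 * x25 - 1047580186 * x15 * x26 -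
    1707296364 * x15 * x34 - 2418310560 * x15 * x35 - 1339138716 * x15 * x36 - 1664139934 * x15 * x45 + 1707670354 * x15 * x46 - 1152851106 * x15 * x56 +
    3817450624 * x16 * x16 - 556206280 * x16 * x23 + 312777328 * x16 * x24 + 8783612788 * x16 * x25 - 149697426 * x16 * x26 + 4295151636 * x16 * x34 +
    312980736 * x16 * x35 - 5209873410 * x16 * x36 - 556213358 * x16 * x45 - 2431398638 * x16 * x46 + 1760807502 * x16 * x56 + 5141199596 * x23 * x23 -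
    1104460728 * x23 * x24 - 1034025746 * x23 * x25 - 1664118654 * x23 * x26 + 8302302276 * x23 * x34 - 823732840 * x23 * x35 + 2146165612 * x23 * x36 +
    8936542838 * x23 * x45 + 90436884 * x23 * x46 + 10131165474 * x23 * x56 + 3712745275 * x24 * x24 + 13127180 * x24 * x25 - 2418318330 * x24 * x26 -
    1103415476 * x24 * x34 - 5961277140 * x24 * x35 - 1616808922 * x24 * x36 - 823716940 * x24 * x45 + 3818440836 * x24 * x46 - 1010328714 * x24 * x56 +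
    5256716785 * x25 * x25 - 412129184 * x25 * x26 + 5102098970 * x25 * x34 + 13216908 * x25 * x35 - 6137971106 * x25 * x36 - 1034016206 * x25 * x45 -
    2208263238 * x25 * x46 + 1692378864 * x25 * x56 + 1179213653 * x26 * x26 - 1707318518 * x26 * x34 + 3730790880 * x26 * x35 + 439266590 * x26 * x36 -
    1197866626 * x26 * x45 - 3050880766 * x26 * x46 - 1389593322 * x26 * x56 + 5436790412 * x34 * x34 - 1103364236 * x34 * x35 - 475771052 * x34 * x36 +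
    8302235302 * x34 * x45 - 1222674118 * x34 * x46 + 9911716770 * x34 * x56 + 3712732588 * x35 * x35 + 365389944 * x35 * x36 - 1104483120 * x35 * x45 -
    5830470928 * x35 * x46 - 279975996 * x35 * x56 + 3192547798 * x36 * x36 + 4257851456 * x36 * x45 + 109847102 * x36 * x46 + 654022734 * x36 * x56 +
    5141146732 * x45 * x45 - 799828976 * x45 * x46 + 9030940314 * x45 * x56 + 3118251717 * x46 * x46 - 1339054524 * x46 * x56 + 5556360681 * x56 * x56) =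
    (68209 * x12 - 11081 * x13 + 15186 * x14 - 7733 * x15 + 11811 * x16 + 67957 * x23 - 6777 * x24 + 11352 * x25 - 9321 * x26 + 66485 * x34 - 1878 * x35 + 4387 * x36 + 60577 * x45 - 8982 * x46 + 74541 * x56) ^ 2 +
    (1004 * x12 - 13662 * x13 - 45265 * x14 - 1651 * x15 + 59458 * x16 - 17993 * x23 + 1166 * x24 + 71609 * x25 - 1400 * x26 + 25085 * x34 + 390 * x35 - 43553 * x36 - 16823 * x45 - 13995 * x46) ^ 2 +
    (-6198 * x12 + 31094 * x13 - 12516 * x14 - 20082 * x15 + 2553 * x16 - 4552 * x23 - 49158 * x24 + 30351 * x26 - 7169 * x34 + 60902 * x35 + 3414 * x36 - 7092 * x45 - 48055 * x46) ^ 2 +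
    (6821 * x12 + 42918 * x13 - 141 * x14 - 23516 * x15 - 8198 * x16 + 5798 * x23 - 33689 * x24 - 4947 * x26 + 16101 * x34 + 23694 * x36 + 16477 * x45 + 8367 * x46) ^ 2 +
    (26975 * x12 - 23600 * x14 - 4971 * x15 + 5430 * x16 - 2679 * x23 + 7634 * x24 + 8115 * x26 + 7796 * x34 + 25960 * x36 + 29441 * x45 - 19358 * x46) ^ 2 +
    (-7323 * x12 + 14121 * x14 - 7767 * x15 + 4675 * x16 + 11550 * x23 - 7182 * x24 - 1464 * x26 - 1100 * x34 - 5392 * x36 + 8163 * x46) ^ 2 +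
    (6051 * x12 - 8681 * x15 - 4199 * x16 - 2093 * x23 - 2035 * x24 + 8759 * x26 + 3828 * x34 - 618 * x36 + 4589 * x46) ^ 2 := by ring
  rw [h]; positivity

theorem balg {x12 x13 x14 x15 x16 x23 x24 x25 x26 x34 x35 x36 x45 x46 x56 y12 y13 y14 y15 y16 y23 y24 y25 y26 y34 y35 y36 y45 y46 y56 z12 z13 z14 z15 z16 z23 z24 z25 z26 z34 z35 z36 z45 z46 z56 g11 g12 g13 g14 g15 g16 g22 g23 g24 g25 g26 g33 g34 g35 g36 g44 g45 g46 g55 g56 g66 d1234 d1235 d1236 d1245 d1246 d1256 d1345 d1346 d1356 d1456 d2345 d2346 d2356 d2456 d3456 : ℝ}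
    (k12_12 : x12 * x12 + y12 * y12 + z12 * z12 = g11 * g22 - g12 * g12)
    (k12_13 : x12 * x13 + y12 * y13 + z12 * z13 = g11 * g23 - g13 * g12)
    (k12_14 : x12 * x14 + y12 * y14 + z12 * z14 = g11 * g24 - g14 * g12)
    (k12_15 : x12 * x15 + y12 * y15 + z12 * z15 = g11 * g25 - g15 * g12)
    (k12_16 : x12 * x16 + y12 * y16 + z12 * z16 = g11 * g26 - g16 * g12)
    (k12_23 : x12 * x23 + y12 * y23 + z12 * z23 = g12 * g23 - g13 * g22)
    (k12_24 : x12 * x24 + y12 * y24 + z12 * z24 = g12 * g24 - g14 * g22)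
    (k12_25 : x12 * x25 + y12 * y25 + z12 * z25 = g12 * g25 - g15 * g22)
    (k12_26 : x12 * x26 + y12 * y26 + z12 * z26 = g12 * g26 - g16 * g22)
    (k12_34 : x12 * x34 + y12 * y34 + z12 * z34 = g13 * g24 - g14 * g23 - d1234)
    (k12_35 : x12 * x35 + y12 * y35 + z12 * z35 = g13 * g25 - g15 * g23 - d1235)
    (k12_36 : x12 * x36 + y12 * y36 + z12 * z36 = g13 * g26 - g16 * g23 - d1236)
    (k12_45 : x12 * x45 + y12 * y45 + z12 * z45 = g14 * g25 - g15 * g24 - d1245)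
    (k12_46 : x12 * x46 + y12 * y46 + z12 * z46 = g14 * g26 - g16 * g24 - d1246)
    (k12_56 : x12 * x56 + y12 * y56 + z12 * z56 = g15 * g26 - g16 * g25 - d1256)
    (k13_13 : x13 * x13 + y13 * y13 + z13 * z13 = g11 * g33 - g13 * g13)
    (k13_14 : x13 * x14 + y13 * y14 + z13 * z14 = g11 * g34 - g14 * g13)
    (k13_15 : x13 * x15 + y13 * y15 + z13 * z15 = g11 * g35 - g15 * g13)
    (k13_16 : x13 * x16 + y13 * y16 + z13 * z16 = g11 * g36 - g16 * g13)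
    (k13_23 : x13 * x23 + y13 * y23 + z13 * z23 = g12 * g33 - g13 * g23)
    (k13_24 : x13 * x24 + y13 * y24 + z13 * z24 = g12 * g34 - g14 * g23 + d1234)
    (k13_25 : x13 * x25 + y13 * y25 + z13 * z25 = g12 * g35 - g15 * g23 + d1235)
    (k13_26 : x13 * x26 + y13 * y26 + z13 * z26 = g12 * g36 - g16 * g23 + d1236)
    (k13_34 : x13 * x34 + y13 * y34 + z13 * z34 = g13 * g34 - g14 * g33)
    (k13_35 : x13 * x35 + y13 * y35 + z13 * z35 = g13 * g35 - g15 * g33)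
    (k13_36 : x13 * x36 + y13 * y36 + z13 * z36 = g13 * g36 - g16 * g33)
    (k13_45 : x13 * x45 + y13 * y45 + z13 * z45 = g14 * g35 - g15 * g34 - d1345)
    (k13_46 : x13 * x46 + y13 * y46 + z13 * z46 = g14 * g36 - g16 * g34 - d1346)
    (k13_56 : x13 * x56 + y13 * y56 + z13 * z56 = g15 * g36 - g16 * g35 - d1356)
    (k14_14 : x14 * x14 + y14 * y14 + z14 * z14 = g11 * g44 - g14 * g14)
    (k14_15 : x14 * x15 + y14 * y15 + z14 * z15 = g11 * g45 - g15 * g14)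
    (k14_16 : x14 * x16 + y14 * y16 + z14 * z16 = g11 * g46 - g16 * g14)
    (k14_23 : x14 * x23 + y14 * y23 + z14 * z23 = g12 * g34 - g13 * g24 - d1234)
    (k14_24 : x14 * x24 + y14 * y24 + z14 * z24 = g12 * g44 - g14 * g24)
    (k14_25 : x14 * x25 + y14 * y25 + z14 * z25 = g12 * g45 - g15 * g24 + d1245)
    (k14_26 : x14 * x26 + y14 * y26 + z14 * z26 = g12 * g46 - g16 * g24 + d1246)
    (k14_34 : x14 * x34 + y14 * y34 + z14 * z34 = g13 * g44 - g14 * g34)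
    (k14_35 : x14 * x35 + y14 * y35 + z14 * z35 = g13 * g45 - g15 * g34 + d1345)
    (k14_36 : x14 * x36 + y14 * y36 + z14 * z36 = g13 * g46 - g16 * g34 + d1346)
    (k14_45 : x14 * x45 + y14 * y45 + z14 * z45 = g14 * g45 - g15 * g44)
    (k14_46 : x14 * x46 + y14 * y46 + z14 * z46 = g14 * g46 - g16 * g44)
    (k14_56 : x14 * x56 + y14 * y56 + z14 * z56 = g15 * g46 - g16 * g45 - d1456)
    (k15_15 : x15 * x15 + y15 * y15 + z15 * z15 = g11 * g55 - g15 * g15)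
    (k15_16 : x15 * x16 + y15 * y16 + z15 * z16 = g11 * g56 - g16 * g15)
    (k15_23 : x15 * x23 + y15 * y23 + z15 * z23 = g12 * g35 - g13 * g25 - d1235)
    (k15_24 : x15 * x24 + y15 * y24 + z15 * z24 = g12 * g45 - g14 * g25 - d1245)
    (k15_25 : x15 * x25 + y15 * y25 + z15 * z25 = g12 * g55 - g15 * g25)
    (k15_26 : x15 * x26 + y15 * y26 + z15 * z26 = g12 * g56 - g16 * g25 + d1256)
    (k15_34 : x15 * x34 + y15 * y34 + z15 * z34 = g13 * g45 - g14 * g35 - d1345)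
    (k15_35 : x15 * x35 + y15 * y35 + z15 * z35 = g13 * g55 - g15 * g35)
    (k15_36 : x15 * x36 + y15 * y36 + z15 * z36 = g13 * g56 - g16 * g35 + d1356)
    (k15_45 : x15 * x45 + y15 * y45 + z15 * z45 = g14 * g55 - g15 * g45)
    (k15_46 : x15 * x46 + y15 * y46 + z15 * z46 = g14 * g56 - g16 * g45 + d1456)
    (k15_56 : x15 * x56 + y15 * y56 + z15 * z56 = g15 * g56 - g16 * g55)
    (k16_16 : x16 * x16 + y16 * y16 + z16 * z16 = g11 * g66 - g16 * g16)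
    (k16_23 : x16 * x23 + y16 * y23 + z16 * z23 = g12 * g36 - g13 * g26 - d1236)
    (k16_24 : x16 * x24 + y16 * y24 + z16 * z24 = g12 * g46 - g14 * g26 - d1246)
    (k16_25 : x16 * x25 + y16 * y25 + z16 * z25 = g12 * g56 - g15 * g26 - d1256)
    (k16_26 : x16 * x26 + y16 * y26 + z16 * z26 = g12 * g66 - g16 * g26)
    (k16_34 : x16 * x34 + y16 * y34 + z16 * z34 = g13 * g46 - g14 * g36 - d1346)
    (k16_35 : x16 * x35 + y16 * y35 + z16 * z35 = g13 * g56 - g15 * g36 - d1356)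
    (k16_36 : x16 * x36 + y16 * y36 + z16 * z36 = g13 * g66 - g16 * g36)
    (k16_45 : x16 * x45 + y16 * y45 + z16 * z45 = g14 * g56 - g15 * g46 - d1456)
    (k16_46 : x16 * x46 + y16 * y46 + z16 * z46 = g14 * g66 - g16 * g46)
    (k16_56 : x16 * x56 + y16 * y56 + z16 * z56 = g15 * g66 - g16 * g56)
    (k23_23 : x23 * x23 + y23 * y23 + z23 * z23 = g22 * g33 - g23 * g23)
    (k23_24 : x23 * x24 + y23 * y24 + z23 * z24 = g22 * g34 - g24 * g23)
    (k23_25 : x23 * x25 + y23 * y25 + z23 * z25 = g22 * g35 - g25 * g23)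
    (k23_26 : x23 * x26 + y23 * y26 + z23 * z26 = g22 * g36 - g26 * g23)
    (k23_34 : x23 * x34 + y23 * y34 + z23 * z34 = g23 * g34 - g24 * g33)
    (k23_35 : x23 * x35 + y23 * y35 + z23 * z35 = g23 * g35 - g25 * g33)
    (k23_36 : x23 * x36 + y23 * y36 + z23 * z36 = g23 * g36 - g26 * g33)
    (k23_45 : x23 * x45 + y23 * y45 + z23 * z45 = g24 * g35 - g25 * g34 - d2345)
    (k23_46 : x23 * x46 + y23 * y46 + z23 * z46 = g24 * g36 - g26 * g34 - d2346)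
    (k23_56 : x23 * x56 + y23 * y56 + z23 * z56 = g25 * g36 - g26 * g35 - d2356)
    (k24_24 : x24 * x24 + y24 * y24 + z24 * z24 = g22 * g44 - g24 * g24)
    (k24_25 : x24 * x25 + y24 * y25 + z24 * z25 = g22 * g45 - g25 * g24)
    (k24_26 : x24 * x26 + y24 * y26 + z24 * z26 = g22 * g46 - g26 * g24)
    (k24_34 : x24 * x34 + y24 * y34 + z24 * z34 = g23 * g44 - g24 * g34)
    (k24_35 : x24 * x35 + y24 * y35 + z24 * z35 = g23 * g45 - g25 * g34 + d2345)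
    (k24_36 : x24 * x36 + y24 * y36 + z24 * z36 = g23 * g46 - g26 * g34 + d2346)
    (k24_45 : x24 * x45 + y24 * y45 + z24 * z45 = g24 * g45 - g25 * g44)
    (k24_46 : x24 * x46 + y24 * y46 + z24 * z46 = g24 * g46 - g26 * g44)
    (k24_56 : x24 * x56 + y24 * y56 + z24 * z56 = g25 * g46 - g26 * g45 - d2456)
    (k25_25 : x25 * x25 + y25 * y25 + z25 * z25 = g22 * g55 - g25 * g25)
    (k25_26 : x25 * x26 + y25 * y26 + z25 * z26 = g22 * g56 - g26 * g25)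
    (k25_34 : x25 * x34 + y25 * y34 + z25 * z34 = g23 * g45 - g24 * g35 - d2345)
    (k25_35 : x25 * x35 + y25 * y35 + z25 * z35 = g23 * g55 - g25 * g35)
    (k25_36 : x25 * x36 + y25 * y36 + z25 * z36 = g23 * g56 - g26 * g35 + d2356)
    (k25_45 : x25 * x45 + y25 * y45 + z25 * z45 = g24 * g55 - g25 * g45)
    (k25_46 : x25 * x46 + y25 * y46 + z25 * z46 = g24 * g56 - g26 * g45 + d2456)
    (k25_56 : x25 * x56 + y25 * y56 + z25 * z56 = g25 * g56 - g26 * g55)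
    (k26_26 : x26 * x26 + y26 * y26 + z26 * z26 = g22 * g66 - g26 * g26)
    (k26_34 : x26 * x34 + y26 * y34 + z26 * z34 = g23 * g46 - g24 * g36 - d2346)
    (k26_35 : x26 * x35 + y26 * y35 + z26 * z35 = g23 * g56 - g25 * g36 - d2356)
    (k26_36 : x26 * x36 + y26 * y36 + z26 * z36 = g23 * g66 - g26 * g36)
    (k26_45 : x26 * x45 + y26 * y45 + z26 * z45 = g24 * g56 - g25 * g46 - d2456)
    (k26_46 : x26 * x46 + y26 * y46 + z26 * z46 = g24 * g66 - g26 * g46)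
    (k26_56 : x26 * x56 + y26 * y56 + z26 * z56 = g25 * g66 - g26 * g56)
    (k34_34 : x34 * x34 + y34 * y34 + z34 * z34 = g33 * g44 - g34 * g34)
    (k34_35 : x34 * x35 + y34 * y35 + z34 * z35 = g33 * g45 - g35 * g34)
    (k34_36 : x34 * x36 + y34 * y36 + z34 * z36 = g33 * g46 - g36 * g34)
    (k34_45 : x34 * x45 + y34 * y45 + z34 * z45 = g34 * g45 - g35 * g44)
    (k34_46 : x34 * x46 + y34 * y46 + z34 * z46 = g34 * g46 - g36 * g44)
    (k34_56 : x34 * x56 + y34 * y56 + z34 * z56 = g35 * g46 - g36 * g45 - d3456)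
    (k35_35 : x35 * x35 + y35 * y35 + z35 * z35 = g33 * g55 - g35 * g35)
    (k35_36 : x35 * x36 + y35 * y36 + z35 * z36 = g33 * g56 - g36 * g35)
    (k35_45 : x35 * x45 + y35 * y45 + z35 * z45 = g34 * g55 - g35 * g45)
    (k35_46 : x35 * x46 + y35 * y46 + z35 * z46 = g34 * g56 - g36 * g45 + d3456)
    (k35_56 : x35 * x56 + y35 * y56 + z35 * z56 = g35 * g56 - g36 * g55)
    (k36_36 : x36 * x36 + y36 * y36 + z36 * z36 = g33 * g66 - g36 * g36)
    (k36_45 : x36 * x45 + y36 * y45 + z36 * z45 = g34 * g56 - g35 * g46 - d3456)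
    (k36_46 : x36 * x46 + y36 * y46 + z36 * z46 = g34 * g66 - g36 * g46)
    (k36_56 : x36 * x56 + y36 * y56 + z36 * z56 = g35 * g66 - g36 * g56)
    (k45_45 : x45 * x45 + y45 * y45 + z45 * z45 = g44 * g55 - g45 * g45)
    (k45_46 : x45 * x46 + y45 * y46 + z45 * z46 = g44 * g56 - g46 * g45)
    (k45_56 : x45 * x56 + y45 * y56 + z45 * z56 = g45 * g56 - g46 * g55)
    (k46_46 : x46 * x46 + y46 * y46 + z46 * z46 = g44 * g66 - g46 * g46)
    (k46_56 : x46 * x56 + y46 * y56 + z46 * z56 = g45 * g66 - g46 * g56)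
    (k56_56 : x56 * x56 + y56 * y56 + z56 * z56 = g55 * g66 - g56 * g56) : 0 ≤
    5556308497 * g11 * g22 - 5556308497 * g12 * g12 - 1339035022 * g11 * g23 + 1339035022 * g12 * g13 + 653940276 * g11 * g24 - 653940276 * g12 * g14 -
    1389591832 * g11 * g25 + 1389591832 * g12 * g15 + 1760802710 * g11 * g26 - 1760802710 * g12 * g16 + 9030928154 * g12 * g23 - 9030928154 * g13 * g22 -
    279971926 * g12 * g24 + 279971926 * g14 * g22 + 1692408008 * g12 * g25 - 1692408008 * g15 * g22 - 1152833936 * g12 * g26 + 1152833936 * g16 * g22 +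
    5653818610 * g13 * g24 - 4081234814 * g14 * g23 - 19999954872 * d1234 + 187568424 * g13 * g25 + 3218578416 * g15 * g23 + 43236 * d1235 + 2820165422 * g13 * g26 -
    3971622040 * g16 * g23 - 89964 * d1236 + 6400240678 * g14 * g25 - 3993066392 * g15 * g24 - 19999831584 * d1245 - 1964736690 * g14 * g26 + 2991040240 * g16 * g24 +
    101156 * d1246 + 1385121350 * g15 * g26 - 9121153952 * g16 * g25 - 19999927112 * d1256 + 3118230365 * g11 * g33 - 3118230365 * g13 * g13 + 109820844 * g11 * g34 -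
    109820844 * g13 * g14 - 3050888122 * g11 * g35 + 3050888122 * g13 * g15 - 2431303338 * g11 * g36 + 2431303338 * g13 * g16 - 799824950 * g12 * g33 +
    799824950 * g13 * g23 - 1572583796 * g12 * g34 - 3406146840 * g12 * g35 + 1151456618 * g12 * g36 - 1222643446 * g13 * g34 + 1222643446 * g14 * g33 +
    3818337452 * g13 * g35 - 3818337452 * g15 * g33 + 3338925494 * g13 * g36 - 3338925494 * g16 * g33 + 1797743018 * g14 * g35 + 1526397526 * g15 * g34 +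
    5530 * d1345 - 5983947700 * g14 * g36 - 917565170 * g16 * g34 + 5662 * d1346 - 1964958378 * g15 * g36 + 2991116358 * g16 * g35 - 141810 * d1356 + 3192567599 * g11 * g44 -
    3192567599 * g14 * g14 + 439198076 * g11 * g45 - 439198076 * g14 * g15 - 5209868558 * g11 * g46 + 5209868558 * g14 * g16 + 365475486 * g12 * g44 -
    365475486 * g14 * g24 - 2407174286 * g12 * g45 - 1026303550 * g12 * g46 - 475786104 * g13 * g44 + 475786104 * g14 * g34 - 3324140544 * g13 * g45 +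
    6901512870 * g13 * g46 + 2146096064 * g14 * g45 - 2146096064 * g15 * g44 + 3338956358 * g14 * g46 - 3338956358 * g16 * g44 + 2820172610 * g15 * g46 -
    3971629606 * g16 * g45 - 75540 * d1456 + 1179210961 * g11 * g55 - 1179210961 * g15 * g15 - 149673070 * g11 * g56 + 149673070 * g15 * g16 - 412022950 * g12 * g55 +
    412022950 * g15 * g25 + 7736032602 * g12 * g56 - 2418310560 * g13 * g55 + 2418310560 * g15 * g35 - 1026157980 * g13 * g56 - 1664139934 * g14 * g55 +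
    1664139934 * g15 * g45 + 1151456996 * g14 * g56 - 1152851106 * g15 * g56 + 1152851106 * g16 * g55 + 3817450624 * g11 * g66 - 3817450624 * g16 * g16 -
    149697426 * g12 * g66 + 149697426 * g16 * g26 - 5209873410 * g13 * g66 + 5209873410 * g16 * g36 - 2431398638 * g14 * g66 + 2431398638 * g16 * g46 +
    1760807502 * g15 * g66 - 1760807502 * g16 * g56 + 5141199596 * g22 * g33 - 5141199596 * g23 * g23 - 1104460728 * g22 * g34 + 1104460728 * g23 * g24 -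
    1034025746 * g22 * g35 + 1034025746 * g23 * g25 - 1664118654 * g22 * g36 + 1664118654 * g23 * g26 + 8302302276 * g23 * g34 - 8302302276 * g24 * g33 -
    823732840 * g23 * g35 + 823732840 * g25 * g33 + 2146165612 * g23 * g36 - 2146165612 * g26 * g33 + 3834443868 * g24 * g35 - 2975265698 * g25 * g34 -
    19999918948 * d2345 + 1797755402 * g24 * g36 + 1526372038 * g26 * g34 + 72712 * d2346 + 6400374594 * g25 * g36 - 3993194368 * g26 * g35 - 19999927460 * d2356 +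
    3712745275 * g22 * g44 - 3712745275 * g24 * g24 + 13127180 * g22 * g45 - 13127180 * g24 * g25 - 2418318330 * g22 * g46 + 2418318330 * g24 * g26 - 1103415476 * g23 * g44 +
    1103415476 * g24 * g34 - 859178170 * g23 * g45 - 3324127440 * g23 * g46 - 823716940 * g24 * g45 + 823716940 * g25 * g44 + 3818440836 * g24 * g46 -
    3818440836 * g26 * g44 + 187537912 * g25 * g46 + 3218591952 * g26 * g45 - 67898 * d2456 + 5256716785 * g22 * g55 - 5256716785 * g25 * g25 - 412129184 * g22 * g56 +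
    412129184 * g25 * g26 + 13216908 * g23 * g55 - 13216908 * g25 * g35 - 2407180226 * g23 * g56 - 1034016206 * g24 * g55 + 1034016206 * g25 * g45 - 3406129864 * g24 * g56 +
    1692378864 * g25 * g56 - 1692378864 * g26 * g55 + 1179213653 * g22 * g66 - 1179213653 * g26 * g26 + 439266590 * g23 * g66 - 439266590 * g26 * g36 -
    3050880766 * g24 * g66 + 3050880766 * g26 * g46 - 1389593322 * g25 * g66 + 1389593322 * g26 * g56 + 5436790412 * g33 * g44 - 5436790412 * g34 * g34 -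
    1103364236 * g33 * g45 + 1103364236 * g34 * g35 - 475771052 * g33 * g46 + 475771052 * g34 * g36 + 8302235302 * g34 * g45 - 8302235302 * g35 * g44 -
    1222674118 * g34 * g46 + 1222674118 * g36 * g44 + 5653865314 * g35 * g46 - 4081245842 * g36 * g45 - 20000039154 * d3456 + 3712732588 * g33 * g55 -
    3712732588 * g35 * g35 + 365389944 * g33 * g56 - 365389944 * g35 * g36 - 1104483120 * g34 * g55 + 1104483120 * g35 * g45 - 1572619472 * g34 * g56 -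
    279975996 * g35 * g56 + 279975996 * g36 * g55 + 3192547798 * g33 * g66 - 3192547798 * g36 * g36 + 109847102 * g34 * g66 - 109847102 * g36 * g46 + 654022734 * g35 * g66 -
    654022734 * g36 * g56 + 5141146732 * g44 * g55 - 5141146732 * g45 * g45 - 799828976 * g44 * g56 + 799828976 * g45 * g46 + 9030940314 * g45 * g56 -
    9030940314 * g46 * g55 + 3118251717 * g44 * g66 - 3118251717 * g46 * g46 - 1339054524 * g45 * g66 + 1339054524 * g46 * g56 + 5556360681 * g55 * g66 -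
    5556360681 * g56 * g56 := by
  have h1 := bm x12 x13 x14 x15 x16 x23 x24 x25 x26 x34 x35 x36 x45 x46 x56
  have h2 := bm y12 y13 y14 y15 y16 y23 y24 y25 y26 y34 y35 y36 y45 y46 y56
  have h3 := bm z12 z13 z14 z15 z16 z23 z24 z25 z26 z34 z35 z36 z45 z46 z56
  linear_combination h1 + h2 + h3 +
    (5556308497) * k12_12 + (-1339035022) * k12_13 + (653940276) * k12_14 + (-1389591832) * k12_15 + (1760802710) * k12_16 + (9030928154) * k12_23 + (-279971926) * k12_24 +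
    (1692408008) * k12_25 + (-1152833936) * k12_26 + (9911669432) * k12_34 + (-1010351076) * k12_35 + (2263959142) * k12_36 + (10131046218) * k12_45 +
    (-1651959362) * k12_46 + (10168734138) * k12_56 + (3118230365) * k13_13 + (109820844) * k13_14 + (-3050888122) * k13_15 + (-2431303338) * k13_16 +
    (-799824950) * k13_23 + (-5830434618) * k13_24 + (-2208227340) * k13_25 + (1707662898) * k13_26 + (-1222643446) * k13_34 + (3818337452) * k13_35 +
    (3338925494) * k13_36 + (90446654) * k13_45 + (-1688796064) * k13_46 + (-1651977642) * k13_56 + (3192567599) * k14_14 + (439198076) * k14_15 + (-5209868558) * k14_16 +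
    (4257850822) * k14_23 + (365475486) * k14_24 + (-6137979826) * k14_25 + (-1339080878) * k14_26 + (-475786104) * k14_34 + (-1616844180) * k14_35 + (2606361234) * k14_36 +
    (2146096064) * k14_45 + (3338956358) * k14_46 + (2263959252) * k14_56 + (1179210961) * k15_15 + (-149673070) * k15_16 + (-1197919500) * k15_23 + (3730805540) * k15_24 +
    (-412022950) * k15_25 + (-1047580186) * k15_26 + (-1707296364) * k15_34 + (-2418310560) * k15_35 + (-1339138716) * k15_36 + (-1664139934) * k15_45 +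
    (1707670354) * k15_46 + (-1152851106) * k15_56 + (3817450624) * k16_16 + (-556206280) * k16_23 + (312777328) * k16_24 + (8783612788) * k16_25 + (-149697426) * k16_26 +
    (4295151636) * k16_34 + (312980736) * k16_35 + (-5209873410) * k16_36 + (-556213358) * k16_45 + (-2431398638) * k16_46 + (1760807502) * k16_56 + (5141199596) * k23_23 +
    (-1104460728) * k23_24 + (-1034025746) * k23_25 + (-1664118654) * k23_26 + (8302302276) * k23_34 + (-823732840) * k23_35 + (2146165612) * k23_36 +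
    (8936542838) * k23_45 + (90436884) * k23_46 + (10131165474) * k23_56 + (3712745275) * k24_24 + (13127180) * k24_25 + (-2418318330) * k24_26 + (-1103415476) * k24_34 +
    (-5961277140) * k24_35 + (-1616808922) * k24_36 + (-823716940) * k24_45 + (3818440836) * k24_46 + (-1010328714) * k24_56 + (5256716785) * k25_25 +
    (-412129184) * k25_26 + (5102098970) * k25_34 + (13216908) * k25_35 + (-6137971106) * k25_36 + (-1034016206) * k25_45 + (-2208263238) * k25_46 + (1692378864) * k25_56 +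
    (1179213653) * k26_26 + (-1707318518) * k26_34 + (3730790880) * k26_35 + (439266590) * k26_36 + (-1197866626) * k26_45 + (-3050880766) * k26_46 + (-1389593322) * k26_56 +
    (5436790412) * k34_34 + (-1103364236) * k34_35 + (-475771052) * k34_36 + (8302235302) * k34_45 + (-1222674118) * k34_46 + (9911716770) * k34_56 + (3712732588) * k35_35 +
    (365389944) * k35_36 + (-1104483120) * k35_45 + (-5830470928) * k35_46 + (-279975996) * k35_56 + (3192547798) * k36_36 + (4257851456) * k36_45 + (109847102) * k36_46 +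
    (654022734) * k36_56 + (5141146732) * k45_45 + (-799828976) * k45_46 + (9030940314) * k45_56 + (3118251717) * k46_46 + (-1339054524) * k46_56 + (5556360681) * k56_56

theorem bG (u1 u2 u3 u4 u5 u6 : E 4) : 0 ≤
    5556308497 * inner ℝ u1 u1 * inner ℝ u2 u2 - 5556308497 * inner ℝ u1 u2 * inner ℝ u1 u2 - 1339035022 * inner ℝ u1 u1 * inner ℝ u2 u3 + 1339035022 * inner ℝ u1 u2 * inner ℝ u1 u3 +
    653940276 * inner ℝ u1 u1 * inner ℝ u2 u4 - 653940276 * inner ℝ u1 u2 * inner ℝ u1 u4 - 1389591832 * inner ℝ u1 u1 * inner ℝ u2 u5 + 1389591832 * inner ℝ u1 u2 * inner ℝ u1 u5 +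
    1760802710 * inner ℝ u1 u1 * inner ℝ u2 u6 - 1760802710 * inner ℝ u1 u2 * inner ℝ u1 u6 + 9030928154 * inner ℝ u1 u2 * inner ℝ u2 u3 - 9030928154 * inner ℝ u1 u3 * inner ℝ u2 u2 -
    279971926 * inner ℝ u1 u2 * inner ℝ u2 u4 + 279971926 * inner ℝ u1 u4 * inner ℝ u2 u2 + 1692408008 * inner ℝ u1 u2 * inner ℝ u2 u5 - 1692408008 * inner ℝ u1 u5 * inner ℝ u2 u2 -
    1152833936 * inner ℝ u1 u2 * inner ℝ u2 u6 + 1152833936 * inner ℝ u1 u6 * inner ℝ u2 u2 + 5653818610 * inner ℝ u1 u3 * inner ℝ u2 u4 - 4081234814 * inner ℝ u1 u4 * inner ℝ u2 u3 -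
    19999954872 * Vol4.dt u1 u2 u3 u4 + 187568424 * inner ℝ u1 u3 * inner ℝ u2 u5 + 3218578416 * inner ℝ u1 u5 * inner ℝ u2 u3 + 43236 * Vol4.dt u1 u2 u3 u5 + 2820165422 * inner ℝ u1 u3 * inner ℝ u2 u6 -
    3971622040 * inner ℝ u1 u6 * inner ℝ u2 u3 - 89964 * Vol4.dt u1 u2 u3 u6 + 6400240678 * inner ℝ u1 u4 * inner ℝ u2 u5 - 3993066392 * inner ℝ u1 u5 * inner ℝ u2 u4 -
    19999831584 * Vol4.dt u1 u2 u4 u5 - 1964736690 * inner ℝ u1 u4 * inner ℝ u2 u6 + 2991040240 * inner ℝ u1 u6 * inner ℝ u2 u4 + 101156 * Vol4.dt u1 u2 u4 u6 +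
    1385121350 * inner ℝ u1 u5 * inner ℝ u2 u6 - 9121153952 * inner ℝ u1 u6 * inner ℝ u2 u5 - 19999927112 * Vol4.dt u1 u2 u5 u6 + 3118230365 * inner ℝ u1 u1 * inner ℝ u3 u3 -
    3118230365 * inner ℝ u1 u3 * inner ℝ u1 u3 + 109820844 * inner ℝ u1 u1 * inner ℝ u3 u4 - 109820844 * inner ℝ u1 u3 * inner ℝ u1 u4 - 3050888122 * inner ℝ u1 u1 * inner ℝ u3 u5 +
    3050888122 * inner ℝ u1 u3 * inner ℝ u1 u5 - 2431303338 * inner ℝ u1 u1 * inner ℝ u3 u6 + 2431303338 * inner ℝ u1 u3 * inner ℝ u1 u6 - 799824950 * inner ℝ u1 u2 * inner ℝ u3 u3 +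
    799824950 * inner ℝ u1 u3 * inner ℝ u2 u3 - 1572583796 * inner ℝ u1 u2 * inner ℝ u3 u4 - 3406146840 * inner ℝ u1 u2 * inner ℝ u3 u5 + 1151456618 * inner ℝ u1 u2 * inner ℝ u3 u6 -
    1222643446 * inner ℝ u1 u3 * inner ℝ u3 u4 + 1222643446 * inner ℝ u1 u4 * inner ℝ u3 u3 + 3818337452 * inner ℝ u1 u3 * inner ℝ u3 u5 - 3818337452 * inner ℝ u1 u5 * inner ℝ u3 u3 +
    3338925494 * inner ℝ u1 u3 * inner ℝ u3 u6 - 3338925494 * inner ℝ u1 u6 * inner ℝ u3 u3 + 1797743018 * inner ℝ u1 u4 * inner ℝ u3 u5 + 1526397526 * inner ℝ u1 u5 * inner ℝ u3 u4 +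
    5530 * Vol4.dt u1 u3 u4 u5 - 5983947700 * inner ℝ u1 u4 * inner ℝ u3 u6 - 917565170 * inner ℝ u1 u6 * inner ℝ u3 u4 + 5662 * Vol4.dt u1 u3 u4 u6 - 1964958378 * inner ℝ u1 u5 * inner ℝ u3 u6 +
    2991116358 * inner ℝ u1 u6 * inner ℝ u3 u5 - 141810 * Vol4.dt u1 u3 u5 u6 + 3192567599 * inner ℝ u1 u1 * inner ℝ u4 u4 - 3192567599 * inner ℝ u1 u4 * inner ℝ u1 u4 +
    439198076 * inner ℝ u1 u1 * inner ℝ u4 u5 - 439198076 * inner ℝ u1 u4 * inner ℝ u1 u5 - 5209868558 * inner ℝ u1 u1 * inner ℝ u4 u6 + 5209868558 * inner ℝ u1 u4 * inner ℝ u1 u6 +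
    365475486 * inner ℝ u1 u2 * inner ℝ u4 u4 - 365475486 * inner ℝ u1 u4 * inner ℝ u2 u4 - 2407174286 * inner ℝ u1 u2 * inner ℝ u4 u5 - 1026303550 * inner ℝ u1 u2 * inner ℝ u4 u6 -
    475786104 * inner ℝ u1 u3 * inner ℝ u4 u4 + 475786104 * inner ℝ u1 u4 * inner ℝ u3 u4 - 3324140544 * inner ℝ u1 u3 * inner ℝ u4 u5 + 6901512870 * inner ℝ u1 u3 * inner ℝ u4 u6 +
    2146096064 * inner ℝ u1 u4 * inner ℝ u4 u5 - 2146096064 * inner ℝ u1 u5 * inner ℝ u4 u4 + 3338956358 * inner ℝ u1 u4 * inner ℝ u4 u6 - 3338956358 * inner ℝ u1 u6 * inner ℝ u4 u4 +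
    2820172610 * inner ℝ u1 u5 * inner ℝ u4 u6 - 3971629606 * inner ℝ u1 u6 * inner ℝ u4 u5 - 75540 * Vol4.dt u1 u4 u5 u6 + 1179210961 * inner ℝ u1 u1 * inner ℝ u5 u5 -
    1179210961 * inner ℝ u1 u5 * inner ℝ u1 u5 - 149673070 * inner ℝ u1 u1 * inner ℝ u5 u6 + 149673070 * inner ℝ u1 u5 * inner ℝ u1 u6 - 412022950 * inner ℝ u1 u2 * inner ℝ u5 u5 +
    412022950 * inner ℝ u1 u5 * inner ℝ u2 u5 + 7736032602 * inner ℝ u1 u2 * inner ℝ u5 u6 - 2418310560 * inner ℝ u1 u3 * inner ℝ u5 u5 + 2418310560 * inner ℝ u1 u5 * inner ℝ u3 u5 -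
    1026157980 * inner ℝ u1 u3 * inner ℝ u5 u6 - 1664139934 * inner ℝ u1 u4 * inner ℝ u5 u5 + 1664139934 * inner ℝ u1 u5 * inner ℝ u4 u5 + 1151456996 * inner ℝ u1 u4 * inner ℝ u5 u6 -
    1152851106 * inner ℝ u1 u5 * inner ℝ u5 u6 + 1152851106 * inner ℝ u1 u6 * inner ℝ u5 u5 + 3817450624 * inner ℝ u1 u1 * inner ℝ u6 u6 - 3817450624 * inner ℝ u1 u6 * inner ℝ u1 u6 -
    149697426 * inner ℝ u1 u2 * inner ℝ u6 u6 + 149697426 * inner ℝ u1 u6 * inner ℝ u2 u6 - 5209873410 * inner ℝ u1 u3 * inner ℝ u6 u6 + 5209873410 * inner ℝ u1 u6 * inner ℝ u3 u6 -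
    2431398638 * inner ℝ u1 u4 * inner ℝ u6 u6 + 2431398638 * inner ℝ u1 u6 * inner ℝ u4 u6 + 1760807502 * inner ℝ u1 u5 * inner ℝ u6 u6 - 1760807502 * inner ℝ u1 u6 * inner ℝ u5 u6 +
    5141199596 * inner ℝ u2 u2 * inner ℝ u3 u3 - 5141199596 * inner ℝ u2 u3 * inner ℝ u2 u3 - 1104460728 * inner ℝ u2 u2 * inner ℝ u3 u4 + 1104460728 * inner ℝ u2 u3 * inner ℝ u2 u4 -
    1034025746 * inner ℝ u2 u2 * inner ℝ u3 u5 + 1034025746 * inner ℝ u2 u3 * inner ℝ u2 u5 - 1664118654 * inner ℝ u2 u2 * inner ℝ u3 u6 + 1664118654 * inner ℝ u2 u3 * inner ℝ u2 u6 +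
    8302302276 * inner ℝ u2 u3 * inner ℝ u3 u4 - 8302302276 * inner ℝ u2 u4 * inner ℝ u3 u3 - 823732840 * inner ℝ u2 u3 * inner ℝ u3 u5 + 823732840 * inner ℝ u2 u5 * inner ℝ u3 u3 +
    2146165612 * inner ℝ u2 u3 * inner ℝ u3 u6 - 2146165612 * inner ℝ u2 u6 * inner ℝ u3 u3 + 3834443868 * inner ℝ u2 u4 * inner ℝ u3 u5 - 2975265698 * inner ℝ u2 u5 * inner ℝ u3 u4 -
    19999918948 * Vol4.dt u2 u3 u4 u5 + 1797755402 * inner ℝ u2 u4 * inner ℝ u3 u6 + 1526372038 * inner ℝ u2 u6 * inner ℝ u3 u4 + 72712 * Vol4.dt u2 u3 u4 u6 + 6400374594 * inner ℝ u2 u5 * inner ℝ u3 u6 -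
    3993194368 * inner ℝ u2 u6 * inner ℝ u3 u5 - 19999927460 * Vol4.dt u2 u3 u5 u6 + 3712745275 * inner ℝ u2 u2 * inner ℝ u4 u4 - 3712745275 * inner ℝ u2 u4 * inner ℝ u2 u4 +
    13127180 * inner ℝ u2 u2 * inner ℝ u4 u5 - 13127180 * inner ℝ u2 u4 * inner ℝ u2 u5 - 2418318330 * inner ℝ u2 u2 * inner ℝ u4 u6 + 2418318330 * inner ℝ u2 u4 * inner ℝ u2 u6 -
    1103415476 * inner ℝ u2 u3 * inner ℝ u4 u4 + 1103415476 * inner ℝ u2 u4 * inner ℝ u3 u4 - 859178170 * inner ℝ u2 u3 * inner ℝ u4 u5 - 3324127440 * inner ℝ u2 u3 * inner ℝ u4 u6 -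
    823716940 * inner ℝ u2 u4 * inner ℝ u4 u5 + 823716940 * inner ℝ u2 u5 * inner ℝ u4 u4 + 3818440836 * inner ℝ u2 u4 * inner ℝ u4 u6 - 3818440836 * inner ℝ u2 u6 * inner ℝ u4 u4 +
    187537912 * inner ℝ u2 u5 * inner ℝ u4 u6 + 3218591952 * inner ℝ u2 u6 * inner ℝ u4 u5 - 67898 * Vol4.dt u2 u4 u5 u6 + 5256716785 * inner ℝ u2 u2 * inner ℝ u5 u5 -
    5256716785 * inner ℝ u2 u5 * inner ℝ u2 u5 - 412129184 * inner ℝ u2 u2 * inner ℝ u5 u6 + 412129184 * inner ℝ u2 u5 * inner ℝ u2 u6 + 13216908 * inner ℝ u2 u3 * inner ℝ u5 u5 -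
    13216908 * inner ℝ u2 u5 * inner ℝ u3 u5 - 2407180226 * inner ℝ u2 u3 * inner ℝ u5 u6 - 1034016206 * inner ℝ u2 u4 * inner ℝ u5 u5 + 1034016206 * inner ℝ u2 u5 * inner ℝ u4 u5 -
    3406129864 * inner ℝ u2 u4 * inner ℝ u5 u6 + 1692378864 * inner ℝ u2 u5 * inner ℝ u5 u6 - 1692378864 * inner ℝ u2 u6 * inner ℝ u5 u5 + 1179213653 * inner ℝ u2 u2 * inner ℝ u6 u6 -
    1179213653 * inner ℝ u2 u6 * inner ℝ u2 u6 + 439266590 * inner ℝ u2 u3 * inner ℝ u6 u6 - 439266590 * inner ℝ u2 u6 * inner ℝ u3 u6 - 3050880766 * inner ℝ u2 u4 * inner ℝ u6 u6 +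
    3050880766 * inner ℝ u2 u6 * inner ℝ u4 u6 - 1389593322 * inner ℝ u2 u5 * inner ℝ u6 u6 + 1389593322 * inner ℝ u2 u6 * inner ℝ u5 u6 + 5436790412 * inner ℝ u3 u3 * inner ℝ u4 u4 -
    5436790412 * inner ℝ u3 u4 * inner ℝ u3 u4 - 1103364236 * inner ℝ u3 u3 * inner ℝ u4 u5 + 1103364236 * inner ℝ u3 u4 * inner ℝ u3 u5 - 475771052 * inner ℝ u3 u3 * inner ℝ u4 u6 +
    475771052 * inner ℝ u3 u4 * inner ℝ u3 u6 + 8302235302 * inner ℝ u3 u4 * inner ℝ u4 u5 - 8302235302 * inner ℝ u3 u5 * inner ℝ u4 u4 - 1222674118 * inner ℝ u3 u4 * inner ℝ u4 u6 +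
    1222674118 * inner ℝ u3 u6 * inner ℝ u4 u4 + 5653865314 * inner ℝ u3 u5 * inner ℝ u4 u6 - 4081245842 * inner ℝ u3 u6 * inner ℝ u4 u5 - 20000039154 * Vol4.dt u3 u4 u5 u6 +
    3712732588 * inner ℝ u3 u3 * inner ℝ u5 u5 - 3712732588 * inner ℝ u3 u5 * inner ℝ u3 u5 + 365389944 * inner ℝ u3 u3 * inner ℝ u5 u6 - 365389944 * inner ℝ u3 u5 * inner ℝ u3 u6 -
    1104483120 * inner ℝ u3 u4 * inner ℝ u5 u5 + 1104483120 * inner ℝ u3 u5 * inner ℝ u4 u5 - 1572619472 * inner ℝ u3 u4 * inner ℝ u5 u6 - 279975996 * inner ℝ u3 u5 * inner ℝ u5 u6 +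
    279975996 * inner ℝ u3 u6 * inner ℝ u5 u5 + 3192547798 * inner ℝ u3 u3 * inner ℝ u6 u6 - 3192547798 * inner ℝ u3 u6 * inner ℝ u3 u6 + 109847102 * inner ℝ u3 u4 * inner ℝ u6 u6 -
    109847102 * inner ℝ u3 u6 * inner ℝ u4 u6 + 654022734 * inner ℝ u3 u5 * inner ℝ u6 u6 - 654022734 * inner ℝ u3 u6 * inner ℝ u5 u6 + 5141146732 * inner ℝ u4 u4 * inner ℝ u5 u5 -
    5141146732 * inner ℝ u4 u5 * inner ℝ u4 u5 - 799828976 * inner ℝ u4 u4 * inner ℝ u5 u6 + 799828976 * inner ℝ u4 u5 * inner ℝ u4 u6 + 9030940314 * inner ℝ u4 u5 * inner ℝ u5 u6 -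
    9030940314 * inner ℝ u4 u6 * inner ℝ u5 u5 + 3118251717 * inner ℝ u4 u4 * inner ℝ u6 u6 - 3118251717 * inner ℝ u4 u6 * inner ℝ u4 u6 - 1339054524 * inner ℝ u4 u5 * inner ℝ u6 u6 +
    1339054524 * inner ℝ u4 u6 * inner ℝ u5 u6 + 5556360681 * inner ℝ u5 u5 * inner ℝ u6 u6 - 5556360681 * inner ℝ u5 u6 * inner ℝ u5 u6 :=
  balg (kA u1 u2) (kB u1 u2 u3) (kB u1 u2 u4) (kB u1 u2 u5) (kB u1 u2 u6) (kC u1 u2 u3) (kC u1 u2 u4) (kC u1 u2 u5) (kC u1 u2 u6) (kE u1 u2 u3 u4) (kE u1 u2 u3 u5) (kE u1 u2 u3 u6) (kE u1 u2 u4 u5) (kE u1 u2 u4 u6) (kE u1 u2 u5 u6) (kA u1 u3) (kB u1 u3 u4) (kB u1 u3 u5) (kB u1 u3 u6) (kD u1 u2 u3) (kF u1 u2 u3 u4) (kF u1 u2 u3 u5) (kF u1 u2 u3 u6) (kC u1 u3 u4) (kC u1 u3 u5) (kC u1 u3 u6) (kE u1 u3 u4 u5) (kE u1 u3 u4 u6) (kE u1 u3 u5 u6) (kA u1 u4) (kB u1 u4 u5) (kB u1 u4 u6) (kG u1 u2 u3 u4) (kD u1 u2 u4) (kF u1 u2 u4 u5) (kF u1 u2 u4 u6) (kD u1 u3 u4) (kF u1 u3 u4 u5) (kF u1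 u3 u4 u6) (kC u1 u4 u5) (kC u1 u4 u6) (kE u1 u4 u5 u6) (kA u1 u5) (kB u1 u5 u6) (kG u1 u2 u3 u5) (kG u1 u2 u4 u5) (kD u1 u2 u5) (kF u1 u2 u5 u6) (kG u1 u3 u4 u5) (kD u1 u3 u5) (kF u1 u3 u5 u6) (kD u1 u4 u5) (kF u1 u4 u5 u6) (kC u1 u5 u6) (kA u1 u6) (kG u1 u2 u3 u6) (kG u1 u2 u4 u6) (kG u1 u2 u5 u6) (kD u1 u2 u6) (kG u1 u3 u4 u6) (kG u1 u3 u5 u6) (kD u1 u3 u6) (kG u1 u4 u5 u6) (kD u1 u4 u6) (kD u1 u5 u6) (kA u2 u3) (kB u2 u3 u4) (kB u2 u3 u5) (kB u2 u3 u6) (kC u2 u3 u4) (kC u2 u3 u5) (kC u2 u3 u6) (kE u2 u3 u4 u5) (kE u2 u3 u4 u6) (kE u2 u3 u5 u6) (kA u2 u4) (kB u2 u4 u5) (kB u2 u4 u6) (kD u2 u3 u4) (kF u2 u3 u4 u5) (kF u2 u3 u4 u6) (kC u2 u4 u5) (kC u2 u4 u6) (kE u2 u4 u5 u6) (kA u2 u5) (kB u2 u5 u6) (kG u2 u3 u4 u5) (kD u2 u3 u5) (kF u2 u3 u5 u6) (kD u2 u4 u5) (kF u2 u4 u5 u6) (kC u2 u5 u6) (kA u2 u6) (kG u2 u3 u4 u6) (kG u2 u3 u5 u6) (kD u2 u3 u6) (kG u2 u4 u5 u6) (kD u2 u4 u6) (kD u2 u5 u6) (kA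 u3 u4) (kB u3 u4 u5) (kB u3 u4 u6) (kC u3 u4 u5) (kC u3 u4 u6) (kE u3 u4 u5 u6) (kA u3 u5) (kB u3 u5 u6) (kD u3 u4 u5) (kF u3 u4 u5 u6) (kC u3 u5 u6) (kA u3 u6) (kG u3 u4 u5 u6) (kD u3 u4 u6) (kD u3 u5 u6) (kA u4 u5) (kB u4 u5 u6) (kC u4 u5 u6) (kA u4 u6) (kD u4 u5 u6) (kA u5 u6)

theorem eb {g11 g12 g13 g14 g15 g16 g22 g23 g24 g25 g26 g33 g34 g35 g36 g44 g45 g46 g55 g56 g66 d1234 d1235 d1236 d1245 d1246 d1256 d1345 d1346 d1356 d1456 d2345 d2346 d2356 d2456 d3456 : ℝ}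
    (ag11 : -1 ≤ g11 ∧ g11 ≤ 1) (ag12 : -1 ≤ g12 ∧ g12 ≤ 1) (ag13 : -1 ≤ g13 ∧ g13 ≤ 1) (ag14 : -1 ≤ g14 ∧ g14 ≤ 1) (ag15 : -1 ≤ g15 ∧ g15 ≤ 1) (ag16 : -1 ≤ g16 ∧ g16 ≤ 1) (ag22 : -1 ≤ g22 ∧ g22 ≤ 1) (ag23 : -1 ≤ g23 ∧ g23 ≤ 1) (ag24 : -1 ≤ g24 ∧ g24 ≤ 1) (ag25 : -1 ≤ g25 ∧ g25 ≤ 1) (ag26 : -1 ≤ g26 ∧ g26 ≤ 1) (ag33 : -1 ≤ g33 ∧ g33 ≤ 1) (ag34 : -1 ≤ g34 ∧ g34 ≤ 1) (ag35 : -1 ≤ g35 ∧ g35 ≤ 1) (ag36 : -1 ≤ g36 ∧ g36 ≤ 1) (ag44 : -1 ≤ g44 ∧ g44 ≤ 1) (ag45 : -1 ≤ g45 ∧ g45 ≤ 1) (ag46 : -1 ≤ g46 ∧ g46 ≤ 1) (ag55 : -1 ≤ g55 ∧ g55 ≤ 1) (ag56 : -1 ≤ g56 ∧ g56 ≤ 1) (ag66 : -1 ≤ g66 ∧ g66 ≤ 1)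
    (ad1234 : -1 ≤ d1234 ∧ d1234 ≤ 1) (ad1235 : -1 ≤ d1235 ∧ d1235 ≤ 1) (ad1236 : -1 ≤ d1236 ∧ d1236 ≤ 1) (ad1245 : -1 ≤ d1245 ∧ d1245 ≤ 1) (ad1246 : -1 ≤ d1246 ∧ d1246 ≤ 1) (ad1256 : -1 ≤ d1256 ∧ d1256 ≤ 1) (ad1345 : -1 ≤ d1345 ∧ d1345 ≤ 1) (ad1346 : -1 ≤ d1346 ∧ d1346 ≤ 1) (ad1356 : -1 ≤ d1356 ∧ d1356 ≤ 1) (ad1456 : -1 ≤ d1456 ∧ d1456 ≤ 1) (ad2345 : -1 ≤ d2345 ∧ d2345 ≤ 1) (ad2346 : -1 ≤ d2346 ∧ d2346 ≤ 1) (ad2356 : -1 ≤ d2356 ∧ d2356 ≤ 1) (ad2456 : -1 ≤ d2456 ∧ d2456 ≤ 1) (ad3456 : -1 ≤ d3456 ∧ d3456 ≤ 1) :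
    -(12947874 : ℝ) ≤
    g11 * (14673 * g11 - 56798 * g12 - 120602 * g13 + 18394 * g14 - 9632 * g15 - 35782 * g16 + 160201 / 2 * g22 + 85771 * g23 + 30836 * g24 - 135400 * g25 +
    24311 * g26 - 15277 / 2 * g33 - 3668 * g34 + 24823 * g35 - 107121 * g36 + 12307 / 2 * g44 + 10786 * g45 - 61269 * g46 + 124955 / 2 * g55 - 5917 * g56 +
    74415 * g66 - 71994364 / 625) + g12 * (23067 / 2 * g12 + 57029 * g13 - 65246 * g14 - 45858 * g15 - 59705 * g16 + 1846 * g22 + 1669 * g23 - 36873 * g24 -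
    46002 * g25 + 17200 * g26 + 56765 * g33 - 26288 * g34 - 66546 * g35 + 21619 * g36 + 22199 * g44 + 1781 * g45 - 35317 * g46 - 42509 * g55 + 6349 * g56 +
    96871 * g66 - 54652542 / 625) + g13 * (-68373 / 2 * g13 - 25160 * g14 + 65457 * g15 + 154131 * g16 - 54011 * g22 - 54911 * g23 - 45577 * g24 + 143928 * g25 -
    49207 * g26 - 55448 * g33 + 42667 * g34 + 11296 * g35 + 80015 * g36 - 80590 * g44 - 30916 * g45 + 168663 * g46 - 139366 * g55 - 7140 * g56 - 123659 * g66 +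
    141130522 / 625) + g14 * (-34861 / 2 * g14 + 45734 * g15 + 22397 * g16 - 25281 * g22 + 46469 * g23 - 2655 * g24 + 1157 * g25 + 12871 * g26 - 30629 * g33 -
    6428 * g34 + 4975 * g35 + 18586 * g36 - 62590 * g44 + 84046 * g45 + 31675 * g46 - 18343 * g55 + 15030 * g56 - 56359 * g66 + 76425254 / 625) + g15 * (32401 / 2 * g15 -
    41555 * g16 + 22754 * g22 + 57242 * g23 + 60126 * g24 + 2119 * g25 - 87969 * g26 + 22138 * g33 - 62921 * g34 - 6868 * g35 + 106413 * g36 - 44472 * g44 -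
    12013 * g45 - 52719 * g46 - 23684 * g55 + 20487 * g56 + 7153 * g66 + 33397194 / 625) + g16 * (25356 * g16 + 50898 * g22 + 17008 * g23 + 90112 * g24 -
    1200 * g25 - 21321 * g26 + 55583 * g33 - 62199 * g34 - 12383 * g35 - 17233 * g36 + 37631 * g44 + 23135 * g45 + 55225 * g46 + 49777 * g55 + 20171 * g56 -
    36342 * g66 - 49028814 / 625) + g22 * (19108 * g22 - 24736 * g23 - 72850 * g24 - 45386 * g25 - 7756 * g26 - 79368 * g33 + 13728 * g34 - 3315 * g35 -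
    54621 * g36 + 8309 / 2 * g44 + 44180 * g45 - 54285 * g46 + 214123 / 2 * g55 - 24292 * g56 + 97279 / 2 * g66 - 32873901 / 625) + g23 * (3657 * g23 +
    57428 * g24 + 83477 * g25 - 13435 * g26 + 36802 * g33 - 113266 * g34 + 39570 * g35 - 5454 * g36 - 2938 * g44 + 81569 * g45 + 29814 * g46 + 5642 * g55 -
    2151 * g56 - 30579 * g66 - 69025146 / 625) + g24 * (12371 / 2 * g24 - 11284 * g25 - 28705 * g26 + 218944 * g33 + 104880 * g34 - 155136 * g35 - 2555 * g36 +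
    33256 * g44 - 69188 * g45 - 83644 * g46 + 1223 * g55 - 52162 * g56 - 21909 * g66 - 16018752 / 625) + g25 * (-28109 / 2 * g25 - 33894 * g26 - 46834 * g33 +
    6725 * g34 - 19244 * g35 - 11695 * g36 + 6058 * g44 + 87609 * g45 + 181052 * g46 - 68334 * g55 - 14802 * g56 - 165505 * g66 + 30668618 / 125) + g26 * (-1039 / 2 * g26 +
    40530 * g33 + 2535 * g34 + 105318 * g35 + 61817 * g36 + 81152 * g44 - 2330 * g45 - 34595 * g46 + 31660 * g55 + 22197 * g56 + 8660 * g66 - 39004056 / 625) +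
    g33 * (-5962 * g33 - 12756 * g34 + 62020 * g35 - 71788 * g36 - 125405 * g44 - 61774 * g45 - 84996 * g46 + 71110 * g55 + 20272 * g56 - 23301 * g66 +
    68165146 / 625) + g34 * (23764 * g34 + 14288 * g35 + 56572 * g36 + 26524 * g44 - 75627 * g45 - 43757 * g46 + 13434 * g55 + 7354 * g56 + 28833 * g66 -
    10142732 / 125) + g35 * (-16606 * g35 + 2008 * g36 + 143803 * g44 + 146866 * g45 - 111035 * g46 - 27530 * g55 - 68064 * g56 + 11145 * g66 - 15483808 / 125) +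
    g36 * (-60842 * g36 - 57853 * g44 + 43151 * g45 - 26463 * g46 - 31030 * g55 + 8343 * g56 + 35540 * g66 + 124694004 / 625) + g44 * (-13693 * g44 - 9982 * g45 -
    36826 * g46 + 3370 * g55 + 15948 * g56 + 57007 / 2 * g66 + 50904377 / 625) + g45 * (11290 * g45 + 35842 * g46 - 51074 * g55 + 7467 * g56 - 22896 * g66 +
    2267354 / 625) + g46 * (56281 / 2 * g46 - 105657 * g55 + 89704 * g56 - 43538 * g66 + 69515522 / 625) + g55 * (47730 * g55 - 8976 * g56 + 96011 / 2 * g66 -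
    106513132 / 625) + g56 * (24383 / 2 * g56 - 85320 * g66 + 91757458 / 625) + g66 * (26097 * g66 - 72303739 / 625) + -22564 * d1234 - 21618 * d1235 +
    44982 * d1236 - 84208 * d1245 - 50578 * d1246 - 36444 * d1256 - 2765 * d1345 - 2831 * d1346 + 70905 * d1356 + 37770 * d1456 - 40526 * d2345 - 36356 * d2346 -
    36270 * d2356 + 33949 * d2456 + 19577 * d3456 := by
  have f0 : -(1091759 : ℝ) ≤ g11 * (
    14673 * g11 - 56798 * g12 - 120602 * g13 + 18394 * g14 - 9632 * g15 - 35782 * g16 + 160201 / 2 * g22 + 85771 * g23 + 30836 * g24 - 135400 * g25 + 24311 * g26 -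
    15277 / 2 * g33 - 3668 * g34 + 24823 * g35 - 107121 * g36 + 12307 / 2 * g44 + 10786 * g45 - 61269 * g46 + 124955 / 2 * g55 - 5917 * g56 + 74415 * g66 -
    71994364 / 625) :=
    bd ag11 (by linarith only [ag11.1, ag11.2, ag12.1, ag12.2, ag13.1, ag13.2, ag14.1, ag14.2, ag15.1, ag15.2, ag16.1, ag16.2, ag22.1, ag22.2, ag23.1, ag23.2, ag24.1, ag24.2, ag25.1, ag25.2, ag26.1, ag26.2, ag33.1, ag33.2, ag34.1, ag34.2, ag35.1, ag35.2, ag36.1, ag36.2, ag44.1, ag44.2, ag45.1, ag45.2, ag46.1, ag46.2, ag55.1, ag55.2, ag56.1, ag56.2, ag66.1, ag66.2])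
      (by linarith only [ag11.1, ag11.2, ag12.1, ag12.2, ag13.1, ag13.2, ag14.1, ag14.2, ag15.1, ag15.2, ag16.1, ag16.2, ag22.1, ag22.2, ag23.1, ag23.2, ag24.1, ag24.2, ag25.1, ag25.2, ag26.1, ag26.2, ag33.1, ag33.2, ag34.1, ag34.2, ag35.1, ag35.2, ag36.1, ag36.2, ag44.1, ag44.2, ag45.1, ag45.2, ag46.1, ag46.2, ag55.1, ag55.2, ag56.1, ag56.2, ag66.1, ag66.2])
  have f1 : -(806650 : ℝ) ≤ g12 * (
    23067 / 2 * g12 + 57029 * g13 - 65246 * g14 - 45858 * g15 - 59705 * g16 + 1846 * g22 + 1669 * g23 - 36873 * g24 - 46002 * g25 + 17200 * g26 + 56765 * g33 -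
    26288 * g34 - 66546 * g35 + 21619 * g36 + 22199 * g44 + 1781 * g45 - 35317 * g46 - 42509 * g55 + 6349 * g56 + 96871 * g66 - 54652542 / 625) :=
    bd ag12 (by linarith only [ag12.1, ag12.2, ag13.1, ag13.2, ag14.1, ag14.2, ag15.1, ag15.2, ag16.1, ag16.2, ag22.1, ag22.2, ag23.1, ag23.2, ag24.1, ag24.2, ag25.1, ag25.2, ag26.1, ag26.2, ag33.1, ag33.2, ag34.1, ag34.2, ag35.1, ag35.2, ag36.1, ag36.2, ag44.1, ag44.2, ag45.1, ag45.2, ag46.1, ag46.2, ag55.1, ag55.2, ag56.1, ag56.2, ag66.1, ag66.2])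
      (by linarith only [ag12.1, ag12.2, ag13.1, ag13.2, ag14.1, ag14.2, ag15.1, ag15.2, ag16.1, ag16.2, ag22.1, ag22.2, ag23.1, ag23.2, ag24.1, ag24.2, ag25.1, ag25.2, ag26.1, ag26.2, ag33.1, ag33.2, ag34.1, ag34.2, ag35.1, ag35.2, ag36.1, ag36.2, ag44.1, ag44.2, ag45.1, ag45.2, ag46.1, ag46.2, ag55.1, ag55.2, ag56.1, ag56.2, ag66.1, ag66.2])
  have f2 : -(1592138 : ℝ) ≤ g13 * (
    -68373 / 2 * g13 - 25160 * g14 + 65457 * g15 + 154131 * g16 - 54011 * g22 - 54911 * g23 - 45577 * g24 + 143928 * g25 - 49207 * g26 - 55448 * g33 +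
    42667 * g34 + 11296 * g35 + 80015 * g36 - 80590 * g44 - 30916 * g45 + 168663 * g46 - 139366 * g55 - 7140 * g56 - 123659 * g66 + 141130522 / 625) :=
    bd ag13 (by linarith only [ag13.1, ag13.2, ag14.1, ag14.2, ag15.1, ag15.2, ag16.1, ag16.2, ag22.1, ag22.2, ag23.1, ag23.2, ag24.1, ag24.2, ag25.1, ag25.2, ag26.1, ag26.2, ag33.1, ag33.2, ag34.1, ag34.2, ag35.1, ag35.2, ag36.1, ag36.2, ag44.1, ag44.2, ag45.1, ag45.2, ag46.1, ag46.2, ag55.1, ag55.2, ag56.1, ag56.2, ag66.1, ag66.2])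
      (by linarith only [ag13.1, ag13.2, ag14.1, ag14.2, ag15.1, ag15.2, ag16.1, ag16.2, ag22.1, ag22.2, ag23.1, ag23.2, ag24.1, ag24.2, ag25.1, ag25.2, ag26.1, ag26.2, ag33.1, ag33.2, ag34.1, ag34.2, ag35.1, ag35.2, ag36.1, ag36.2, ag44.1, ag44.2, ag45.1, ag45.2, ag46.1, ag46.2, ag55.1, ag55.2, ag56.1, ag56.2, ag66.1, ag66.2])
  have f3 : -(624936 : ℝ) ≤ g14 * (
    -34861 / 2 * g14 + 45734 * g15 + 22397 * g16 - 25281 * g22 + 46469 * g23 - 2655 * g24 + 1157 * g25 + 12871 * g26 - 30629 * g33 - 6428 * g34 + 4975 * g35 +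
    18586 * g36 - 62590 * g44 + 84046 * g45 + 31675 * g46 - 18343 * g55 + 15030 * g56 - 56359 * g66 + 76425254 / 625) :=
    bd ag14 (by linarith only [ag14.1, ag14.2, ag15.1, ag15.2, ag16.1, ag16.2, ag22.1, ag22.2, ag23.1, ag23.2, ag24.1, ag24.2, ag25.1, ag25.2, ag26.1, ag26.2, ag33.1, ag33.2, ag34.1, ag34.2, ag35.1, ag35.2, ag36.1, ag36.2, ag44.1, ag44.2, ag45.1, ag45.2, ag46.1, ag46.2, ag55.1, ag55.2, ag56.1, ag56.2, ag66.1, ag66.2])
      (by linarith only [ag14.1, ag14.2, ag15.1, ag15.2, ag16.1, ag16.2, ag22.1, ag22.2, ag23.1, ag23.2, ag24.1, ag24.2, ag25.1, ag25.2, ag26.1, ag26.2, ag33.1, ag33.2, ag34.1, ag34.2, ag35.1, ag35.2, ag36.1, ag36.2, ag44.1, ag44.2, ag45.1, ag45.2, ag46.1, ag46.2, ag55.1, ag55.2, ag56.1, ag56.2, ag66.1, ag66.2])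
  have f4 : -(700270 : ℝ) ≤ g15 * (
    32401 / 2 * g15 - 41555 * g16 + 22754 * g22 + 57242 * g23 + 60126 * g24 + 2119 * g25 - 87969 * g26 + 22138 * g33 - 62921 * g34 - 6868 * g35 + 106413 * g36 -
    44472 * g44 - 12013 * g45 - 52719 * g46 - 23684 * g55 + 20487 * g56 + 7153 * g66 + 33397194 / 625) :=
    bd ag15 (by linarith only [ag15.1, ag15.2, ag16.1, ag16.2, ag22.1, ag22.2, ag23.1, ag23.2, ag24.1, ag24.2, ag25.1, ag25.2, ag26.1, ag26.2, ag33.1, ag33.2, ag34.1, ag34.2, ag35.1, ag35.2, ag36.1, ag36.2, ag44.1, ag44.2, ag45.1, ag45.2, ag46.1, ag46.2, ag55.1, ag55.2, ag56.1, ag56.2, ag66.1, ag66.2])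
      (by linarith only [ag15.1, ag15.2, ag16.1, ag16.2, ag22.1, ag22.2, ag23.1, ag23.2, ag24.1, ag24.2, ag25.1, ag25.2, ag26.1, ag26.2, ag33.1, ag33.2, ag34.1, ag34.2, ag35.1, ag35.2, ag36.1, ag36.2, ag44.1, ag44.2, ag45.1, ag45.2, ag46.1, ag46.2, ag55.1, ag55.2, ag56.1, ag56.2, ag66.1, ag66.2])
  have f5 : -(654021 : ℝ) ≤ g16 * (
    25356 * g16 + 50898 * g22 + 17008 * g23 + 90112 * g24 - 1200 * g25 - 21321 * g26 + 55583 * g33 - 62199 * g34 - 12383 * g35 - 17233 * g36 + 37631 * g44 +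
    23135 * g45 + 55225 * g46 + 49777 * g55 + 20171 * g56 - 36342 * g66 - 49028814 / 625) :=
    bd ag16 (by linarith only [ag16.1, ag16.2, ag22.1, ag22.2, ag23.1, ag23.2, ag24.1, ag24.2, ag25.1, ag25.2, ag26.1, ag26.2, ag33.1, ag33.2, ag34.1, ag34.2, ag35.1, ag35.2, ag36.1, ag36.2, ag44.1, ag44.2, ag45.1, ag45.2, ag46.1, ag46.2, ag55.1, ag55.2, ag56.1, ag56.2, ag66.1, ag66.2])
      (by linarith only [ag16.1, ag16.2, ag22.1, ag22.2, ag23.1, ag23.2, ag24.1, ag24.2, ag25.1, ag25.2, ag26.1, ag26.2, ag33.1, ag33.2, ag34.1, ag34.2, ag35.1, ag35.2, ag36.1, ag36.2, ag44.1, ag44.2, ag45.1, ag45.2, ag46.1, ag46.2, ag55.1, ag55.2, ag56.1, ag56.2, ag66.1, ag66.2])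
  have f6 : -(656079 : ℝ) ≤ g22 * (
    19108 * g22 - 24736 * g23 - 72850 * g24 - 45386 * g25 - 7756 * g26 - 79368 * g33 + 13728 * g34 - 3315 * g35 - 54621 * g36 + 8309 / 2 * g44 + 44180 * g45 -
    54285 * g46 + 214123 / 2 * g55 - 24292 * g56 + 97279 / 2 * g66 - 32873901 / 625) :=
    bd ag22 (by linarith only [ag22.1, ag22.2, ag23.1, ag23.2, ag24.1, ag24.2, ag25.1, ag25.2, ag26.1, ag26.2, ag33.1, ag33.2, ag34.1, ag34.2, ag35.1, ag35.2, ag36.1, ag36.2, ag44.1, ag44.2, ag45.1, ag45.2, ag46.1, ag46.2, ag55.1, ag55.2, ag56.1, ag56.2, ag66.1, ag66.2])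
      (by linarith only [ag22.1, ag22.2, ag23.1, ag23.2, ag24.1, ag24.2, ag25.1, ag25.2, ag26.1, ag26.2, ag33.1, ag33.2, ag34.1, ag34.2, ag35.1, ag35.2, ag36.1, ag36.2, ag44.1, ag44.2, ag45.1, ag45.2, ag46.1, ag46.2, ag55.1, ag55.2, ag56.1, ag56.2, ag66.1, ag66.2])
  have f7 : -(616223 : ℝ) ≤ g23 * (
    3657 * g23 + 57428 * g24 + 83477 * g25 - 13435 * g26 + 36802 * g33 - 113266 * g34 + 39570 * g35 - 5454 * g36 - 2938 * g44 + 81569 * g45 + 29814 * g46 +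
    5642 * g55 - 2151 * g56 - 30579 * g66 - 69025146 / 625) :=
    bd ag23 (by linarith only [ag23.1, ag23.2, ag24.1, ag24.2, ag25.1, ag25.2, ag26.1, ag26.2, ag33.1, ag33.2, ag34.1, ag34.2, ag35.1, ag35.2, ag36.1, ag36.2, ag44.1, ag44.2, ag45.1, ag45.2, ag46.1, ag46.2, ag55.1, ag55.2, ag56.1, ag56.2, ag66.1, ag66.2])
      (by linarith only [ag23.1, ag23.2, ag24.1, ag24.2, ag25.1, ag25.2, ag26.1, ag26.2, ag33.1, ag33.2, ag34.1, ag34.2, ag35.1, ag35.2, ag36.1, ag36.2, ag44.1, ag44.2, ag45.1, ag45.2, ag46.1, ag46.2, ag55.1, ag55.2, ag56.1, ag56.2, ag66.1, ag66.2])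
  have f8 : -(814702 : ℝ) ≤ g24 * (
    12371 / 2 * g24 - 11284 * g25 - 28705 * g26 + 218944 * g33 + 104880 * g34 - 155136 * g35 - 2555 * g36 + 33256 * g44 - 69188 * g45 - 83644 * g46 + 1223 * g55 -
    52162 * g56 - 21909 * g66 - 16018752 / 625) :=
    bd ag24 (by linarith only [ag24.1, ag24.2, ag25.1, ag25.2, ag26.1, ag26.2, ag33.1, ag33.2, ag34.1, ag34.2, ag35.1, ag35.2, ag36.1, ag36.2, ag44.1, ag44.2, ag45.1, ag45.2, ag46.1, ag46.2, ag55.1, ag55.2, ag56.1, ag56.2, ag66.1, ag66.2])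
      (by linarith only [ag24.1, ag24.2, ag25.1, ag25.2, ag26.1, ag26.2, ag33.1, ag33.2, ag34.1, ag34.2, ag35.1, ag35.2, ag36.1, ag36.2, ag44.1, ag44.2, ag45.1, ag45.2, ag46.1, ag46.2, ag55.1, ag55.2, ag56.1, ag56.2, ag66.1, ag66.2])
  have f9 : -(901156 : ℝ) ≤ g25 * (
    -28109 / 2 * g25 - 33894 * g26 - 46834 * g33 + 6725 * g34 - 19244 * g35 - 11695 * g36 + 6058 * g44 + 87609 * g45 + 181052 * g46 - 68334 * g55 - 14802 * g56 -
    165505 * g66 + 30668618 / 125) :=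
    bd ag25 (by linarith only [ag25.1, ag25.2, ag26.1, ag26.2, ag33.1, ag33.2, ag34.1, ag34.2, ag35.1, ag35.2, ag36.1, ag36.2, ag44.1, ag44.2, ag45.1, ag45.2, ag46.1, ag46.2, ag55.1, ag55.2, ag56.1, ag56.2, ag66.1, ag66.2])
      (by linarith only [ag25.1, ag25.2, ag26.1, ag26.2, ag33.1, ag33.2, ag34.1, ag34.2, ag35.1, ag35.2, ag36.1, ag36.2, ag44.1, ag44.2, ag45.1, ag45.2, ag46.1, ag46.2, ag55.1, ag55.2, ag56.1, ag56.2, ag66.1, ag66.2])
  have f10 : -(453720 : ℝ) ≤ g26 * (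
    -1039 / 2 * g26 + 40530 * g33 + 2535 * g34 + 105318 * g35 + 61817 * g36 + 81152 * g44 - 2330 * g45 - 34595 * g46 + 31660 * g55 + 22197 * g56 + 8660 * g66 -
    39004056 / 625) :=
    bd ag26 (by linarith only [ag26.1, ag26.2, ag33.1, ag33.2, ag34.1, ag34.2, ag35.1, ag35.2, ag36.1, ag36.2, ag44.1, ag44.2, ag45.1, ag45.2, ag46.1, ag46.2, ag55.1, ag55.2, ag56.1, ag56.2, ag66.1, ag66.2])
      (by linarith only [ag26.1, ag26.2, ag33.1, ag33.2, ag34.1, ag34.2, ag35.1, ag35.2, ag36.1, ag36.2, ag44.1, ag44.2, ag45.1, ag45.2, ag46.1, ag46.2, ag55.1, ag55.2, ag56.1, ag56.2, ag66.1, ag66.2])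
  have f11 : -(648449 : ℝ) ≤ g33 * (
    -5962 * g33 - 12756 * g34 + 62020 * g35 - 71788 * g36 - 125405 * g44 - 61774 * g45 - 84996 * g46 + 71110 * g55 + 20272 * g56 - 23301 * g66 + 68165146 / 625) :=
    bd ag33 (by linarith only [ag33.1, ag33.2, ag34.1, ag34.2, ag35.1, ag35.2, ag36.1, ag36.2, ag44.1, ag44.2, ag45.1, ag45.2, ag46.1, ag46.2, ag55.1, ag55.2, ag56.1, ag56.2, ag66.1, ag66.2])
      (by linarith only [ag33.1, ag33.2, ag34.1, ag34.2, ag35.1, ag35.2, ag36.1, ag36.2, ag44.1, ag44.2, ag45.1, ag45.2, ag46.1, ag46.2, ag55.1, ag55.2, ag56.1, ag56.2, ag66.1, ag66.2])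
  have f12 : -(371295 : ℝ) ≤ g34 * (
    23764 * g34 + 14288 * g35 + 56572 * g36 + 26524 * g44 - 75627 * g45 - 43757 * g46 + 13434 * g55 + 7354 * g56 + 28833 * g66 - 10142732 / 125) :=
    bd ag34 (by linarith only [ag34.1, ag34.2, ag35.1, ag35.2, ag36.1, ag36.2, ag44.1, ag44.2, ag45.1, ag45.2, ag46.1, ag46.2, ag55.1, ag55.2, ag56.1, ag56.2, ag66.1, ag66.2])
      (by linarith only [ag34.1, ag34.2, ag35.1, ag35.2, ag36.1, ag36.2, ag44.1, ag44.2, ag45.1, ag45.2, ag46.1, ag46.2, ag55.1, ag55.2, ag56.1, ag56.2, ag66.1, ag66.2])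
  have f13 : -(650928 : ℝ) ≤ g35 * (
    -16606 * g35 + 2008 * g36 + 143803 * g44 + 146866 * g45 - 111035 * g46 - 27530 * g55 - 68064 * g56 + 11145 * g66 - 15483808 / 125) :=
    bd ag35 (by linarith only [ag35.1, ag35.2, ag36.1, ag36.2, ag44.1, ag44.2, ag45.1, ag45.2, ag46.1, ag46.2, ag55.1, ag55.2, ag56.1, ag56.2, ag66.1, ag66.2])
      (by linarith only [ag35.1, ag35.2, ag36.1, ag36.2, ag44.1, ag44.2, ag45.1, ag45.2, ag46.1, ag46.2, ag55.1, ag55.2, ag56.1, ag56.2, ag66.1, ag66.2])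
  have f14 : -(462733 : ℝ) ≤ g36 * (
    -60842 * g36 - 57853 * g44 + 43151 * g45 - 26463 * g46 - 31030 * g55 + 8343 * g56 + 35540 * g66 + 124694004 / 625) :=
    bd ag36 (by linarith only [ag36.1, ag36.2, ag44.1, ag44.2, ag45.1, ag45.2, ag46.1, ag46.2, ag55.1, ag55.2, ag56.1, ag56.2, ag66.1, ag66.2])
      (by linarith only [ag36.1, ag36.2, ag44.1, ag44.2, ag45.1, ag45.2, ag46.1, ag46.2, ag55.1, ag55.2, ag56.1, ag56.2, ag66.1, ag66.2])
  have f15 : -(189770 : ℝ) ≤ g44 * (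
    -13693 * g44 - 9982 * g45 - 36826 * g46 + 3370 * g55 + 15948 * g56 + 57007 / 2 * g66 + 50904377 / 625) :=
    bd ag44 (by linarith only [ag44.1, ag44.2, ag45.1, ag45.2, ag46.1, ag46.2, ag55.1, ag55.2, ag56.1, ag56.2, ag66.1, ag66.2])
      (by linarith only [ag44.1, ag44.2, ag45.1, ag45.2, ag46.1, ag46.2, ag55.1, ag55.2, ag56.1, ag56.2, ag66.1, ag66.2])
  have f16 : -(132197 : ℝ) ≤ g45 * (
    11290 * g45 + 35842 * g46 - 51074 * g55 + 7467 * g56 - 22896 * g66 + 2267354 / 625) :=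
    bd ag45 (by linarith only [ag45.1, ag45.2, ag46.1, ag46.2, ag55.1, ag55.2, ag56.1, ag56.2, ag66.1, ag66.2])
      (by linarith only [ag45.1, ag45.2, ag46.1, ag46.2, ag55.1, ag55.2, ag56.1, ag56.2, ag66.1, ag66.2])
  have f17 : -(378265 : ℝ) ≤ g46 * (
    56281 / 2 * g46 - 105657 * g55 + 89704 * g56 - 43538 * g66 + 69515522 / 625) :=
    bd ag46 (by linarith only [ag46.1, ag46.2, ag55.1, ag55.2, ag56.1, ag56.2, ag66.1, ag66.2])
      (by linarith only [ag46.1, ag46.2, ag55.1, ag55.2, ag56.1, ag56.2, ag66.1, ag66.2])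
  have f18 : -(275133 : ℝ) ≤ g55 * (
    47730 * g55 - 8976 * g56 + 96011 / 2 * g66 - 106513132 / 625) :=
    bd ag55 (by linarith only [ag55.1, ag55.2, ag56.1, ag56.2, ag66.1, ag66.2])
      (by linarith only [ag55.1, ag55.2, ag56.1, ag56.2, ag66.1, ag66.2])
  have f19 : -(244324 : ℝ) ≤ g56 * (
    24383 / 2 * g56 - 85320 * g66 + 91757458 / 625) :=
    bd ag56 (by linarith only [ag56.1, ag56.2, ag66.1, ag66.2])
      (by linarith only [ag56.1, ag56.2, ag66.1, ag66.2])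
  have f20 : -(141783 : ℝ) ≤ g66 * (
    26097 * g66 - 72303739 / 625) :=
    bd ag66 (by linarith only [ag66.1, ag66.2])
      (by linarith only [ag66.1, ag66.2])
  have fd : -(541343 : ℝ) ≤
    -22564 * d1234 - 21618 * d1235 + 44982 * d1236 - 84208 * d1245 - 50578 * d1246 - 36444 * d1256 - 2765 * d1345 - 2831 * d1346 + 70905 * d1356 + 37770 * d1456 -
    40526 * d2345 - 36356 * d2346 - 36270 * d2356 + 33949 * d2456 + 19577 * d3456 := by
    linarith only [ad1234.1, ad1234.2, ad1235.1, ad1235.2, ad1236.1, ad1236.2, ad1245.1, ad1245.2, ad1246.1, ad1246.2, ad1256.1, ad1256.2, ad1345.1, ad1345.2, ad1346.1, ad1346.2, ad1356.1, ad1356.2, ad1456.1, ad1456.2, ad2345.1, ad2345.2, ad2346.1, ad2346.2, ad2356.1, ad2356.2, ad2456.1, ad2456.2, ad3456.1, ad3456.2]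
  linarith only [f0, f1, f2, f3, f4, f5, f6, f7, f8, f9, f10, f11, f12, f13, f14, f15, f16, f17, f18, f19, f20, fd]

theorem sg02 {g11 g12 g13 g14 g15 g16 g22 g23 g24 g25 g26 g33 g34 g35 g36 g44 g45 g46 g55 g56 g66 : ℝ}
    (hN : ∀ w1 w2 w3 w4 w5 w6 : ℝ, 0 ≤
    w1 * w1 * g11 + 2 * w1 * w2 * g12 + 2 * w1 * w3 * g13 + 2 * w1 * w4 * g14 + 2 * w1 * w5 * g15 + 2 * w1 * w6 * g16 + w2 * w2 * g22 + 2 * w2 * w3 * g23 +
    2 * w2 * w4 * g24 + 2 * w2 * w5 * g25 + 2 * w2 * w6 * g26 + w3 * w3 * g33 + 2 * w3 * w4 * g34 + 2 * w3 * w5 * g35 + 2 * w3 * w6 * g36 + w4 * w4 * g44 +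
    2 * w4 * w5 * g45 + 2 * w4 * w6 * g46 + w5 * w5 * g55 + 2 * w5 * w6 * g56 + w6 * w6 * g66) :
    0 ≤ 699050845 * g11 + 92969324 * g12 - 1064582516 * g13 - 715310100 * g14 + 349721782 * g15 - 7831478 * g16 + 686924488 * g22 + 333262936 * g23 - 505885680 * g24 - 453883544 * g25 + 141382864 * g26 + 707185492 * g33 + 64065240 * g34 - 1126126444 * g35 + 115060124 * g36 + 1017929025 * g44 + 912865860 * g45 - 881790390 * g46 + 729705687 * g55 - 412221014 * g56 + 257926980 * g66 := by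
  linear_combination hN (-11210) (-7928) 1004 31905 14306 (-13819) + hN (-19607) 6570 26574 0 (-21729) 2687 + hN 3586 24102 0 0 1213 (-2345) + hN 13270 0 0 0 (-7171) (-7365)

theorem sg03 {g11 g12 g13 g14 g15 g16 g22 g23 g24 g25 g26 g33 g34 g35 g36 g44 g45 g46 g55 g56 g66 : ℝ}
    (hN : ∀ w1 w2 w3 w4 w5 w6 : ℝ, 0 ≤
    w1 * w1 * g11 + 2 * w1 * w2 * g12 + 2 * w1 * w3 * g13 + 2 * w1 * w4 * g14 + 2 * w1 * w5 * g15 + 2 * w1 * w6 * g16 + w2 * w2 * g22 + 2 * w2 * w3 * g23 +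
    2 * w2 * w4 * g24 + 2 * w2 * w5 * g25 + 2 * w2 * w6 * g26 + w3 * w3 * g33 + 2 * w3 * w4 * g34 + 2 * w3 * w5 * g35 + 2 * w3 * w6 * g36 + w4 * w4 * g44 +
    2 * w4 * w5 * g45 + 2 * w4 * w6 * g46 + w5 * w5 * g55 + 2 * w5 * w6 * g56 + w6 * w6 * g66) :
    0 ≤ 39690000 * g11 + 22478400 * g12 + 60870600 * g13 - 229181400 * g14 + 219819600 * g15 - 159238800 * g16 + 3182656 * g22 + 17237008 * g23 - 64898352 * g24 + 62247328 * g25 - 45092384 * g26 + 23338561 * g33 - 175742118 * g34 + 168563252 * g35 - 122108356 * g36 + 330839721 * g44 - 634650588 * g45 + 459745164 * g46 + 304362916 * g55 - 440965096 * g56 + 159719044 * g66 := by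
  linear_combination hN (-6300) (-1784) (-4831) 18189 (-17446) 12638

theorem sg04 {g11 g12 g13 g14 g15 g16 g22 g23 g24 g25 g26 g33 g34 g35 g36 g44 g45 g46 g55 g56 g66 : ℝ}
    (hN : ∀ w1 w2 w3 w4 w5 w6 : ℝ, 0 ≤
    w1 * w1 * g11 + 2 * w1 * w2 * g12 + 2 * w1 * w3 * g13 + 2 * w1 * w4 * g14 + 2 * w1 * w5 * g15 + 2 * w1 * w6 * g16 + w2 * w2 * g22 + 2 * w2 * w3 * g23 +
    2 * w2 * w4 * g24 + 2 * w2 * w5 * g25 + 2 * w2 * w6 * g26 + w3 * w3 * g33 + 2 * w3 * w4 * g34 + 2 * w3 * w5 * g35 + 2 * w3 * w6 * g36 + w4 * w4 * g44 +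
    2 * w4 * w5 * g45 + 2 * w4 * w6 * g46 + w5 * w5 * g55 + 2 * w5 * w6 * g56 + w6 * w6 * g66) :
    0 ≤ 159719044 * g11 - 440965096 * g12 + 459745164 * g13 - 122108356 * g14 - 45092384 * g15 - 159238800 * g16 + 304362916 * g22 - 634650588 * g23 + 168563252 * g24 + 62247328 * g25 + 219819600 * g26 + 330839721 * g33 - 175742118 * g34 - 64898352 * g35 - 229181400 * g36 + 23338561 * g44 + 17237008 * g45 + 60870600 * g46 + 3182656 * g55 + 22478400 * g56 + 39690000 * g66 := by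
  linear_combination hN 12638 (-17446) 18189 (-4831) (-1784) (-6300)

theorem sg05 {g11 g12 g13 g14 g15 g16 g22 g23 g24 g25 g26 g33 g34 g35 g36 g44 g45 g46 g55 g56 g66 : ℝ}
    (hN : ∀ w1 w2 w3 w4 w5 w6 : ℝ, 0 ≤
    w1 * w1 * g11 + 2 * w1 * w2 * g12 + 2 * w1 * w3 * g13 + 2 * w1 * w4 * g14 + 2 * w1 * w5 * g15 + 2 * w1 * w6 * g16 + w2 * w2 * g22 + 2 * w2 * w3 * g23 +
    2 * w2 * w4 * g24 + 2 * w2 * w5 * g25 + 2 * w2 * w6 * g26 + w3 * w3 * g33 + 2 * w3 * w4 * g34 + 2 * w3 * w5 * g35 + 2 * w3 * w6 * g36 + w4 * w4 * g44 +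
    2 * w4 * w5 * g45 + 2 * w4 * w6 * g46 + w5 * w5 * g55 + 2 * w5 * w6 * g56 + w6 * w6 * g66) :
    0 ≤ 257926980 * g11 - 412221014 * g12 - 881790390 * g13 + 115060124 * g14 + 141382864 * g15 - 7831478 * g16 + 729705687 * g22 + 912865860 * g23 - 1126126444 * g24 - 453883544 * g25 + 349721782 * g26 + 1017929025 * g33 + 64065240 * g34 - 505885680 * g35 - 715310100 * g36 + 707185492 * g44 + 333262936 * g45 - 1064582516 * g46 + 686924488 * g55 + 92969324 * g56 + 699050845 * g66 := by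
  linear_combination hN (-13819) 14306 31905 1004 (-7928) (-11210) + hN 2687 (-21729) 0 26574 6570 (-19607) + hN (-2345) 1213 0 0 24102 3586 + hN (-7365) (-7171) 0 0 0 13270

theorem sg13 {g11 g12 g13 g14 g15 g16 g22 g23 g24 g25 g26 g33 g34 g35 g36 g44 g45 g46 g55 g56 g66 : ℝ}
    (hN : ∀ w1 w2 w3 w4 w5 w6 : ℝ, 0 ≤
    w1 * w1 * g11 + 2 * w1 * w2 * g12 + 2 * w1 * w3 * g13 + 2 * w1 * w4 * g14 + 2 * w1 * w5 * g15 + 2 * w1 * w6 * g16 + w2 * w2 * g22 + 2 * w2 * w3 * g23 +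
    2 * w2 * w4 * g24 + 2 * w2 * w5 * g25 + 2 * w2 * w6 * g26 + w3 * w3 * g33 + 2 * w3 * w4 * g34 + 2 * w3 * w5 * g35 + 2 * w3 * w6 * g36 + w4 * w4 * g44 +
    2 * w4 * w5 * g45 + 2 * w4 * w6 * g46 + w5 * w5 * g55 + 2 * w5 * w6 * g56 + w6 * w6 * g66) :
    0 ≤ 501622262 * g11 + 190568614 * g12 - 118969272 * g13 + 561817088 * g14 - 678948318 * g15 - 1069126334 * g16 + 884231429 * g22 - 183059880 * g23 - 809295526 * g24 - 502073934 * g25 - 353993948 * g26 + 345426080 * g33 + 450843408 * g34 - 273290696 * g35 - 576529280 * g36 + 540882771 * g44 - 436755066 * g45 - 987741274 * g46 + 383859329 * g55 + 1176914944 * g56 + 964909969 * g66 := by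
  linear_combination hN (-17209) (-5698) (-9280) (-15899) 18944 31063 + hN (-95) 29185 (-4948) (-16969) (-4903) 0 + hN (-14334) 0 15324 (-397) 972 0

theorem sg14 {g11 g12 g13 g14 g15 g16 g22 g23 g24 g25 g26 g33 g34 g35 g36 g44 g45 g46 g55 g56 g66 : ℝ}
    (hN : ∀ w1 w2 w3 w4 w5 w6 : ℝ, 0 ≤
    w1 * w1 * g11 + 2 * w1 * w2 * g12 + 2 * w1 * w3 * g13 + 2 * w1 * w4 * g14 + 2 * w1 * w5 * g15 + 2 * w1 * w6 * g16 + w2 * w2 * g22 + 2 * w2 * w3 * g23 +
    2 * w2 * w4 * g24 + 2 * w2 * w5 * g25 + 2 * w2 * w6 * g26 + w3 * w3 * g33 + 2 * w3 * w4 * g34 + 2 * w3 * w5 * g35 + 2 * w3 * w6 * g36 + w4 * w4 * g44 +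
    2 * w4 * w5 * g45 + 2 * w4 * w6 * g46 + w5 * w5 * g55 + 2 * w5 * w6 * g56 + w6 * w6 * g66) :
    0 ≤ 1420864 * g11 - 10129616 * g12 - 2155136 * g13 - 17887152 * g14 + 33681152 * g15 - 32963568 * g16 + 18054001 * g22 + 7682192 * g23 + 63760494 * g24 - 120059744 * g25 + 117501846 * g26 + 817216 * g33 + 13565424 * g34 - 25543424 * g35 + 24999216 * g36 + 56295009 * g44 - 212004768 * g45 + 207487962 * g46 + 199600384 * g55 - 390695712 * g56 + 191185929 * g66 := by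
  linear_combination hN 1192 (-4249) (-904) (-7503) 14128 (-13827)

theorem sg15 {g11 g12 g13 g14 g15 g16 g22 g23 g24 g25 g26 g33 g34 g35 g36 g44 g45 g46 g55 g56 g66 : ℝ}
    (hN : ∀ w1 w2 w3 w4 w5 w6 : ℝ, 0 ≤
    w1 * w1 * g11 + 2 * w1 * w2 * g12 + 2 * w1 * w3 * g13 + 2 * w1 * w4 * g14 + 2 * w1 * w5 * g15 + 2 * w1 * w6 * g16 + w2 * w2 * g22 + 2 * w2 * w3 * g23 +
    2 * w2 * w4 * g24 + 2 * w2 * w5 * g25 + 2 * w2 * w6 * g26 + w3 * w3 * g33 + 2 * w3 * w4 * g34 + 2 * w3 * w5 * g35 + 2 * w3 * w6 * g36 + w4 * w4 * g44 +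
    2 * w4 * w5 * g45 + 2 * w4 * w6 * g46 + w5 * w5 * g55 + 2 * w5 * w6 * g56 + w6 * w6 * g66) :
    0 ≤ 1520289 * g11 - 34230546 * g12 + 41115618 * g13 - 34122042 * g14 + 2150352 * g15 + 11114262 * g16 + 192682161 * g22 - 462875826 * g23 + 384142794 * g24 - 24208464 * g25 - 125123334 * g26 + 277988929 * g33 - 461408602 * g34 + 29077712 * g35 + 150290422 * g36 + 191462569 * g44 - 24131728 * g45 - 124726718 * g46 + 760384 * g55 + 7860208 * g56 + 20313049 * g66 := by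
  linear_combination hN 1233 (-13881) 16673 (-13837) 872 4507

theorem sg16 {g11 g12 g13 g14 g15 g16 g22 g23 g24 g25 g26 g33 g34 g35 g36 g44 g45 g46 g55 g56 g66 : ℝ}
    (hN : ∀ w1 w2 w3 w4 w5 w6 : ℝ, 0 ≤
    w1 * w1 * g11 + 2 * w1 * w2 * g12 + 2 * w1 * w3 * g13 + 2 * w1 * w4 * g14 + 2 * w1 * w5 * g15 + 2 * w1 * w6 * g16 + w2 * w2 * g22 + 2 * w2 * w3 * g23 +
    2 * w2 * w4 * g24 + 2 * w2 * w5 * g25 + 2 * w2 * w6 * g26 + w3 * w3 * g33 + 2 * w3 * w4 * g34 + 2 * w3 * w5 * g35 + 2 * w3 * w6 * g36 + w4 * w4 * g44 +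
    2 * w4 * w5 * g45 + 2 * w4 * w6 * g46 + w5 * w5 * g55 + 2 * w5 * w6 * g56 + w6 * w6 * g66) :
    0 ≤ 643180321 * g11 + 519545446 * g12 + 462483196 * g13 - 699811434 * g14 - 528929016 * g15 - 1213929626 * g16 + 110227465 * g22 + 259109300 * g23 - 228298590 * g24 - 219222120 * g25 - 528952558 * g26 + 329439560 * g33 + 118587980 * g34 - 228270040 * g35 - 699787508 * g36 + 329455645 * g44 + 259114400 * g45 + 462503882 * g46 + 110216980 * g55 + 519517568 * g56 + 643180589 * g66 := by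
  linear_combination hN 25361 10243 9118 (-13797) (-10428) (-23933) + hN 0 2304 15694 11794 (-1214) (-8390)

theorem sg24 {g11 g12 g13 g14 g15 g16 g22 g23 g24 g25 g26 g33 g34 g35 g36 g44 g45 g46 g55 g56 g66 : ℝ}
    (hN : ∀ w1 w2 w3 w4 w5 w6 : ℝ, 0 ≤
    w1 * w1 * g11 + 2 * w1 * w2 * g12 + 2 * w1 * w3 * g13 + 2 * w1 * w4 * g14 + 2 * w1 * w5 * g15 + 2 * w1 * w6 * g16 + w2 * w2 * g22 + 2 * w2 * w3 * g23 +
    2 * w2 * w4 * g24 + 2 * w2 * w5 * g25 + 2 * w2 * w6 * g26 + w3 * w3 * g33 + 2 * w3 * w4 * g34 + 2 * w3 * w5 * g35 + 2 * w3 * w6 * g36 + w4 * w4 * g44 +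
    2 * w4 * w5 * g45 + 2 * w4 * w6 * g46 + w5 * w5 * g55 + 2 * w5 * w6 * g56 + w6 * w6 * g66) :
    0 ≤ 36599291 * g11 + 87613728 * g12 - 296542328 * g13 + 85692112 * g14 + 178462880 * g15 - 26047678 * g16 + 273442566 * g22 - 128331128 * g23 + 345812420 * g24 + 644188080 * g25 - 443284716 * g26 + 1228081936 * g33 + 94899152 * g34 - 726812560 * g35 - 689105216 * g36 + 161313176 * g44 + 383283560 * g45 - 419866092 * g46 + 449417000 * g55 - 349896800 * g56 + 346179329 * g66 := by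
  linear_combination hN (-4231) (-1831) 35044 1354 (-10370) (-9832) + hN 2453 16393 0 11124 18490 (-14976) + hN 3561 (-1166) 0 5978 0 (-5023)

theorem sg25 {g11 g12 g13 g14 g15 g16 g22 g23 g24 g25 g26 g33 g34 g35 g36 g44 g45 g46 g55 g56 g66 : ℝ}
    (hN : ∀ w1 w2 w3 w4 w5 w6 : ℝ, 0 ≤
    w1 * w1 * g11 + 2 * w1 * w2 * g12 + 2 * w1 * w3 * g13 + 2 * w1 * w4 * g14 + 2 * w1 * w5 * g15 + 2 * w1 * w6 * g16 + w2 * w2 * g22 + 2 * w2 * w3 * g23 +
    2 * w2 * w4 * g24 + 2 * w2 * w5 * g25 + 2 * w2 * w6 * g26 + w3 * w3 * g33 + 2 * w3 * w4 * g34 + 2 * w3 * w5 * g35 + 2 * w3 * w6 * g36 + w4 * w4 * g44 +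
    2 * w4 * w5 * g45 + 2 * w4 * w6 * g46 + w5 * w5 * g55 + 2 * w5 * w6 * g56 + w6 * w6 * g66) :
    0 ≤ 112826884 * g11 - 47055460 * g12 - 13681136 * g13 - 13681136 * g14 - 47055460 * g15 + 225653768 * g16 + 4906225 * g22 + 2852920 * g23 + 2852920 * g24 + 9812450 * g25 - 47055460 * g26 + 414736 * g33 + 829472 * g34 + 2852920 * g35 - 13681136 * g36 + 414736 * g44 + 2852920 * g45 - 13681136 * g46 + 4906225 * g55 - 47055460 * g56 + 112826884 * g66 := by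
  linear_combination hN 10622 (-2215) (-644) (-644) (-2215) 10622

theorem sg26 {g11 g12 g13 g14 g15 g16 g22 g23 g24 g25 g26 g33 g34 g35 g36 g44 g45 g46 g55 g56 g66 : ℝ}
    (hN : ∀ w1 w2 w3 w4 w5 w6 : ℝ, 0 ≤
    w1 * w1 * g11 + 2 * w1 * w2 * g12 + 2 * w1 * w3 * g13 + 2 * w1 * w4 * g14 + 2 * w1 * w5 * g15 + 2 * w1 * w6 * g16 + w2 * w2 * g22 + 2 * w2 * w3 * g23 +
    2 * w2 * w4 * g24 + 2 * w2 * w5 * g25 + 2 * w2 * w6 * g26 + w3 * w3 * g33 + 2 * w3 * w4 * g34 + 2 * w3 * w5 * g35 + 2 * w3 * w6 * g36 + w4 * w4 * g44 +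
    2 * w4 * w5 * g45 + 2 * w4 * w6 * g46 + w5 * w5 * g55 + 2 * w5 * w6 * g56 + w6 * w6 * g66) :
    0 ≤ 20313049 * g11 + 7860208 * g12 - 124726718 * g13 + 150290422 * g14 - 125123334 * g15 + 11114262 * g16 + 760384 * g22 - 24131728 * g23 + 29077712 * g24 - 24208464 * g25 + 2150352 * g26 + 191462569 * g33 - 461408602 * g34 + 384142794 * g35 - 34122042 * g36 + 277988929 * g44 - 462875826 * g45 + 41115618 * g46 + 192682161 * g55 - 34230546 * g56 + 1520289 * g66 := by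
  linear_combination hN 4507 872 (-13837) 16673 (-13881) 1233

theorem sg35 {g11 g12 g13 g14 g15 g16 g22 g23 g24 g25 g26 g33 g34 g35 g36 g44 g45 g46 g55 g56 g66 : ℝ}
    (hN : ∀ w1 w2 w3 w4 w5 w6 : ℝ, 0 ≤
    w1 * w1 * g11 + 2 * w1 * w2 * g12 + 2 * w1 * w3 * g13 + 2 * w1 * w4 * g14 + 2 * w1 * w5 * g15 + 2 * w1 * w6 * g16 + w2 * w2 * g22 + 2 * w2 * w3 * g23 +
    2 * w2 * w4 * g24 + 2 * w2 * w5 * g25 + 2 * w2 * w6 * g26 + w3 * w3 * g33 + 2 * w3 * w4 * g34 + 2 * w3 * w5 * g35 + 2 * w3 * w6 * g36 + w4 * w4 * g44 +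
    2 * w4 * w5 * g45 + 2 * w4 * w6 * g46 + w5 * w5 * g55 + 2 * w5 * w6 * g56 + w6 * w6 * g66) :
    0 ≤ 346179329 * g11 - 349896800 * g12 - 419866092 * g13 - 689105216 * g14 - 443284716 * g15 - 26047678 * g16 + 449417000 * g22 + 383283560 * g23 - 726812560 * g24 + 644188080 * g25 + 178462880 * g26 + 161313176 * g33 + 94899152 * g34 + 345812420 * g35 + 85692112 * g36 + 1228081936 * g44 - 128331128 * g45 - 296542328 * g46 + 273442566 * g55 + 87613728 * g56 + 36599291 * g66 := by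
  linear_combination hN (-9832) (-10370) 1354 35044 (-1831) (-4231) + hN (-14976) 18490 11124 0 16393 2453 + hN (-5023) 0 5978 0 (-1166) 3561

theorem sg36 {g11 g12 g13 g14 g15 g16 g22 g23 g24 g25 g26 g33 g34 g35 g36 g44 g45 g46 g55 g56 g66 : ℝ}
    (hN : ∀ w1 w2 w3 w4 w5 w6 : ℝ, 0 ≤
    w1 * w1 * g11 + 2 * w1 * w2 * g12 + 2 * w1 * w3 * g13 + 2 * w1 * w4 * g14 + 2 * w1 * w5 * g15 + 2 * w1 * w6 * g16 + w2 * w2 * g22 + 2 * w2 * w3 * g23 +
    2 * w2 * w4 * g24 + 2 * w2 * w5 * g25 + 2 * w2 * w6 * g26 + w3 * w3 * g33 + 2 * w3 * w4 * g34 + 2 * w3 * w5 * g35 + 2 * w3 * w6 * g36 + w4 * w4 * g44 +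
    2 * w4 * w5 * g45 + 2 * w4 * w6 * g46 + w5 * w5 * g55 + 2 * w5 * w6 * g56 + w6 * w6 * g66) :
    0 ≤ 191185929 * g11 - 390695712 * g12 + 207487962 * g13 + 24999216 * g14 + 117501846 * g15 - 32963568 * g16 + 199600384 * g22 - 212004768 * g23 - 25543424 * g24 - 120059744 * g25 + 33681152 * g26 + 56295009 * g33 + 13565424 * g34 + 63760494 * g35 - 17887152 * g36 + 817216 * g44 + 7682192 * g45 - 2155136 * g46 + 18054001 * g55 - 10129616 * g56 + 1420864 * g66 := by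
  linear_combination hN (-13827) 14128 (-7503) (-904) (-4249) 1192

theorem sg46 {g11 g12 g13 g14 g15 g16 g22 g23 g24 g25 g26 g33 g34 g35 g36 g44 g45 g46 g55 g56 g66 : ℝ}
    (hN : ∀ w1 w2 w3 w4 w5 w6 : ℝ, 0 ≤
    w1 * w1 * g11 + 2 * w1 * w2 * g12 + 2 * w1 * w3 * g13 + 2 * w1 * w4 * g14 + 2 * w1 * w5 * g15 + 2 * w1 * w6 * g16 + w2 * w2 * g22 + 2 * w2 * w3 * g23 +
    2 * w2 * w4 * g24 + 2 * w2 * w5 * g25 + 2 * w2 * w6 * g26 + w3 * w3 * g33 + 2 * w3 * w4 * g34 + 2 * w3 * w5 * g35 + 2 * w3 * w6 * g36 + w4 * w4 * g44 +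
    2 * w4 * w5 * g45 + 2 * w4 * w6 * g46 + w5 * w5 * g55 + 2 * w5 * w6 * g56 + w6 * w6 * g66) :
    0 ≤ 964909969 * g11 + 1176914944 * g12 - 987741274 * g13 - 576529280 * g14 - 353993948 * g15 - 1069126334 * g16 + 383859329 * g22 - 436755066 * g23 - 273290696 * g24 - 502073934 * g25 - 678948318 * g26 + 540882771 * g33 + 450843408 * g34 - 809295526 * g35 + 561817088 * g36 + 345426080 * g44 - 183059880 * g45 - 118969272 * g46 + 884231429 * g55 + 190568614 * g56 + 501622262 * g66 := by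
  linear_combination hN 31063 18944 (-15899) (-9280) (-5698) (-17209) + hN 0 (-4903) (-16969) (-4948) 29185 (-95) + hN 0 972 (-397) 15324 0 (-14334)

theorem sgW {g11 g12 g13 g14 g15 g16 g22 g23 g24 g25 g26 g33 g34 g35 g36 g44 g45 g46 g55 g56 g66 : ℝ}
    (hN : ∀ w1 w2 w3 w4 w5 w6 : ℝ, 0 ≤
    w1 * w1 * g11 + 2 * w1 * w2 * g12 + 2 * w1 * w3 * g13 + 2 * w1 * w4 * g14 + 2 * w1 * w5 * g15 + 2 * w1 * w6 * g16 + w2 * w2 * g22 + 2 * w2 * w3 * g23 +
    2 * w2 * w4 * g24 + 2 * w2 * w5 * g25 + 2 * w2 * w6 * g26 + w3 * w3 * g33 + 2 * w3 * w4 * g34 + 2 * w3 * w5 * g35 + 2 * w3 * w6 * g36 + w4 * w4 * g44 +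
    2 * w4 * w5 * g45 + 2 * w4 * w6 * g46 + w5 * w5 * g55 + 2 * w5 * w6 * g56 + w6 * w6 * g66) :
    0 ≤ 101465317 * g11 - 122335796 * g12 + 74656134 * g13 - 13774540 * g14 - 33933200 * g15 + 144527404 * g16 + 51027220 * g22 - 80625420 * g23 + 53245048 * g24 - 31777744 * g25 - 33925864 * g26 + 36144585 * g33 - 61622172 * g34 + 53248716 * g35 - 13779864 * g36 + 36145192 * g44 - 80631692 * g45 + 74661076 * g46 + 51033973 * g55 - 122346658 * g56 + 101465329 * g66 := by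
  linear_combination hN 7174 (-1684) (-684) 3706 (-6073) 10073 + hN 7071 (-6942) 5973 (-4734) 3762 0

theorem alg {g11 g12 g13 g14 g15 g16 g22 g23 g24 g25 g26 g33 g34 g35 g36 g44 g45 g46 g55 g56 g66 d1234 d1235 d1236 d1245 d1246 d1256 d1345 d1346 d1356 d1456 d2345 d2346 d2356 d2456 d3456 : ℝ}
    (ag11 : -1 ≤ g11 ∧ g11 ≤ 1) (ag12 : -1 ≤ g12 ∧ g12 ≤ 1) (ag13 : -1 ≤ g13 ∧ g13 ≤ 1) (ag14 : -1 ≤ g14 ∧ g14 ≤ 1) (ag15 : -1 ≤ g15 ∧ g15 ≤ 1) (ag16 : -1 ≤ g16 ∧ g16 ≤ 1) (ag22 : -1 ≤ g22 ∧ g22 ≤ 1) (ag23 : -1 ≤ g23 ∧ g23 ≤ 1) (ag24 : -1 ≤ g24 ∧ g24 ≤ 1) (ag25 : -1 ≤ g25 ∧ g25 ≤ 1) (ag26 : -1 ≤ g26 ∧ g26 ≤ 1) (ag33 : -1 ≤ g33 ∧ g33 ≤ 1) (ag34 : -1 ≤ g34 ∧ g34 ≤ 1) (ag35 : -1 ≤ g35 ∧ g35 ≤ 1) (ag36 : -1 ≤ g36 ∧ g36 ≤ 1) (ag44 : -1 ≤ g44 ∧ g44 ≤ 1) (ag45 : -1 ≤ g45 ∧ g45 ≤ 1) (ag46 : -1 ≤ g46 ∧ g46 ≤ 1) (ag55 : -1 ≤ g55 ∧ g55 ≤ 1) (ag56 : -1 ≤ g56 ∧ g56 ≤ 1) (ag66 : -1 ≤ g66 ∧ g66 ≤ 1)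
    (ad1234 : -1 ≤ d1234 ∧ d1234 ≤ 1) (ad1235 : -1 ≤ d1235 ∧ d1235 ≤ 1) (ad1236 : -1 ≤ d1236 ∧ d1236 ≤ 1) (ad1245 : -1 ≤ d1245 ∧ d1245 ≤ 1) (ad1246 : -1 ≤ d1246 ∧ d1246 ≤ 1) (ad1256 : -1 ≤ d1256 ∧ d1256 ≤ 1) (ad1345 : -1 ≤ d1345 ∧ d1345 ≤ 1) (ad1346 : -1 ≤ d1346 ∧ d1346 ≤ 1) (ad1356 : -1 ≤ d1356 ∧ d1356 ≤ 1) (ad1456 : -1 ≤ d1456 ∧ d1456 ≤ 1) (ad2345 : -1 ≤ d2345 ∧ d2345 ≤ 1) (ad2346 : -1 ≤ d2346 ∧ d2346 ≤ 1) (ad2356 : -1 ≤ d2356 ∧ d2356 ≤ 1) (ad2456 : -1 ≤ d2456 ∧ d2456 ≤ 1) (ad3456 : -1 ≤ d3456 ∧ d3456 ≤ 1)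
    (e01 : g11 ≤ 0.7696) (e02 : g22 ≤ 0.7696) (e03 : g33 ≤ 0.7696) (e04 : g44 ≤ 0.7696) (e05 : g55 ≤ 0.7696) (e06 : g66 ≤ 0.7696) (e12 : (g11 + g22 - 2 * g12) ≤ 1) (e13 : (g11 + g33 - 2 * g13) ≤ 1) (e14 : (g11 + g44 - 2 * g14) ≤ 1) (e15 : (g11 + g55 - 2 * g15) ≤ 1) (e16 : (g11 + g66 - 2 * g16) ≤ 1) (e23 : (g22 + g33 - 2 * g23) ≤ 1) (e24 : (g22 + g44 - 2 * g24) ≤ 1) (e25 : (g22 + g55 - 2 * g25) ≤ 1) (e26 : (g22 + g66 - 2 * g26) ≤ 1) (e34 : (g33 + g44 - 2 * g34) ≤ 1) (e35 : (g33 + g55 - 2 * g35) ≤ 1) (e36 : (g33 + g66 - 2 * g36) ≤ 1) (e45 : (g44 + g55 - 2 * g45) ≤ 1) (e46 : (g44 + g66 - 2 * g46) ≤ 1) (e56 : (g55 + g66 - 2 * g56) ≤ 1)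
    (hW : g11 + g22 + g33 + g44 + g55 + g66 + (g11 + g22 - 2 * g12) + (g11 + g33 - 2 * g13) + (g11 + g44 - 2 * g14) + (g11 + g55 - 2 * g15) + (g11 + g66 - 2 * g16) + (g22 + g33 - 2 * g23) + (g22 + g44 - 2 * g24) + (g22 + g55 - 2 * g25) + (g22 + g66 - 2 * g26) + (g33 + g44 - 2 * g34) + (g33 + g55 - 2 * g35) + (g33 + g66 - 2 * g36) + (g44 + g55 - 2 * g45) + (g44 + g66 - 2 * g46) + (g55 + g66 - 2 * g56) ≤ 19)
    (hN : ∀ w1 w2 w3 w4 w5 w6 : ℝ, 0 ≤
    w1 * w1 * g11 + 2 * w1 * w2 * g12 + 2 * w1 * w3 * g13 + 2 * w1 * w4 * g14 + 2 * w1 * w5 * g15 + 2 * w1 * w6 * g16 + w2 * w2 * g22 + 2 * w2 * w3 * g23 +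
    2 * w2 * w4 * g24 + 2 * w2 * w5 * g25 + 2 * w2 * w6 * g26 + w3 * w3 * g33 + 2 * w3 * w4 * g34 + 2 * w3 * w5 * g35 + 2 * w3 * w6 * g36 + w4 * w4 * g44 +
    2 * w4 * w5 * g45 + 2 * w4 * w6 * g46 + w5 * w5 * g55 + 2 * w5 * w6 * g56 + w6 * w6 * g66)
    (hB : 0 ≤
    5556308497 * g11 * g22 - 5556308497 * g12 * g12 - 1339035022 * g11 * g23 + 1339035022 * g12 * g13 + 653940276 * g11 * g24 - 653940276 * g12 * g14 -
    1389591832 * g11 * g25 + 1389591832 * g12 * g15 + 1760802710 * g11 * g26 - 1760802710 * g12 * g16 + 9030928154 * g12 * g23 - 9030928154 * g13 * g22 -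
    279971926 * g12 * g24 + 279971926 * g14 * g22 + 1692408008 * g12 * g25 - 1692408008 * g15 * g22 - 1152833936 * g12 * g26 + 1152833936 * g16 * g22 +
    5653818610 * g13 * g24 - 4081234814 * g14 * g23 - 19999954872 * d1234 + 187568424 * g13 * g25 + 3218578416 * g15 * g23 + 43236 * d1235 + 2820165422 * g13 * g26 -
    3971622040 * g16 * g23 - 89964 * d1236 + 6400240678 * g14 * g25 - 3993066392 * g15 * g24 - 19999831584 * d1245 - 1964736690 * g14 * g26 + 2991040240 * g16 * g24 +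
    101156 * d1246 + 1385121350 * g15 * g26 - 9121153952 * g16 * g25 - 19999927112 * d1256 + 3118230365 * g11 * g33 - 3118230365 * g13 * g13 + 109820844 * g11 * g34 -
    109820844 * g13 * g14 - 3050888122 * g11 * g35 + 3050888122 * g13 * g15 - 2431303338 * g11 * g36 + 2431303338 * g13 * g16 - 799824950 * g12 * g33 +
    799824950 * g13 * g23 - 1572583796 * g12 * g34 - 3406146840 * g12 * g35 + 1151456618 * g12 * g36 - 1222643446 * g13 * g34 + 1222643446 * g14 * g33 +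
    3818337452 * g13 * g35 - 3818337452 * g15 * g33 + 3338925494 * g13 * g36 - 3338925494 * g16 * g33 + 1797743018 * g14 * g35 + 1526397526 * g15 * g34 +
    5530 * d1345 - 5983947700 * g14 * g36 - 917565170 * g16 * g34 + 5662 * d1346 - 1964958378 * g15 * g36 + 2991116358 * g16 * g35 - 141810 * d1356 + 3192567599 * g11 * g44 -
    3192567599 * g14 * g14 + 439198076 * g11 * g45 - 439198076 * g14 * g15 - 5209868558 * g11 * g46 + 5209868558 * g14 * g16 + 365475486 * g12 * g44 -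
    365475486 * g14 * g24 - 2407174286 * g12 * g45 - 1026303550 * g12 * g46 - 475786104 * g13 * g44 + 475786104 * g14 * g34 - 3324140544 * g13 * g45 +
    6901512870 * g13 * g46 + 2146096064 * g14 * g45 - 2146096064 * g15 * g44 + 3338956358 * g14 * g46 - 3338956358 * g16 * g44 + 2820172610 * g15 * g46 -
    3971629606 * g16 * g45 - 75540 * d1456 + 1179210961 * g11 * g55 - 1179210961 * g15 * g15 - 149673070 * g11 * g56 + 149673070 * g15 * g16 - 412022950 * g12 * g55 +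
    412022950 * g15 * g25 + 7736032602 * g12 * g56 - 2418310560 * g13 * g55 + 2418310560 * g15 * g35 - 1026157980 * g13 * g56 - 1664139934 * g14 * g55 +
    1664139934 * g15 * g45 + 1151456996 * g14 * g56 - 1152851106 * g15 * g56 + 1152851106 * g16 * g55 + 3817450624 * g11 * g66 - 3817450624 * g16 * g16 -
    149697426 * g12 * g66 + 149697426 * g16 * g26 - 5209873410 * g13 * g66 + 5209873410 * g16 * g36 - 2431398638 * g14 * g66 + 2431398638 * g16 * g46 +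
    1760807502 * g15 * g66 - 1760807502 * g16 * g56 + 5141199596 * g22 * g33 - 5141199596 * g23 * g23 - 1104460728 * g22 * g34 + 1104460728 * g23 * g24 -
    1034025746 * g22 * g35 + 1034025746 * g23 * g25 - 1664118654 * g22 * g36 + 1664118654 * g23 * g26 + 8302302276 * g23 * g34 - 8302302276 * g24 * g33 -
    823732840 * g23 * g35 + 823732840 * g25 * g33 + 2146165612 * g23 * g36 - 2146165612 * g26 * g33 + 3834443868 * g24 * g35 - 2975265698 * g25 * g34 -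
    19999918948 * d2345 + 1797755402 * g24 * g36 + 1526372038 * g26 * g34 + 72712 * d2346 + 6400374594 * g25 * g36 - 3993194368 * g26 * g35 - 19999927460 * d2356 +
    3712745275 * g22 * g44 - 3712745275 * g24 * g24 + 13127180 * g22 * g45 - 13127180 * g24 * g25 - 2418318330 * g22 * g46 + 2418318330 * g24 * g26 - 1103415476 * g23 * g44 +
    1103415476 * g24 * g34 - 859178170 * g23 * g45 - 3324127440 * g23 * g46 - 823716940 * g24 * g45 + 823716940 * g25 * g44 + 3818440836 * g24 * g46 -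
    3818440836 * g26 * g44 + 187537912 * g25 * g46 + 3218591952 * g26 * g45 - 67898 * d2456 + 5256716785 * g22 * g55 - 5256716785 * g25 * g25 - 412129184 * g22 * g56 +
    412129184 * g25 * g26 + 13216908 * g23 * g55 - 13216908 * g25 * g35 - 2407180226 * g23 * g56 - 1034016206 * g24 * g55 + 1034016206 * g25 * g45 - 3406129864 * g24 * g56 +
    1692378864 * g25 * g56 - 1692378864 * g26 * g55 + 1179213653 * g22 * g66 - 1179213653 * g26 * g26 + 439266590 * g23 * g66 - 439266590 * g26 * g36 -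
    3050880766 * g24 * g66 + 3050880766 * g26 * g46 - 1389593322 * g25 * g66 + 1389593322 * g26 * g56 + 5436790412 * g33 * g44 - 5436790412 * g34 * g34 -
    1103364236 * g33 * g45 + 1103364236 * g34 * g35 - 475771052 * g33 * g46 + 475771052 * g34 * g36 + 8302235302 * g34 * g45 - 8302235302 * g35 * g44 -
    1222674118 * g34 * g46 + 1222674118 * g36 * g44 + 5653865314 * g35 * g46 - 4081245842 * g36 * g45 - 20000039154 * d3456 + 3712732588 * g33 * g55 -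
    3712732588 * g35 * g35 + 365389944 * g33 * g56 - 365389944 * g35 * g36 - 1104483120 * g34 * g55 + 1104483120 * g35 * g45 - 1572619472 * g34 * g56 -
    279975996 * g35 * g56 + 279975996 * g36 * g55 + 3192547798 * g33 * g66 - 3192547798 * g36 * g36 + 109847102 * g34 * g66 - 109847102 * g36 * g46 + 654022734 * g35 * g66 -
    654022734 * g36 * g56 + 5141146732 * g44 * g55 - 5141146732 * g45 * g45 - 799828976 * g44 * g56 + 799828976 * g45 * g46 + 9030940314 * g45 * g56 -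
    9030940314 * g46 * g55 + 3118251717 * g44 * g66 - 3118251717 * g46 * g46 - 1339054524 * g45 * g66 + 1339054524 * g46 * g56 + 5556360681 * g55 * g66 -
    5556360681 * g56 * g56) :
    d3456 + d2356 + d1256 + d2345 + d1245 + d1234 ≤ 0.913 := by
  have hA := a0 g11 g12 g13 g14 g15 g16 g22 g23 g24 g25 g26 g33 g34 g35 g36 g44 g45 g46 g55 g56 g66
  have hE := eb ag11 ag12 ag13 ag14 ag15 ag16 ag22 ag23 ag24 ag25 ag26 ag33 ag34 ag35 ag36 ag44 ag45 ag46 ag55 ag56 ag66 ad1234 ad1235 ad1236 ad1245 ad1246 ad1256 ad1345 ad1346 ad1356 ad1456 ad2345 ad2346 ad2356 ad2456 ad3456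
  have t02 := mul_nonneg (sub_nonneg.2 e02) (sg02 hN)
  have t03 := mul_nonneg (sub_nonneg.2 e03) (sg03 hN)
  have t04 := mul_nonneg (sub_nonneg.2 e04) (sg04 hN)
  have t05 := mul_nonneg (sub_nonneg.2 e05) (sg05 hN)
  have t13 := mul_nonneg (sub_nonneg.2 e13) (sg13 hN)
  have t14 := mul_nonneg (sub_nonneg.2 e14) (sg14 hN)
  have t15 := mul_nonneg (sub_nonneg.2 e15) (sg15 hN)
  have t16 := mul_nonneg (sub_nonneg.2 e16) (sg16 hN)
  have t24 := mul_nonneg (sub_nonneg.2 e24) (sg24 hN)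
  have t25 := mul_nonneg (sub_nonneg.2 e25) (sg25 hN)
  have t26 := mul_nonneg (sub_nonneg.2 e26) (sg26 hN)
  have t35 := mul_nonneg (sub_nonneg.2 e35) (sg35 hN)
  have t36 := mul_nonneg (sub_nonneg.2 e36) (sg36 hN)
  have t46 := mul_nonneg (sub_nonneg.2 e46) (sg46 hN)
  have tW := mul_nonneg (sub_nonneg.2 hW) (sgW hN)
  have y01_05 := mul_nonneg (sub_nonneg.2 e01) (sub_nonneg.2 e05)
  have y01_24 := mul_nonneg (sub_nonneg.2 e01) (sub_nonneg.2 e24)
  have y01_26 := mul_nonneg (sub_nonneg.2 e01) (sub_nonneg.2 e26)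
  have y01_35 := mul_nonneg (sub_nonneg.2 e01) (sub_nonneg.2 e35)
  have y01_46 := mul_nonneg (sub_nonneg.2 e01) (sub_nonneg.2 e46)
  have y02_03 := mul_nonneg (sub_nonneg.2 e02) (sub_nonneg.2 e03)
  have y02_06 := mul_nonneg (sub_nonneg.2 e02) (sub_nonneg.2 e06)
  have y02_34 := mul_nonneg (sub_nonneg.2 e02) (sub_nonneg.2 e34)
  have y02_56 := mul_nonneg (sub_nonneg.2 e02) (sub_nonneg.2 e56)
  have y03_12 := mul_nonneg (sub_nonneg.2 e03) (sub_nonneg.2 e12)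
  have y03_15 := mul_nonneg (sub_nonneg.2 e03) (sub_nonneg.2 e15)
  have y03_25 := mul_nonneg (sub_nonneg.2 e03) (sub_nonneg.2 e25)
  have y03_36 := mul_nonneg (sub_nonneg.2 e03) (sub_nonneg.2 e36)
  have y04_05 := mul_nonneg (sub_nonneg.2 e04) (sub_nonneg.2 e05)
  have y04_14 := mul_nonneg (sub_nonneg.2 e04) (sub_nonneg.2 e14)
  have y04_25 := mul_nonneg (sub_nonneg.2 e04) (sub_nonneg.2 e25)
  have y04_26 := mul_nonneg (sub_nonneg.2 e04) (sub_nonneg.2 e26)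
  have y04_56 := mul_nonneg (sub_nonneg.2 e04) (sub_nonneg.2 e56)
  have y05_12 := mul_nonneg (sub_nonneg.2 e05) (sub_nonneg.2 e12)
  have y05_34 := mul_nonneg (sub_nonneg.2 e05) (sub_nonneg.2 e34)
  have y06_13 := mul_nonneg (sub_nonneg.2 e06) (sub_nonneg.2 e13)
  have y06_15 := mul_nonneg (sub_nonneg.2 e06) (sub_nonneg.2 e15)
  have y06_24 := mul_nonneg (sub_nonneg.2 e06) (sub_nonneg.2 e24)
  have y06_35 := mul_nonneg (sub_nonneg.2 e06) (sub_nonneg.2 e35)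
  have y12_16 := mul_nonneg (sub_nonneg.2 e12) (sub_nonneg.2 e16)
  have y12_35 := mul_nonneg (sub_nonneg.2 e12) (sub_nonneg.2 e35)
  have y13_45 := mul_nonneg (sub_nonneg.2 e13) (sub_nonneg.2 e45)
  have y14_15 := mul_nonneg (sub_nonneg.2 e14) (sub_nonneg.2 e15)
  have y14_23 := mul_nonneg (sub_nonneg.2 e14) (sub_nonneg.2 e23)
  have y14_36 := mul_nonneg (sub_nonneg.2 e14) (sub_nonneg.2 e36)
  have y15_25 := mul_nonneg (sub_nonneg.2 e15) (sub_nonneg.2 e25)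
  have y16_23 := mul_nonneg (sub_nonneg.2 e16) (sub_nonneg.2 e23)
  have y16_45 := mul_nonneg (sub_nonneg.2 e16) (sub_nonneg.2 e45)
  have y16_56 := mul_nonneg (sub_nonneg.2 e16) (sub_nonneg.2 e56)
  have y23_46 := mul_nonneg (sub_nonneg.2 e23) (sub_nonneg.2 e46)
  have y24_25 := mul_nonneg (sub_nonneg.2 e24) (sub_nonneg.2 e25)
  have y24_56 := mul_nonneg (sub_nonneg.2 e24) (sub_nonneg.2 e56)
  have y25_26 := mul_nonneg (sub_nonneg.2 e25) (sub_nonneg.2 e26)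
  have y25_35 := mul_nonneg (sub_nonneg.2 e25) (sub_nonneg.2 e35)
  have y26_36 := mul_nonneg (sub_nonneg.2 e26) (sub_nonneg.2 e36)
  have y36_45 := mul_nonneg (sub_nonneg.2 e36) (sub_nonneg.2 e45)
  have key : 10000000000 * (d3456 + d2356 + d1256 + d2345 + d1245 + d1234) ≤ 9075562462 := by
    linear_combination
      hA + (1/2) * hB + hE + t02 + t03 + t04 + t05 + t13 + t14 + t15 + t16 + t24 + t25 + t26 + t35 + t36 + t46 + tW + 82923645 * y01_05 + 502961083 * y01_24 +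
      1043375626 * y01_26 + 47143574 * y01_35 + 186908690 * y01_46 + 203026586 * y02_03 + 82923645 * y02_06 + 333803029 * y02_34 + 67636451 * y02_56 +
      712912208 * y03_12 + 27527856 * y03_15 + 224337573 * y03_25 + 595412024 * y03_36 + 203026586 * y04_05 + 595412024 * y04_14 + 224337573 * y04_25 +
      27527856 * y04_26 + 712912208 * y04_56 + 67636451 * y05_12 + 333803029 * y05_34 + 186908690 * y06_13 + 1043375626 * y06_15 + 47143575 * y06_24 +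
      502961083 * y06_35 + 19642268 * y12_16 + 250515596 * y12_35 + 321737833 * y13_45 + 9578686 * y14_15 + 435703033 * y14_23 + 197607377 * y14_36 + 155149857 * y15_25 +
      163741441 * y16_23 + 163741441 * y16_45 + 19642268 * y16_56 + 321737833 * y23_46 + 27213958 * y24_25 + 250515596 * y24_56 + 155149857 * y25_26 +
      27213958 * y25_35 + 9578686 * y26_36 + 435703033 * y36_45
  linarith only [key]

end Pool.Agent.Helper89.Vol5.PkPFA
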