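import Pool.Agent.Helper89.Vol4.PF
import Pool.Agent.Helper89.Vol5.Goals

/-! # V58 : the packet PFB (heptagon type with one point doubled), a sum of squares certificate -/

set_option autoImplicit false
set_option maxRecDepth 100000

namespace Pool.Agent.Helper89.Vol5.PkPFB

open Pool.Agent.Helper86.Poly Pool.Agent.Helper89.Vol4.PkPF

theorem a0 (g11 g12 g13 g14 g15 g16 g22 g23 g24 g25 g26 g33 g34 g35 g36 g44 g45 g46 g55 g56 g66 : ℝ) : 0 ≤
    1811304458 * g11 * g11 - 208753824 * g11 * g12 - 505210812 * g11 * g13 - 529049010 * g11 * g14 - 1549003988 * g11 * g15 - 3236012208 * g11 * g16 -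
    2148174738 * g11 * g22 + 383243746 * g11 * g23 - 24639986 * g11 * g24 - 272770282 * g11 * g25 - 165841344 * g11 * g26 - 466339358 * g11 * g33 + 39418512 * g11 * g34 +
    765300208 * g11 * g35 - 21018452 * g11 * g36 - 354438198 * g11 * g44 - 492339836 * g11 * g45 + 818169714 * g11 * g46 + 677432596 * g11 * g55 + 410883348 * g11 * g56 +
    469704740 * g11 * g66 + 2983707080 * g12 * g12 - 961834568 * g12 * g13 + 544872844 * g12 * g14 - 296625672 * g12 * g15 - 201944736 * g12 * g16 - 785698884 * g12 * g22 -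
    4060608532 * g12 * g23 + 216634204 * g12 * g24 - 497365300 * g12 * g25 + 982808392 * g12 * g26 + 1054449820 * g12 * g33 + 981537440 * g12 * g34 + 1614554608 * g12 * g35 +
    425294464 * g12 * g36 - 167542940 * g12 * g44 + 1681665400 * g12 * g45 - 1902627028 * g12 * g46 - 750207584 * g12 * g55 - 3380885056 * g12 * g56 +
    410869672 * g12 * g66 + 1655687651 * g13 * g13 - 1255788936 * g13 * g14 - 91124712 * g13 * g15 - 309269232 * g13 * g16 + 1807599714 * g13 * g22 + 68957516 * g13 * g23 -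
    927096776 * g13 * g24 + 986894986 * g13 * g25 - 709683688 * g13 * g26 - 538473698 * g13 * g33 - 411574756 * g13 * g34 - 924682258 * g13 * g35 - 1268373800 * g13 * g36 -
    688202720 * g13 * g44 + 1332843782 * g13 * g45 + 591722536 * g13 * g46 + 103274600 * g13 * g55 - 1902711192 * g13 * g56 + 818162284 * g13 * g66 + 1773153072 * g14 * g14 +
    178292284 * g14 * g15 - 1337652288 * g14 * g16 + 8996284 * g14 * g22 + 666531418 * g14 * g23 - 262133220 * g14 * g24 - 2818384264 * g14 * g25 + 682630420 * g14 * g26 +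
    66789098 * g14 * g33 - 170272468 * g14 * g34 + 601438700 * g14 * g35 + 2139770792 * g14 * g36 + 360287844 * g14 * g44 - 430039640 * g14 * g45 - 1268409310 * g14 * g46 -
    451847244 * g14 * g55 + 425333500 * g14 * g56 - 20976590 * g14 * g66 + 654836319 * g15 * g15 + 564677712 * g15 * g16 + 919168790 * g15 * g22 - 634936032 * g15 * g23 +
    864763866 * g15 * g24 - 760132412 * g15 * g25 + 45616548 * g15 * g26 + 294058976 * g15 * g33 + 302193076 * g15 * g34 - 275117520 * g15 * g35 + 682641260 * g15 * g36 +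
    275730902 * g15 * g44 - 498506816 * g15 * g45 - 709689124 * g15 * g46 - 427370156 * g15 * g55 + 982813212 * g15 * g56 - 165820186 * g15 * g66 + 4378204224 * g16 * g16 +
    543503952 * g16 * g22 + 1149205824 * g16 * g23 - 979021728 * g16 * g24 + 3884987952 * g16 * g25 + 564677712 * g16 * g26 + 820218528 * g16 * g33 - 777076992 * g16 * g34 -
    979021728 * g16 * g35 - 1337652288 * g16 * g36 + 820218528 * g16 * g44 + 1149205824 * g16 * g45 - 309269232 * g16 * g46 + 543503952 * g16 * g55 - 201944736 * g16 * g56 -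
    3236012208 * g16 * g66 + 1133904074 * g22 * g22 - 168930296 * g22 * g23 - 301078236 * g22 * g24 + 188481866 * g22 * g25 - 427381728 * g22 * g26 - 200192394 * g22 * g33 +
    167523484 * g22 * g34 - 1003376760 * g22 * g35 - 451925544 * g22 * g36 - 212891642 * g22 * g44 + 332260848 * g22 * g45 + 103267348 * g22 * g46 - 454566634 * g22 * g55 -
    750232100 * g22 * g56 + 677524584 * g22 * g66 + 2768082542 * g23 * g23 - 538631778 * g23 * g24 - 304909262 * g23 * g25 - 498561436 * g23 * g26 - 626727794 * g23 * g33 -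
    3832877612 * g23 * g34 - 377750072 * g23 * g35 - 430019590 * g23 * g36 + 420315652 * g23 * g44 + 709799352 * g23 * g45 + 1332812366 * g23 * g46 + 332268666 * g23 * g55 +
    1681562998 * g23 * g56 - 492273586 * g23 * g66 + 906584191 * g24 * g24 - 1233600914 * g24 * g25 - 275095860 * g24 * g26 + 383930738 * g24 * g33 - 429260932 * g24 * g34 +
    551876040 * g24 * g35 + 601478986 * g24 * g36 + 317696718 * g24 * g44 - 377664106 * g24 * g45 - 924569282 * g24 * g46 - 1003285334 * g24 * g55 + 1614490302 * g24 * g56 +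
    765222752 * g24 * g66 + 2590818685 * g25 * g25 - 760101350 * g25 * g26 - 205882040 * g25 * g33 + 1731908132 * g25 * g34 - 1233559692 * g25 * g35 -
    2818476330 * g25 * g36 - 205806300 * g25 * g44 - 305036028 * g25 * g45 + 986929642 * g25 * g46 + 188429922 * g25 * g55 - 497316358 * g25 * g56 - 272798266 * g25 * g66 +
    654860425 * g26 * g26 + 275726994 * g26 * g33 + 302262624 * g26 * g34 + 864819516 * g26 * g35 + 178271794 * g26 * g36 + 294057046 * g26 * g44 - 634982554 * g26 * g45 -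
    91137934 * g26 * g46 + 919182130 * g26 * g55 - 296594190 * g26 * g56 - 1549045318 * g26 * g66 + 211383325 * g33 * g33 - 165557948 * g33 * g34 + 317719722 * g33 * g35 +
    360346796 * g33 * g36 + 187679976 * g33 * g44 + 420348678 * g33 * g45 - 688209720 * g33 * g46 - 212889634 * g33 * g55 - 167474008 * g33 * g56 - 354462678 * g33 * g66 +
    2878472196 * g34 * g34 - 429187520 * g34 * g35 - 170347624 * g34 * g36 - 165496004 * g34 * g44 - 3832861364 * g34 * g45 - 411615616 * g34 * g46 + 167473744 * g34 * g55 +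
    981508104 * g34 * g56 + 39414288 * g34 * g66 + 906625275 * g35 * g35 - 262118514 * g35 * g36 + 383917332 * g35 * g44 - 538654980 * g35 * g45 - 927075060 * g35 * g46 -
    301054482 * g35 * g55 + 216667694 * g35 * g56 - 24709764 * g35 * g66 + 1773193949 * g36 * g36 + 66758382 * g36 * g44 + 666582548 * g36 * g45 - 1255787560 * g36 * g46 +
    9072456 * g36 * g55 + 544908562 * g36 * g56 - 529072030 * g36 * g66 + 211379677 * g44 * g44 - 626792020 * g44 * g45 - 538459004 * g44 * g46 - 200175564 * g44 * g55 +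
    1054502618 * g44 * g56 - 466343840 * g44 * g66 + 2768097199 * g45 * g45 + 69026548 * g45 * g46 - 168872412 * g45 * g55 - 4060642764 * g45 * g56 + 383240528 * g45 * g66 +
    1655649322 * g46 * g46 + 1807573578 * g46 * g55 - 961950500 * g46 * g56 - 505220138 * g46 * g66 + 1133897217 * g55 * g55 - 785762704 * g55 * g56 -
    2148222554 * g55 * g66 + 2983713005 * g56 * g56 - 208741382 * g56 * g66 + 1811354024 * g66 * g66 := by
  have h : (
    1811304458 * g11 * g11 - 208753824 * g11 * g12 - 505210812 * g11 * g13 - 529049010 * g11 * g14 - 1549003988 * g11 * g15 - 3236012208 * g11 * g16 -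
    2148174738 * g11 * g22 + 383243746 * g11 * g23 - 24639986 * g11 * g24 - 272770282 * g11 * g25 - 165841344 * g11 * g26 - 466339358 * g11 * g33 + 39418512 * g11 * g34 +
    765300208 * g11 * g35 - 21018452 * g11 * g36 - 354438198 * g11 * g44 - 492339836 * g11 * g45 + 818169714 * g11 * g46 + 677432596 * g11 * g55 + 410883348 * g11 * g56 +
    469704740 * g11 * g66 + 2983707080 * g12 * g12 - 961834568 * g12 * g13 + 544872844 * g12 * g14 - 296625672 * g12 * g15 - 201944736 * g12 * g16 - 785698884 * g12 * g22 -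
    4060608532 * g12 * g23 + 216634204 * g12 * g24 - 497365300 * g12 * g25 + 982808392 * g12 * g26 + 1054449820 * g12 * g33 + 981537440 * g12 * g34 + 1614554608 * g12 * g35 +
    425294464 * g12 * g36 - 167542940 * g12 * g44 + 1681665400 * g12 * g45 - 1902627028 * g12 * g46 - 750207584 * g12 * g55 - 3380885056 * g12 * g56 +
    410869672 * g12 * g66 + 1655687651 * g13 * g13 - 1255788936 * g13 * g14 - 91124712 * g13 * g15 - 309269232 * g13 * g16 + 1807599714 * g13 * g22 + 68957516 * g13 * g23 -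
    927096776 * g13 * g24 + 986894986 * g13 * g25 - 709683688 * g13 * g26 - 538473698 * g13 * g33 - 411574756 * g13 * g34 - 924682258 * g13 * g35 - 1268373800 * g13 * g36 -
    688202720 * g13 * g44 + 1332843782 * g13 * g45 + 591722536 * g13 * g46 + 103274600 * g13 * g55 - 1902711192 * g13 * g56 + 818162284 * g13 * g66 + 1773153072 * g14 * g14 +
    178292284 * g14 * g15 - 1337652288 * g14 * g16 + 8996284 * g14 * g22 + 666531418 * g14 * g23 - 262133220 * g14 * g24 - 2818384264 * g14 * g25 + 682630420 * g14 * g26 +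
    66789098 * g14 * g33 - 170272468 * g14 * g34 + 601438700 * g14 * g35 + 2139770792 * g14 * g36 + 360287844 * g14 * g44 - 430039640 * g14 * g45 - 1268409310 * g14 * g46 -
    451847244 * g14 * g55 + 425333500 * g14 * g56 - 20976590 * g14 * g66 + 654836319 * g15 * g15 + 564677712 * g15 * g16 + 919168790 * g15 * g22 - 634936032 * g15 * g23 +
    864763866 * g15 * g24 - 760132412 * g15 * g25 + 45616548 * g15 * g26 + 294058976 * g15 * g33 + 302193076 * g15 * g34 - 275117520 * g15 * g35 + 682641260 * g15 * g36 +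
    275730902 * g15 * g44 - 498506816 * g15 * g45 - 709689124 * g15 * g46 - 427370156 * g15 * g55 + 982813212 * g15 * g56 - 165820186 * g15 * g66 + 4378204224 * g16 * g16 +
    543503952 * g16 * g22 + 1149205824 * g16 * g23 - 979021728 * g16 * g24 + 3884987952 * g16 * g25 + 564677712 * g16 * g26 + 820218528 * g16 * g33 - 777076992 * g16 * g34 -
    979021728 * g16 * g35 - 1337652288 * g16 * g36 + 820218528 * g16 * g44 + 1149205824 * g16 * g45 - 309269232 * g16 * g46 + 543503952 * g16 * g55 - 201944736 * g16 * g56 -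
    3236012208 * g16 * g66 + 1133904074 * g22 * g22 - 168930296 * g22 * g23 - 301078236 * g22 * g24 + 188481866 * g22 * g25 - 427381728 * g22 * g26 - 200192394 * g22 * g33 +
    167523484 * g22 * g34 - 1003376760 * g22 * g35 - 451925544 * g22 * g36 - 212891642 * g22 * g44 + 332260848 * g22 * g45 + 103267348 * g22 * g46 - 454566634 * g22 * g55 -
    750232100 * g22 * g56 + 677524584 * g22 * g66 + 2768082542 * g23 * g23 - 538631778 * g23 * g24 - 304909262 * g23 * g25 - 498561436 * g23 * g26 - 626727794 * g23 * g33 -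
    3832877612 * g23 * g34 - 377750072 * g23 * g35 - 430019590 * g23 * g36 + 420315652 * g23 * g44 + 709799352 * g23 * g45 + 1332812366 * g23 * g46 + 332268666 * g23 * g55 +
    1681562998 * g23 * g56 - 492273586 * g23 * g66 + 906584191 * g24 * g24 - 1233600914 * g24 * g25 - 275095860 * g24 * g26 + 383930738 * g24 * g33 - 429260932 * g24 * g34 +
    551876040 * g24 * g35 + 601478986 * g24 * g36 + 317696718 * g24 * g44 - 377664106 * g24 * g45 - 924569282 * g24 * g46 - 1003285334 * g24 * g55 + 1614490302 * g24 * g56 +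
    765222752 * g24 * g66 + 2590818685 * g25 * g25 - 760101350 * g25 * g26 - 205882040 * g25 * g33 + 1731908132 * g25 * g34 - 1233559692 * g25 * g35 -
    2818476330 * g25 * g36 - 205806300 * g25 * g44 - 305036028 * g25 * g45 + 986929642 * g25 * g46 + 188429922 * g25 * g55 - 497316358 * g25 * g56 - 272798266 * g25 * g66 +
    654860425 * g26 * g26 + 275726994 * g26 * g33 + 302262624 * g26 * g34 + 864819516 * g26 * g35 + 178271794 * g26 * g36 + 294057046 * g26 * g44 - 634982554 * g26 * g45 -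
    91137934 * g26 * g46 + 919182130 * g26 * g55 - 296594190 * g26 * g56 - 1549045318 * g26 * g66 + 211383325 * g33 * g33 - 165557948 * g33 * g34 + 317719722 * g33 * g35 +
    360346796 * g33 * g36 + 187679976 * g33 * g44 + 420348678 * g33 * g45 - 688209720 * g33 * g46 - 212889634 * g33 * g55 - 167474008 * g33 * g56 - 354462678 * g33 * g66 +
    2878472196 * g34 * g34 - 429187520 * g34 * g35 - 170347624 * g34 * g36 - 165496004 * g34 * g44 - 3832861364 * g34 * g45 - 411615616 * g34 * g46 + 167473744 * g34 * g55 +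
    981508104 * g34 * g56 + 39414288 * g34 * g66 + 906625275 * g35 * g35 - 262118514 * g35 * g36 + 383917332 * g35 * g44 - 538654980 * g35 * g45 - 927075060 * g35 * g46 -
    301054482 * g35 * g55 + 216667694 * g35 * g56 - 24709764 * g35 * g66 + 1773193949 * g36 * g36 + 66758382 * g36 * g44 + 666582548 * g36 * g45 - 1255787560 * g36 * g46 +
    9072456 * g36 * g55 + 544908562 * g36 * g56 - 529072030 * g36 * g66 + 211379677 * g44 * g44 - 626792020 * g44 * g45 - 538459004 * g44 * g46 - 200175564 * g44 * g55 +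
    1054502618 * g44 * g56 - 466343840 * g44 * g66 + 2768097199 * g45 * g45 + 69026548 * g45 * g46 - 168872412 * g45 * g55 - 4060642764 * g45 * g56 + 383240528 * g45 * g66 +
    1655649322 * g46 * g46 + 1807573578 * g46 * g55 - 961950500 * g46 * g56 - 505220138 * g46 * g66 + 1133897217 * g55 * g55 - 785762704 * g55 * g56 -
    2148222554 * g55 * g66 + 2983713005 * g56 * g56 - 208741382 * g56 * g66 + 1811354024 * g66 * g66) =
    (-24453 * g11 - 1526 * g12 - 2337 * g13 - 10108 * g14 + 4267 * g15 + 66168 * g16 + 4107 * g22 + 8684 * g23 - 7398 * g24 + 29357 * g25 + 4267 * g26 + 6198 * g33 - 5872 * g34 - 7398 * g35 - 10108 * g36 + 6198 * g44 + 8684 * g45 - 2337 * g46 + 4107 * g55 - 1526 * g56 - 24453 * g66) ^ 2 +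
    (-2595 * g11 + 54602 * g12 - 8873 * g13 + 4707 * g14 - 2597 * g15 - 7080 * g22 - 36941 * g23 + 1777 * g24 - 3734 * g25 + 9119 * g26 + 9829 * g33 + 8824 * g34 + 14578 * g35 + 3612 * g36 - 1361 * g44 + 15642 * g45 - 17488 * g46 - 6755 * g55 - 31002 * g56 + 3079 * g66) ^ 2 +
    (-1920 * g11 - 2685 * g13 - 3537 * g14 + 3785 * g15 + 3239 * g22 - 29271 * g23 - 5205 * g24 + 20369 * g25 + 1820 * g26 - 2531 * g33 + 52594 * g34 - 7352 * g35 - 3354 * g36 - 653 * g44 - 38093 * g45 - 1240 * g46 + 3184 * g55 + 14362 * g56 - 2872 * g66) ^ 2 +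
    (2706 * g11 - 27974 * g13 + 9250 * g14 + 8524 * g15 - 14906 * g22 + 3033 * g23 + 21737 * g24 - 14373 * g25 + 2695 * g26 + 6264 * g33 + 15369 * g35 + 9795 * g36 + 11831 * g44 - 23128 * g45 - 23688 * g46 - 15068 * g55 + 42591 * g56 - 117 * g66) ^ 2 +
    (-7142 * g11 - 9161 * g13 + 21540 * g14 + 8203 * g15 - 51 * g22 - 3090 * g23 - 275 * g24 - 22598 * g25 + 2007 * g26 + 3491 * g33 - 11013 * g35 + 39380 * g36 - 435 * g44 + 11766 * g45 - 9154 * g46 + 5808 * g55 - 13492 * g66) ^ 2 +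
    (33832 * g11 - 9685 * g13 - 11157 * g14 - 18743 * g15 - 27957 * g22 + 6551 * g23 - 7667 * g24 + 14436 * g25 + 1644 * g26 - 1566 * g33 + 3110 * g35 - 1938 * g44 + 2372 * g45 + 8953 * g46 + 15074 * g55 - 13498 * g66) ^ 2 +
    (-8743 * g13 + 31021 * g14 - 9889 * g15 - 2648 * g22 + 19438 * g23 - 16547 * g24 - 7803 * g25 + 9611 * g26 - 3539 * g33 + 8416 * g35 + 4036 * g44 - 11239 * g45 - 2054 * g46 + 1325 * g55 - 4552 * g66) ^ 2 +
    (2604 * g13 - 5129 * g15 + 2755 * g22 + 4617 * g23 + 46 * g24 + 17709 * g25 - 21062 * g26 - 1848 * g33 - 11441 * g35 - 3216 * g44 + 13462 * g45 - 9632 * g46 - 23097 * g55 + 28473 * g66) ^ 2 +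
    (22821 * g13 + 460 * g15 + 6167 * g22 - 3229 * g23 - 4055 * g24 - 460 * g26 - 369 * g33 + 4054 * g35 + 369 * g44 + 3229 * g45 - 22820 * g46 - 6167 * g55) ^ 2 := by ring
  rw [h]; positivity

theorem bm (x12 x13 x14 x15 x16 x23 x24 x25 x26 x34 x35 x36 x45 x46 x56 : ℝ) : 0 ≤
    5468106591 * x12 * x12 - 1147290920 * x12 * x13 + 521413930 * x12 * x14 - 1438177336 * x12 * x15 + 1825367824 * x12 * x16 + 8951731438 * x12 * x23 -
    475302522 * x12 * x24 + 1810302642 * x12 * x25 - 1334464158 * x12 * x26 + 9950774658 * x12 * x34 - 1094864910 * x12 * x35 + 2296457826 * x12 * x36 +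
    10065889348 * x12 * x45 - 1715774188 * x12 * x46 + 10011692278 * x12 * x56 + 3219250750 * x13 * x13 - 125002616 * x13 * x14 - 2949912280 * x13 * x15 -
    2880331076 * x13 * x16 - 1089932422 * x13 * x23 - 5627882544 * x13 * x24 - 2440419060 * x13 * x25 + 1834186096 * x13 * x26 - 1323032240 * x13 * x34 +
    3860951184 * x13 * x35 + 3736788418 * x13 * x36 + 82639284 * x13 * x45 - 1878279256 * x13 * x46 - 1715709316 * x13 * x56 + 3462549472 * x14 * x14 +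
    297216380 * x14 * x15 - 5468184984 * x14 * x16 + 4421519058 * x14 * x23 + 390708488 * x14 * x24 - 6233536998 * x14 * x25 - 1262312592 * x14 * x26 -
    580828952 * x14 * x34 - 1635449512 * x14 * x35 + 2426018296 * x14 * x36 + 2047017148 * x14 * x45 + 3736832992 * x14 * x46 + 2296435812 * x14 * x56 +
    1156084338 * x15 * x15 - 40436164 * x15 * x16 - 1345544676 * x15 * x23 + 3700616524 * x15 * x24 - 297830874 * x15 * x25 - 1113866000 * x15 * x26 -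
    1718013726 * x15 * x34 - 2552876396 * x15 * x35 - 1262274624 * x15 * x36 - 1614539818 * x15 * x45 + 1834162350 * x15 * x46 - 1334509146 * x15 * x56 +
    4107318812 * x16 * x16 - 462337206 * x16 * x23 + 453519280 * x16 * x24 + 8874545082 * x16 * x25 - 40467884 * x16 * x26 + 4304156118 * x16 * x34 + 453466880 * x16 * x35 -
    5468184878 * x16 * x36 - 462340198 * x16 * x45 - 2880291290 * x16 * x46 + 1825368902 * x16 * x56 + 5205236230 * x23 * x23 - 1090183718 * x23 * x24 -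
    1009002128 * x23 * x25 - 1614534176 * x23 * x26 + 8253970978 * x23 * x34 - 835900348 * x23 * x35 + 2047012218 * x23 * x36 + 9003978110 * x23 * x45 +
    82609328 * x23 * x46 + 10065912208 * x23 * x56 + 3565541510 * x24 * x24 + 97777456 * x24 * x25 - 2552848936 * x24 * x26 - 1130658606 * x24 * x34 -
    5876767220 * x24 * x35 - 1635394492 * x24 * x36 - 835947098 * x24 * x45 + 3860903246 * x24 * x46 - 1094960022 * x24 * x56 + 5138196821 * x25 * x25 -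
    297830874 * x25 * x26 + 5119185508 * x25 * x34 + 97777456 * x25 * x35 - 6233536998 * x25 * x36 - 1009002128 * x25 * x45 - 2440419060 * x25 * x46 +
    1810302642 * x25 * x56 + 1156068151 * x26 * x26 - 1718013726 * x26 * x34 + 3700607376 * x26 * x35 + 297198928 * x26 * x36 - 1345543300 * x26 * x45 -
    2949845454 * x26 * x46 - 1438145856 * x26 * x56 + 5499853921 * x34 * x34 - 1130658606 * x34 * x35 - 580828952 * x34 * x36 + 8253970978 * x34 * x45 -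
    1323032240 * x34 * x46 + 9950774658 * x34 * x56 + 3565588784 * x35 * x35 + 390674146 * x35 * x36 - 1090161486 * x35 * x45 - 5627873370 * x35 * x46 -
    475199434 * x35 * x56 + 3462517786 * x36 * x36 + 4421496924 * x36 * x45 - 124981180 * x36 * x46 + 521463476 * x36 * x56 + 5205217514 * x45 * x45 -
    1089930724 * x45 * x46 + 8951748568 * x45 * x56 + 3219212445 * x46 * x46 - 1147361048 * x46 * x56 + 5468105338 * x56 * x56 := by
  have h : (
    5468106591 * x12 * x12 - 1147290920 * x12 * x13 + 521413930 * x12 * x14 - 1438177336 * x12 * x15 + 1825367824 * x12 * x16 + 8951731438 * x12 * x23 -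
    475302522 * x12 * x24 + 1810302642 * x12 * x25 - 1334464158 * x12 * x26 + 9950774658 * x12 * x34 - 1094864910 * x12 * x35 + 2296457826 * x12 * x36 +
    10065889348 * x12 * x45 - 1715774188 * x12 * x46 + 10011692278 * x12 * x56 + 3219250750 * x13 * x13 - 125002616 * x13 * x14 - 2949912280 * x13 * x15 -
    2880331076 * x13 * x16 - 1089932422 * x13 * x23 - 5627882544 * x13 * x24 - 2440419060 * x13 * x25 + 1834186096 * x13 * x26 - 1323032240 * x13 * x34 +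
    3860951184 * x13 * x35 + 3736788418 * x13 * x36 + 82639284 * x13 * x45 - 1878279256 * x13 * x46 - 1715709316 * x13 * x56 + 3462549472 * x14 * x14 +
    297216380 * x14 * x15 - 5468184984 * x14 * x16 + 4421519058 * x14 * x23 + 390708488 * x14 * x24 - 6233536998 * x14 * x25 - 1262312592 * x14 * x26 -
    580828952 * x14 * x34 - 1635449512 * x14 * x35 + 2426018296 * x14 * x36 + 2047017148 * x14 * x45 + 3736832992 * x14 * x46 + 2296435812 * x14 * x56 +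
    1156084338 * x15 * x15 - 40436164 * x15 * x16 - 1345544676 * x15 * x23 + 3700616524 * x15 * x24 - 297830874 * x15 * x25 - 1113866000 * x15 * x26 -
    1718013726 * x15 * x34 - 2552876396 * x15 * x35 - 1262274624 * x15 * x36 - 1614539818 * x15 * x45 + 1834162350 * x15 * x46 - 1334509146 * x15 * x56 +
    4107318812 * x16 * x16 - 462337206 * x16 * x23 + 453519280 * x16 * x24 + 8874545082 * x16 * x25 - 40467884 * x16 * x26 + 4304156118 * x16 * x34 + 453466880 * x16 * x35 -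
    5468184878 * x16 * x36 - 462340198 * x16 * x45 - 2880291290 * x16 * x46 + 1825368902 * x16 * x56 + 5205236230 * x23 * x23 - 1090183718 * x23 * x24 -
    1009002128 * x23 * x25 - 1614534176 * x23 * x26 + 8253970978 * x23 * x34 - 835900348 * x23 * x35 + 2047012218 * x23 * x36 + 9003978110 * x23 * x45 +
    82609328 * x23 * x46 + 10065912208 * x23 * x56 + 3565541510 * x24 * x24 + 97777456 * x24 * x25 - 2552848936 * x24 * x26 - 1130658606 * x24 * x34 -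
    5876767220 * x24 * x35 - 1635394492 * x24 * x36 - 835947098 * x24 * x45 + 3860903246 * x24 * x46 - 1094960022 * x24 * x56 + 5138196821 * x25 * x25 -
    297830874 * x25 * x26 + 5119185508 * x25 * x34 + 97777456 * x25 * x35 - 6233536998 * x25 * x36 - 1009002128 * x25 * x45 - 2440419060 * x25 * x46 +
    1810302642 * x25 * x56 + 1156068151 * x26 * x26 - 1718013726 * x26 * x34 + 3700607376 * x26 * x35 + 297198928 * x26 * x36 - 1345543300 * x26 * x45 -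
    2949845454 * x26 * x46 - 1438145856 * x26 * x56 + 5499853921 * x34 * x34 - 1130658606 * x34 * x35 - 580828952 * x34 * x36 + 8253970978 * x34 * x45 -
    1323032240 * x34 * x46 + 9950774658 * x34 * x56 + 3565588784 * x35 * x35 + 390674146 * x35 * x36 - 1090161486 * x35 * x45 - 5627873370 * x35 * x46 -
    475199434 * x35 * x56 + 3462517786 * x36 * x36 + 4421496924 * x36 * x45 - 124981180 * x36 * x46 + 521463476 * x36 * x56 + 5205217514 * x45 * x45 -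
    1089930724 * x45 * x46 + 8951748568 * x45 * x56 + 3219212445 * x46 * x46 - 1147361048 * x46 * x56 + 5468105338 * x56 * x56) =
    (67089 * x12 - 8920 * x13 - 3916 * x14 - 11583 * x15 + 29019 * x16 + 55649 * x23 - 7623 * x24 + 34514 * x25 - 11583 * x26 + 74161 * x34 - 7623 * x35 - 3916 * x36 + 55649 * x45 - 8920 * x46 + 67089 * x56) ^ 2 +
    (-22449 * x12 - 14522 * x13 - 47459 * x14 + 3993 * x15 + 54687 * x16 - 38602 * x23 + 4966 * x24 + 62825 * x25 + 3993 * x26 + 4966 * x35 - 47459 * x36 - 38602 * x45 - 14522 * x46 - 22449 * x56) ^ 2 +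
    (6528 * x12 - 47612 * x13 + 6798 * x14 + 29521 * x15 + 2989 * x16 + 1200 * x23 + 59015 * x24 - 23461 * x26 - 51193 * x35 - 10368 * x36 + 3354 * x45 + 32781 * x46 + 1278 * x56) ^ 2 +
    (-18566 * x12 + 7691 * x13 + 21399 * x14 - 2229 * x15 - 11266 * x16 - 1445 * x23 - 17445 * x26 - 26281 * x35 - 10375 * x36 - 16700 * x45 + 43060 * x46 - 7969 * x56) ^ 2 +
    (7048 * x12 + 23336 * x13 - 24351 * x14 - 6519 * x15 - 3545 * x16 - 18950 * x23 - 4201 * x26 - 12852 * x35 + 31300 * x36 + 14638 * x45 - 19533 * x56) ^ 2 +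
    (-1579 * x12 - 6172 * x13 + 9880 * x14 - 2266 * x15 + 11128 * x16 + 15990 * x23 - 5329 * x26 - 1384 * x35 + 10275 * x45 + 3111 * x56) ^ 2 +
    (4872 * x12 - 4481 * x13 - 377 * x14 - 9049 * x15 + 1514 * x16 + 10255 * x26 + 2077 * x35 + 2882 * x45 - 2619 * x56) ^ 2 := by ring
  rw [h]; positivity

theorem balg {x12 x13 x14 x15 x16 x23 x24 x25 x26 x34 x35 x36 x45 x46 x56 y12 y13 y14 y15 y16 y23 y24 y25 y26 y34 y35 y36 y45 y46 y56 z12 z13 z14 z15 z16 z23 z24 z25 z26 z34 z35 z36 z45 z46 z56 g11 g12 g13 g14 g15 g16 g22 g23 g24 g25 g26 g33 g34 g35 g36 g44 g45 g46 g55 g56 g66 d1234 d1235 d1236 d1245 d1246 d1256 d1345 d1346 d1356 d1456 d2345 d2346 d2356 d2456 d3456 : ℝ}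
    (k12_12 : x12 * x12 + y12 * y12 + z12 * z12 = g11 * g22 - g12 * g12)
    (k12_13 : x12 * x13 + y12 * y13 + z12 * z13 = g11 * g23 - g13 * g12)
    (k12_14 : x12 * x14 + y12 * y14 + z12 * z14 = g11 * g24 - g14 * g12)
    (k12_15 : x12 * x15 + y12 * y15 + z12 * z15 = g11 * g25 - g15 * g12)
    (k12_16 : x12 * x16 + y12 * y16 + z12 * z16 = g11 * g26 - g16 * g12)
    (k12_23 : x12 * x23 + y12 * y23 + z12 * z23 = g12 * g23 - g13 * g22)
    (k12_24 : x12 * x24 + y12 * y24 + z12 * z24 = g12 * g24 - g14 * g22)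
    (k12_25 : x12 * x25 + y12 * y25 + z12 * z25 = g12 * g25 - g15 * g22)
    (k12_26 : x12 * x26 + y12 * y26 + z12 * z26 = g12 * g26 - g16 * g22)
    (k12_34 : x12 * x34 + y12 * y34 + z12 * z34 = g13 * g24 - g14 * g23 - d1234)
    (k12_35 : x12 * x35 + y12 * y35 + z12 * z35 = g13 * g25 - g15 * g23 - d1235)
    (k12_36 : x12 * x36 + y12 * y36 + z12 * z36 = g13 * g26 - g16 * g23 - d1236)
    (k12_45 : x12 * x45 + y12 * y45 + z12 * z45 = g14 * g25 - g15 * g24 - d1245)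
    (k12_46 : x12 * x46 + y12 * y46 + z12 * z46 = g14 * g26 - g16 * g24 - d1246)
    (k12_56 : x12 * x56 + y12 * y56 + z12 * z56 = g15 * g26 - g16 * g25 - d1256)
    (k13_13 : x13 * x13 + y13 * y13 + z13 * z13 = g11 * g33 - g13 * g13)
    (k13_14 : x13 * x14 + y13 * y14 + z13 * z14 = g11 * g34 - g14 * g13)
    (k13_15 : x13 * x15 + y13 * y15 + z13 * z15 = g11 * g35 - g15 * g13)
    (k13_16 : x13 * x16 + y13 * y16 + z13 * z16 = g11 * g36 - g16 * g13)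
    (k13_23 : x13 * x23 + y13 * y23 + z13 * z23 = g12 * g33 - g13 * g23)
    (k13_24 : x13 * x24 + y13 * y24 + z13 * z24 = g12 * g34 - g14 * g23 + d1234)
    (k13_25 : x13 * x25 + y13 * y25 + z13 * z25 = g12 * g35 - g15 * g23 + d1235)
    (k13_26 : x13 * x26 + y13 * y26 + z13 * z26 = g12 * g36 - g16 * g23 + d1236)
    (k13_34 : x13 * x34 + y13 * y34 + z13 * z34 = g13 * g34 - g14 * g33)
    (k13_35 : x13 * x35 + y13 * y35 + z13 * z35 = g13 * g35 - g15 * g33)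
    (k13_36 : x13 * x36 + y13 * y36 + z13 * z36 = g13 * g36 - g16 * g33)
    (k13_45 : x13 * x45 + y13 * y45 + z13 * z45 = g14 * g35 - g15 * g34 - d1345)
    (k13_46 : x13 * x46 + y13 * y46 + z13 * z46 = g14 * g36 - g16 * g34 - d1346)
    (k13_56 : x13 * x56 + y13 * y56 + z13 * z56 = g15 * g36 - g16 * g35 - d1356)
    (k14_14 : x14 * x14 + y14 * y14 + z14 * z14 = g11 * g44 - g14 * g14)
    (k14_15 : x14 * x15 + y14 * y15 + z14 * z15 = g11 * g45 - g15 * g14)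
    (k14_16 : x14 * x16 + y14 * y16 + z14 * z16 = g11 * g46 - g16 * g14)
    (k14_23 : x14 * x23 + y14 * y23 + z14 * z23 = g12 * g34 - g13 * g24 - d1234)
    (k14_24 : x14 * x24 + y14 * y24 + z14 * z24 = g12 * g44 - g14 * g24)
    (k14_25 : x14 * x25 + y14 * y25 + z14 * z25 = g12 * g45 - g15 * g24 + d1245)
    (k14_26 : x14 * x26 + y14 * y26 + z14 * z26 = g12 * g46 - g16 * g24 + d1246)
    (k14_34 : x14 * x34 + y14 * y34 + z14 * z34 = g13 * g44 - g14 * g34)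
    (k14_35 : x14 * x35 + y14 * y35 + z14 * z35 = g13 * g45 - g15 * g34 + d1345)
    (k14_36 : x14 * x36 + y14 * y36 + z14 * z36 = g13 * g46 - g16 * g34 + d1346)
    (k14_45 : x14 * x45 + y14 * y45 + z14 * z45 = g14 * g45 - g15 * g44)
    (k14_46 : x14 * x46 + y14 * y46 + z14 * z46 = g14 * g46 - g16 * g44)
    (k14_56 : x14 * x56 + y14 * y56 + z14 * z56 = g15 * g46 - g16 * g45 - d1456)
    (k15_15 : x15 * x15 + y15 * y15 + z15 * z15 = g11 * g55 - g15 * g15)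
    (k15_16 : x15 * x16 + y15 * y16 + z15 * z16 = g11 * g56 - g16 * g15)
    (k15_23 : x15 * x23 + y15 * y23 + z15 * z23 = g12 * g35 - g13 * g25 - d1235)
    (k15_24 : x15 * x24 + y15 * y24 + z15 * z24 = g12 * g45 - g14 * g25 - d1245)
    (k15_25 : x15 * x25 + y15 * y25 + z15 * z25 = g12 * g55 - g15 * g25)
    (k15_26 : x15 * x26 + y15 * y26 + z15 * z26 = g12 * g56 - g16 * g25 + d1256)
    (k15_34 : x15 * x34 + y15 * y34 + z15 * z34 = g13 * g45 - g14 * g35 - d1345)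
    (k15_35 : x15 * x35 + y15 * y35 + z15 * z35 = g13 * g55 - g15 * g35)
    (k15_36 : x15 * x36 + y15 * y36 + z15 * z36 = g13 * g56 - g16 * g35 + d1356)
    (k15_45 : x15 * x45 + y15 * y45 + z15 * z45 = g14 * g55 - g15 * g45)
    (k15_46 : x15 * x46 + y15 * y46 + z15 * z46 = g14 * g56 - g16 * g45 + d1456)
    (k15_56 : x15 * x56 + y15 * y56 + z15 * z56 = g15 * g56 - g16 * g55)
    (k16_16 : x16 * x16 + y16 * y16 + z16 * z16 = g11 * g66 - g16 * g16)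
    (k16_23 : x16 * x23 + y16 * y23 + z16 * z23 = g12 * g36 - g13 * g26 - d1236)
    (k16_24 : x16 * x24 + y16 * y24 + z16 * z24 = g12 * g46 - g14 * g26 - d1246)
    (k16_25 : x16 * x25 + y16 * y25 + z16 * z25 = g12 * g56 - g15 * g26 - d1256)
    (k16_26 : x16 * x26 + y16 * y26 + z16 * z26 = g12 * g66 - g16 * g26)
    (k16_34 : x16 * x34 + y16 * y34 + z16 * z34 = g13 * g46 - g14 * g36 - d1346)
    (k16_35 : x16 * x35 + y16 * y35 + z16 * z35 = g13 * g56 - g15 * g36 - d1356)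
    (k16_36 : x16 * x36 + y16 * y36 + z16 * z36 = g13 * g66 - g16 * g36)
    (k16_45 : x16 * x45 + y16 * y45 + z16 * z45 = g14 * g56 - g15 * g46 - d1456)
    (k16_46 : x16 * x46 + y16 * y46 + z16 * z46 = g14 * g66 - g16 * g46)
    (k16_56 : x16 * x56 + y16 * y56 + z16 * z56 = g15 * g66 - g16 * g56)
    (k23_23 : x23 * x23 + y23 * y23 + z23 * z23 = g22 * g33 - g23 * g23)
    (k23_24 : x23 * x24 + y23 * y24 + z23 * z24 = g22 * g34 - g24 * g23)
    (k23_25 : x23 * x25 + y23 * y25 + z23 * z25 = g22 * g35 - g25 * g23)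
    (k23_26 : x23 * x26 + y23 * y26 + z23 * z26 = g22 * g36 - g26 * g23)
    (k23_34 : x23 * x34 + y23 * y34 + z23 * z34 = g23 * g34 - g24 * g33)
    (k23_35 : x23 * x35 + y23 * y35 + z23 * z35 = g23 * g35 - g25 * g33)
    (k23_36 : x23 * x36 + y23 * y36 + z23 * z36 = g23 * g36 - g26 * g33)
    (k23_45 : x23 * x45 + y23 * y45 + z23 * z45 = g24 * g35 - g25 * g34 - d2345)
    (k23_46 : x23 * x46 + y23 * y46 + z23 * z46 = g24 * g36 - g26 * g34 - d2346)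
    (k23_56 : x23 * x56 + y23 * y56 + z23 * z56 = g25 * g36 - g26 * g35 - d2356)
    (k24_24 : x24 * x24 + y24 * y24 + z24 * z24 = g22 * g44 - g24 * g24)
    (k24_25 : x24 * x25 + y24 * y25 + z24 * z25 = g22 * g45 - g25 * g24)
    (k24_26 : x24 * x26 + y24 * y26 + z24 * z26 = g22 * g46 - g26 * g24)
    (k24_34 : x24 * x34 + y24 * y34 + z24 * z34 = g23 * g44 - g24 * g34)
    (k24_35 : x24 * x35 + y24 * y35 + z24 * z35 = g23 * g45 - g25 * g34 + d2345)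
    (k24_36 : x24 * x36 + y24 * y36 + z24 * z36 = g23 * g46 - g26 * g34 + d2346)
    (k24_45 : x24 * x45 + y24 * y45 + z24 * z45 = g24 * g45 - g25 * g44)
    (k24_46 : x24 * x46 + y24 * y46 + z24 * z46 = g24 * g46 - g26 * g44)
    (k24_56 : x24 * x56 + y24 * y56 + z24 * z56 = g25 * g46 - g26 * g45 - d2456)
    (k25_25 : x25 * x25 + y25 * y25 + z25 * z25 = g22 * g55 - g25 * g25)
    (k25_26 : x25 * x26 + y25 * y26 + z25 * z26 = g22 * g56 - g26 * g25)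
    (k25_34 : x25 * x34 + y25 * y34 + z25 * z34 = g23 * g45 - g24 * g35 - d2345)
    (k25_35 : x25 * x35 + y25 * y35 + z25 * z35 = g23 * g55 - g25 * g35)
    (k25_36 : x25 * x36 + y25 * y36 + z25 * z36 = g23 * g56 - g26 * g35 + d2356)
    (k25_45 : x25 * x45 + y25 * y45 + z25 * z45 = g24 * g55 - g25 * g45)
    (k25_46 : x25 * x46 + y25 * y46 + z25 * z46 = g24 * g56 - g26 * g45 + d2456)
    (k25_56 : x25 * x56 + y25 * y56 + z25 * z56 = g25 * g56 - g26 * g55)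
    (k26_26 : x26 * x26 + y26 * y26 + z26 * z26 = g22 * g66 - g26 * g26)
    (k26_34 : x26 * x34 + y26 * y34 + z26 * z34 = g23 * g46 - g24 * g36 - d2346)
    (k26_35 : x26 * x35 + y26 * y35 + z26 * z35 = g23 * g56 - g25 * g36 - d2356)
    (k26_36 : x26 * x36 + y26 * y36 + z26 * z36 = g23 * g66 - g26 * g36)
    (k26_45 : x26 * x45 + y26 * y45 + z26 * z45 = g24 * g56 - g25 * g46 - d2456)
    (k26_46 : x26 * x46 + y26 * y46 + z26 * z46 = g24 * g66 - g26 * g46)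
    (k26_56 : x26 * x56 + y26 * y56 + z26 * z56 = g25 * g66 - g26 * g56)
    (k34_34 : x34 * x34 + y34 * y34 + z34 * z34 = g33 * g44 - g34 * g34)
    (k34_35 : x34 * x35 + y34 * y35 + z34 * z35 = g33 * g45 - g35 * g34)
    (k34_36 : x34 * x36 + y34 * y36 + z34 * z36 = g33 * g46 - g36 * g34)
    (k34_45 : x34 * x45 + y34 * y45 + z34 * z45 = g34 * g45 - g35 * g44)
    (k34_46 : x34 * x46 + y34 * y46 + z34 * z46 = g34 * g46 - g36 * g44)
    (k34_56 : x34 * x56 + y34 * y56 + z34 * z56 = g35 * g46 - g36 * g45 - d3456)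
    (k35_35 : x35 * x35 + y35 * y35 + z35 * z35 = g33 * g55 - g35 * g35)
    (k35_36 : x35 * x36 + y35 * y36 + z35 * z36 = g33 * g56 - g36 * g35)
    (k35_45 : x35 * x45 + y35 * y45 + z35 * z45 = g34 * g55 - g35 * g45)
    (k35_46 : x35 * x46 + y35 * y46 + z35 * z46 = g34 * g56 - g36 * g45 + d3456)
    (k35_56 : x35 * x56 + y35 * y56 + z35 * z56 = g35 * g56 - g36 * g55)
    (k36_36 : x36 * x36 + y36 * y36 + z36 * z36 = g33 * g66 - g36 * g36)
    (k36_45 : x36 * x45 + y36 * y45 + z36 * z45 = g34 * g56 - g35 * g46 - d3456)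
    (k36_46 : x36 * x46 + y36 * y46 + z36 * z46 = g34 * g66 - g36 * g46)
    (k36_56 : x36 * x56 + y36 * y56 + z36 * z56 = g35 * g66 - g36 * g56)
    (k45_45 : x45 * x45 + y45 * y45 + z45 * z45 = g44 * g55 - g45 * g45)
    (k45_46 : x45 * x46 + y45 * y46 + z45 * z46 = g44 * g56 - g46 * g45)
    (k45_56 : x45 * x56 + y45 * y56 + z45 * z56 = g45 * g56 - g46 * g55)
    (k46_46 : x46 * x46 + y46 * y46 + z46 * z46 = g44 * g66 - g46 * g46)
    (k46_56 : x46 * x56 + y46 * y56 + z46 * z56 = g45 * g66 - g46 * g56)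
    (k56_56 : x56 * x56 + y56 * y56 + z56 * z56 = g55 * g66 - g56 * g56) : 0 ≤
    5468106591 * g11 * g22 - 5468106591 * g12 * g12 - 1147290920 * g11 * g23 + 1147290920 * g12 * g13 + 521413930 * g11 * g24 - 521413930 * g12 * g14 -
    1438177336 * g11 * g25 + 1438177336 * g12 * g15 + 1825367824 * g11 * g26 - 1825367824 * g12 * g16 + 8951731438 * g12 * g23 - 8951731438 * g13 * g22 -
    475302522 * g12 * g24 + 475302522 * g14 * g22 + 1810302642 * g12 * g25 - 1810302642 * g15 * g22 - 1334464158 * g12 * g26 + 1334464158 * g16 * g22 +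
    5529255600 * g13 * g24 - 4322892114 * g14 * g23 - 20000176260 * d1234 + 250679766 * g13 * g25 + 3535283970 * g15 * g23 - 9474 * d1235 + 2758795032 * g13 * g26 -
    4130643922 * g16 * g23 + 65476 * d1236 + 6365272824 * g14 * g25 - 3832352350 * g15 * g24 - 20000042870 * d1245 - 2169293468 * g14 * g26 + 2978086780 * g16 * g24 -
    57684 * d1246 + 1137147196 * g15 * g26 - 8897826278 * g16 * g25 - 20000103360 * d1256 + 3219250750 * g11 * g33 - 3219250750 * g13 * g13 - 125002616 * g11 * g34 +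
    125002616 * g13 * g14 - 2949912280 * g11 * g35 + 2949912280 * g13 * g15 - 2880331076 * g11 * g36 + 2880331076 * g13 * g16 - 1089932422 * g12 * g33 +
    1089932422 * g13 * g23 - 1206363486 * g12 * g34 - 3785963736 * g12 * g35 + 1371848890 * g12 * g36 - 1323032240 * g13 * g34 + 1323032240 * g14 * g33 +
    3860951184 * g13 * g35 - 3860951184 * g15 * g33 + 3736788418 * g13 * g36 - 3736788418 * g16 * g33 + 1800653010 * g14 * g35 + 1552810228 * g15 * g34 -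
    75070 * d1345 - 6182435374 * g14 * g36 - 547739040 * g16 * g34 + 141434 * d1346 - 2169176196 * g15 * g36 + 2977983940 * g16 * g35 - 32188 * d1356 +
    3462549472 * g11 * g44 - 3462549472 * g14 * g14 + 297216380 * g11 * g45 - 297216380 * g14 * g15 - 5468184984 * g11 * g46 + 5468184984 * g14 * g16 +
    390708488 * g12 * g44 - 390708488 * g14 * g24 - 2532920474 * g12 * g45 - 808793312 * g12 * g46 - 580828952 * g13 * g44 + 580828952 * g14 * g34 - 3353463238 * g13 * g45 +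
    6730174414 * g13 * g46 + 2047017148 * g14 * g45 - 2047017148 * g15 * g44 + 3736832992 * g14 * g46 - 3736832992 * g16 * g44 + 2758776010 * g15 * g46 -
    4130598162 * g16 * g45 + 66736 * d1456 + 1156084338 * g11 * g55 - 1156084338 * g15 * g15 - 40436164 * g11 * g56 + 40436164 * g15 * g16 - 297830874 * g12 * g55 +
    297830874 * g15 * g25 + 7760679082 * g12 * g56 - 2552876396 * g13 * g55 + 2552876396 * g15 * g35 - 808807744 * g13 * g56 - 1614539818 * g14 * g55 +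
    1614539818 * g15 * g45 + 1371822152 * g14 * g56 - 1334509146 * g15 * g56 + 1334509146 * g16 * g55 + 4107318812 * g11 * g66 - 4107318812 * g16 * g16 -
    40467884 * g12 * g66 + 40467884 * g16 * g26 - 5468184878 * g13 * g66 + 5468184878 * g16 * g36 - 2880291290 * g14 * g66 + 2880291290 * g16 * g46 + 1825368902 * g15 * g66 -
    1825368902 * g16 * g56 + 5205236230 * g22 * g33 - 5205236230 * g23 * g23 - 1090183718 * g22 * g34 + 1090183718 * g23 * g24 - 1009002128 * g22 * g35 +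
    1009002128 * g23 * g25 - 1614534176 * g22 * g36 + 1614534176 * g23 * g26 + 8253970978 * g23 * g34 - 8253970978 * g24 * g33 - 835900348 * g23 * g35 +
    835900348 * g25 * g33 + 2047012218 * g23 * g36 - 2047012218 * g26 * g33 + 3884792602 * g24 * g35 - 3127210890 * g25 * g34 - 19999930838 * d2345 + 1800623054 * g24 * g36 +
    1552785164 * g26 * g34 + 9906 * d2346 + 6365304832 * g25 * g36 - 3832375210 * g26 * g35 - 20000056582 * d2356 + 3565541510 * g22 * g44 - 3565541510 * g24 * g24 +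
    97777456 * g22 * g45 - 97777456 * g24 * g25 - 2552848936 * g22 * g46 + 2552848936 * g24 * g26 - 1130658606 * g23 * g44 + 1130658606 * g24 * g34 - 757581712 * g23 * g45 -
    3353408218 * g23 * g46 - 835947098 * g24 * g45 + 835947098 * g25 * g44 + 3860903246 * g24 * g46 - 3860903246 * g26 * g44 + 250583278 * g25 * g46 +
    3535379082 * g26 * g45 + 84262 * d2456 + 5138196821 * g22 * g55 - 5138196821 * g25 * g25 - 297830874 * g22 * g56 + 297830874 * g25 * g26 + 97777456 * g23 * g55 -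
    97777456 * g25 * g35 - 2532929622 * g23 * g56 - 1009002128 * g24 * g55 + 1009002128 * g25 * g45 - 3785962360 * g24 * g56 + 1810302642 * g25 * g56 -
    1810302642 * g26 * g55 + 1156068151 * g22 * g66 - 1156068151 * g26 * g26 + 297198928 * g23 * g66 - 297198928 * g26 * g36 - 2949845454 * g24 * g66 +
    2949845454 * g26 * g46 - 1438145856 * g25 * g66 + 1438145856 * g26 * g56 + 5499853921 * g33 * g44 - 5499853921 * g34 * g34 - 1130658606 * g33 * g45 +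
    1130658606 * g34 * g35 - 580828952 * g33 * g46 + 580828952 * g34 * g36 + 8253970978 * g34 * g45 - 8253970978 * g35 * g44 - 1323032240 * g34 * g46 +
    1323032240 * g36 * g44 + 5529277734 * g35 * g46 - 4322901288 * g36 * g45 - 20000144952 * d3456 + 3565588784 * g33 * g55 - 3565588784 * g35 * g35 +
    390674146 * g33 * g56 - 390674146 * g35 * g36 - 1090161486 * g34 * g55 + 1090161486 * g35 * g45 - 1206376446 * g34 * g56 - 475199434 * g35 * g56 +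
    475199434 * g36 * g55 + 3462517786 * g33 * g66 - 3462517786 * g36 * g36 - 124981180 * g34 * g66 + 124981180 * g36 * g46 + 521463476 * g35 * g66 - 521463476 * g36 * g56 +
    5205217514 * g44 * g55 - 5205217514 * g45 * g45 - 1089930724 * g44 * g56 + 1089930724 * g45 * g46 + 8951748568 * g45 * g56 - 8951748568 * g46 * g55 +
    3219212445 * g44 * g66 - 3219212445 * g46 * g46 - 1147361048 * g45 * g66 + 1147361048 * g46 * g56 + 5468105338 * g55 * g66 - 5468105338 * g56 * g56 := by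
  have h1 := bm x12 x13 x14 x15 x16 x23 x24 x25 x26 x34 x35 x36 x45 x46 x56
  have h2 := bm y12 y13 y14 y15 y16 y23 y24 y25 y26 y34 y35 y36 y45 y46 y56
  have h3 := bm z12 z13 z14 z15 z16 z23 z24 z25 z26 z34 z35 z36 z45 z46 z56
  linear_combination h1 + h2 + h3 +
    (5468106591) * k12_12 + (-1147290920) * k12_13 + (521413930) * k12_14 + (-1438177336) * k12_15 + (1825367824) * k12_16 + (8951731438) * k12_23 + (-475302522) * k12_24 +
    (1810302642) * k12_25 + (-1334464158) * k12_26 + (9950774658) * k12_34 + (-1094864910) * k12_35 + (2296457826) * k12_36 + (10065889348) * k12_45 +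
    (-1715774188) * k12_46 + (10011692278) * k12_56 + (3219250750) * k13_13 + (-125002616) * k13_14 + (-2949912280) * k13_15 + (-2880331076) * k13_16 +
    (-1089932422) * k13_23 + (-5627882544) * k13_24 + (-2440419060) * k13_25 + (1834186096) * k13_26 + (-1323032240) * k13_34 + (3860951184) * k13_35 +
    (3736788418) * k13_36 + (82639284) * k13_45 + (-1878279256) * k13_46 + (-1715709316) * k13_56 + (3462549472) * k14_14 + (297216380) * k14_15 + (-5468184984) * k14_16 +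
    (4421519058) * k14_23 + (390708488) * k14_24 + (-6233536998) * k14_25 + (-1262312592) * k14_26 + (-580828952) * k14_34 + (-1635449512) * k14_35 + (2426018296) * k14_36 +
    (2047017148) * k14_45 + (3736832992) * k14_46 + (2296435812) * k14_56 + (1156084338) * k15_15 + (-40436164) * k15_16 + (-1345544676) * k15_23 + (3700616524) * k15_24 +
    (-297830874) * k15_25 + (-1113866000) * k15_26 + (-1718013726) * k15_34 + (-2552876396) * k15_35 + (-1262274624) * k15_36 + (-1614539818) * k15_45 +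
    (1834162350) * k15_46 + (-1334509146) * k15_56 + (4107318812) * k16_16 + (-462337206) * k16_23 + (453519280) * k16_24 + (8874545082) * k16_25 + (-40467884) * k16_26 +
    (4304156118) * k16_34 + (453466880) * k16_35 + (-5468184878) * k16_36 + (-462340198) * k16_45 + (-2880291290) * k16_46 + (1825368902) * k16_56 + (5205236230) * k23_23 +
    (-1090183718) * k23_24 + (-1009002128) * k23_25 + (-1614534176) * k23_26 + (8253970978) * k23_34 + (-835900348) * k23_35 + (2047012218) * k23_36 +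
    (9003978110) * k23_45 + (82609328) * k23_46 + (10065912208) * k23_56 + (3565541510) * k24_24 + (97777456) * k24_25 + (-2552848936) * k24_26 + (-1130658606) * k24_34 +
    (-5876767220) * k24_35 + (-1635394492) * k24_36 + (-835947098) * k24_45 + (3860903246) * k24_46 + (-1094960022) * k24_56 + (5138196821) * k25_25 +
    (-297830874) * k25_26 + (5119185508) * k25_34 + (97777456) * k25_35 + (-6233536998) * k25_36 + (-1009002128) * k25_45 + (-2440419060) * k25_46 + (1810302642) * k25_56 +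
    (1156068151) * k26_26 + (-1718013726) * k26_34 + (3700607376) * k26_35 + (297198928) * k26_36 + (-1345543300) * k26_45 + (-2949845454) * k26_46 + (-1438145856) * k26_56 +
    (5499853921) * k34_34 + (-1130658606) * k34_35 + (-580828952) * k34_36 + (8253970978) * k34_45 + (-1323032240) * k34_46 + (9950774658) * k34_56 + (3565588784) * k35_35 +
    (390674146) * k35_36 + (-1090161486) * k35_45 + (-5627873370) * k35_46 + (-475199434) * k35_56 + (3462517786) * k36_36 + (4421496924) * k36_45 + (-124981180) * k36_46 +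
    (521463476) * k36_56 + (5205217514) * k45_45 + (-1089930724) * k45_46 + (8951748568) * k45_56 + (3219212445) * k46_46 + (-1147361048) * k46_56 + (5468105338) * k56_56

theorem bG (u1 u2 u3 u4 u5 u6 : E 4) : 0 ≤
    5468106591 * inner ℝ u1 u1 * inner ℝ u2 u2 - 5468106591 * inner ℝ u1 u2 * inner ℝ u1 u2 - 1147290920 * inner ℝ u1 u1 * inner ℝ u2 u3 + 1147290920 * inner ℝ u1 u2 * inner ℝ u1 u3 +
    521413930 * inner ℝ u1 u1 * inner ℝ u2 u4 - 521413930 * inner ℝ u1 u2 * inner ℝ u1 u4 - 1438177336 * inner ℝ u1 u1 * inner ℝ u2 u5 + 1438177336 * inner ℝ u1 u2 * inner ℝ u1 u5 +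
    1825367824 * inner ℝ u1 u1 * inner ℝ u2 u6 - 1825367824 * inner ℝ u1 u2 * inner ℝ u1 u6 + 8951731438 * inner ℝ u1 u2 * inner ℝ u2 u3 - 8951731438 * inner ℝ u1 u3 * inner ℝ u2 u2 -
    475302522 * inner ℝ u1 u2 * inner ℝ u2 u4 + 475302522 * inner ℝ u1 u4 * inner ℝ u2 u2 + 1810302642 * inner ℝ u1 u2 * inner ℝ u2 u5 - 1810302642 * inner ℝ u1 u5 * inner ℝ u2 u2 -
    1334464158 * inner ℝ u1 u2 * inner ℝ u2 u6 + 1334464158 * inner ℝ u1 u6 * inner ℝ u2 u2 + 5529255600 * inner ℝ u1 u3 * inner ℝ u2 u4 - 4322892114 * inner ℝ u1 u4 * inner ℝ u2 u3 -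
    20000176260 * Vol4.dt u1 u2 u3 u4 + 250679766 * inner ℝ u1 u3 * inner ℝ u2 u5 + 3535283970 * inner ℝ u1 u5 * inner ℝ u2 u3 - 9474 * Vol4.dt u1 u2 u3 u5 + 2758795032 * inner ℝ u1 u3 * inner ℝ u2 u6 -
    4130643922 * inner ℝ u1 u6 * inner ℝ u2 u3 + 65476 * Vol4.dt u1 u2 u3 u6 + 6365272824 * inner ℝ u1 u4 * inner ℝ u2 u5 - 3832352350 * inner ℝ u1 u5 * inner ℝ u2 u4 -
    20000042870 * Vol4.dt u1 u2 u4 u5 - 2169293468 * inner ℝ u1 u4 * inner ℝ u2 u6 + 2978086780 * inner ℝ u1 u6 * inner ℝ u2 u4 - 57684 * Vol4.dt u1 u2 u4 u6 + 1137147196 * inner ℝ u1 u5 * inner ℝ u2 u6 -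
    8897826278 * inner ℝ u1 u6 * inner ℝ u2 u5 - 20000103360 * Vol4.dt u1 u2 u5 u6 + 3219250750 * inner ℝ u1 u1 * inner ℝ u3 u3 - 3219250750 * inner ℝ u1 u3 * inner ℝ u1 u3 -
    125002616 * inner ℝ u1 u1 * inner ℝ u3 u4 + 125002616 * inner ℝ u1 u3 * inner ℝ u1 u4 - 2949912280 * inner ℝ u1 u1 * inner ℝ u3 u5 + 2949912280 * inner ℝ u1 u3 * inner ℝ u1 u5 -
    2880331076 * inner ℝ u1 u1 * inner ℝ u3 u6 + 2880331076 * inner ℝ u1 u3 * inner ℝ u1 u6 - 1089932422 * inner ℝ u1 u2 * inner ℝ u3 u3 + 1089932422 * inner ℝ u1 u3 * inner ℝ u2 u3 -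
    1206363486 * inner ℝ u1 u2 * inner ℝ u3 u4 - 3785963736 * inner ℝ u1 u2 * inner ℝ u3 u5 + 1371848890 * inner ℝ u1 u2 * inner ℝ u3 u6 - 1323032240 * inner ℝ u1 u3 * inner ℝ u3 u4 +
    1323032240 * inner ℝ u1 u4 * inner ℝ u3 u3 + 3860951184 * inner ℝ u1 u3 * inner ℝ u3 u5 - 3860951184 * inner ℝ u1 u5 * inner ℝ u3 u3 + 3736788418 * inner ℝ u1 u3 * inner ℝ u3 u6 -
    3736788418 * inner ℝ u1 u6 * inner ℝ u3 u3 + 1800653010 * inner ℝ u1 u4 * inner ℝ u3 u5 + 1552810228 * inner ℝ u1 u5 * inner ℝ u3 u4 - 75070 * Vol4.dt u1 u3 u4 u5 -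
    6182435374 * inner ℝ u1 u4 * inner ℝ u3 u6 - 547739040 * inner ℝ u1 u6 * inner ℝ u3 u4 + 141434 * Vol4.dt u1 u3 u4 u6 - 2169176196 * inner ℝ u1 u5 * inner ℝ u3 u6 +
    2977983940 * inner ℝ u1 u6 * inner ℝ u3 u5 - 32188 * Vol4.dt u1 u3 u5 u6 + 3462549472 * inner ℝ u1 u1 * inner ℝ u4 u4 - 3462549472 * inner ℝ u1 u4 * inner ℝ u1 u4 +
    297216380 * inner ℝ u1 u1 * inner ℝ u4 u5 - 297216380 * inner ℝ u1 u4 * inner ℝ u1 u5 - 5468184984 * inner ℝ u1 u1 * inner ℝ u4 u6 + 5468184984 * inner ℝ u1 u4 * inner ℝ u1 u6 +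
    390708488 * inner ℝ u1 u2 * inner ℝ u4 u4 - 390708488 * inner ℝ u1 u4 * inner ℝ u2 u4 - 2532920474 * inner ℝ u1 u2 * inner ℝ u4 u5 - 808793312 * inner ℝ u1 u2 * inner ℝ u4 u6 -
    580828952 * inner ℝ u1 u3 * inner ℝ u4 u4 + 580828952 * inner ℝ u1 u4 * inner ℝ u3 u4 - 3353463238 * inner ℝ u1 u3 * inner ℝ u4 u5 + 6730174414 * inner ℝ u1 u3 * inner ℝ u4 u6 +
    2047017148 * inner ℝ u1 u4 * inner ℝ u4 u5 - 2047017148 * inner ℝ u1 u5 * inner ℝ u4 u4 + 3736832992 * inner ℝ u1 u4 * inner ℝ u4 u6 - 3736832992 * inner ℝ u1 u6 * inner ℝ u4 u4 +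
    2758776010 * inner ℝ u1 u5 * inner ℝ u4 u6 - 4130598162 * inner ℝ u1 u6 * inner ℝ u4 u5 + 66736 * Vol4.dt u1 u4 u5 u6 + 1156084338 * inner ℝ u1 u1 * inner ℝ u5 u5 -
    1156084338 * inner ℝ u1 u5 * inner ℝ u1 u5 - 40436164 * inner ℝ u1 u1 * inner ℝ u5 u6 + 40436164 * inner ℝ u1 u5 * inner ℝ u1 u6 - 297830874 * inner ℝ u1 u2 * inner ℝ u5 u5 +
    297830874 * inner ℝ u1 u5 * inner ℝ u2 u5 + 7760679082 * inner ℝ u1 u2 * inner ℝ u5 u6 - 2552876396 * inner ℝ u1 u3 * inner ℝ u5 u5 + 2552876396 * inner ℝ u1 u5 * inner ℝ u3 u5 -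
    808807744 * inner ℝ u1 u3 * inner ℝ u5 u6 - 1614539818 * inner ℝ u1 u4 * inner ℝ u5 u5 + 1614539818 * inner ℝ u1 u5 * inner ℝ u4 u5 + 1371822152 * inner ℝ u1 u4 * inner ℝ u5 u6 -
    1334509146 * inner ℝ u1 u5 * inner ℝ u5 u6 + 1334509146 * inner ℝ u1 u6 * inner ℝ u5 u5 + 4107318812 * inner ℝ u1 u1 * inner ℝ u6 u6 - 4107318812 * inner ℝ u1 u6 * inner ℝ u1 u6 -
    40467884 * inner ℝ u1 u2 * inner ℝ u6 u6 + 40467884 * inner ℝ u1 u6 * inner ℝ u2 u6 - 5468184878 * inner ℝ u1 u3 * inner ℝ u6 u6 + 5468184878 * inner ℝ u1 u6 * inner ℝ u3 u6 -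
    2880291290 * inner ℝ u1 u4 * inner ℝ u6 u6 + 2880291290 * inner ℝ u1 u6 * inner ℝ u4 u6 + 1825368902 * inner ℝ u1 u5 * inner ℝ u6 u6 - 1825368902 * inner ℝ u1 u6 * inner ℝ u5 u6 +
    5205236230 * inner ℝ u2 u2 * inner ℝ u3 u3 - 5205236230 * inner ℝ u2 u3 * inner ℝ u2 u3 - 1090183718 * inner ℝ u2 u2 * inner ℝ u3 u4 + 1090183718 * inner ℝ u2 u3 * inner ℝ u2 u4 -
    1009002128 * inner ℝ u2 u2 * inner ℝ u3 u5 + 1009002128 * inner ℝ u2 u3 * inner ℝ u2 u5 - 1614534176 * inner ℝ u2 u2 * inner ℝ u3 u6 + 1614534176 * inner ℝ u2 u3 * inner ℝ u2 u6 +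
    8253970978 * inner ℝ u2 u3 * inner ℝ u3 u4 - 8253970978 * inner ℝ u2 u4 * inner ℝ u3 u3 - 835900348 * inner ℝ u2 u3 * inner ℝ u3 u5 + 835900348 * inner ℝ u2 u5 * inner ℝ u3 u3 +
    2047012218 * inner ℝ u2 u3 * inner ℝ u3 u6 - 2047012218 * inner ℝ u2 u6 * inner ℝ u3 u3 + 3884792602 * inner ℝ u2 u4 * inner ℝ u3 u5 - 3127210890 * inner ℝ u2 u5 * inner ℝ u3 u4 -
    19999930838 * Vol4.dt u2 u3 u4 u5 + 1800623054 * inner ℝ u2 u4 * inner ℝ u3 u6 + 1552785164 * inner ℝ u2 u6 * inner ℝ u3 u4 + 9906 * Vol4.dt u2 u3 u4 u6 + 6365304832 * inner ℝ u2 u5 * inner ℝ u3 u6 -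
    3832375210 * inner ℝ u2 u6 * inner ℝ u3 u5 - 20000056582 * Vol4.dt u2 u3 u5 u6 + 3565541510 * inner ℝ u2 u2 * inner ℝ u4 u4 - 3565541510 * inner ℝ u2 u4 * inner ℝ u2 u4 +
    97777456 * inner ℝ u2 u2 * inner ℝ u4 u5 - 97777456 * inner ℝ u2 u4 * inner ℝ u2 u5 - 2552848936 * inner ℝ u2 u2 * inner ℝ u4 u6 + 2552848936 * inner ℝ u2 u4 * inner ℝ u2 u6 -
    1130658606 * inner ℝ u2 u3 * inner ℝ u4 u4 + 1130658606 * inner ℝ u2 u4 * inner ℝ u3 u4 - 757581712 * inner ℝ u2 u3 * inner ℝ u4 u5 - 3353408218 * inner ℝ u2 u3 * inner ℝ u4 u6 -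
    835947098 * inner ℝ u2 u4 * inner ℝ u4 u5 + 835947098 * inner ℝ u2 u5 * inner ℝ u4 u4 + 3860903246 * inner ℝ u2 u4 * inner ℝ u4 u6 - 3860903246 * inner ℝ u2 u6 * inner ℝ u4 u4 +
    250583278 * inner ℝ u2 u5 * inner ℝ u4 u6 + 3535379082 * inner ℝ u2 u6 * inner ℝ u4 u5 + 84262 * Vol4.dt u2 u4 u5 u6 + 5138196821 * inner ℝ u2 u2 * inner ℝ u5 u5 -
    5138196821 * inner ℝ u2 u5 * inner ℝ u2 u5 - 297830874 * inner ℝ u2 u2 * inner ℝ u5 u6 + 297830874 * inner ℝ u2 u5 * inner ℝ u2 u6 + 97777456 * inner ℝ u2 u3 * inner ℝ u5 u5 -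
    97777456 * inner ℝ u2 u5 * inner ℝ u3 u5 - 2532929622 * inner ℝ u2 u3 * inner ℝ u5 u6 - 1009002128 * inner ℝ u2 u4 * inner ℝ u5 u5 + 1009002128 * inner ℝ u2 u5 * inner ℝ u4 u5 -
    3785962360 * inner ℝ u2 u4 * inner ℝ u5 u6 + 1810302642 * inner ℝ u2 u5 * inner ℝ u5 u6 - 1810302642 * inner ℝ u2 u6 * inner ℝ u5 u5 + 1156068151 * inner ℝ u2 u2 * inner ℝ u6 u6 -
    1156068151 * inner ℝ u2 u6 * inner ℝ u2 u6 + 297198928 * inner ℝ u2 u3 * inner ℝ u6 u6 - 297198928 * inner ℝ u2 u6 * inner ℝ u3 u6 - 2949845454 * inner ℝ u2 u4 * inner ℝ u6 u6 +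
    2949845454 * inner ℝ u2 u6 * inner ℝ u4 u6 - 1438145856 * inner ℝ u2 u5 * inner ℝ u6 u6 + 1438145856 * inner ℝ u2 u6 * inner ℝ u5 u6 + 5499853921 * inner ℝ u3 u3 * inner ℝ u4 u4 -
    5499853921 * inner ℝ u3 u4 * inner ℝ u3 u4 - 1130658606 * inner ℝ u3 u3 * inner ℝ u4 u5 + 1130658606 * inner ℝ u3 u4 * inner ℝ u3 u5 - 580828952 * inner ℝ u3 u3 * inner ℝ u4 u6 +
    580828952 * inner ℝ u3 u4 * inner ℝ u3 u6 + 8253970978 * inner ℝ u3 u4 * inner ℝ u4 u5 - 8253970978 * inner ℝ u3 u5 * inner ℝ u4 u4 - 1323032240 * inner ℝ u3 u4 * inner ℝ u4 u6 +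
    1323032240 * inner ℝ u3 u6 * inner ℝ u4 u4 + 5529277734 * inner ℝ u3 u5 * inner ℝ u4 u6 - 4322901288 * inner ℝ u3 u6 * inner ℝ u4 u5 - 20000144952 * Vol4.dt u3 u4 u5 u6 +
    3565588784 * inner ℝ u3 u3 * inner ℝ u5 u5 - 3565588784 * inner ℝ u3 u5 * inner ℝ u3 u5 + 390674146 * inner ℝ u3 u3 * inner ℝ u5 u6 - 390674146 * inner ℝ u3 u5 * inner ℝ u3 u6 -
    1090161486 * inner ℝ u3 u4 * inner ℝ u5 u5 + 1090161486 * inner ℝ u3 u5 * inner ℝ u4 u5 - 1206376446 * inner ℝ u3 u4 * inner ℝ u5 u6 - 475199434 * inner ℝ u3 u5 * inner ℝ u5 u6 +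
    475199434 * inner ℝ u3 u6 * inner ℝ u5 u5 + 3462517786 * inner ℝ u3 u3 * inner ℝ u6 u6 - 3462517786 * inner ℝ u3 u6 * inner ℝ u3 u6 - 124981180 * inner ℝ u3 u4 * inner ℝ u6 u6 +
    124981180 * inner ℝ u3 u6 * inner ℝ u4 u6 + 521463476 * inner ℝ u3 u5 * inner ℝ u6 u6 - 521463476 * inner ℝ u3 u6 * inner ℝ u5 u6 + 5205217514 * inner ℝ u4 u4 * inner ℝ u5 u5 -
    5205217514 * inner ℝ u4 u5 * inner ℝ u4 u5 - 1089930724 * inner ℝ u4 u4 * inner ℝ u5 u6 + 1089930724 * inner ℝ u4 u5 * inner ℝ u4 u6 + 8951748568 * inner ℝ u4 u5 * inner ℝ u5 u6 -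
    8951748568 * inner ℝ u4 u6 * inner ℝ u5 u5 + 3219212445 * inner ℝ u4 u4 * inner ℝ u6 u6 - 3219212445 * inner ℝ u4 u6 * inner ℝ u4 u6 - 1147361048 * inner ℝ u4 u5 * inner ℝ u6 u6 +
    1147361048 * inner ℝ u4 u6 * inner ℝ u5 u6 + 5468105338 * inner ℝ u5 u5 * inner ℝ u6 u6 - 5468105338 * inner ℝ u5 u6 * inner ℝ u5 u6 :=
  balg (kA u1 u2) (kB u1 u2 u3) (kB u1 u2 u4) (kB u1 u2 u5) (kB u1 u2 u6) (kC u1 u2 u3) (kC u1 u2 u4) (kC u1 u2 u5) (kC u1 u2 u6) (kE u1 u2 u3 u4) (kE u1 u2 u3 u5) (kE u1 u2 u3 u6) (kE u1 u2 u4 u5) (kE u1 u2 u4 u6) (kE u1 u2 u5 u6) (kA u1 u3) (kB u1 u3 u4) (kB u1 u3 u5) (kB u1 u3 u6) (kD u1 u2 u3) (kF u1 u2 u3 u4) (kF u1 u2 u3 u5) (kF u1 u2 u3 u6) (kC u1 u3 u4) (kC u1 u3 u5) (kC u1 u3 u6) (kE u1 u3 u4 u5) (kE u1 u3 u4 u6) (kE u1 u3 u5 u6) (kA u1 u4) (kB u1 u4 u5) (kB u1 u4 u6) (kG u1 u2 u3 u4) (kD u1 u2 u4) (kF u1 u2 u4 u5) (kF u1 u2 u4 u6) (kD u1 u3 u4) (kF u1 u3 u4 u5) (kF u1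 u3 u4 u6) (kC u1 u4 u5) (kC u1 u4 u6) (kE u1 u4 u5 u6) (kA u1 u5) (kB u1 u5 u6) (kG u1 u2 u3 u5) (kG u1 u2 u4 u5) (kD u1 u2 u5) (kF u1 u2 u5 u6) (kG u1 u3 u4 u5) (kD u1 u3 u5) (kF u1 u3 u5 u6) (kD u1 u4 u5) (kF u1 u4 u5 u6) (kC u1 u5 u6) (kA u1 u6) (kG u1 u2 u3 u6) (kG u1 u2 u4 u6) (kG u1 u2 u5 u6) (kD u1 u2 u6) (kG u1 u3 u4 u6) (kG u1 u3 u5 u6) (kD u1 u3 u6) (kG u1 u4 u5 u6) (kD u1 u4 u6) (kD u1 u5 u6) (kA u2 u3) (kB u2 u3 u4) (kB u2 u3 u5) (kB u2 u3 u6) (kC u2 u3 u4) (kC u2 u3 u5) (kC u2 u3 u6) (kE u2 u3 u4 u5) (kE u2 u3 u4 u6) (kE u2 u3 u5 u6) (kA u2 u4) (kB u2 u4 u5) (kB u2 u4 u6) (kD u2 u3 u4) (kF u2 u3 u4 u5) (kF u2 u3 u4 u6) (kC u2 u4 u5) (kC u2 u4 u6) (kE u2 u4 u5 u6) (kA u2 u5) (kB u2 u5 u6) (kG u2 u3 u4 u5) (kD u2 u3 u5) (kF u2 u3 u5 u6) (kD u2 u4 u5) (kF u2 u4 u5 u6) (kC u2 u5 u6) (kA u2 u6) (kG u2 u3 u4 u6) (kG u2 u3 u5 u6) (kD u2 u3 u6) (kG u2 u4 u5 u6) (kD u2 u4 u6) (kD u2 u5 u6) (kA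 u3 u4) (kB u3 u4 u5) (kB u3 u4 u6) (kC u3 u4 u5) (kC u3 u4 u6) (kE u3 u4 u5 u6) (kA u3 u5) (kB u3 u5 u6) (kD u3 u4 u5) (kF u3 u4 u5 u6) (kC u3 u5 u6) (kA u3 u6) (kG u3 u4 u5 u6) (kD u3 u4 u6) (kD u3 u5 u6) (kA u4 u5) (kB u4 u5 u6) (kC u4 u5 u6) (kA u4 u6) (kD u4 u5 u6) (kA u5 u6)

theorem eb {g11 g12 g13 g14 g15 g16 g22 g23 g24 g25 g26 g33 g34 g35 g36 g44 g45 g46 g55 g56 g66 d1234 d1235 d1236 d1245 d1246 d1256 d1345 d1346 d1356 d1456 d2345 d2346 d2356 d2456 d3456 : ℝ}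
    (ag11 : -1 ≤ g11 ∧ g11 ≤ 1) (ag12 : -1 ≤ g12 ∧ g12 ≤ 1) (ag13 : -1 ≤ g13 ∧ g13 ≤ 1) (ag14 : -1 ≤ g14 ∧ g14 ≤ 1) (ag15 : -1 ≤ g15 ∧ g15 ≤ 1) (ag16 : -1 ≤ g16 ∧ g16 ≤ 1) (ag22 : -1 ≤ g22 ∧ g22 ≤ 1) (ag23 : -1 ≤ g23 ∧ g23 ≤ 1) (ag24 : -1 ≤ g24 ∧ g24 ≤ 1) (ag25 : -1 ≤ g25 ∧ g25 ≤ 1) (ag26 : -1 ≤ g26 ∧ g26 ≤ 1) (ag33 : -1 ≤ g33 ∧ g33 ≤ 1) (ag34 : -1 ≤ g34 ∧ g34 ≤ 1) (ag35 : -1 ≤ g35 ∧ g35 ≤ 1) (ag36 : -1 ≤ g36 ∧ g36 ≤ 1) (ag44 : -1 ≤ g44 ∧ g44 ≤ 1) (ag45 : -1 ≤ g45 ∧ g45 ≤ 1) (ag46 : -1 ≤ g46 ∧ g46 ≤ 1) (ag55 : -1 ≤ g55 ∧ g55 ≤ 1) (ag56 : -1 ≤ g56 ∧ g56 ≤ 1) (ag66 : -1 ≤ g66 ∧ g66 ≤ 1)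
    (ad1234 : -1 ≤ d1234 ∧ d1234 ≤ 1) (ad1235 : -1 ≤ d1235 ∧ d1235 ≤ 1) (ad1236 : -1 ≤ d1236 ∧ d1236 ≤ 1) (ad1245 : -1 ≤ d1245 ∧ d1245 ≤ 1) (ad1246 : -1 ≤ d1246 ∧ d1246 ≤ 1) (ad1256 : -1 ≤ d1256 ∧ d1256 ≤ 1) (ad1345 : -1 ≤ d1345 ∧ d1345 ≤ 1) (ad1346 : -1 ≤ d1346 ∧ d1346 ≤ 1) (ad1356 : -1 ≤ d1356 ∧ d1356 ≤ 1) (ad1456 : -1 ≤ d1456 ∧ d1456 ≤ 1) (ad2345 : -1 ≤ d2345 ∧ d2345 ≤ 1) (ad2346 : -1 ≤ d2346 ∧ d2346 ≤ 1) (ad2356 : -1 ≤ d2356 ∧ d2356 ≤ 1) (ad2456 : -1 ≤ d2456 ∧ d2456 ≤ 1) (ad3456 : -1 ≤ d3456 ∧ d3456 ≤ 1) :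
    -(12052963 : ℝ) ≤
    g11 * (72562 * g11 + 19162 * g12 - 33668 * g13 - 32334 * g14 + 19928 * g15 - 3232 * g16 - 22267 / 2 * g22 + 15768 * g23 - 50997 * g24 - 29678 * g25 -
    18108 * g26 + 47685 * g33 - 20962 * g34 + 7908 * g35 - 29038 * g36 + 10374 * g44 - 23758 * g45 - 112744 * g46 + 133026 * g55 + 57744 * g56 + 17745 * g66 -
    4591338893 / 20000) + g12 * (92175 / 2 * g12 - 2992 * g13 + 53865 * g14 + 7868 * g15 - 46120 * g16 - 83964 * g22 - 63483 * g23 + 85125 * g24 + 29487 * g25 -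
    52121 * g26 - 5161 * g33 - 78769 * g34 - 14652 * g35 + 1567 * g36 - 2900 * g44 + 1189 * g45 - 72684 * g46 + 13131 * g55 - 70013 * g56 + 91432 * g66 +
    228243127 / 5000) + g13 * (6776 * g13 + 15848 * g14 + 3264 * g15 - 33282 * g16 - 28561 * g22 - 41091 * g23 - 15688 * g24 + 30011 * g25 - 24812 * g26 -
    33242 * g33 + 70240 * g34 + 72210 * g35 + 9815 * g36 - 1996 * g44 + 45825 * g45 - 49247 * g46 - 99162 * g55 + 2080 * g56 - 28597 * g66 + 1324870739 / 10000) +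
    g14 * (7104 * g14 - 8370 * g15 + 17788 * g16 + 20849 * g22 + 20747 * g23 + 1164 * g24 + 31680 * g25 + 76850 * g26 - 68248 * g33 - 1936 * g34 - 6121 * g35 +
    72807 * g36 + 13656 * g44 - 38530 * g45 + 13294 * g46 - 23793 * g55 - 50460 * g56 - 7393 * g66 + 107915643 / 4000) + g15 * (-4342 * g15 - 22490 * g16 +
    19907 * g22 - 66209 * g23 + 13109 * g24 - 30141 * g25 - 49170 * g26 + 28052 * g33 + 38194 * g34 - 19370 * g35 + 17150 * g36 + 50048 * g44 - 35525 * g45 -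
    9833 * g46 + 68230 * g55 - 51031 * g56 - 9389 * g66 - 1744391051 / 20000) + g16 * (-87826 * g16 - 57005 * g22 + 26037 * g23 - 29470 * g24 + 36727 * g25 -
    43774 * g26 + 2377 * g33 - 1744 * g34 + 1522 * g35 + 69505 * g36 + 44288 * g44 + 29305 * g45 + 73747 * g46 - 77513 * g55 - 20613 * g56 + 78200 * g66 +
    561767471 / 10000) + g22 * (-8930 * g22 + 120820 * g23 + 72866 * g24 - 78466 * g25 + 83870 * g26 - 38993 * g33 + 32517 * g34 + 153938 * g35 + 26428 * g36 +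
    32050 * g44 - 66190 * g45 - 101668 * g46 - 52449 / 2 * g55 + 91467 * g56 - 118861 / 2 * g66 + 199488069 / 10000) + g23 * (29405 * g23 - 66773 * g24 -
    107054 * g25 + 10580 * g26 + 41550 * g33 - 36989 * g34 + 5722 * g35 - 57675 * g36 + 103857 * g44 - 8184 * g45 + 38427 * g46 - 44068 * g55 + 80245 * g56 -
    6740 * g66 - 632951281 / 4000) + g24 * (2016 * g24 + 81078 * g25 - 8384 * g26 + 85761 * g33 - 52887 * g34 - 109321 * g35 - 2737 * g36 + 14826 * g44 -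
    26617 * g45 + 2151 * g46 + 1694 * g55 + 51302 * g56 + 27573 * g66 - 1325892471 / 20000) + g25 * (25203 / 2 * g25 - 59891 * g26 - 33952 * g33 + 71725 * g34 +
    22252 * g35 + 118830 * g36 - 133017 * g44 + 32360 * g45 + 44943 * g46 - 34526 * g55 - 34727 * g56 + 12414 * g66 + 820127417 / 5000) + g26 * (-70459 / 2 * g26 +
    47515 * g33 - 17510 * g34 - 47403 * g35 + 15790 * g36 + 2121 * g44 - 53283 * g45 + 52555 * g46 - 5373 * g55 - 21834 * g56 + 90540 * g66 - 781271741 / 10000) +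
    g33 * (-2478 * g33 + 17394 * g34 + 44592 * g35 - 78600 * g36 - 234771 / 2 * g44 + 32835 * g45 + 930 * g46 + 30550 * g55 - 8887 * g56 - 28927 * g66 +
    59341211 / 5000) + g34 * (63641 / 2 * g34 - 143903 * g35 + 84308 * g36 - 44508 * g44 - 40589 * g45 + 112444 * g46 + 63143 * g55 - 58225 * g56 + 2392 * g66 +
    1068224553 / 20000) + g35 * (-33035 * g35 - 37229 * g36 + 152021 * g44 - 37411 * g45 - 64731 * g46 + 93920 * g55 - 32785 * g56 + 78076 * g66 - 4698867609 / 20000) +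
    g36 * (-38528 * g36 - 70764 * g44 - 2040 * g45 + 37622 * g46 - 45057 * g55 + 38736 * g56 - 33016 * g66 + 381523223 / 2500) + g44 * (1045 * g44 + 67874 * g45 -
    51926 * g46 - 22573 * g55 - 12966 * g56 - 56259 / 2 * g66 + 110266211 / 5000) + g45 * (18038 * g45 - 95282 * g46 + 16988 * g55 - 40440 * g56 + 39194 * g66 -
    125287281 / 4000) + g46 * (54593 / 2 * g46 - 5896 * g55 + 63948 * g56 - 41422 * g66 + 752584837 / 4000) + g55 * (21939 * g55 + 17668 * g56 - 33211 * g66 -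
    2044349327 / 40000) + g56 * (24264 * g56 + 62264 * g66 - 793036453 / 10000) + g66 * (-92341 * g66 + 3190849783 / 40000) + 88130 * d1234 + 4737 * d1235 -
    32738 * d1236 + 21435 * d1245 + 28842 * d1246 + 51680 * d1256 + 37535 * d1345 - 70717 * d1346 + 16094 * d1356 - 33368 * d1456 - 34581 * d2345 - 4953 * d2346 +
    28291 * d2356 - 42131 * d2456 + 72476 * d3456 := by
  have f0 : -(997122 : ℝ) ≤ g11 * (
    72562 * g11 + 19162 * g12 - 33668 * g13 - 32334 * g14 + 19928 * g15 - 3232 * g16 - 22267 / 2 * g22 + 15768 * g23 - 50997 * g24 - 29678 * g25 - 18108 * g26 +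
    47685 * g33 - 20962 * g34 + 7908 * g35 - 29038 * g36 + 10374 * g44 - 23758 * g45 - 112744 * g46 + 133026 * g55 + 57744 * g56 + 17745 * g66 - 4591338893 / 20000) :=
    bd ag11 (by linarith only [ag11.1, ag11.2, ag12.1, ag12.2, ag13.1, ag13.2, ag14.1, ag14.2, ag15.1, ag15.2, ag16.1, ag16.2, ag22.1, ag22.2, ag23.1, ag23.2, ag24.1, ag24.2, ag25.1, ag25.2, ag26.1, ag26.2, ag33.1, ag33.2, ag34.1, ag34.2, ag35.1, ag35.2, ag36.1, ag36.2, ag44.1, ag44.2, ag45.1, ag45.2, ag46.1, ag46.2, ag55.1, ag55.2, ag56.1, ag56.2, ag66.1, ag66.2])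
      (by linarith only [ag11.1, ag11.2, ag12.1, ag12.2, ag13.1, ag13.2, ag14.1, ag14.2, ag15.1, ag15.2, ag16.1, ag16.2, ag22.1, ag22.2, ag23.1, ag23.2, ag24.1, ag24.2, ag25.1, ag25.2, ag26.1, ag26.2, ag33.1, ag33.2, ag34.1, ag34.2, ag35.1, ag35.2, ag36.1, ag36.2, ag44.1, ag44.2, ag45.1, ag45.2, ag46.1, ag46.2, ag55.1, ag55.2, ag56.1, ag56.2, ag66.1, ag66.2])
  have f1 : -(868260 : ℝ) ≤ g12 * (
    92175 / 2 * g12 - 2992 * g13 + 53865 * g14 + 7868 * g15 - 46120 * g16 - 83964 * g22 - 63483 * g23 + 85125 * g24 + 29487 * g25 - 52121 * g26 - 5161 * g33 -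
    78769 * g34 - 14652 * g35 + 1567 * g36 - 2900 * g44 + 1189 * g45 - 72684 * g46 + 13131 * g55 - 70013 * g56 + 91432 * g66 + 228243127 / 5000) :=
    bd ag12 (by linarith only [ag12.1, ag12.2, ag13.1, ag13.2, ag14.1, ag14.2, ag15.1, ag15.2, ag16.1, ag16.2, ag22.1, ag22.2, ag23.1, ag23.2, ag24.1, ag24.2, ag25.1, ag25.2, ag26.1, ag26.2, ag33.1, ag33.2, ag34.1, ag34.2, ag35.1, ag35.2, ag36.1, ag36.2, ag44.1, ag44.2, ag45.1, ag45.2, ag46.1, ag46.2, ag55.1, ag55.2, ag56.1, ag56.2, ag66.1, ag66.2])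
      (by linarith only [ag12.1, ag12.2, ag13.1, ag13.2, ag14.1, ag14.2, ag15.1, ag15.2, ag16.1, ag16.2, ag22.1, ag22.2, ag23.1, ag23.2, ag24.1, ag24.2, ag25.1, ag25.2, ag26.1, ag26.2, ag33.1, ag33.2, ag34.1, ag34.2, ag35.1, ag35.2, ag36.1, ag36.2, ag44.1, ag44.2, ag45.1, ag45.2, ag46.1, ag46.2, ag55.1, ag55.2, ag56.1, ag56.2, ag66.1, ag66.2])
  have f2 : -(744235 : ℝ) ≤ g13 * (
    6776 * g13 + 15848 * g14 + 3264 * g15 - 33282 * g16 - 28561 * g22 - 41091 * g23 - 15688 * g24 + 30011 * g25 - 24812 * g26 - 33242 * g33 + 70240 * g34 +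
    72210 * g35 + 9815 * g36 - 1996 * g44 + 45825 * g45 - 49247 * g46 - 99162 * g55 + 2080 * g56 - 28597 * g66 + 1324870739 / 10000) :=
    bd ag13 (by linarith only [ag13.1, ag13.2, ag14.1, ag14.2, ag15.1, ag15.2, ag16.1, ag16.2, ag22.1, ag22.2, ag23.1, ag23.2, ag24.1, ag24.2, ag25.1, ag25.2, ag26.1, ag26.2, ag33.1, ag33.2, ag34.1, ag34.2, ag35.1, ag35.2, ag36.1, ag36.2, ag44.1, ag44.2, ag45.1, ag45.2, ag46.1, ag46.2, ag55.1, ag55.2, ag56.1, ag56.2, ag66.1, ag66.2])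
      (by linarith only [ag13.1, ag13.2, ag14.1, ag14.2, ag15.1, ag15.2, ag16.1, ag16.2, ag22.1, ag22.2, ag23.1, ag23.2, ag24.1, ag24.2, ag25.1, ag25.2, ag26.1, ag26.2, ag33.1, ag33.2, ag34.1, ag34.2, ag35.1, ag35.2, ag36.1, ag36.2, ag44.1, ag44.2, ag45.1, ag45.2, ag46.1, ag46.2, ag55.1, ag55.2, ag56.1, ag56.2, ag66.1, ag66.2])
  have f3 : -(507769 : ℝ) ≤ g14 * (
    7104 * g14 - 8370 * g15 + 17788 * g16 + 20849 * g22 + 20747 * g23 + 1164 * g24 + 31680 * g25 + 76850 * g26 - 68248 * g33 - 1936 * g34 - 6121 * g35 +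
    72807 * g36 + 13656 * g44 - 38530 * g45 + 13294 * g46 - 23793 * g55 - 50460 * g56 - 7393 * g66 + 107915643 / 4000) :=
    bd ag14 (by linarith only [ag14.1, ag14.2, ag15.1, ag15.2, ag16.1, ag16.2, ag22.1, ag22.2, ag23.1, ag23.2, ag24.1, ag24.2, ag25.1, ag25.2, ag26.1, ag26.2, ag33.1, ag33.2, ag34.1, ag34.2, ag35.1, ag35.2, ag36.1, ag36.2, ag44.1, ag44.2, ag45.1, ag45.2, ag46.1, ag46.2, ag55.1, ag55.2, ag56.1, ag56.2, ag66.1, ag66.2])
      (by linarith only [ag14.1, ag14.2, ag15.1, ag15.2, ag16.1, ag16.2, ag22.1, ag22.2, ag23.1, ag23.2, ag24.1, ag24.2, ag25.1, ag25.2, ag26.1, ag26.2, ag33.1, ag33.2, ag34.1, ag34.2, ag35.1, ag35.2, ag36.1, ag36.2, ag44.1, ag44.2, ag45.1, ag45.2, ag46.1, ag46.2, ag55.1, ag55.2, ag56.1, ag56.2, ag66.1, ag66.2])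
  have f4 : -(619410 : ℝ) ≤ g15 * (
    -4342 * g15 - 22490 * g16 + 19907 * g22 - 66209 * g23 + 13109 * g24 - 30141 * g25 - 49170 * g26 + 28052 * g33 + 38194 * g34 - 19370 * g35 + 17150 * g36 +
    50048 * g44 - 35525 * g45 - 9833 * g46 + 68230 * g55 - 51031 * g56 - 9389 * g66 - 1744391051 / 20000) :=
    bd ag15 (by linarith only [ag15.1, ag15.2, ag16.1, ag16.2, ag22.1, ag22.2, ag23.1, ag23.2, ag24.1, ag24.2, ag25.1, ag25.2, ag26.1, ag26.2, ag33.1, ag33.2, ag34.1, ag34.2, ag35.1, ag35.2, ag36.1, ag36.2, ag44.1, ag44.2, ag45.1, ag45.2, ag46.1, ag46.2, ag55.1, ag55.2, ag56.1, ag56.2, ag66.1, ag66.2])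
      (by linarith only [ag15.1, ag15.2, ag16.1, ag16.2, ag22.1, ag22.2, ag23.1, ag23.2, ag24.1, ag24.2, ag25.1, ag25.2, ag26.1, ag26.2, ag33.1, ag33.2, ag34.1, ag34.2, ag35.1, ag35.2, ag36.1, ag36.2, ag44.1, ag44.2, ag45.1, ag45.2, ag46.1, ag46.2, ag55.1, ag55.2, ag56.1, ag56.2, ag66.1, ag66.2])
  have f5 : -(735830 : ℝ) ≤ g16 * (
    -87826 * g16 - 57005 * g22 + 26037 * g23 - 29470 * g24 + 36727 * g25 - 43774 * g26 + 2377 * g33 - 1744 * g34 + 1522 * g35 + 69505 * g36 + 44288 * g44 +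
    29305 * g45 + 73747 * g46 - 77513 * g55 - 20613 * g56 + 78200 * g66 + 561767471 / 10000) :=
    bd ag16 (by linarith only [ag16.1, ag16.2, ag22.1, ag22.2, ag23.1, ag23.2, ag24.1, ag24.2, ag25.1, ag25.2, ag26.1, ag26.2, ag33.1, ag33.2, ag34.1, ag34.2, ag35.1, ag35.2, ag36.1, ag36.2, ag44.1, ag44.2, ag45.1, ag45.2, ag46.1, ag46.2, ag55.1, ag55.2, ag56.1, ag56.2, ag66.1, ag66.2])
      (by linarith only [ag16.1, ag16.2, ag22.1, ag22.2, ag23.1, ag23.2, ag24.1, ag24.2, ag25.1, ag25.2, ag26.1, ag26.2, ag33.1, ag33.2, ag34.1, ag34.2, ag35.1, ag35.2, ag36.1, ag36.2, ag44.1, ag44.2, ag45.1, ag45.2, ag46.1, ag46.2, ag55.1, ag55.2, ag56.1, ag56.2, ag66.1, ag66.2])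
  have f6 : -(1013807 : ℝ) ≤ g22 * (
    -8930 * g22 + 120820 * g23 + 72866 * g24 - 78466 * g25 + 83870 * g26 - 38993 * g33 + 32517 * g34 + 153938 * g35 + 26428 * g36 + 32050 * g44 - 66190 * g45 -
    101668 * g46 - 52449 / 2 * g55 + 91467 * g56 - 118861 / 2 * g66 + 199488069 / 10000) :=
    bd ag22 (by linarith only [ag22.1, ag22.2, ag23.1, ag23.2, ag24.1, ag24.2, ag25.1, ag25.2, ag26.1, ag26.2, ag33.1, ag33.2, ag34.1, ag34.2, ag35.1, ag35.2, ag36.1, ag36.2, ag44.1, ag44.2, ag45.1, ag45.2, ag46.1, ag46.2, ag55.1, ag55.2, ag56.1, ag56.2, ag66.1, ag66.2])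
      (by linarith only [ag22.1, ag22.2, ag23.1, ag23.2, ag24.1, ag24.2, ag25.1, ag25.2, ag26.1, ag26.2, ag33.1, ag33.2, ag34.1, ag34.2, ag35.1, ag35.2, ag36.1, ag36.2, ag44.1, ag44.2, ag45.1, ag45.2, ag46.1, ag46.2, ag55.1, ag55.2, ag56.1, ag56.2, ag66.1, ag66.2])
  have f7 : -(795507 : ℝ) ≤ g23 * (
    29405 * g23 - 66773 * g24 - 107054 * g25 + 10580 * g26 + 41550 * g33 - 36989 * g34 + 5722 * g35 - 57675 * g36 + 103857 * g44 - 8184 * g45 + 38427 * g46 -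
    44068 * g55 + 80245 * g56 - 6740 * g66 - 632951281 / 4000) :=
    bd ag23 (by linarith only [ag23.1, ag23.2, ag24.1, ag24.2, ag25.1, ag25.2, ag26.1, ag26.2, ag33.1, ag33.2, ag34.1, ag34.2, ag35.1, ag35.2, ag36.1, ag36.2, ag44.1, ag44.2, ag45.1, ag45.2, ag46.1, ag46.2, ag55.1, ag55.2, ag56.1, ag56.2, ag66.1, ag66.2])
      (by linarith only [ag23.1, ag23.2, ag24.1, ag24.2, ag25.1, ag25.2, ag26.1, ag26.2, ag33.1, ag33.2, ag34.1, ag34.2, ag35.1, ag35.2, ag36.1, ag36.2, ag44.1, ag44.2, ag45.1, ag45.2, ag46.1, ag46.2, ag55.1, ag55.2, ag56.1, ag56.2, ag66.1, ag66.2])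
  have f8 : -(532642 : ℝ) ≤ g24 * (
    2016 * g24 + 81078 * g25 - 8384 * g26 + 85761 * g33 - 52887 * g34 - 109321 * g35 - 2737 * g36 + 14826 * g44 - 26617 * g45 + 2151 * g46 + 1694 * g55 +
    51302 * g56 + 27573 * g66 - 1325892471 / 20000) :=
    bd ag24 (by linarith only [ag24.1, ag24.2, ag25.1, ag25.2, ag26.1, ag26.2, ag33.1, ag33.2, ag34.1, ag34.2, ag35.1, ag35.2, ag36.1, ag36.2, ag44.1, ag44.2, ag45.1, ag45.2, ag46.1, ag46.2, ag55.1, ag55.2, ag56.1, ag56.2, ag66.1, ag66.2])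
      (by linarith only [ag24.1, ag24.2, ag25.1, ag25.2, ag26.1, ag26.2, ag33.1, ag33.2, ag34.1, ag34.2, ag35.1, ag35.2, ag36.1, ag36.2, ag44.1, ag44.2, ag45.1, ag45.2, ag46.1, ag46.2, ag55.1, ag55.2, ag56.1, ag56.2, ag66.1, ag66.2])
  have f9 : -(775264 : ℝ) ≤ g25 * (
    25203 / 2 * g25 - 59891 * g26 - 33952 * g33 + 71725 * g34 + 22252 * g35 + 118830 * g36 - 133017 * g44 + 32360 * g45 + 44943 * g46 - 34526 * g55 - 34727 * g56 +
    12414 * g66 + 820127417 / 5000) :=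
    bd ag25 (by linarith only [ag25.1, ag25.2, ag26.1, ag26.2, ag33.1, ag33.2, ag34.1, ag34.2, ag35.1, ag35.2, ag36.1, ag36.2, ag44.1, ag44.2, ag45.1, ag45.2, ag46.1, ag46.2, ag55.1, ag55.2, ag56.1, ag56.2, ag66.1, ag66.2])
      (by linarith only [ag25.1, ag25.2, ag26.1, ag26.2, ag33.1, ag33.2, ag34.1, ag34.2, ag35.1, ag35.2, ag36.1, ag36.2, ag44.1, ag44.2, ag45.1, ag45.2, ag46.1, ag46.2, ag55.1, ag55.2, ag56.1, ag56.2, ag66.1, ag66.2])
  have f10 : -(467281 : ℝ) ≤ g26 * (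
    -70459 / 2 * g26 + 47515 * g33 - 17510 * g34 - 47403 * g35 + 15790 * g36 + 2121 * g44 - 53283 * g45 + 52555 * g46 - 5373 * g55 - 21834 * g56 + 90540 * g66 -
    781271741 / 10000) :=
    bd ag26 (by linarith only [ag26.1, ag26.2, ag33.1, ag33.2, ag34.1, ag34.2, ag35.1, ag35.2, ag36.1, ag36.2, ag44.1, ag44.2, ag45.1, ag45.2, ag46.1, ag46.2, ag55.1, ag55.2, ag56.1, ag56.2, ag66.1, ag66.2])
      (by linarith only [ag26.1, ag26.2, ag33.1, ag33.2, ag34.1, ag34.2, ag35.1, ag35.2, ag36.1, ag36.2, ag44.1, ag44.2, ag45.1, ag45.2, ag46.1, ag46.2, ag55.1, ag55.2, ag56.1, ag56.2, ag66.1, ag66.2])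
  have f11 : -(374447 : ℝ) ≤ g33 * (
    -2478 * g33 + 17394 * g34 + 44592 * g35 - 78600 * g36 - 234771 / 2 * g44 + 32835 * g45 + 930 * g46 + 30550 * g55 - 8887 * g56 - 28927 * g66 + 59341211 / 5000) :=
    bd ag33 (by linarith only [ag33.1, ag33.2, ag34.1, ag34.2, ag35.1, ag35.2, ag36.1, ag36.2, ag44.1, ag44.2, ag45.1, ag45.2, ag46.1, ag46.2, ag55.1, ag55.2, ag56.1, ag56.2, ag66.1, ag66.2])
      (by linarith only [ag33.1, ag33.2, ag34.1, ag34.2, ag35.1, ag35.2, ag36.1, ag36.2, ag44.1, ag44.2, ag45.1, ag45.2, ag46.1, ag46.2, ag55.1, ag55.2, ag56.1, ag56.2, ag66.1, ag66.2])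
  have f12 : -(634744 : ℝ) ≤ g34 * (
    63641 / 2 * g34 - 143903 * g35 + 84308 * g36 - 44508 * g44 - 40589 * g45 + 112444 * g46 + 63143 * g55 - 58225 * g56 + 2392 * g66 + 1068224553 / 20000) :=
    bd ag34 (by linarith only [ag34.1, ag34.2, ag35.1, ag35.2, ag36.1, ag36.2, ag44.1, ag44.2, ag45.1, ag45.2, ag46.1, ag46.2, ag55.1, ag55.2, ag56.1, ag56.2, ag66.1, ag66.2])
      (by linarith only [ag34.1, ag34.2, ag35.1, ag35.2, ag36.1, ag36.2, ag44.1, ag44.2, ag45.1, ag45.2, ag46.1, ag46.2, ag55.1, ag55.2, ag56.1, ag56.2, ag66.1, ag66.2])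
  have f13 : -(764152 : ℝ) ≤ g35 * (
    -33035 * g35 - 37229 * g36 + 152021 * g44 - 37411 * g45 - 64731 * g46 + 93920 * g55 - 32785 * g56 + 78076 * g66 - 4698867609 / 20000) :=
    bd ag35 (by linarith only [ag35.1, ag35.2, ag36.1, ag36.2, ag44.1, ag44.2, ag45.1, ag45.2, ag46.1, ag46.2, ag55.1, ag55.2, ag56.1, ag56.2, ag66.1, ag66.2])
      (by linarith only [ag35.1, ag35.2, ag36.1, ag36.2, ag44.1, ag44.2, ag45.1, ag45.2, ag46.1, ag46.2, ag55.1, ag55.2, ag56.1, ag56.2, ag66.1, ag66.2])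
  have f14 : -(418373 : ℝ) ≤ g36 * (
    -38528 * g36 - 70764 * g44 - 2040 * g45 + 37622 * g46 - 45057 * g55 + 38736 * g56 - 33016 * g66 + 381523223 / 2500) :=
    bd ag36 (by linarith only [ag36.1, ag36.2, ag44.1, ag44.2, ag45.1, ag45.2, ag46.1, ag46.2, ag55.1, ag55.2, ag56.1, ag56.2, ag66.1, ag66.2])
      (by linarith only [ag36.1, ag36.2, ag44.1, ag44.2, ag45.1, ag45.2, ag46.1, ag46.2, ag55.1, ag55.2, ag56.1, ag56.2, ag66.1, ag66.2])
  have f15 : -(206567 : ℝ) ≤ g44 * (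
    1045 * g44 + 67874 * g45 - 51926 * g46 - 22573 * g55 - 12966 * g56 - 56259 / 2 * g66 + 110266211 / 5000) :=
    bd ag44 (by linarith only [ag44.1, ag44.2, ag45.1, ag45.2, ag46.1, ag46.2, ag55.1, ag55.2, ag56.1, ag56.2, ag66.1, ag66.2])
      (by linarith only [ag44.1, ag44.2, ag45.1, ag45.2, ag46.1, ag46.2, ag55.1, ag55.2, ag56.1, ag56.2, ag66.1, ag66.2])
  have f16 : -(241264 : ℝ) ≤ g45 * (
    18038 * g45 - 95282 * g46 + 16988 * g55 - 40440 * g56 + 39194 * g66 - 125287281 / 4000) :=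
    bd ag45 (by linarith only [ag45.1, ag45.2, ag46.1, ag46.2, ag55.1, ag55.2, ag56.1, ag56.2, ag66.1, ag66.2])
      (by linarith only [ag45.1, ag45.2, ag46.1, ag46.2, ag55.1, ag55.2, ag56.1, ag56.2, ag66.1, ag66.2])
  have f17 : -(326709 : ℝ) ≤ g46 * (
    54593 / 2 * g46 - 5896 * g55 + 63948 * g56 - 41422 * g66 + 752584837 / 4000) :=
    bd ag46 (by linarith only [ag46.1, ag46.2, ag55.1, ag55.2, ag56.1, ag56.2, ag66.1, ag66.2])
      (by linarith only [ag46.1, ag46.2, ag55.1, ag55.2, ag56.1, ag56.2, ag66.1, ag66.2])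
  have f18 : -(123927 : ℝ) ≤ g55 * (
    21939 * g55 + 17668 * g56 - 33211 * g66 - 2044349327 / 40000) :=
    bd ag55 (by linarith only [ag55.1, ag55.2, ag56.1, ag56.2, ag66.1, ag66.2])
      (by linarith only [ag55.1, ag55.2, ag56.1, ag56.2, ag66.1, ag66.2])
  have f19 : -(165832 : ℝ) ≤ g56 * (
    24264 * g56 + 62264 * g66 - 793036453 / 10000) :=
    bd ag56 (by linarith only [ag56.1, ag56.2, ag66.1, ag66.2])
      (by linarith only [ag56.1, ag56.2, ag66.1, ag66.2])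
  have f20 : -(172113 : ℝ) ≤ g66 * (
    -92341 * g66 + 3190849783 / 40000) :=
    bd ag66 (by linarith only [ag66.1, ag66.2])
      (by linarith only [ag66.1, ag66.2])
  have fd : -(567708 : ℝ) ≤
    88130 * d1234 + 4737 * d1235 - 32738 * d1236 + 21435 * d1245 + 28842 * d1246 + 51680 * d1256 + 37535 * d1345 - 70717 * d1346 + 16094 * d1356 - 33368 * d1456 -
    34581 * d2345 - 4953 * d2346 + 28291 * d2356 - 42131 * d2456 + 72476 * d3456 := by
    linarith only [ad1234.1, ad1234.2, ad1235.1, ad1235.2, ad1236.1, ad1236.2, ad1245.1, ad1245.2, ad1246.1, ad1246.2, ad1256.1, ad1256.2, ad1345.1, ad1345.2, ad1346.1, ad1346.2, ad1356.1, ad1356.2, ad1456.1, ad1456.2, ad2345.1, ad2345.2, ad2346.1, ad2346.2, ad2356.1, ad2356.2, ad2456.1, ad2456.2, ad3456.1, ad3456.2]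
  linarith only [f0, f1, f2, f3, f4, f5, f6, f7, f8, f9, f10, f11, f12, f13, f14, f15, f16, f17, f18, f19, f20, fd]

theorem sg02 {g11 g12 g13 g14 g15 g16 g22 g23 g24 g25 g26 g33 g34 g35 g36 g44 g45 g46 g55 g56 g66 : ℝ}
    (hN : ∀ w1 w2 w3 w4 w5 w6 : ℝ, 0 ≤
    w1 * w1 * g11 + 2 * w1 * w2 * g12 + 2 * w1 * w3 * g13 + 2 * w1 * w4 * g14 + 2 * w1 * w5 * g15 + 2 * w1 * w6 * g16 + w2 * w2 * g22 + 2 * w2 * w3 * g23 +
    2 * w2 * w4 * g24 + 2 * w2 * w5 * g25 + 2 * w2 * w6 * g26 + w3 * w3 * g33 + 2 * w3 * w4 * g34 + 2 * w3 * w5 * g35 + 2 * w3 * w6 * g36 + w4 * w4 * g44 +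
    2 * w4 * w5 * g45 + 2 * w4 * w6 * g46 + w5 * w5 * g55 + 2 * w5 * w6 * g56 + w6 * w6 * g66) :
    0 ≤ 554018235 * g11 + 32163356 * g12 - 857742032 * g13 - 611642592 * g14 + 298266296 * g15 + 76501750 * g16 + 753279976 * g22 + 428920928 * g23 - 360287664 * g24 - 604703516 * g25 + 74746804 * g26 + 624242691 * g33 - 64464136 * g34 - 1123157382 * g35 + 98636468 * g36 + 940526224 * g44 + 989779032 * g45 - 846007448 * g46 + 775493001 * g55 - 429834094 * g56 + 230773634 * g66 := by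
  linear_combination hN (-9972) (-5874) (-1051) 30668 16137 (-13793) + hN (-1585) 26810 7769 0 (-7742) (-1628) + hN (-18001) 0 23723 0 (-20422) 2001 + hN 11315 0 0 0 (-6172) (-5820)

theorem sg03 {g11 g12 g13 g14 g15 g16 g22 g23 g24 g25 g26 g33 g34 g35 g36 g44 g45 g46 g55 g56 g66 : ℝ}
    (hN : ∀ w1 w2 w3 w4 w5 w6 : ℝ, 0 ≤
    w1 * w1 * g11 + 2 * w1 * w2 * g12 + 2 * w1 * w3 * g13 + 2 * w1 * w4 * g14 + 2 * w1 * w5 * g15 + 2 * w1 * w6 * g16 + w2 * w2 * g22 + 2 * w2 * w3 * g23 +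
    2 * w2 * w4 * g24 + 2 * w2 * w5 * g25 + 2 * w2 * w6 * g26 + w3 * w3 * g33 + 2 * w3 * w4 * g34 + 2 * w3 * w5 * g35 + 2 * w3 * w6 * g36 + w4 * w4 * g44 +
    2 * w4 * w5 * g45 + 2 * w4 * w6 * g46 + w5 * w5 * g55 + 2 * w5 * w6 * g56 + w6 * w6 * g66) :
    0 ≤ 30780304 * g11 + 18918680 * g12 + 59086200 * g13 - 198285520 * g14 + 193125880 * g15 - 136669432 * g16 + 2907025 * g22 + 18158250 * g23 - 60936700 * g24 + 59351050 * g25 - 42000970 * g26 + 28355625 * g33 - 190315500 * g34 + 185363250 * g35 - 131176050 * g36 + 319336900 * g44 - 622054700 * g45 + 440209580 * g46 + 302934025 * g55 - 428754770 * g56 + 151708489 * g66 := by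
  linear_combination hN (-5548) (-1705) (-5325) 17870 (-17405) 12317

theorem sg04 {g11 g12 g13 g14 g15 g16 g22 g23 g24 g25 g26 g33 g34 g35 g36 g44 g45 g46 g55 g56 g66 : ℝ}
    (hN : ∀ w1 w2 w3 w4 w5 w6 : ℝ, 0 ≤
    w1 * w1 * g11 + 2 * w1 * w2 * g12 + 2 * w1 * w3 * g13 + 2 * w1 * w4 * g14 + 2 * w1 * w5 * g15 + 2 * w1 * w6 * g16 + w2 * w2 * g22 + 2 * w2 * w3 * g23 +
    2 * w2 * w4 * g24 + 2 * w2 * w5 * g25 + 2 * w2 * w6 * g26 + w3 * w3 * g33 + 2 * w3 * w4 * g34 + 2 * w3 * w5 * g35 + 2 * w3 * w6 * g36 + w4 * w4 * g44 +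
    2 * w4 * w5 * g45 + 2 * w4 * w6 * g46 + w5 * w5 * g55 + 2 * w5 * w6 * g56 + w6 * w6 * g66) :
    0 ≤ 151708489 * g11 - 428754770 * g12 + 440209580 * g13 - 131176050 * g14 - 42000970 * g15 - 136669432 * g16 + 302934025 * g22 - 622054700 * g23 + 185363250 * g24 + 59351050 * g25 + 193125880 * g26 + 319336900 * g33 - 190315500 * g34 - 60936700 * g35 - 198285520 * g36 + 28355625 * g44 + 18158250 * g45 + 59086200 * g46 + 2907025 * g55 + 18918680 * g56 + 30780304 * g66 := by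
  linear_combination hN 12317 (-17405) 17870 (-5325) (-1705) (-5548)

theorem sg05 {g11 g12 g13 g14 g15 g16 g22 g23 g24 g25 g26 g33 g34 g35 g36 g44 g45 g46 g55 g56 g66 : ℝ}
    (hN : ∀ w1 w2 w3 w4 w5 w6 : ℝ, 0 ≤
    w1 * w1 * g11 + 2 * w1 * w2 * g12 + 2 * w1 * w3 * g13 + 2 * w1 * w4 * g14 + 2 * w1 * w5 * g15 + 2 * w1 * w6 * g16 + w2 * w2 * g22 + 2 * w2 * w3 * g23 +
    2 * w2 * w4 * g24 + 2 * w2 * w5 * g25 + 2 * w2 * w6 * g26 + w3 * w3 * g33 + 2 * w3 * w4 * g34 + 2 * w3 * w5 * g35 + 2 * w3 * w6 * g36 + w4 * w4 * g44 +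
    2 * w4 * w5 * g45 + 2 * w4 * w6 * g46 + w5 * w5 * g55 + 2 * w5 * w6 * g56 + w6 * w6 * g66) :
    0 ≤ 230773634 * g11 - 429834094 * g12 - 846007448 * g13 + 98636468 * g14 + 74746804 * g15 + 76501750 * g16 + 775493001 * g22 + 989779032 * g23 - 1123157382 * g24 - 604703516 * g25 + 298266296 * g26 + 940526224 * g33 - 64464136 * g34 - 360287664 * g35 - 611642592 * g36 + 624242691 * g44 + 428920928 * g45 - 857742032 * g46 + 753279976 * g55 + 32163356 * g56 + 554018235 * g66 := by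
  linear_combination hN (-13793) 16137 30668 (-1051) (-5874) (-9972) + hN (-1628) (-7742) 0 7769 26810 (-1585) + hN 2001 (-20422) 0 23723 0 (-18001) + hN (-5820) (-6172) 0 0 0 11315

theorem sg13 {g11 g12 g13 g14 g15 g16 g22 g23 g24 g25 g26 g33 g34 g35 g36 g44 g45 g46 g55 g56 g66 : ℝ}
    (hN : ∀ w1 w2 w3 w4 w5 w6 : ℝ, 0 ≤
    w1 * w1 * g11 + 2 * w1 * w2 * g12 + 2 * w1 * w3 * g13 + 2 * w1 * w4 * g14 + 2 * w1 * w5 * g15 + 2 * w1 * w6 * g16 + w2 * w2 * g22 + 2 * w2 * w3 * g23 +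
    2 * w2 * w4 * g24 + 2 * w2 * w5 * g25 + 2 * w2 * w6 * g26 + w3 * w3 * g33 + 2 * w3 * w4 * g34 + 2 * w3 * w5 * g35 + 2 * w3 * w6 * g36 + w4 * w4 * g44 +
    2 * w4 * w5 * g45 + 2 * w4 * w6 * g46 + w5 * w5 * g55 + 2 * w5 * w6 * g56 + w6 * w6 * g66) :
    0 ≤ 509030033 * g11 + 243909714 * g12 - 98070798 * g13 + 534860578 * g14 - 777949562 * g15 - 1085488200 * g16 + 898132005 * g22 - 299230674 * g23 - 822154854 * g24 - 581872074 * g25 - 258502860 * g26 + 316580499 * g33 + 525762574 * g34 - 186018258 * g35 - 566182190 * g36 + 557153269 * g44 - 430503962 * g45 - 1064226060 * g46 + 432576713 * g55 + 1203362520 * g56 + 966277225 * g66 := by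
  linear_combination hN (-17460) (-4158) (-9107) (-17118) 19356 31085 + hN 1663 29679 (-6317) (-16249) (-7091) 0 + hN 14192 0 (-13919) (-312) (-2764) 0

theorem sg14 {g11 g12 g13 g14 g15 g16 g22 g23 g24 g25 g26 g33 g34 g35 g36 g44 g45 g46 g55 g56 g66 : ℝ}
    (hN : ∀ w1 w2 w3 w4 w5 w6 : ℝ, 0 ≤
    w1 * w1 * g11 + 2 * w1 * w2 * g12 + 2 * w1 * w3 * g13 + 2 * w1 * w4 * g14 + 2 * w1 * w5 * g15 + 2 * w1 * w6 * g16 + w2 * w2 * g22 + 2 * w2 * w3 * g23 +
    2 * w2 * w4 * g24 + 2 * w2 * w5 * g25 + 2 * w2 * w6 * g26 + w3 * w3 * g33 + 2 * w3 * w4 * g34 + 2 * w3 * w5 * g35 + 2 * w3 * w6 * g36 + w4 * w4 * g44 +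
    2 * w4 * w5 * g45 + 2 * w4 * w6 * g46 + w5 * w5 * g55 + 2 * w5 * w6 * g56 + w6 * w6 * g66) :
    0 ≤ 430336 * g11 - 5497280 * g12 - 1498304 * g13 - 9180064 * g14 + 18957088 * g15 - 19022688 * g16 + 17556100 * g22 + 9569960 * g23 + 58634860 * g24 - 121082620 * g25 + 121501620 * g26 + 1304164 * g33 + 15981148 * g34 - 33001516 * g35 + 33115716 * g36 + 48958009 * g44 - 202199306 * g45 + 202899006 * g46 + 208773601 * g55 - 418992102 * g56 + 210221001 * g66 := by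
  linear_combination hN (-656) 4190 1142 6997 (-14449) 14499

theorem sg15 {g11 g12 g13 g14 g15 g16 g22 g23 g24 g25 g26 g33 g34 g35 g36 g44 g45 g46 g55 g56 g66 : ℝ}
    (hN : ∀ w1 w2 w3 w4 w5 w6 : ℝ, 0 ≤
    w1 * w1 * g11 + 2 * w1 * w2 * g12 + 2 * w1 * w3 * g13 + 2 * w1 * w4 * g14 + 2 * w1 * w5 * g15 + 2 * w1 * w6 * g16 + w2 * w2 * g22 + 2 * w2 * w3 * g23 +
    2 * w2 * w4 * g24 + 2 * w2 * w5 * g25 + 2 * w2 * w6 * g26 + w3 * w3 * g33 + 2 * w3 * w4 * g34 + 2 * w3 * w5 * g35 + 2 * w3 * w6 * g36 + w4 * w4 * g44 +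
    2 * w4 * w5 * g45 + 2 * w4 * w6 * g46 + w5 * w5 * g55 + 2 * w5 * w6 * g56 + w6 * w6 * g66) :
    0 ≤ 2663424 * g11 - 44367552 * g12 + 53013888 * g13 - 43509120 * g14 + 3623040 * g15 + 13388928 * g16 + 184769649 * g22 - 441555012 * g23 + 362389380 * g24 - 30176460 * g25 - 111516972 * g26 + 263802564 * g33 - 433011720 * g34 + 36057240 * g35 + 133249368 * g36 + 177688900 * g44 - 29592600 * g45 - 109359320 * g46 + 1232100 * g55 + 9106440 * g56 + 16826404 * g66 := by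
  linear_combination hN 1632 (-13593) 16242 (-13330) 1110 4102

theorem sg16 {g11 g12 g13 g14 g15 g16 g22 g23 g24 g25 g26 g33 g34 g35 g36 g44 g45 g46 g55 g56 g66 : ℝ}
    (hN : ∀ w1 w2 w3 w4 w5 w6 : ℝ, 0 ≤
    w1 * w1 * g11 + 2 * w1 * w2 * g12 + 2 * w1 * w3 * g13 + 2 * w1 * w4 * g14 + 2 * w1 * w5 * g15 + 2 * w1 * w6 * g16 + w2 * w2 * g22 + 2 * w2 * w3 * g23 +
    2 * w2 * w4 * g24 + 2 * w2 * w5 * g25 + 2 * w2 * w6 * g26 + w3 * w3 * g33 + 2 * w3 * w4 * g34 + 2 * w3 * w5 * g35 + 2 * w3 * w6 * g36 + w4 * w4 * g44 +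
    2 * w4 * w5 * g45 + 2 * w4 * w6 * g46 + w5 * w5 * g55 + 2 * w5 * w6 * g56 + w6 * w6 * g66) :
    0 ≤ 746736068 * g11 + 541074920 * g12 + 303908016 * g13 - 808556052 * g14 - 404920036 * g15 - 1303340896 * g16 + 104370437 * g22 + 7424502 * g23 - 368854764 * g24 - 111232772 * g25 - 404916668 * g26 + 445575161 * g33 + 448650256 * g34 - 368853352 * g35 - 808576340 * g36 + 445565369 * g44 + 7417754 * g45 + 303865120 * g46 + 104365441 * g55 + 541054800 * g56 + 746710276 * g66 := by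
  linear_combination hN (-23848) (-7409) (-14795) 5560 9900 27326 + hN (-13342) (-7034) 15056 20363 (-2521) 0

theorem sg24 {g11 g12 g13 g14 g15 g16 g22 g23 g24 g25 g26 g33 g34 g35 g36 g44 g45 g46 g55 g56 g66 : ℝ}
    (hN : ∀ w1 w2 w3 w4 w5 w6 : ℝ, 0 ≤
    w1 * w1 * g11 + 2 * w1 * w2 * g12 + 2 * w1 * w3 * g13 + 2 * w1 * w4 * g14 + 2 * w1 * w5 * g15 + 2 * w1 * w6 * g16 + w2 * w2 * g22 + 2 * w2 * w3 * g23 +
    2 * w2 * w4 * g24 + 2 * w2 * w5 * g25 + 2 * w2 * w6 * g26 + w3 * w3 * g33 + 2 * w3 * w4 * g34 + 2 * w3 * w5 * g35 + 2 * w3 * w6 * g36 + w4 * w4 * g44 +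
    2 * w4 * w5 * g45 + 2 * w4 * w6 * g46 + w5 * w5 * g55 + 2 * w5 * w6 * g56 + w6 * w6 * g66) :
    0 ≤ 40461329 * g11 + 84005454 * g12 - 222949534 * g13 + 130560498 * g14 + 154017716 * g15 - 78564180 * g16 + 285761669 * g22 + 28239814 * g23 + 386781826 * g24 + 606889292 * g25 - 546009200 * g26 + 1191837529 * g33 - 55029662 * g34 - 674855604 * g35 - 757434620 * g36 + 179352459 * g44 + 429274928 * g45 - 443270036 * g46 + 426552712 * g55 - 360234124 * g56 + 421989278 * g66 := by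
  linear_combination hN (-3229) 409 34523 (-797) (-9774) (-10970) + hN 2498 16898 0 11369 18194 (-15793) + hN (-4878) (-228) 0 (-7033) 0 7227

theorem sg25 {g11 g12 g13 g14 g15 g16 g22 g23 g24 g25 g26 g33 g34 g35 g36 g44 g45 g46 g55 g56 g66 : ℝ}
    (hN : ∀ w1 w2 w3 w4 w5 w6 : ℝ, 0 ≤
    w1 * w1 * g11 + 2 * w1 * w2 * g12 + 2 * w1 * w3 * g13 + 2 * w1 * w4 * g14 + 2 * w1 * w5 * g15 + 2 * w1 * w6 * g16 + w2 * w2 * g22 + 2 * w2 * w3 * g23 +
    2 * w2 * w4 * g24 + 2 * w2 * w5 * g25 + 2 * w2 * w6 * g26 + w3 * w3 * g33 + 2 * w3 * w4 * g34 + 2 * w3 * w5 * g35 + 2 * w3 * w6 * g36 + w4 * w4 * g44 +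
    2 * w4 * w5 * g45 + 2 * w4 * w6 * g46 + w5 * w5 * g55 + 2 * w5 * w6 * g56 + w6 * w6 * g66) :
    0 ≤ 137288089 * g11 - 56546242 * g12 - 26785062 * g13 - 26785062 * g14 - 56546242 * g15 + 274576178 * g16 + 5822569 * g22 + 5516118 * g23 + 5516118 * g24 + 11645138 * g25 - 56546242 * g26 + 1306449 * g33 + 2612898 * g34 + 5516118 * g35 - 26785062 * g36 + 1306449 * g44 + 5516118 * g45 - 26785062 * g46 + 5822569 * g55 - 56546242 * g56 + 137288089 * g66 := by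
  linear_combination hN 11717 (-2413) (-1143) (-1143) (-2413) 11717

theorem sg26 {g11 g12 g13 g14 g15 g16 g22 g23 g24 g25 g26 g33 g34 g35 g36 g44 g45 g46 g55 g56 g66 : ℝ}
    (hN : ∀ w1 w2 w3 w4 w5 w6 : ℝ, 0 ≤
    w1 * w1 * g11 + 2 * w1 * w2 * g12 + 2 * w1 * w3 * g13 + 2 * w1 * w4 * g14 + 2 * w1 * w5 * g15 + 2 * w1 * w6 * g16 + w2 * w2 * g22 + 2 * w2 * w3 * g23 +
    2 * w2 * w4 * g24 + 2 * w2 * w5 * g25 + 2 * w2 * w6 * g26 + w3 * w3 * g33 + 2 * w3 * w4 * g34 + 2 * w3 * w5 * g35 + 2 * w3 * w6 * g36 + w4 * w4 * g44 +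
    2 * w4 * w5 * g45 + 2 * w4 * w6 * g46 + w5 * w5 * g55 + 2 * w5 * w6 * g56 + w6 * w6 * g66) :
    0 ≤ 16826404 * g11 + 9106440 * g12 - 109359320 * g13 + 133249368 * g14 - 111516972 * g15 + 13388928 * g16 + 1232100 * g22 - 29592600 * g23 + 36057240 * g24 - 30176460 * g25 + 3623040 * g26 + 177688900 * g33 - 433011720 * g34 + 362389380 * g35 - 43509120 * g36 + 263802564 * g44 - 441555012 * g45 + 53013888 * g46 + 184769649 * g55 - 44367552 * g56 + 2663424 * g66 := by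
  linear_combination hN 4102 1110 (-13330) 16242 (-13593) 1632

theorem sg35 {g11 g12 g13 g14 g15 g16 g22 g23 g24 g25 g26 g33 g34 g35 g36 g44 g45 g46 g55 g56 g66 : ℝ}
    (hN : ∀ w1 w2 w3 w4 w5 w6 : ℝ, 0 ≤
    w1 * w1 * g11 + 2 * w1 * w2 * g12 + 2 * w1 * w3 * g13 + 2 * w1 * w4 * g14 + 2 * w1 * w5 * g15 + 2 * w1 * w6 * g16 + w2 * w2 * g22 + 2 * w2 * w3 * g23 +
    2 * w2 * w4 * g24 + 2 * w2 * w5 * g25 + 2 * w2 * w6 * g26 + w3 * w3 * g33 + 2 * w3 * w4 * g34 + 2 * w3 * w5 * g35 + 2 * w3 * w6 * g36 + w4 * w4 * g44 +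
    2 * w4 * w5 * g45 + 2 * w4 * w6 * g46 + w5 * w5 * g55 + 2 * w5 * w6 * g56 + w6 * w6 * g66) :
    0 ≤ 421989278 * g11 - 360234124 * g12 - 443270036 * g13 - 757434620 * g14 - 546009200 * g15 - 78564180 * g16 + 426552712 * g22 + 429274928 * g23 - 674855604 * g24 + 606889292 * g25 + 154017716 * g26 + 179352459 * g33 - 55029662 * g34 + 386781826 * g35 + 130560498 * g36 + 1191837529 * g44 + 28239814 * g45 - 222949534 * g46 + 285761669 * g55 + 84005454 * g56 + 40461329 * g66 := by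
  linear_combination hN (-10970) (-9774) (-797) 34523 409 (-3229) + hN (-15793) 18194 11369 0 16898 2498 + hN 7227 0 (-7033) 0 (-228) (-4878)

theorem sg36 {g11 g12 g13 g14 g15 g16 g22 g23 g24 g25 g26 g33 g34 g35 g36 g44 g45 g46 g55 g56 g66 : ℝ}
    (hN : ∀ w1 w2 w3 w4 w5 w6 : ℝ, 0 ≤
    w1 * w1 * g11 + 2 * w1 * w2 * g12 + 2 * w1 * w3 * g13 + 2 * w1 * w4 * g14 + 2 * w1 * w5 * g15 + 2 * w1 * w6 * g16 + w2 * w2 * g22 + 2 * w2 * w3 * g23 +
    2 * w2 * w4 * g24 + 2 * w2 * w5 * g25 + 2 * w2 * w6 * g26 + w3 * w3 * g33 + 2 * w3 * w4 * g34 + 2 * w3 * w5 * g35 + 2 * w3 * w6 * g36 + w4 * w4 * g44 +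
    2 * w4 * w5 * g45 + 2 * w4 * w6 * g46 + w5 * w5 * g55 + 2 * w5 * w6 * g56 + w6 * w6 * g66) :
    0 ≤ 210221001 * g11 - 418992102 * g12 + 202899006 * g13 + 33115716 * g14 + 121501620 * g15 - 19022688 * g16 + 208773601 * g22 - 202199306 * g23 - 33001516 * g24 - 121082620 * g25 + 18957088 * g26 + 48958009 * g33 + 15981148 * g34 + 58634860 * g35 - 9180064 * g36 + 1304164 * g44 + 9569960 * g45 - 1498304 * g46 + 17556100 * g55 - 5497280 * g56 + 430336 * g66 := by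
  linear_combination hN 14499 (-14449) 6997 1142 4190 (-656)

theorem sg46 {g11 g12 g13 g14 g15 g16 g22 g23 g24 g25 g26 g33 g34 g35 g36 g44 g45 g46 g55 g56 g66 : ℝ}
    (hN : ∀ w1 w2 w3 w4 w5 w6 : ℝ, 0 ≤
    w1 * w1 * g11 + 2 * w1 * w2 * g12 + 2 * w1 * w3 * g13 + 2 * w1 * w4 * g14 + 2 * w1 * w5 * g15 + 2 * w1 * w6 * g16 + w2 * w2 * g22 + 2 * w2 * w3 * g23 +
    2 * w2 * w4 * g24 + 2 * w2 * w5 * g25 + 2 * w2 * w6 * g26 + w3 * w3 * g33 + 2 * w3 * w4 * g34 + 2 * w3 * w5 * g35 + 2 * w3 * w6 * g36 + w4 * w4 * g44 +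
    2 * w4 * w5 * g45 + 2 * w4 * w6 * g46 + w5 * w5 * g55 + 2 * w5 * w6 * g56 + w6 * w6 * g66) :
    0 ≤ 966277225 * g11 + 1203362520 * g12 - 1064226060 * g13 - 566182190 * g14 - 258502860 * g15 - 1085488200 * g16 + 432576713 * g22 - 430503962 * g23 - 186018258 * g24 - 581872074 * g25 - 777949562 * g26 + 557153269 * g33 + 525762574 * g34 - 822154854 * g35 + 534860578 * g36 + 316580499 * g44 - 299230674 * g45 - 98070798 * g46 + 898132005 * g55 + 243909714 * g56 + 509030033 * g66 := by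
  linear_combination hN 31085 19356 (-17118) (-9107) (-4158) (-17460) + hN 0 (-7091) (-16249) (-6317) 29679 1663 + hN 0 (-2764) (-312) (-13919) 0 14192

theorem sgW {g11 g12 g13 g14 g15 g16 g22 g23 g24 g25 g26 g33 g34 g35 g36 g44 g45 g46 g55 g56 g66 : ℝ}
    (hN : ∀ w1 w2 w3 w4 w5 w6 : ℝ, 0 ≤
    w1 * w1 * g11 + 2 * w1 * w2 * g12 + 2 * w1 * w3 * g13 + 2 * w1 * w4 * g14 + 2 * w1 * w5 * g15 + 2 * w1 * w6 * g16 + w2 * w2 * g22 + 2 * w2 * w3 * g23 +
    2 * w2 * w4 * g24 + 2 * w2 * w5 * g25 + 2 * w2 * w6 * g26 + w3 * w3 * g33 + 2 * w3 * w4 * g34 + 2 * w3 * w5 * g35 + 2 * w3 * w6 * g36 + w4 * w4 * g44 +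
    2 * w4 * w5 * g45 + 2 * w4 * w6 * g46 + w5 * w5 * g55 + 2 * w5 * w6 * g56 + w6 * w6 * g66) :
    0 ≤ 97377424 * g11 - 124849936 * g12 + 75036272 * g13 - 11762656 * g14 - 42017944 * g15 + 141112400 * g16 + 52706120 * g22 - 82746916 * g23 + 51310448 * g24 - 22511576 * g25 - 42018600 * g26 + 38103973 * g33 - 64288528 * g34 + 51319250 * g35 - 11768200 * g36 + 38103952 * g44 - 82753240 * g45 + 75035600 * g46 + 52710122 * g55 - 124842300 * g56 + 97362500 * g66 := by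
  linear_combination hN 9868 (-6326) 3802 (-596) (-2129) 7150 + hN 0 (-3562) 4863 (-6144) 6941 (-6800)

theorem alg {g11 g12 g13 g14 g15 g16 g22 g23 g24 g25 g26 g33 g34 g35 g36 g44 g45 g46 g55 g56 g66 d1234 d1235 d1236 d1245 d1246 d1256 d1345 d1346 d1356 d1456 d2345 d2346 d2356 d2456 d3456 : ℝ}
    (ag11 : -1 ≤ g11 ∧ g11 ≤ 1) (ag12 : -1 ≤ g12 ∧ g12 ≤ 1) (ag13 : -1 ≤ g13 ∧ g13 ≤ 1) (ag14 : -1 ≤ g14 ∧ g14 ≤ 1) (ag15 : -1 ≤ g15 ∧ g15 ≤ 1) (ag16 : -1 ≤ g16 ∧ g16 ≤ 1) (ag22 : -1 ≤ g22 ∧ g22 ≤ 1) (ag23 : -1 ≤ g23 ∧ g23 ≤ 1) (ag24 : -1 ≤ g24 ∧ g24 ≤ 1) (ag25 : -1 ≤ g25 ∧ g25 ≤ 1) (ag26 : -1 ≤ g26 ∧ g26 ≤ 1) (ag33 : -1 ≤ g33 ∧ g33 ≤ 1) (ag34 : -1 ≤ g34 ∧ g34 ≤ 1) (ag35 : -1 ≤ g35 ∧ g35 ≤ 1) (ag36 : -1 ≤ g36 ∧ g36 ≤ 1) (ag44 : -1 ≤ g44 ∧ g44 ≤ 1) (ag45 : -1 ≤ g45 ∧ g45 ≤ 1) (ag46 : -1 ≤ g46 ∧ g46 ≤ 1) (ag55 : -1 ≤ g55 ∧ g55 ≤ 1) (ag56 : -1 ≤ g56 ∧ g56 ≤ 1) (ag66 : -1 ≤ g66 ∧ g66 ≤ 1)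
    (ad1234 : -1 ≤ d1234 ∧ d1234 ≤ 1) (ad1235 : -1 ≤ d1235 ∧ d1235 ≤ 1) (ad1236 : -1 ≤ d1236 ∧ d1236 ≤ 1) (ad1245 : -1 ≤ d1245 ∧ d1245 ≤ 1) (ad1246 : -1 ≤ d1246 ∧ d1246 ≤ 1) (ad1256 : -1 ≤ d1256 ∧ d1256 ≤ 1) (ad1345 : -1 ≤ d1345 ∧ d1345 ≤ 1) (ad1346 : -1 ≤ d1346 ∧ d1346 ≤ 1) (ad1356 : -1 ≤ d1356 ∧ d1356 ≤ 1) (ad1456 : -1 ≤ d1456 ∧ d1456 ≤ 1) (ad2345 : -1 ≤ d2345 ∧ d2345 ≤ 1) (ad2346 : -1 ≤ d2346 ∧ d2346 ≤ 1) (ad2356 : -1 ≤ d2356 ∧ d2356 ≤ 1) (ad2456 : -1 ≤ d2456 ∧ d2456 ≤ 1) (ad3456 : -1 ≤ d3456 ∧ d3456 ≤ 1)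
    (e01 : g11 ≤ 0.810775) (e02 : g22 ≤ 0.810775) (e03 : g33 ≤ 0.810775) (e04 : g44 ≤ 0.810775) (e05 : g55 ≤ 0.810775) (e06 : g66 ≤ 0.810775) (e12 : (g11 + g22 - 2 * g12) ≤ 1) (e13 : (g11 + g33 - 2 * g13) ≤ 1) (e14 : (g11 + g44 - 2 * g14) ≤ 1) (e15 : (g11 + g55 - 2 * g15) ≤ 1) (e16 : (g11 + g66 - 2 * g16) ≤ 1) (e23 : (g22 + g33 - 2 * g23) ≤ 1) (e24 : (g22 + g44 - 2 * g24) ≤ 1) (e25 : (g22 + g55 - 2 * g25) ≤ 1) (e26 : (g22 + g66 - 2 * g26) ≤ 1) (e34 : (g33 + g44 - 2 * g34) ≤ 1) (e35 : (g33 + g55 - 2 * g35) ≤ 1) (e36 : (g33 + g66 - 2 * g36) ≤ 1) (e45 : (g44 + g55 - 2 * g45) ≤ 1) (e46 : (g44 + g66 - 2 * g46) ≤ 1) (e56 : (g55 + g66 - 2 * g56) ≤ 1)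
    (hW : g11 + g22 + g33 + g44 + g55 + g66 + (g11 + g22 - 2 * g12) + (g11 + g33 - 2 * g13) + (g11 + g44 - 2 * g14) + (g11 + g55 - 2 * g15) + (g11 + g66 - 2 * g16) + (g22 + g33 - 2 * g23) + (g22 + g44 - 2 * g24) + (g22 + g55 - 2 * g25) + (g22 + g66 - 2 * g26) + (g33 + g44 - 2 * g34) + (g33 + g55 - 2 * g35) + (g33 + g66 - 2 * g36) + (g44 + g55 - 2 * g45) + (g44 + g66 - 2 * g46) + (g55 + g66 - 2 * g56) ≤ 19)
    (hN : ∀ w1 w2 w3 w4 w5 w6 : ℝ, 0 ≤
    w1 * w1 * g11 + 2 * w1 * w2 * g12 + 2 * w1 * w3 * g13 + 2 * w1 * w4 * g14 + 2 * w1 * w5 * g15 + 2 * w1 * w6 * g16 + w2 * w2 * g22 + 2 * w2 * w3 * g23 +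
    2 * w2 * w4 * g24 + 2 * w2 * w5 * g25 + 2 * w2 * w6 * g26 + w3 * w3 * g33 + 2 * w3 * w4 * g34 + 2 * w3 * w5 * g35 + 2 * w3 * w6 * g36 + w4 * w4 * g44 +
    2 * w4 * w5 * g45 + 2 * w4 * w6 * g46 + w5 * w5 * g55 + 2 * w5 * w6 * g56 + w6 * w6 * g66)
    (hB : 0 ≤
    5468106591 * g11 * g22 - 5468106591 * g12 * g12 - 1147290920 * g11 * g23 + 1147290920 * g12 * g13 + 521413930 * g11 * g24 - 521413930 * g12 * g14 -
    1438177336 * g11 * g25 + 1438177336 * g12 * g15 + 1825367824 * g11 * g26 - 1825367824 * g12 * g16 + 8951731438 * g12 * g23 - 8951731438 * g13 * g22 -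
    475302522 * g12 * g24 + 475302522 * g14 * g22 + 1810302642 * g12 * g25 - 1810302642 * g15 * g22 - 1334464158 * g12 * g26 + 1334464158 * g16 * g22 +
    5529255600 * g13 * g24 - 4322892114 * g14 * g23 - 20000176260 * d1234 + 250679766 * g13 * g25 + 3535283970 * g15 * g23 - 9474 * d1235 + 2758795032 * g13 * g26 -
    4130643922 * g16 * g23 + 65476 * d1236 + 6365272824 * g14 * g25 - 3832352350 * g15 * g24 - 20000042870 * d1245 - 2169293468 * g14 * g26 + 2978086780 * g16 * g24 -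
    57684 * d1246 + 1137147196 * g15 * g26 - 8897826278 * g16 * g25 - 20000103360 * d1256 + 3219250750 * g11 * g33 - 3219250750 * g13 * g13 - 125002616 * g11 * g34 +
    125002616 * g13 * g14 - 2949912280 * g11 * g35 + 2949912280 * g13 * g15 - 2880331076 * g11 * g36 + 2880331076 * g13 * g16 - 1089932422 * g12 * g33 +
    1089932422 * g13 * g23 - 1206363486 * g12 * g34 - 3785963736 * g12 * g35 + 1371848890 * g12 * g36 - 1323032240 * g13 * g34 + 1323032240 * g14 * g33 +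
    3860951184 * g13 * g35 - 3860951184 * g15 * g33 + 3736788418 * g13 * g36 - 3736788418 * g16 * g33 + 1800653010 * g14 * g35 + 1552810228 * g15 * g34 -
    75070 * d1345 - 6182435374 * g14 * g36 - 547739040 * g16 * g34 + 141434 * d1346 - 2169176196 * g15 * g36 + 2977983940 * g16 * g35 - 32188 * d1356 +
    3462549472 * g11 * g44 - 3462549472 * g14 * g14 + 297216380 * g11 * g45 - 297216380 * g14 * g15 - 5468184984 * g11 * g46 + 5468184984 * g14 * g16 +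
    390708488 * g12 * g44 - 390708488 * g14 * g24 - 2532920474 * g12 * g45 - 808793312 * g12 * g46 - 580828952 * g13 * g44 + 580828952 * g14 * g34 - 3353463238 * g13 * g45 +
    6730174414 * g13 * g46 + 2047017148 * g14 * g45 - 2047017148 * g15 * g44 + 3736832992 * g14 * g46 - 3736832992 * g16 * g44 + 2758776010 * g15 * g46 -
    4130598162 * g16 * g45 + 66736 * d1456 + 1156084338 * g11 * g55 - 1156084338 * g15 * g15 - 40436164 * g11 * g56 + 40436164 * g15 * g16 - 297830874 * g12 * g55 +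
    297830874 * g15 * g25 + 7760679082 * g12 * g56 - 2552876396 * g13 * g55 + 2552876396 * g15 * g35 - 808807744 * g13 * g56 - 1614539818 * g14 * g55 +
    1614539818 * g15 * g45 + 1371822152 * g14 * g56 - 1334509146 * g15 * g56 + 1334509146 * g16 * g55 + 4107318812 * g11 * g66 - 4107318812 * g16 * g16 -
    40467884 * g12 * g66 + 40467884 * g16 * g26 - 5468184878 * g13 * g66 + 5468184878 * g16 * g36 - 2880291290 * g14 * g66 + 2880291290 * g16 * g46 + 1825368902 * g15 * g66 -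
    1825368902 * g16 * g56 + 5205236230 * g22 * g33 - 5205236230 * g23 * g23 - 1090183718 * g22 * g34 + 1090183718 * g23 * g24 - 1009002128 * g22 * g35 +
    1009002128 * g23 * g25 - 1614534176 * g22 * g36 + 1614534176 * g23 * g26 + 8253970978 * g23 * g34 - 8253970978 * g24 * g33 - 835900348 * g23 * g35 +
    835900348 * g25 * g33 + 2047012218 * g23 * g36 - 2047012218 * g26 * g33 + 3884792602 * g24 * g35 - 3127210890 * g25 * g34 - 19999930838 * d2345 + 1800623054 * g24 * g36 +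
    1552785164 * g26 * g34 + 9906 * d2346 + 6365304832 * g25 * g36 - 3832375210 * g26 * g35 - 20000056582 * d2356 + 3565541510 * g22 * g44 - 3565541510 * g24 * g24 +
    97777456 * g22 * g45 - 97777456 * g24 * g25 - 2552848936 * g22 * g46 + 2552848936 * g24 * g26 - 1130658606 * g23 * g44 + 1130658606 * g24 * g34 - 757581712 * g23 * g45 -
    3353408218 * g23 * g46 - 835947098 * g24 * g45 + 835947098 * g25 * g44 + 3860903246 * g24 * g46 - 3860903246 * g26 * g44 + 250583278 * g25 * g46 +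
    3535379082 * g26 * g45 + 84262 * d2456 + 5138196821 * g22 * g55 - 5138196821 * g25 * g25 - 297830874 * g22 * g56 + 297830874 * g25 * g26 + 97777456 * g23 * g55 -
    97777456 * g25 * g35 - 2532929622 * g23 * g56 - 1009002128 * g24 * g55 + 1009002128 * g25 * g45 - 3785962360 * g24 * g56 + 1810302642 * g25 * g56 -
    1810302642 * g26 * g55 + 1156068151 * g22 * g66 - 1156068151 * g26 * g26 + 297198928 * g23 * g66 - 297198928 * g26 * g36 - 2949845454 * g24 * g66 +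
    2949845454 * g26 * g46 - 1438145856 * g25 * g66 + 1438145856 * g26 * g56 + 5499853921 * g33 * g44 - 5499853921 * g34 * g34 - 1130658606 * g33 * g45 +
    1130658606 * g34 * g35 - 580828952 * g33 * g46 + 580828952 * g34 * g36 + 8253970978 * g34 * g45 - 8253970978 * g35 * g44 - 1323032240 * g34 * g46 +
    1323032240 * g36 * g44 + 5529277734 * g35 * g46 - 4322901288 * g36 * g45 - 20000144952 * d3456 + 3565588784 * g33 * g55 - 3565588784 * g35 * g35 +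
    390674146 * g33 * g56 - 390674146 * g35 * g36 - 1090161486 * g34 * g55 + 1090161486 * g35 * g45 - 1206376446 * g34 * g56 - 475199434 * g35 * g56 +
    475199434 * g36 * g55 + 3462517786 * g33 * g66 - 3462517786 * g36 * g36 - 124981180 * g34 * g66 + 124981180 * g36 * g46 + 521463476 * g35 * g66 - 521463476 * g36 * g56 +
    5205217514 * g44 * g55 - 5205217514 * g45 * g45 - 1089930724 * g44 * g56 + 1089930724 * g45 * g46 + 8951748568 * g45 * g56 - 8951748568 * g46 * g55 +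
    3219212445 * g44 * g66 - 3219212445 * g46 * g46 - 1147361048 * g45 * g66 + 1147361048 * g46 * g56 + 5468105338 * g55 * g66 - 5468105338 * g56 * g56) :
    d3456 + d2356 + d1256 + d2345 + d1245 + d1234 ≤ 0.94 := by
  have hA := a0 g11 g12 g13 g14 g15 g16 g22 g23 g24 g25 g26 g33 g34 g35 g36 g44 g45 g46 g55 g56 g66
  have hE := eb ag11 ag12 ag13 ag14 ag15 ag16 ag22 ag23 ag24 ag25 ag26 ag33 ag34 ag35 ag36 ag44 ag45 ag46 ag55 ag56 ag66 ad1234 ad1235 ad1236 ad1245 ad1246 ad1256 ad1345 ad1346 ad1356 ad1456 ad2345 ad2346 ad2356 ad2456 ad3456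
  have t02 := mul_nonneg (sub_nonneg.2 e02) (sg02 hN)
  have t03 := mul_nonneg (sub_nonneg.2 e03) (sg03 hN)
  have t04 := mul_nonneg (sub_nonneg.2 e04) (sg04 hN)
  have t05 := mul_nonneg (sub_nonneg.2 e05) (sg05 hN)
  have t13 := mul_nonneg (sub_nonneg.2 e13) (sg13 hN)
  have t14 := mul_nonneg (sub_nonneg.2 e14) (sg14 hN)
  have t15 := mul_nonneg (sub_nonneg.2 e15) (sg15 hN)
  have t16 := mul_nonneg (sub_nonneg.2 e16) (sg16 hN)
  have t24 := mul_nonneg (sub_nonneg.2 e24) (sg24 hN)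
  have t25 := mul_nonneg (sub_nonneg.2 e25) (sg25 hN)
  have t26 := mul_nonneg (sub_nonneg.2 e26) (sg26 hN)
  have t35 := mul_nonneg (sub_nonneg.2 e35) (sg35 hN)
  have t36 := mul_nonneg (sub_nonneg.2 e36) (sg36 hN)
  have t46 := mul_nonneg (sub_nonneg.2 e46) (sg46 hN)
  have tW := mul_nonneg (sub_nonneg.2 hW) (sgW hN)
  have y01_24 := mul_nonneg (sub_nonneg.2 e01) (sub_nonneg.2 e24)
  have y01_26 := mul_nonneg (sub_nonneg.2 e01) (sub_nonneg.2 e26)
  have y01_46 := mul_nonneg (sub_nonneg.2 e01) (sub_nonneg.2 e46)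
  have y02_03 := mul_nonneg (sub_nonneg.2 e02) (sub_nonneg.2 e03)
  have y02_34 := mul_nonneg (sub_nonneg.2 e02) (sub_nonneg.2 e34)
  have y02_56 := mul_nonneg (sub_nonneg.2 e02) (sub_nonneg.2 e56)
  have y03_12 := mul_nonneg (sub_nonneg.2 e03) (sub_nonneg.2 e12)
  have y03_15 := mul_nonneg (sub_nonneg.2 e03) (sub_nonneg.2 e15)
  have y03_25 := mul_nonneg (sub_nonneg.2 e03) (sub_nonneg.2 e25)
  have y03_36 := mul_nonneg (sub_nonneg.2 e03) (sub_nonneg.2 e36)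
  have y04_05 := mul_nonneg (sub_nonneg.2 e04) (sub_nonneg.2 e05)
  have y04_14 := mul_nonneg (sub_nonneg.2 e04) (sub_nonneg.2 e14)
  have y04_25 := mul_nonneg (sub_nonneg.2 e04) (sub_nonneg.2 e25)
  have y04_26 := mul_nonneg (sub_nonneg.2 e04) (sub_nonneg.2 e26)
  have y04_56 := mul_nonneg (sub_nonneg.2 e04) (sub_nonneg.2 e56)
  have y05_12 := mul_nonneg (sub_nonneg.2 e05) (sub_nonneg.2 e12)
  have y05_34 := mul_nonneg (sub_nonneg.2 e05) (sub_nonneg.2 e34)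
  have y06_13 := mul_nonneg (sub_nonneg.2 e06) (sub_nonneg.2 e13)
  have y06_15 := mul_nonneg (sub_nonneg.2 e06) (sub_nonneg.2 e15)
  have y06_35 := mul_nonneg (sub_nonneg.2 e06) (sub_nonneg.2 e35)
  have y12_35 := mul_nonneg (sub_nonneg.2 e12) (sub_nonneg.2 e35)
  have y13_45 := mul_nonneg (sub_nonneg.2 e13) (sub_nonneg.2 e45)
  have y14_15 := mul_nonneg (sub_nonneg.2 e14) (sub_nonneg.2 e15)
  have y14_23 := mul_nonneg (sub_nonneg.2 e14) (sub_nonneg.2 e23)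
  have y14_36 := mul_nonneg (sub_nonneg.2 e14) (sub_nonneg.2 e36)
  have y15_25 := mul_nonneg (sub_nonneg.2 e15) (sub_nonneg.2 e25)
  have y16_23 := mul_nonneg (sub_nonneg.2 e16) (sub_nonneg.2 e23)
  have y16_45 := mul_nonneg (sub_nonneg.2 e16) (sub_nonneg.2 e45)
  have y23_46 := mul_nonneg (sub_nonneg.2 e23) (sub_nonneg.2 e46)
  have y24_56 := mul_nonneg (sub_nonneg.2 e24) (sub_nonneg.2 e56)
  have y25_26 := mul_nonneg (sub_nonneg.2 e25) (sub_nonneg.2 e26)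
  have y26_36 := mul_nonneg (sub_nonneg.2 e26) (sub_nonneg.2 e36)
  have y36_45 := mul_nonneg (sub_nonneg.2 e36) (sub_nonneg.2 e45)
  have key : 10000000000 * (d3456 + d2356 + d1256 + d2345 + d1245 + d1234) ≤ 9333964283 := by
    linear_combination
      hA + (1/2) * hB + hE + t02 + t03 + t04 + t05 + t13 + t14 + t15 + t16 + t24 + t25 + t26 + t35 + t36 + t46 + tW + 486908089 * y01_24 + 940389298 * y01_26 +
      213940715 * y01_46 + 153505933 * y02_03 + 331750085 * y02_34 + 136703109 * y02_56 + 639099038 * y03_12 + 114431718 * y03_15 + 231319417 * y03_25 +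
      590489583 * y03_36 + 153505929 * y04_05 + 590489582 * y04_14 + 231319421 * y04_25 + 114431719 * y04_26 + 639099031 * y04_56 + 136703108 * y05_12 +
      331750088 * y05_34 + 213940712 * y06_13 + 940389298 * y06_15 + 486908087 * y06_35 + 286492883 * y12_35 + 305070968 * y13_45 + 31747385 * y14_15 +
      416193279 * y14_23 + 216493234 * y14_36 + 228437890 * y15_25 + 196127532 * y16_23 + 196127531 * y16_45 + 305070968 * y23_46 + 286492882 * y24_56 +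
      228437890 * y25_26 + 31747386 * y26_36 + 416193274 * y36_45
  linarith only [key]

end Pool.Agent.Helper89.Vol5.PkPFB
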